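import Mathlib

/-!
Forms in three variables: gradients, difference quotients, and the cross product of the gradients.
-/

set_option autoImplicit false

open Filter Topology Metric Set MvPolynomial

namespace Pool.Agent.H915

/-- vectors -/
abbrev V : Type := Fin 3 → ℂ

/-- polynomials -/
abbrev Poly : Type := MvPolynomial (Fin 3) ℂ

/-- the gradient -/
noncomputable def grad (P : Poly) (x : V) : V := fun i => eval x (pderiv i P)

/-- the cross product -/
def cr (a b : V) : V := ![a 1 * b 2 - a 2 * b 1, a 2 * b 0 - a 0 * b 2, a 0 * b 1 - a 1 * b 0]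

/-- the bilinear product -/
def dp (a b : V) : ℂ := a 0 * b 0 + a 1 * b 1 + a 2 * b 2

@[simp] theorem cr_0 (a b : V) : cr a b 0 = a 1 * b 2 - a 2 * b 1 := rfl
@[simp] theorem cr_1 (a b : V) : cr a b 1 = a 2 * b 0 - a 0 * b 2 := rfl
@[simp] theorem cr_2 (a b : V) : cr a b 2 = a 0 * b 1 - a 1 * b 0 := rfl

theorem v_ext {a b : V} (h0 : a 0 = b 0) (h1 : a 1 = b 1) (h2 : a 2 = b 2) : a = b := by
  funext i
  fin_cases i
  · exact h0
  · exact h1
  · exact h2

theorem dp_cr_self_left (a b : V) : dp a (cr a b) = 0 := by
  simp only [dp, cr_0, cr_1, cr_2]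
  ring

theorem dp_cr_self_right (a b : V) : dp b (cr a b) = 0 := by
  simp only [dp, cr_0, cr_1, cr_2]
  ring

/-- vectors orthogonal to `a` and `b` are parallel to the cross product -/
theorem par_of_dp {a b u : V} (ha : dp a u = 0) (hb : dp b u = 0) (i j : Fin 3) :
    u i * cr a b j = u j * cr a b i := by
  have ha' : a 0 * u 0 + a 1 * u 1 + a 2 * u 2 = 0 := ha
  have hb' : b 0 * u 0 + b 1 * u 1 + b 2 * u 2 = 0 := hb
  have h01 : u 0 * cr a b 1 = u 1 * cr a b 0 := by
    simp only [cr_0, cr_1]
    linear_combination b 2 * (-ha') + a 2 * hb'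
  have h02 : u 0 * cr a b 2 = u 2 * cr a b 0 := by
    simp only [cr_0, cr_2]
    linear_combination b 1 * ha' - a 1 * hb'
  have h12 : u 1 * cr a b 2 = u 2 * cr a b 1 := by
    simp only [cr_1, cr_2]
    linear_combination b 0 * (-ha') + a 0 * hb'
  fin_cases i <;> fin_cases j
  · rfl
  · exact h01
  · exact h02
  · exact h01.symm
  · rfl
  · exact h12
  · exact h02.symm
  · exact h12.symm
  · rfl

/-- the Lagrange identity for four vectors -/
theorem dp_cr_cr (a b c d : V) : dp (cr a b) (cr c d) = dp a c * dp b d - dp a d * dp b c := by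
  simp only [dp, cr_0, cr_1, cr_2]
  ring

theorem eval_smul' {P : Poly} {d : ℕ} (hP : P.IsHomogeneous d) (c : ℂ) (x : V) :
    eval (c • x) P = c ^ d * eval x P := by
  rw [eval_eq', eval_eq', Finset.mul_sum]
  refine Finset.sum_congr rfl fun s hs => ?_
  have h1 : s.degree = d := by
    by_contra h
    exact (mem_support_iff.1 hs) (hP.coeff_eq_zero h)
  have h2 : ∑ i, s i = d := by
    rw [← h1, Finsupp.degree_eq_sum]
  simp only [Pi.smul_apply, smul_eq_mul, mul_pow, Finset.prod_mul_distrib,
    Finset.prod_pow_eq_pow_sum, h2]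
  ring

/-- Euler's identity -/
theorem euler {P : Poly} {d : ℕ} (hP : P.IsHomogeneous d) (x : V) :
    dp (grad P x) x = d * eval x P := by
  have h := congrArg (eval x) hP.sum_X_mul_pderiv
  rw [map_sum, Fin.sum_univ_three] at h
  simp only [map_mul, eval_X, nsmul_eq_mul, map_natCast] at h
  rw [← h]
  simp only [dp, grad]
  ring

theorem grad_smul {P : Poly} {d : ℕ} (hP : P.IsHomogeneous (d + 1)) (c : ℂ) (x : V) :
    grad P (c • x) = c ^ d • grad P x := by
  funext i
  simp only [grad, Pi.smul_apply, smul_eq_mul]
  exact eval_smul' (hP.pderiv) c x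

theorem cont_eval (P : Poly) : Continuous fun x : V => eval x P := MvPolynomial.continuous_eval P

theorem cont_grad (P : Poly) : Continuous (grad P) := continuous_pi fun _ => cont_eval _

theorem analyticAt_eval (P : Poly) {F : ℂ → V} {z : ℂ} (hF : AnalyticAt ℂ F z) :
    AnalyticAt ℂ (fun w => eval (F w) P) z := by
  have h1 : ∀ i, AnalyticAt ℂ (fun w => F w i) z := fun i => by
    have := (analyticAt_pi_iff).1 hF i
    exact this
  simp only [eval_eq']
  apply Finset.analyticAt_fun_sum
  intro s _
  apply analyticAt_const.mul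
  apply Finset.analyticAt_fun_prod
  intro i _
  exact (h1 i).pow _

/-- the chain rule -/
theorem hasDerivAt_eval (P : Poly) {F : ℂ → V} {F' : V} {z : ℂ} (hF : HasDerivAt F F' z) :
    HasDerivAt (fun w => eval (F w) P) (dp (grad P (F z)) F') z := by
  have h1 : ∀ i, HasDerivAt (fun w => F w i) (F' i) z := fun i => (hasDerivAt_pi.1 hF) i
  induction P using MvPolynomial.induction_on with
  | C a =>
    simp only [eval_C]
    have : dp (grad (C a) (F z)) F' = 0 := by simp [dp, grad]
    rw [this]
    exact hasDerivAt_const z a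
  | add p q hp hq =>
    have e : dp (grad (p + q) (F z)) F' = dp (grad p (F z)) F' + dp (grad q (F z)) F' := by
      simp only [dp, grad, map_add]
      ring
    rw [e]
    simp only [map_add]
    exact hp.add hq
  | mul_X p i hp =>
    have e : dp (grad (p * X i) (F z)) F' =
        dp (grad p (F z)) F' * F z i + eval (F z) p * F' i := by
      simp only [dp, grad, pderiv_mul, map_add, map_mul, eval_X]
      have : ∀ j, eval (F z) (pderiv j (X i : Poly)) = if i = j then 1 else 0 := by
        intro j
        rw [pderiv_X]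
        by_cases h : i = j
        · subst h; simp
        · rw [Pi.single_eq_of_ne (by exact fun h' => h h')]
          simp [h]
      simp only [this]
      fin_cases i <;> simp <;> ring
    rw [e]
    simp only [map_mul, eval_X]
    exact hp.mul (h1 i)

/-- difference quotients -/
def HasDQ (P : Poly) (d : ℕ) : Prop :=
  ∃ A : V → V → V, (∀ x y, eval y P - eval x P = dp (A x y) (y - x)) ∧
    (∀ (z : ℂ) (F G : ℂ → V), AnalyticAt ℂ F z → AnalyticAt ℂ G z →
      AnalyticAt ℂ (fun w => A (F w) (G w)) z) ∧
    Continuous (fun p : V × V => A p.1 p.2) ∧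
    ∀ (c : ℂ) (x y : V), c • A (c • x) (c • y) = c ^ d • A x y

theorem HasDQ.add {P Q : Poly} {d : ℕ} (hP : HasDQ P d) (hQ : HasDQ Q d) : HasDQ (P + Q) d := by
  obtain ⟨A, a1, a2, a3, a4⟩ := hP
  obtain ⟨B, b1, b2, b3, b4⟩ := hQ
  refine ⟨fun x y => A x y + B x y, fun x y => ?_, fun z F G hF hG => ?_, a3.add b3, fun c x y => ?_⟩
  · have e : dp (A x y + B x y) (y - x) = dp (A x y) (y - x) + dp (B x y) (y - x) := by
      simp only [dp, Pi.add_apply]
      ring
    rw [e, ← a1, ← b1]
    simp only [map_add]
    ring
  · exact (a2 z F G hF hG).add (b2 z F G hF hG)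
  · rw [smul_add, smul_add, a4, b4]

theorem HasDQ.zero (d : ℕ) : HasDQ 0 d :=
  ⟨fun _ _ => 0, fun x y => by simp [dp], fun z F G _ _ => analyticAt_const, continuous_const,
    fun c x y => by simp⟩

theorem HasDQ.mulX {Q : Poly} {d : ℕ} (hQ : HasDQ Q d) (hh : Q.IsHomogeneous d) (j : Fin 3) :
    HasDQ (Q * X j) (d + 1) := by
  obtain ⟨A, a1, a2, a3, a4⟩ := hQ
  refine ⟨fun x y => eval y Q • Pi.single j 1 + x j • A x y, fun x y => ?_, fun z F G hF hG => ?_,
    ?_, fun c x y => ?_⟩
  · have e : dp (eval y Q • Pi.single j 1 + x j • A x y) (y - x) =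
        eval y Q * (y j - x j) + x j * dp (A x y) (y - x) := by
      simp only [dp, Pi.add_apply, Pi.smul_apply, smul_eq_mul, Pi.sub_apply]
      fin_cases j <;> simp <;> ring
    rw [e, ← a1]
    simp only [map_mul, eval_X]
    ring
  · have h1 : AnalyticAt ℂ (fun w => F w j) z := (analyticAt_pi_iff.1 hF) j
    exact ((analyticAt_eval Q hG).smul analyticAt_const).add (h1.smul (a2 z F G hF hG))
  · have h1 : Continuous fun p : V × V => eval p.2 Q := (cont_eval Q).comp continuous_snd
    have h2 : Continuous fun p : V × V => p.1 j := (continuous_apply j).comp continuous_fst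
    exact (h1.smul continuous_const).add (h2.smul a3)
  · have h1 := a4 c x y
    change c • (eval (c • y) Q • Pi.single j 1 + (c • x) j • A (c • x) (c • y)) =
      c ^ (d + 1) • (eval y Q • Pi.single j 1 + x j • A x y)
    rw [eval_smul' hh, Pi.smul_apply, smul_eq_mul]
    calc c • ((c ^ d * eval y Q) • (Pi.single j 1 : V) + (c * x j) • A (c • x) (c • y))
        = (c * (c ^ d * eval y Q)) • (Pi.single j 1 : V) + (c * x j) • (c • A (c • x) (c • y)) := by
          rw [smul_add, smul_smul, smul_smul, smul_smul]
          congr 2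
          ring
      _ = c ^ (d + 1) • (eval y Q • Pi.single j 1 + x j • A x y) := by
          rw [h1, smul_add, smul_smul, smul_smul, smul_smul]
          congr 2 <;> ring

theorem HasDQ.monomial (n : ℕ) : ∀ (s : Fin 3 →₀ ℕ), s.degree = n → ∀ c : ℂ,
    HasDQ (monomial s c) n := by
  induction n with
  | zero =>
    intro s hs c
    have h0 : s = 0 := (Finsupp.degree_eq_zero_iff s).1 hs
    subst h0
    refine ⟨fun _ _ => 0, fun x y => by simp [dp], fun z F G _ _ => analyticAt_const,
      continuous_const, fun c x y => by simp⟩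
  | succ n ih =>
    intro s hs c
    have h0 : s ≠ 0 := by
      intro h
      rw [h] at hs
      simp at hs
    obtain ⟨j, hj⟩ := Finsupp.ne_iff.1 h0
    have hj' : s j ≠ 0 := hj
    set s' : Fin 3 →₀ ℕ := s - Finsupp.single j 1 with hs'
    have e1 : s' + Finsupp.single j 1 = s := by
      rw [hs']
      apply tsub_add_cancel_of_le
      rw [Finsupp.single_le_iff]
      omega
    have e2 : s'.degree = n := by
      have : (s' + Finsupp.single j 1).degree = n + 1 := by rw [e1, hs]
      rw [map_add, Finsupp.degree_single] at this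
      omega
    have e3 : (MvPolynomial.monomial s c : Poly) = MvPolynomial.monomial s' c * X j := by
      rw [← e1, MvPolynomial.monomial_add_single, pow_one]
    rw [e3]
    exact (ih s' e2 c).mulX (isHomogeneous_monomial c e2) j

theorem hasDQ {P : Poly} {d : ℕ} (hP : P.IsHomogeneous d) : HasDQ P d := by
  rw [P.as_sum]
  have h : ∀ T : Finset (Fin 3 →₀ ℕ), T ⊆ P.support →
      HasDQ (∑ v ∈ T, MvPolynomial.monomial v (coeff v P)) d := by
    intro T
    induction T using Finset.induction_on with
    | empty =>
      intro _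
      simpa using HasDQ.zero d
    | insert a T ha ih =>
      intro hT
      rw [Finset.sum_insert ha]
      refine HasDQ.add ?_ (ih fun x hx => hT (Finset.mem_insert_of_mem hx))
      apply HasDQ.monomial
      by_contra hne
      exact (mem_support_iff.1 (hT (Finset.mem_insert_self a T))) (hP.coeff_eq_zero hne)
  exact h _ subset_rfl

/-- the difference quotient on the diagonal is the gradient -/
theorem dq_diag {P : Poly} {A : V → V → V} (h1 : ∀ x y, eval y P - eval x P = dp (A x y) (y - x))
    (h2 : Continuous (fun p : V × V => A p.1 p.2)) (x : V) : A x x = grad P x := by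
  have key : ∀ v : V, dp (A x x) v = dp (grad P x) v := by
    intro v
    have e1 : HasDerivAt (fun t : ℂ => x + t • v) v 0 := by
      have := ((hasDerivAt_id (0 : ℂ)).smul_const v).const_add x
      simpa using this
    have e2 := hasDerivAt_eval P e1
    simp only [zero_smul, add_zero] at e2
    have e3 : Tendsto (fun t : ℂ => dp (A x (x + t • v)) v) (𝓝[≠] 0) (𝓝 (dp (A x x) v)) := by
      have c1 : Continuous fun t : ℂ => A x (x + t • v) := by
        have : Continuous fun t : ℂ => ((x, x + t • v) : V × V) := by fun_prop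
        exact h2.comp this
      have c2 : Continuous fun t : ℂ => dp (A x (x + t • v)) v := by
        unfold dp
        fun_prop
      have := (c2.tendsto 0).mono_left (nhdsWithin_le_nhds (s := {0}ᶜ))
      simpa using this
    have e4 := (hasDerivAt_iff_tendsto_slope.1 e2)
    have e5 : ∀ᶠ t : ℂ in 𝓝[≠] 0, slope (fun t : ℂ => eval (x + t • v) P) 0 t =
        dp (A x (x + t • v)) v := by
      filter_upwards [self_mem_nhdsWithin] with t ht
      have ht' : t ≠ 0 := ht
      rw [slope_def_field]
      simp only [zero_smul, add_zero, sub_zero]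
      rw [h1, add_sub_cancel_left]
      have : dp (A x (x + t • v)) (t • v) = t * dp (A x (x + t • v)) v := by
        simp only [dp, Pi.smul_apply, smul_eq_mul]
        ring
      rw [this]
      field_simp
    exact tendsto_nhds_unique e3 (e4.congr' e5)
  have := fun i : Fin 3 => key (Pi.single i 1)
  apply v_ext
  · simpa [dp] using this 0
  · simpa [dp] using this 1
  · simpa [dp] using this 2

end Pool.Agent.H915
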