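import Pool.Agent.H915.TC.Cur2

/-!
Curves with bounded derivative on which the two forms are constant are constant, II.
-/

set_option autoImplicit false

open Filter Topology Metric Set MvPolynomial

namespace Pool.Agent.H915

open Pool.Agent.Y190.OP

variable {P1 P2 : Poly} {e1 e2 : ℕ} {F : ℂ → V} {M B : ℝ} {a b : ℂ}

/-- a lower bound for the norm -/
theorem lower_of_const {P : Poly} {d : ℕ} (hP : P.IsHomogeneous (d + 1)) {a : ℂ} (ha : a ≠ 0) :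
    ∃ c : ℝ, 0 < c ∧ ∀ x : V, eval x P = a → c ≤ ‖x‖ := by
  obtain ⟨C, hC, hC'⟩ := eval_le hP
  have ha0 : 0 < ‖a‖ := norm_pos_iff.2 ha
  refine ⟨min 1 (‖a‖ / C), by positivity, fun x hx => ?_⟩
  by_contra hcon
  push Not at hcon
  have hx0 : x ≠ 0 := by
    rintro rfl
    have := eval_smul' hP (0 : ℂ) (0 : V)
    rw [zero_smul, hx, zero_pow (by omega), zero_mul] at this
    exact ha this
  have h1 := hC' x hx0
  have h2 : ‖x‖ < 1 := hcon.trans_le (min_le_left _ _)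
  have h3 : ‖x‖ < ‖a‖ / C := hcon.trans_le (min_le_right _ _)
  have h4 : ‖x‖ ^ (d + 1) ≤ ‖x‖ := by
    have := pow_le_pow_of_le_one (norm_nonneg x) h2.le (show 1 ≤ d + 1 by omega)
    simpa using this
  rw [hx] at h1
  rw [lt_div_iff₀ hC] at h3
  nlinarith

/-- large vectors with given values of a form are near the curve -/
theorem near_of_const {P : Poly} {d : ℕ} (a : ℂ) {η : ℝ} (hη : 0 < η) :
    ∃ R : ℝ, 1 ≤ R ∧ ∀ x : V, R ≤ ‖x‖ → eval x P = a → ‖eval x P‖ ≤ η * ‖x‖ ^ (d + 1) := by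
  refine ⟨max 1 (‖a‖ / η), le_max_left _ _, fun x hx ha => ?_⟩
  have h1 : 1 ≤ ‖x‖ := (le_max_left _ _).trans hx
  have h2 : ‖a‖ / η ≤ ‖x‖ := (le_max_right _ _).trans hx
  have h3 : ‖x‖ ≤ ‖x‖ ^ (d + 1) := le_self_pow₀ h1 (by omega)
  rw [ha]
  rw [div_le_iff₀ hη] at h2
  nlinarith

theorem SNC.growth (h : SNC P1 P2 e1 e2) (hF : BC F M) (h1 : ∀ z, eval (F z) P1 = a)
    (h2 : ∀ z, eval (F z) P2 = b) (hab : a ≠ 0 ∨ b ≠ 0) :
    (∃ c : ℝ, 0 < c ∧ ∀ z, c ≤ ‖F z‖) ∧ ∃ K : ℝ, 0 < K ∧ ∀ z, ‖deriv F z‖ ≤ K * ‖F z‖ := by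
  have hc : ∃ c : ℝ, 0 < c ∧ ∀ z, c ≤ ‖F z‖ := by
    rcases hab with hab | hab
    · obtain ⟨c, hc, hc'⟩ := lower_of_const h.h1 hab
      exact ⟨c, hc, fun z => hc' _ (h1 z)⟩
    · obtain ⟨c, hc, hc'⟩ := lower_of_const h.h2 hab
      exact ⟨c, hc, fun z => hc' _ (h2 z)⟩
  refine ⟨hc, ?_⟩
  obtain ⟨c, hc, hc'⟩ := hc
  have hB : ∀ z, -(-Real.log c) ≤ Sf F z := by
    intro z
    rw [neg_neg]
    exact (Real.log_le_log hc (hc' z)).trans (log_le_Sf (hF.ne z))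
  obtain ⟨η, hη, hst⟩ := h.stay (δ := 1 / 6) (by norm_num)
  obtain ⟨R1, hR1, hR1'⟩ := near_of_const (P := P1) (d := e1) a (show 0 < η / 2 by positivity)
  obtain ⟨R2, hR2, hR2'⟩ := near_of_const (P := P2) (d := e2) b (show 0 < η / 2 by positivity)
  have hdead : ∀ S : Set ℂ, IsPreconnected S → (∀ z ∈ S, Real.log (max R1 R2) + 1 < Sf F z) →
      ∀ y ∈ S, ∀ z ∈ S, ‖Phi (F y) - Phi (F z)‖ ≤ 1 / 6 := by
    intro S hS hSd y hy z hz
    have hbig : ∀ w ∈ S, max R1 R2 ≤ ‖F w‖ := by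
      intro w hw
      have e1 := hSd w hw
      have e2 := Sf_le (hF.ne w)
      have e3 : Real.log (max R1 R2) < Real.log ‖F w‖ := by linarith
      exact ((Real.log_lt_log_iff (by positivity) (norm_pos_iff.2 (hF.ne w))).1 e3).le
    have hpe : ∀ {P : Poly} {d : ℕ}, P.IsHomogeneous (d + 1) → ∀ w ∈ S,
        ‖eval (F w) P‖ ≤ η / 2 * ‖F w‖ ^ (d + 1) → ‖pe P (Phi (F w))‖ < η := by
      intro P d hP w hw hle
      have e1 := pe_le hP (hF.ne w)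
      have e2 : 0 < ‖F w‖ := norm_pos_iff.2 (hF.ne w)
      have e3 : ‖pe P (Phi (F w))‖ * ‖F w‖ ^ (d + 1) ≤ η / 2 * ‖F w‖ ^ (d + 1) := e1.trans hle
      have e4 := le_of_mul_le_mul_right e3 (by positivity)
      linarith
    refine (hst S (fun z => Phi (F z)) hS hF.contPhi.continuousOn
      (fun w _ => ⟨F w, hF.ne w, rfl⟩) (fun w hw => ?_) y hy z hz).le
    exact ⟨hpe h.h1 w hw (hR1' _ ((le_max_left _ _).trans (hbig w hw)) (h1 w)),
      hpe h.h2 w hw (hR2' _ ((le_max_right _ _).trans (hbig w hw)) (h2 w))⟩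
  obtain ⟨C, hC⟩ := hF.osc_le hB hdead
  have hM := hF.pos
  exact hF.deriv_le (by positivity) hC

/-- the condition on a fibre: there is at most one critical point (up to a factor) and it is
nondegenerate -/
def Nodal (P1 P2 : Poly) (a b : ℂ) : Prop :=
  ∀ x : V, x ≠ 0 → eval x P1 = a → eval x P2 = b → nv P1 P2 x = 0 →
    (∀ y : V, y ≠ 0 → eval y P1 = a → eval y P2 = b → nv P1 P2 y = 0 → cr x y = 0) ∧
    ∀ e : V, fderiv ℂ (nv P1 P2) x e = 0 → cr e x = 0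

/-- the bound for the cross product of the gradients on a fibre -/
theorem SNC.fibre_bound (h : SNC P1 P2 e1 e2) {k : ℕ} (hk : k ≤ e1 + e2) {m : V → ℝ}
    (hm : Continuous m) (hmk : ∃ C0 : ℝ, ∀ x : V, m x ≤ C0 * ‖x‖ ^ k)
    {c : ℝ} (hc : 0 < c)
    (hloc : ∀ x : V, x ≠ 0 → eval x P1 = a → eval x P2 = b → nv P1 P2 x = 0 →
      ∃ C : ℝ, ∀ᶠ y in 𝓝 x, m y ≤ C * ‖nv P1 P2 y‖) :
    ∃ C : ℝ, ∀ x : V, c ≤ ‖x‖ → eval x P1 = a → eval x P2 = b → m x ≤ C * ‖nv P1 P2 x‖ := by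
  obtain ⟨η, c1, hη, hc1, hnear⟩ := h.near
  obtain ⟨R1, hR1, hR1'⟩ := near_of_const (P := P1) (d := e1) a hη
  obtain ⟨C0, hC0⟩ := hmk
  have hcomp : IsCompact {x : V | c ≤ ‖x‖ ∧ ‖x‖ ≤ R1 ∧ eval x P1 = a ∧ eval x P2 = b} := by
    apply (isCompact_closedBall (0 : V) R1).of_isClosed_subset
    · have e1 : IsClosed {x : V | c ≤ ‖x‖} := isClosed_le continuous_const continuous_norm
      have e2 : IsClosed {x : V | ‖x‖ ≤ R1} := isClosed_le continuous_norm continuous_const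
      have e3 : IsClosed {x : V | eval x P1 = a} := isClosed_eq (cont_eval P1) continuous_const
      have e4 : IsClosed {x : V | eval x P2 = b} := isClosed_eq (cont_eval P2) continuous_const
      exact e1.inter (e2.inter (e3.inter e4))
    · rintro x ⟨-, h2, -⟩
      rwa [mem_closedBall_zero_iff]
  have hloc2 : ∃ C : ℝ, ∀ x ∈ {x : V | c ≤ ‖x‖ ∧ ‖x‖ ≤ R1 ∧ eval x P1 = a ∧ eval x P2 = b},
      m x ≤ C * ‖nv P1 P2 x‖ := by
    refine hcomp.induction_on (p := fun A => ∃ C : ℝ, ∀ x ∈ A, m x ≤ C * ‖nv P1 P2 x‖) ?_ ?_ ?_ ?_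
    · exact ⟨0, fun x hx => absurd hx (notMem_empty _)⟩
    · rintro s t hst ⟨C, hC⟩
      exact ⟨C, fun x hx => hC x (hst hx)⟩
    · rintro s t ⟨C, hC⟩ ⟨C', hC'⟩
      refine ⟨max C C', fun x hx => ?_⟩
      rcases hx with hx | hx
      · exact (hC x hx).trans (mul_le_mul_of_nonneg_right (le_max_left _ _) (norm_nonneg _))
      · exact (hC' x hx).trans (mul_le_mul_of_nonneg_right (le_max_right _ _) (norm_nonneg _))
    · rintro x ⟨h1, h2, h3, h4⟩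
      have hx0 : x ≠ 0 := by
        rintro rfl
        rw [norm_zero] at h1
        linarith
      by_cases hn : nv P1 P2 x = 0
      · obtain ⟨C, hC⟩ := hloc x hx0 h3 h4 hn
        exact ⟨_, mem_nhdsWithin_of_mem_nhds hC, C, fun y hy => hy⟩
      · have hn' : 0 < ‖nv P1 P2 x‖ := norm_pos_iff.2 hn
        have c1 : ∀ᶠ y in 𝓝 x, ‖nv P1 P2 x‖ / 2 < ‖nv P1 P2 y‖ :=
          ((cont_nv P1 P2).norm.tendsto x).eventually_const_lt (by linarith)
        have c2 : ∀ᶠ y in 𝓝 x, m y < |m x| + 1 :=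
          (hm.tendsto x).eventually_lt_const (by linarith [le_abs_self (m x)])
        refine ⟨_, mem_nhdsWithin_of_mem_nhds (c1.and c2), (|m x| + 1) / (‖nv P1 P2 x‖ / 2),
          fun y hy => ?_⟩
        obtain ⟨hy1, hy2⟩ := hy
        calc m y ≤ |m x| + 1 := hy2.le
          _ = (|m x| + 1) / (‖nv P1 P2 x‖ / 2) * (‖nv P1 P2 x‖ / 2) := by field_simp
          _ ≤ _ := mul_le_mul_of_nonneg_left hy1.le (by positivity)
  obtain ⟨C, hC⟩ := hloc2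
  refine ⟨max C (|C0| / c1), fun x hx hx1 hx2 => ?_⟩
  by_cases hxR : ‖x‖ ≤ R1
  · exact (hC x ⟨hx, hxR, hx1, hx2⟩).trans
      (mul_le_mul_of_nonneg_right (le_max_left _ _) (norm_nonneg _))
  · push Not at hxR
    have hx0 : x ≠ 0 := by
      rintro rfl
      rw [norm_zero] at hxR
      linarith
    have h3 := hnear x hx0 (Or.inl (hR1' x hxR.le hx1))
    have h4 : ‖x‖ ^ k ≤ ‖x‖ ^ (e1 + e2) := pow_le_pow_right₀ (by linarith) hk
    calc m x ≤ C0 * ‖x‖ ^ k := hC0 x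
      _ ≤ |C0| * ‖x‖ ^ k := mul_le_mul_of_nonneg_right (le_abs_self _) (by positivity)
      _ ≤ |C0| * ‖x‖ ^ (e1 + e2) := mul_le_mul_of_nonneg_left h4 (abs_nonneg _)
      _ = |C0| / c1 * (c1 * ‖x‖ ^ (e1 + e2)) := by field_simp
      _ ≤ |C0| / c1 * ‖nv P1 P2 x‖ := mul_le_mul_of_nonneg_left h3 (by positivity)
      _ ≤ _ := mul_le_mul_of_nonneg_right (le_max_right _ _) (norm_nonneg _)

/-- **Curves in smooth fibres** -/
theorem SNC.smooth_fibre (h : SNC P1 P2 e1 e2) (hk : 2 ≤ e1 + e2) (hF : BC F M)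
    (h1 : ∀ z, eval (F z) P1 = a) (h2 : ∀ z, eval (F z) P2 = b) (hab : a ≠ 0 ∨ b ≠ 0)
    (hs : ∀ x : V, x ≠ 0 → eval x P1 = a → eval x P2 = b → nv P1 P2 x ≠ 0) (x y : ℂ) :
    Phi (F x) = Phi (F y) := by
  obtain ⟨⟨c, hc, hc'⟩, K, hK, hK'⟩ := h.growth hF h1 h2 hab
  obtain ⟨C, hC⟩ := h.fibre_bound (a := a) (b := b) hk (m := fun x => ‖x‖ ^ 2)
    (by fun_prop) ⟨1, fun x => by rw [one_mul]⟩ hc (fun x hx e1 e2 e3 => absurd e3 (hs x hx e1 e2))
  refine hF.const_of hK' (diff_nv P1 P2 hF.dif) (par_of_const hF.dif h1 h2) (m := fun _ => 1)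
    (by fun_prop) (C := C) (fun z => ?_) ⟨0, one_ne_zero⟩ x y
  rw [norm_one, one_mul]
  exact hC _ (hc' z) (h1 z) (h2 z)

/-- **Curves in the strata** -/
theorem SNC.stratum (h : SNC P1 P2 e1 e2) (hk : 2 ≤ e1 + e2) (hF : BC F M)
    (h1 : ∀ z, eval (F z) P1 = a) (h2 : ∀ z, eval (F z) P2 = b) (hab : a ≠ 0 ∨ b ≠ 0)
    (hab' : a = 0 ∨ b = 0) (x y : ℂ) : Phi (F x) = Phi (F y) :=
  h.smooth_fibre hk hF h1 h2 hab (fun x hx hx1 hx2 => h.nv_ne hx (by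
    rcases hab' with h3 | h3
    · left
      rw [hx1, h3]
    · right
      rw [hx2, h3])) x y

theorem diffAt_nv (x : V) : DifferentiableAt ℂ (nv P1 P2) x := by
  have hg : ∀ P : Poly, ∀ i, DifferentiableAt ℂ (fun y : V => grad P y i) x := by
    intro P i
    unfold grad
    simp only [eval_eq']
    fun_prop
  rw [differentiableAt_pi]
  intro i
  fin_cases i
  · exact ((hg P1 1).mul (hg P2 2)).sub ((hg P1 2).mul (hg P2 1))
  · exact ((hg P1 2).mul (hg P2 0)).sub ((hg P1 0).mul (hg P2 2))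
  · exact ((hg P1 0).mul (hg P2 1)).sub ((hg P1 1).mul (hg P2 0))

theorem norm_cr_le (u v : V) : ‖cr u v‖ ≤ 2 * ‖u‖ * ‖v‖ := by
  rw [pi_norm_le_iff_of_nonneg (by positivity)]
  have hb : ∀ i j, ‖u i * v j‖ ≤ ‖u‖ * ‖v‖ := fun i j => by
    rw [norm_mul]
    exact mul_le_mul (norm_le_pi_norm u i) (norm_le_pi_norm v j) (norm_nonneg _) (norm_nonneg _)
  intro i
  fin_cases i
  · have := norm_sub_le (u 1 * v 2) (u 2 * v 1)
    have := hb 1 2
    have := hb 2 1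
    simp only [Fin.zero_eta, cr_0]
    linarith
  · have := norm_sub_le (u 2 * v 0) (u 0 * v 2)
    have := hb 2 0
    have := hb 0 2
    simp only [Fin.mk_one, cr_1]
    linarith
  · have := norm_sub_le (u 0 * v 1) (u 1 * v 0)
    have := hb 0 1
    have := hb 1 0
    simp only [Fin.reduceFinMk, cr_2]
    linarith

/-- the bound at a node -/
theorem SNC.node_bound (h : SNC P1 P2 e1 e2) {x u0 : V} (hx : x ≠ 0) (hn : nv P1 P2 x = 0)
    (hxu : cr x u0 = 0) (hker : ∀ e : V, fderiv ℂ (nv P1 P2) x e = 0 → cr e x = 0) :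
    ∃ C : ℝ, ∀ᶠ y in 𝓝 x, ‖cr y u0‖ * ‖y‖ ^ 2 ≤ C * ‖nv P1 P2 y‖ := by
  obtain ⟨i, hi⟩ := Function.ne_iff.1 hx
  have hi' : x i ≠ 0 := hi
  set D := fderiv ℂ (nv P1 P2) x with hD
  -- a lower bound for `D`
  set T : V →ₗ[ℂ] V × ℂ := (D : V →ₗ[ℂ] V).prod (LinearMap.proj i) with hT
  have hTk : LinearMap.ker T = ⊥ := by
    rw [LinearMap.ker_eq_bot']
    intro e he
    have he' : (D e, e i) = ((0 : V), (0 : ℂ)) := he
    obtain ⟨he1, he2⟩ := Prod.mk.inj he'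
    have h1 := hker e he1
    have he2' : e i = 0 := he2
    have h2 := exists_smul_of_cr (a := x) (b := e) (by
      rw [cr_swap, h1, neg_zero]) hx
    obtain ⟨c, hc⟩ := h2
    have h3 := congrFun hc i
    rw [Pi.smul_apply, smul_eq_mul, he2'] at h3
    rcases mul_eq_zero.1 h3.symm with h4 | h4
    · rw [hc, h4, zero_smul]
    · exact absurd h4 hi'
  obtain ⟨κ, hκ, hanti⟩ := LinearMap.exists_antilipschitzWith T hTk
  have hlow : ∀ e : V, e i = 0 → ‖e‖ ≤ κ * ‖D e‖ := by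
    intro e he
    have h1 := hanti.le_mul_dist e 0
    rw [map_zero, dist_zero_right, dist_zero_right] at h1
    have h2 : T e = (D e, (0 : ℂ)) := by
      have h3 : T e = (D e, e i) := rfl
      rw [h3, he]
    rw [h2, Prod.norm_def, norm_zero] at h1
    simp only [norm_nonneg, sup_of_le_left] at h1
    exact h1
  have hκ' : (0 : ℝ) < κ := by exact_mod_cast hκ
  -- the expansion of `nv` at `x`
  have hexp : ∀ᶠ y in 𝓝 x, ‖nv P1 P2 y - D (y - x)‖ ≤ 1 / (2 * κ) * ‖y - x‖ := by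
    have h1 := (diffAt_nv (P1 := P1) (P2 := P2) x).hasFDerivAt.isLittleO
    have h2 := h1.def (c := 1 / (2 * κ)) (by positivity)
    filter_upwards [h2] with y hy
    rw [hn, sub_zero] at hy
    exact hy
  have hexp2 : ∀ᶠ y in 𝓝 x, y i = x i → ‖y - x‖ ≤ 2 * κ * ‖nv P1 P2 y‖ := by
    filter_upwards [hexp] with y hy hyi
    have h1 := hlow (y - x) (by rw [Pi.sub_apply, hyi, sub_self])
    have h2 := norm_sub_norm_le (D (y - x)) (nv P1 P2 y)
    rw [norm_sub_rev] at h2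
    have h3 : κ * ‖D (y - x)‖ ≤ κ * (‖nv P1 P2 y‖ + 1 / (2 * κ) * ‖y - x‖) := by
      apply mul_le_mul_of_nonneg_left _ hκ'.le
      linarith
    have h4 : κ * (‖nv P1 P2 y‖ + 1 / (2 * κ) * ‖y - x‖) = κ * ‖nv P1 P2 y‖ + ‖y - x‖ / 2 := by
      field_simp
    linarith
  -- normalise
  have hs : Tendsto (fun y : V => (x i / y i) • y) (𝓝 x) (𝓝 x) := by
    have h1 : Tendsto (fun y : V => y i) (𝓝 x) (𝓝 (x i)) := (continuous_apply i).tendsto x
    have h2 : Tendsto (fun y : V => x i / y i) (𝓝 x) (𝓝 (x i / x i)) :=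
      tendsto_const_nhds.div h1 hi'
    rw [div_self hi'] at h2
    have h3 := h2.smul (tendsto_id (α := V) (x := 𝓝 x))
    simpa using h3
  have hs1 : ∀ᶠ y : V in 𝓝 x, y i ≠ 0 :=
    ((continuous_apply i).tendsto x).eventually_ne hi'
  have hs2 : ∀ᶠ y : V in 𝓝 x, ‖x i / y i‖ < 2 ∧ 1 / 2 < ‖x i / y i‖ := by
    have h1 : Tendsto (fun y : V => y i) (𝓝 x) (𝓝 (x i)) := (continuous_apply i).tendsto x
    have h2 : Tendsto (fun y : V => ‖x i / y i‖) (𝓝 x) (𝓝 ‖x i / x i‖) :=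
      (tendsto_const_nhds.div h1 hi').norm
    rw [div_self hi', norm_one] at h2
    exact (h2.eventually_lt_const (by norm_num)).and (h2.eventually_const_lt (by norm_num))
  have hs3 : ∀ᶠ y : V in 𝓝 x, ‖y‖ < ‖x‖ + 1 :=
    (continuous_norm.tendsto x).eventually_lt_const (by linarith)
  refine ⟨2 * (2 * ‖u0‖ * (2 * κ * 2 ^ (e1 + e2))) * (‖x‖ + 1) ^ 2, ?_⟩
  filter_upwards [hs.eventually hexp2, hs1, hs2, hs3] with y hy1 hy2 hy3 hy4
  set t : ℂ := x i / y i with ht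
  have h1 : ‖t • y - x‖ ≤ 2 * κ * ‖nv P1 P2 (t • y)‖ := by
    apply hy1
    rw [Pi.smul_apply, smul_eq_mul, ht, div_mul_cancel₀ _ hy2]
  rw [nv_smul h, norm_smul, norm_pow] at h1
  have h2 : cr (t • y) u0 = cr (t • y - x) u0 := by
    have : cr (t • y - x) u0 = cr (t • y) u0 - cr x u0 := by
      apply v_ext <;> simp <;> ring
    rw [this, hxu, sub_zero]
  have h3 : ‖t‖ * ‖cr y u0‖ = ‖cr (t • y) u0‖ := by
    have : cr (t • y) u0 = t • cr y u0 := by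
      apply v_ext <;> simp <;> ring
    rw [this, norm_smul]
  have h4 : ‖t‖ * ‖cr y u0‖ ≤ 2 * ‖t • y - x‖ * ‖u0‖ := by
    rw [h3, h2]
    exact norm_cr_le _ _
  have h5 : ‖t‖ ^ (e1 + e2) ≤ 2 ^ (e1 + e2) := pow_le_pow_left₀ (norm_nonneg _) hy3.1.le _
  have h6 : ‖t • y - x‖ ≤ 2 * κ * (2 ^ (e1 + e2) * ‖nv P1 P2 y‖) := by
    refine h1.trans ?_
    gcongr
  have h7 : ‖cr y u0‖ ≤ 2 * (‖t‖ * ‖cr y u0‖) := by
    have := norm_nonneg (cr y u0)
    nlinarith [hy3.2]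
  have h8 : ‖cr y u0‖ ≤ 2 * (2 * ‖u0‖ * (2 * κ * 2 ^ (e1 + e2))) * ‖nv P1 P2 y‖ := by
    calc ‖cr y u0‖ ≤ 2 * (‖t‖ * ‖cr y u0‖) := h7
      _ ≤ 2 * (2 * ‖t • y - x‖ * ‖u0‖) := by linarith
      _ ≤ 2 * (2 * (2 * κ * (2 ^ (e1 + e2) * ‖nv P1 P2 y‖)) * ‖u0‖) := by gcongr
      _ = _ := by ring
  have h9 : ‖y‖ ^ 2 ≤ (‖x‖ + 1) ^ 2 := pow_le_pow_left₀ (norm_nonneg _) hy4.le _
  calc ‖cr y u0‖ * ‖y‖ ^ 2 ≤ (2 * (2 * ‖u0‖ * (2 * κ * 2 ^ (e1 + e2))) * ‖nv P1 P2 y‖) *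
        (‖x‖ + 1) ^ 2 := by gcongr
    _ = _ := by ring

/-- **Curves in nodal fibres** -/
theorem SNC.nodal_fibre (h : SNC P1 P2 e1 e2) (hk : 3 ≤ e1 + e2) (hF : BC F M)
    (h1 : ∀ z, eval (F z) P1 = a) (h2 : ∀ z, eval (F z) P2 = b) (hab : a ≠ 0 ∨ b ≠ 0)
    (hs : Nodal P1 P2 a b) (x y : ℂ) : Phi (F x) = Phi (F y) := by
  by_cases hsm : ∀ x : V, x ≠ 0 → eval x P1 = a → eval x P2 = b → nv P1 P2 x ≠ 0
  · exact h.smooth_fibre (by omega) hF h1 h2 hab hsm x y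
  push Not at hsm
  obtain ⟨⟨c, hc, hc'⟩, K, hK, hK'⟩ := h.growth hF h1 h2 hab
  obtain ⟨u0, hx0, hx1, hx2, hx3⟩ := hsm
  obtain ⟨hu1, -⟩ := hs u0 hx0 hx1 hx2 hx3
  obtain ⟨C, hC⟩ := h.fibre_bound (a := a) (b := b) hk (m := fun x => ‖cr x u0‖ * ‖x‖ ^ 2)
    ((cont_cr continuous_id continuous_const).norm.mul (continuous_norm.pow 2))
    ⟨2 * ‖u0‖, fun x => by
      have := norm_cr_le x u0
      calc ‖cr x u0‖ * ‖x‖ ^ 2 ≤ (2 * ‖x‖ * ‖u0‖) * ‖x‖ ^ 2 := by gcongr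
        _ = _ := by ring⟩ hc (fun x hx e1 e2 e3 => by
      refine h.node_bound hx e3 ?_ (hs x hx e1 e2 e3).2
      rw [cr_swap, hu1 x hx e1 e2 e3, neg_zero])
  have hcrd : Differentiable ℂ fun z => cr (F z) u0 := diff_cr hF.dif (differentiable_const u0)
  by_cases h0 : ∃ i z, cr (F z) u0 i ≠ 0
  · obtain ⟨i, hz⟩ := h0
    refine hF.const_of hK' (diff_nv P1 P2 hF.dif) (par_of_const hF.dif h1 h2)
      (m := fun z => cr (F z) u0 i) (differentiable_pi.1 hcrd i) (C := C) (fun z => ?_) hz x y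
    refine le_trans ?_ (hC _ (hc' z) (h1 z) (h2 z))
    exact mul_le_mul_of_nonneg_right (norm_le_pi_norm (cr (F z) u0) i) (by positivity)
  · push Not at h0
    have hpar : ∀ z, Phi (F z) = Phi u0 := by
      intro z
      have h3 : cr u0 (F z) = 0 := by
        rw [cr_swap, neg_eq_zero]
        funext i
        exact h0 i z
      obtain ⟨t, ht⟩ := exists_smul_of_cr h3 hx0
      have ht0 : t ≠ 0 := by
        rintro rfl
        rw [zero_smul] at ht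
        exact hF.ne z ht
      rw [ht]
      exact Phi_smul ht0 u0
    rw [hpar x, hpar y]

end Pool.Agent.H915
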