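import Pool.Graph.R_seed8.Y190.OP.Zf
import Pool.Agent.H915.TC.Cur3

/-!
Limits of curves in the complement: they do not lie in the union of the two curves.
-/

set_option autoImplicit false

open Filter Topology Metric Set MvPolynomial

namespace Pool.Agent.H915

open Pool.Agent.Y190.OP

variable {P1 P2 : Poly} {e1 e2 : ℕ} {F : ℂ → V} {M B : ℝ} {a b : ℂ}

theorem exists_log_univ {f : ℂ → ℂ} (hd : Differentiable ℂ f) (h0 : ∀ z, f z ≠ 0) :
    ∃ g : ℂ → ℂ, Differentiable ℂ g ∧ ∀ z, Complex.exp (g z) = f z := by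
  have hd' : Differentiable ℂ (fun y => deriv f y / f y) := fun z => (hd.deriv z).div (hd z) (h0 z)
  obtain ⟨g, hg⟩ := hd'.isExactOn_univ
  set G : ℂ → ℂ := fun y => g y - g 0 + Complex.log (f 0) with hG
  have hGd : ∀ y, HasDerivAt G (deriv f y / f y) y := by
    intro y
    exact ((hg y (mem_univ y)).sub_const _).add_const _
  have hder : ∀ w, HasDerivAt (fun w => f w * Complex.exp (-G w)) 0 w := by
    intro w
    have h1 : HasDerivAt f (deriv f w) w := (hd w).hasDerivAt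
    have h2 := (hGd w).neg.cexp
    have h3 := h1.mul h2
    have h5 := h0 w
    have e : deriv f w * Complex.exp ((-G) w) +
        f w * (Complex.exp ((-G) w) * -(deriv f w / f w)) = 0 := by
      have h6 : f w * (Complex.exp ((-G) w) * -(deriv f w / f w)) =
        -(deriv f w * Complex.exp ((-G) w)) := by field_simp
      rw [h6]
      ring
    rw [e] at h3
    exact h3
  have hconst : ∀ y, f y * Complex.exp (-G y) = f 0 * Complex.exp (-G 0) := fun y =>
    is_const_of_deriv_eq_zero (fun w => (hder w).differentiableAt) (fun w => (hder w).deriv) y 0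
  refine ⟨G, fun y => (hGd y).differentiableAt, fun y => ?_⟩
  have h1 := hconst y
  have h2 : Complex.exp (-G 0) = (f 0)⁻¹ := by
    rw [hG]
    simp only [sub_self, zero_add]
    rw [Complex.exp_neg, Complex.exp_log (h0 0)]
  rw [h2, mul_inv_cancel₀ (h0 0), Complex.exp_neg] at h1
  have h3 := Complex.exp_ne_zero (G y)
  field_simp at h1
  exact h1.symm

/-- entire curves with one form without zeros, normalised -/
theorem normalise {P : Poly} {d : ℕ} (hP : P.IsHomogeneous (d + 1)) {G : ℂ → V}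
    (hG : Differentiable ℂ G) (h0 : ∀ z, G z ≠ 0) (hn : ∀ z, eval (G z) P ≠ 0) :
    ∃ F : ℂ → V, Differentiable ℂ F ∧ (∀ z, F z ≠ 0) ∧ (∀ z, Phi (F z) = Phi (G z)) ∧
      (∀ z, eval (F z) P = 1) ∧ ∀ z, ∃ c : ℂ, c ≠ 0 ∧ F z = c • G z := by
  have hd : Differentiable ℂ fun z => eval (G z) P := fun z =>
    (hasDerivAt_eval P (hG z).hasDerivAt).differentiableAt
  obtain ⟨g, hg, hgG⟩ := exists_log_univ hd hn
  have hd1 : ((d + 1 : ℕ) : ℂ) ≠ 0 := Nat.cast_ne_zero.2 (Nat.succ_ne_zero d)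
  set c : ℂ → ℂ := fun z => Complex.exp (-(g z / (d + 1 : ℕ))) with hc
  have hcd : Differentiable ℂ c := by
    rw [hc]
    fun_prop
  have hc0 : ∀ z, c z ≠ 0 := fun z => Complex.exp_ne_zero _
  refine ⟨fun z => c z • G z, fun z => (hcd z).smul (hG z), fun z => smul_ne_zero (hc0 z) (h0 z),
    fun z => Phi_smul (hc0 z) _, fun z => ?_, fun z => ⟨c z, hc0 z, rfl⟩⟩
  rw [eval_smul' hP, ← hgG z, hc]
  simp only
  rw [← Complex.exp_nat_mul, ← Complex.exp_add]
  have : ((d + 1 : ℕ) : ℂ) * -(g z / (d + 1 : ℕ)) + g z = 0 := by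
    field_simp
    ring
  rw [this, Complex.exp_zero]

theorem lip_of_fderiv {H : ℂ → Mat 3} {K : ℝ} (hH : HolP univ H) (hK : ∀ z, ‖fderiv ℝ H z‖ ≤ K)
    (y z : ℂ) : ‖H y - H z‖ ≤ K * ‖y - z‖ :=
  convex_univ.norm_image_sub_le_of_norm_fderiv_le
    (fun x _ => hH.differentiableAt (mem_univ x)) (fun x _ => hK x) (mem_univ z) (mem_univ y)

/-- a curve in the second curve outside the first one -/
theorem SNC.no_stratum (h : SNC P1 P2 e1 e2) (hk : 2 ≤ e1 + e2) {H : ℂ → Mat 3} {K : ℝ}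
    (hH : HolP univ H) (hK : ∀ z, ‖fderiv ℝ H z‖ ≤ K) (h1 : ∀ z, pe P1 (H z) ≠ 0)
    (h2 : ∀ z, pe P2 (H z) = 0) (x y : ℂ) : H x = H y := by
  obtain ⟨G, hG, hG0, hGH⟩ := zero_free hH
  have g1 : ∀ z, eval (G z) P1 ≠ 0 := fun z hz => h1 z (by
    rw [hGH z]
    exact (pe_eq_zero h.h1 (hG0 z)).2 hz)
  have g2 : ∀ z, eval (G z) P2 = 0 := fun z => by
    have := h2 z
    rw [hGH z] at this
    exact (pe_eq_zero h.h2 (hG0 z)).1 this
  obtain ⟨F, hF, hF0, hFG, hF1, hFc⟩ := normalise h.h1 hG hG0 g1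
  have hF2 : ∀ z, eval (F z) P2 = 0 := by
    intro z
    obtain ⟨c, -, hc⟩ := hFc z
    rw [hc, eval_smul' h.h2, g2, mul_zero]
  have hPhi : ∀ z, Phi (F z) = H z := fun z => by rw [hFG, hGH]
  have hBC : BC F (max K 1) := ⟨hF, hF0, by positivity, fun y z => by
    rw [hPhi, hPhi]
    exact (lip_of_fderiv hH hK y z).trans
      (mul_le_mul_of_nonneg_right (le_max_left _ _) (norm_nonneg _))⟩
  rw [← hPhi, ← hPhi]
  exact h.stratum hk hBC hF1 hF2 (Or.inl one_ne_zero) (Or.inr rfl) x y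

/-- a curve in the union of the two curves -/
theorem SNC.no_union (h : SNC P1 P2 e1 e2) (hk : 2 ≤ e1 + e2) {H : ℂ → Mat 3} {K : ℝ}
    (hH : HolP univ H) (hK : ∀ z, ‖fderiv ℝ H z‖ ≤ K)
    (d1 : (∀ z, pe P1 (H z) = 0) ∨ ∀ z, pe P1 (H z) ≠ 0)
    (d2 : (∀ z, pe P2 (H z) = 0) ∨ ∀ z, pe P2 (H z) ≠ 0)
    (h12 : (∃ z, pe P1 (H z) = 0) ∨ ∃ z, pe P2 (H z) = 0) (x y : ℂ) : H x = H y := by
  rcases d1 with d1 | d1
  · rcases d2 with d2 | d2
    · -- in the crossings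
      obtain ⟨δ, hδ, hiso⟩ := h.isolated
      have key : ∀ ε : ℝ, 0 < ε → ‖H x - H y‖ < ε := by
        intro ε hε
        obtain ⟨η, hη, hst⟩ := h.stay hε
        have hc : Continuous H := continuous_iff_continuousAt.2 fun z => hH.continuousAt (mem_univ z)
        exact hst univ H isPreconnected_univ hc.continuousOn (fun z _ => hH.mem_PM (mem_univ z))
          (fun z _ => by rw [d1, d2, norm_zero]; exact ⟨hη, hη⟩) x (mem_univ x) y (mem_univ y)
      rw [← sub_eq_zero, ← norm_eq_zero]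
      exact le_antisymm (le_of_forall_pos_lt_add fun ε hε => by rw [zero_add]; exact key ε hε)
        (norm_nonneg _)
    · exact h.swap.no_stratum (by omega) hH hK d2 d1 x y
  · rcases d2 with d2 | d2
    · exact h.no_stratum hk hH hK d1 d2 x y
    · rcases h12 with ⟨z, hz⟩ | ⟨z, hz⟩
      · exact absurd hz (d1 z)
      · exact absurd hz (d2 z)

/-- **Lemma H**: discs near the curves have small derivative -/
theorem SNC.lemmaH (h : SNC P1 P2 e1 e2) (hk : 2 ≤ e1 + e2) : ∃ η C : ℝ, 0 < η ∧ 0 < C ∧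
    ∀ (φ : ℂ → Mat 3) (z0 : ℂ) (R : ℝ), 0 < R → HolP (ball z0 R) φ →
      (∀ z ∈ ball z0 R, pe P1 (φ z) ≠ 0 ∧ pe P2 (φ z) ≠ 0 ∧
        (‖pe P1 (φ z)‖ < η ∨ ‖pe P2 (φ z)‖ < η)) → ‖fderiv ℝ φ z0‖ ≤ C / R := by
  by_contra hcon
  push Not at hcon
  have hcon' : ∀ n : ℕ, ∃ h : ℂ → Mat 3, HolP (ball 0 (n + 1 : ℝ)) h ∧
      (∀ z ∈ ball (0 : ℂ) (n + 1 : ℝ), h z ∈ {M : Mat 3 | pe P1 M ≠ 0 ∧ pe P2 M ≠ 0 ∧
        (‖pe P1 M‖ < 1 / ((n : ℝ) + 1) ∨ ‖pe P2 M‖ < 1 / ((n : ℝ) + 1))}) ∧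
      (∀ z ∈ ball (0 : ℂ) ((n + 1 : ℝ) / 2), ‖fderiv ℝ h z‖ ≤ 2) ∧ ‖fderiv ℝ h 0‖ = 1 := by
    intro n
    obtain ⟨φ, z0, R, hR, hφ, hS, hbig⟩ := hcon (1 / ((n : ℝ) + 1)) (2 * (n + 1)) (by positivity)
      (by positivity)
    have haff : ∀ z ∈ ball (0 : ℂ) 1, aff z0 R z ∈ ball z0 R := by
      intro z hz
      rw [mem_ball_zero_iff] at hz
      rw [mem_ball, dist_eq_norm]
      unfold aff
      rw [add_sub_cancel_left, norm_mul, Complex.norm_real, Real.norm_of_nonneg hR.le]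
      nlinarith
    refine rescale (S := {M : Mat 3 | pe P1 M ≠ 0 ∧ pe P2 M ≠ 0 ∧
        (‖pe P1 M‖ < 1 / ((n : ℝ) + 1) ∨ ‖pe P2 M‖ < 1 / ((n : ℝ) + 1))})
      (Ψ := fun z => φ (aff z0 R z)) (by positivity) ((hφ.aff z0 R).mono haff)
      (fun z hz => hS _ (haff z hz)) ?_
    have hz0 : aff z0 R 0 = z0 := by simp [aff]
    rw [norm_fderiv_aff hR.le (by rw [hz0]; exact hφ.differentiableAt (mem_ball_self hR)), hz0]
    rw [div_lt_iff₀ hR] at hbig
    linarith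
  choose g hg hgS hgd hg0 using hcon'
  set l : Ultrafilter ℕ := hyperfilter ℕ with hl
  have hcof : ∀ R : ℝ, ∀ᶠ n : ℕ in (l : Filter ℕ), R ≤ n := by
    intro R
    have h2 : ∀ᶠ n : ℕ in atTop, R ≤ n := by
      filter_upwards [eventually_ge_atTop ⌈R⌉₊] with n hn
      exact (Nat.le_ceil R).trans (by exact_mod_cast hn)
    have h3 : (l : Filter ℕ) ≤ atTop := by
      rw [← Nat.cofinite_eq_atTop]
      exact hyperfilter_le_cofinite
    exact h3 h2
  have hsub : ∀ z : ℂ, ∀ᶠ n : ℕ in (l : Filter ℕ),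
      ball z 1 ⊆ ball (0 : ℂ) ((n + 1 : ℝ) / 2) ∧ ball z 1 ⊆ ball (0 : ℂ) (n + 1 : ℝ) := by
    intro z
    filter_upwards [hcof (2 * (‖z‖ + 1))] with n hn
    constructor
    · intro w hw
      rw [mem_ball, dist_eq_norm] at hw
      rw [mem_ball_zero_iff]
      have := norm_add_le (w - z) z
      rw [sub_add_cancel] at this
      linarith
    · intro w hw
      rw [mem_ball, dist_eq_norm] at hw
      rw [mem_ball_zero_iff]
      have := norm_add_le (w - z) z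
      rw [sub_add_cancel] at this
      have := norm_nonneg z
      linarith
  obtain ⟨H, hc, hH, hHd⟩ := nf_limit (l := l) (U := univ) (h := g) isOpen_univ (fun z _ => by
    refine ⟨1, 2, one_pos, ?_⟩
    filter_upwards [hsub z] with n hn
    exact ⟨(hg n).mono hn.2, fun w hw => hgd n w (hn.1 hw)⟩)
  have hK : ∀ z, ‖fderiv ℝ H z‖ ≤ 2 := by
    intro z
    refine le_of_tendsto (hHd z (mem_univ z)).norm ?_
    filter_upwards [hsub z] with n hn
    exact hgd n z (hn.1 (mem_ball_self one_pos))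
  have hd1 : (∀ z ∈ (univ : Set ℂ), pe P1 (H z) = 0) ∨ ∀ z ∈ (univ : Set ℂ), pe P1 (H z) ≠ 0 :=
    dich h.h1 isOpen_univ isPreconnected_univ (fun z _ => ⟨1, one_pos, by
      filter_upwards [hsub z] with n hn
      exact ⟨(hg n).mono hn.2, fun w hw => (hgS n w (hn.2 hw)).1⟩⟩) hc hH
  have hd2 : (∀ z ∈ (univ : Set ℂ), pe P2 (H z) = 0) ∨ ∀ z ∈ (univ : Set ℂ), pe P2 (H z) ≠ 0 :=
    dich h.h2 isOpen_univ isPreconnected_univ (fun z _ => ⟨1, one_pos, by
      filter_upwards [hsub z] with n hn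
      exact ⟨(hg n).mono hn.2, fun w hw => (hgS n w (hn.2 hw)).2.1⟩⟩) hc hH
  have h12 : (∃ z, pe P1 (H z) = 0) ∨ ∃ z, pe P2 (H z) = 0 := by
    have c1 : Tendsto (fun n => pe P1 (g n 0)) l (𝓝 (pe P1 (H 0))) :=
      ((cont_pe P1).tendsto _).comp (hc.pointwise (mem_univ 0))
    have c2 : Tendsto (fun n => pe P2 (g n 0)) l (𝓝 (pe P2 (H 0))) :=
      ((cont_pe P2).tendsto _).comp (hc.pointwise (mem_univ 0))
    have hev : ∀ᶠ n in (l : Filter ℕ), ‖pe P1 (g n 0)‖ < 1 / ((n : ℝ) + 1) ∨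
        ‖pe P2 (g n 0)‖ < 1 / ((n : ℝ) + 1) := Eventually.of_forall fun n =>
      (hgS n 0 (mem_ball_self (by positivity))).2.2
    rw [Ultrafilter.eventually_or] at hev
    rcases hev with hev | hev
    · left
      exact ⟨0, tendsto_nhds_unique c1 (tendsto_zero_of_lt (fun ε hε => hyper_lt hε) hev)⟩
    · right
      exact ⟨0, tendsto_nhds_unique c2 (tendsto_zero_of_lt (fun ε hε => hyper_lt hε) hev)⟩
  have hconst := h.no_union hk hH hK (hd1.imp (fun h z => h z (mem_univ z)) fun h z => h z (mem_univ z))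
    (hd2.imp (fun h z => h z (mem_univ z)) fun h z => h z (mem_univ z)) h12
  have hzero : fderiv ℝ H 0 = 0 := by
    have : H = fun _ => H 0 := funext fun z => hconst z 0
    rw [this]
    simp
  have hlim := (hHd 0 (mem_univ 0)).norm
  rw [hzero, norm_zero] at hlim
  have h3 : Tendsto (fun n => ‖fderiv ℝ (g n) 0‖) l (𝓝 1) := by
    simp only [hg0]
    exact tendsto_const_nhds
  exact zero_ne_one (tendsto_nhds_unique hlim h3)

end Pool.Agent.H915
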