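import Pool.Agent.H915.TC.Gr11
import Pool.Agent.H915.TC.Str

/-!
Brody curves in the complement, and the derivative estimate for discs.
-/

set_option autoImplicit false

open MvPolynomial Filter Topology Metric Set

namespace Pool.Agent.H915

open Pool.Agent.Y190.OP Pool.Agent.N154.GG Pool.Agent.N155

variable {P1 P2 : Poly} {e1 e2 : ℕ} {F : ℂ → V} {M B : ℝ} {a b : ℂ}

/-- entire curves with bounded derivative in the complement: the form of the lift -/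
theorem SNC.curve (h : SNC P1 P2 e1 e2) {H : ℂ → Mat 3} {K : ℝ} (hK0 : 0 < K)
    (hH : HolP univ H) (hK : ∀ z, ‖fderiv ℝ H z‖ ≤ K) (h1 : ∀ z, pe P1 (H z) ≠ 0)
    (h2 : ∀ z, pe P2 (H z) ≠ 0) :
    ∃ (F : ℂ → V) (g : ℂ → ℂ), EC P1 P2 F K g ∧ ∀ z, Phi (F z) = H z := by
  obtain ⟨G, hG, hG0, hGH⟩ := zero_free hH
  have g1 : ∀ z, eval (G z) P1 ≠ 0 := fun z hz => h1 z (by
    rw [hGH z]
    exact (pe_eq_zero h.h1 (hG0 z)).2 hz)
  have g2 : ∀ z, eval (G z) P2 ≠ 0 := fun z hz => h2 z (by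
    rw [hGH z]
    exact (pe_eq_zero h.h2 (hG0 z)).2 hz)
  obtain ⟨F, hF, hF0, hFG, hF1, hFc⟩ := normalise h.h1 hG hG0 g1
  have hF2 : ∀ z, eval (F z) P2 ≠ 0 := by
    intro z
    obtain ⟨c, hc0, hc⟩ := hFc z
    rw [hc, eval_smul' h.h2]
    exact mul_ne_zero (pow_ne_zero _ hc0) (g2 z)
  have hPhi : ∀ z, Phi (F z) = H z := fun z => by rw [hFG, hGH]
  have hd : Differentiable ℂ fun z => eval (F z) P2 := fun z =>
    (hasDerivAt_eval P2 (hF z).hasDerivAt).differentiableAt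
  obtain ⟨g, hg, hgF⟩ := exists_log_univ hd hF2
  refine ⟨F, g, ⟨⟨hF, hF0, hK0, fun y z => ?_⟩, hF1, fun z => (hgF z).symm, hg⟩, hPhi⟩
  rw [hPhi, hPhi]
  exact lip_of_fderiv hH hK y z

/-- **Brody curves in the complement** are contained in a fibre or algebraic. -/
theorem EC.alt (hS : SNC P1 P2 e1 e2) (hk : 2 ≤ e1 + e2) {g : ℂ → ℂ} (hF : EC P1 P2 F M g) :
    (∃ β : ℂ, β ≠ 0 ∧ ∀ z, eval (F z) P2 = β) ∨
      ∃ (b : ℂ) (q : Fin 3 → Polynomial ℂ), b ≠ 0 ∧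
        ∀ z, ∃ c : ℂ, c ≠ 0 ∧ F z = c • fun i => (q i).eval (Complex.exp (b * z)) := by
  by_cases hne : ∃ x y, g x ≠ g y
  · right
    obtain ⟨c, z0, hc, hE⟩ := hF.normal hS hk hne
    obtain ⟨n, N, q, hn, hq⟩ := hE.algebraic hS hk
    have hn' : (n : ℂ) ≠ 0 := Nat.cast_ne_zero.2 hn.ne'
    have hcn : c * n ≠ 0 := mul_ne_zero hc hn'
    refine ⟨(c * n)⁻¹, fun i => (q i).comp (Polynomial.C (Complex.exp (-(c * n)⁻¹ * z0)) *
      Polynomial.X), inv_ne_zero hcn, fun z => ?_⟩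
    obtain ⟨w, hw⟩ : ∃ w, w = (c * n)⁻¹ * (z - z0) := ⟨_, rfl⟩
    have hz : c * (n * w) + z0 = z := by
      rw [hw, ← mul_assoc, ← mul_assoc, mul_inv_cancel₀ hcn, one_mul, sub_add_cancel]
    have h3 := hq w
    rw [hz] at h3
    refine ⟨(Complex.exp (N * w))⁻¹, inv_ne_zero (Complex.exp_ne_zero _), ?_⟩
    have h4 : (fun i => ((q i).comp (Polynomial.C (Complex.exp (-(c * n)⁻¹ * z0)) *
        Polynomial.X)).eval (Complex.exp ((c * n)⁻¹ * z))) = fun i => (q i).eval (Complex.exp w) := by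
      funext i
      rw [Polynomial.eval_comp, Polynomial.eval_mul, Polynomial.eval_C, Polynomial.eval_X,
        ← Complex.exp_add, hw]
      congr 2
      ring
    rw [h4, h3, smul_smul, inv_mul_cancel₀ (Complex.exp_ne_zero _), one_smul]
  · left
    push Not at hne
    exact ⟨Complex.exp (g 0), Complex.exp_ne_zero _, fun z => by rw [hF.v2, hne z 0]⟩

/-- no Brody curves in the fibres -/
def FibHyp (P1 P2 : Poly) : Prop := ∀ (F : ℂ → V) (M : ℝ) (b : ℂ), BC F M → b ≠ 0 →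
  (∀ z, eval (F z) P1 = 1) → (∀ z, eval (F z) P2 = b) → ∀ x y, Phi (F x) = Phi (F y)

/-- no maps from the multiplicative group -/
def GmHyp (P1 P2 : Poly) : Prop := ∀ q : Fin 3 → Polynomial ℂ,
  (∀ t : ℂ, t ≠ 0 → eval (fun i => (q i).eval t) P1 ≠ 0 ∧ eval (fun i => (q i).eval t) P2 ≠ 0) →
    ∀ s t : ℂ, s ≠ 0 → t ≠ 0 → ∀ i j,
      (q i).eval s * (q j).eval t = (q j).eval s * (q i).eval t

theorem Phi_eq_of_par {u v : V} (hu : u ≠ 0) (hv : v ≠ 0) (h : ∀ i j, u i * v j = u j * v i) :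
    Phi u = Phi v := (Phi_eq_iff hu hv).2 h

theorem EC.const (hS : SNC P1 P2 e1 e2) (hk : 2 ≤ e1 + e2) {g : ℂ → ℂ} (hF : EC P1 P2 F M g)
    (hf : FibHyp P1 P2) (hg : GmHyp P1 P2) (x y : ℂ) : Phi (F x) = Phi (F y) := by
  rcases hF.alt hS hk with ⟨β, hβ, h1⟩ | ⟨b, q, hb, h1⟩
  · exact hf F M β hF.toBC hβ hF.v1 h1 x y
  · have hev : ∀ t : ℂ, t ≠ 0 → eval (fun i => (q i).eval t) P1 ≠ 0 ∧
        eval (fun i => (q i).eval t) P2 ≠ 0 := by
      intro t ht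
      obtain ⟨c, hc, h2⟩ := h1 (Complex.log t / b)
      rw [mul_div_cancel₀ _ hb, Complex.exp_log ht] at h2
      have h3 := hF.v1 (Complex.log t / b)
      have h4 := hF.v2 (Complex.log t / b)
      rw [h2, eval_smul' hS.h1] at h3
      rw [h2, eval_smul' hS.h2] at h4
      constructor
      · intro h0
        rw [h0, mul_zero] at h3
        exact zero_ne_one h3
      · intro h0
        rw [h0, mul_zero] at h4
        exact Complex.exp_ne_zero _ h4.symm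
    obtain ⟨c, hc, h2⟩ := h1 x
    obtain ⟨d, hd, h3⟩ := h1 y
    refine Phi_eq_of_par (hF.ne x) (hF.ne y) fun i j => ?_
    have h4 := hg q hev (Complex.exp (b * x)) (Complex.exp (b * y)) (Complex.exp_ne_zero _)
      (Complex.exp_ne_zero _) i j
    rw [h2, h3]
    simp only [Pi.smul_apply, smul_eq_mul]
    linear_combination c * d * h4

end Pool.Agent.H915
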