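import Pool.Agent.H915.TC.As1

/-!
The derivative estimate for discs in the complement.
-/

set_option autoImplicit false

open MvPolynomial Filter Topology Metric Set

namespace Pool.Agent.H915

open Pool.Agent.Y190.OP Pool.Agent.N154.GG Pool.Agent.N155

variable {P1 P2 : Poly} {e1 e2 : ℕ} {F : ℂ → V} {M B : ℝ} {a b : ℂ}

/-- there are no nonconstant curves with bounded derivative in the complement -/
def BroHyp (P1 P2 : Poly) : Prop := ∀ (H : ℂ → Mat 3) (K : ℝ), 0 < K → HolP univ H →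
  (∀ z, ‖fderiv ℝ H z‖ ≤ K) → (∀ z, pe P1 (H z) ≠ 0) → (∀ z, pe P2 (H z) ≠ 0) → ∀ x y, H x = H y

theorem SNC.bro (h : SNC P1 P2 e1 e2) (hk : 2 ≤ e1 + e2) (hf : FibHyp P1 P2)
    (hg : GmHyp P1 P2) : BroHyp P1 P2 := by
  intro H K hK0 hH hK h1 h2 x y
  obtain ⟨F, f, hF, hFH⟩ := h.curve hK0 hH hK h1 h2
  rw [← hFH x, ← hFH y]
  exact hF.const h hk hf hg x y

/-- **The derivative estimate** -/
theorem SNC.grad (h : SNC P1 P2 e1 e2) (hk : 2 ≤ e1 + e2) (hB : BroHyp P1 P2) : ∃ C : ℝ, 0 < C ∧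
    ∀ (φ : ℂ → Mat 3) (z0 : ℂ) (R : ℝ), 0 < R → HolP (ball z0 R) φ →
      (∀ z ∈ ball z0 R, pe P1 (φ z) ≠ 0 ∧ pe P2 (φ z) ≠ 0) → ‖fderiv ℝ φ z0‖ ≤ C / R := by
  by_contra hcon
  push Not at hcon
  have hcon' : ∀ n : ℕ, ∃ h : ℂ → Mat 3, HolP (ball 0 (n + 1 : ℝ)) h ∧
      (∀ z ∈ ball (0 : ℂ) (n + 1 : ℝ), h z ∈ {M : Mat 3 | pe P1 M ≠ 0 ∧ pe P2 M ≠ 0}) ∧
      (∀ z ∈ ball (0 : ℂ) ((n + 1 : ℝ) / 2), ‖fderiv ℝ h z‖ ≤ 2) ∧ ‖fderiv ℝ h 0‖ = 1 := by
    intro n
    obtain ⟨φ, z0, R, hR, hφ, hS, hbig⟩ := hcon (2 * (n + 1)) (by positivity)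
    have haff : ∀ z ∈ ball (0 : ℂ) 1, aff z0 R z ∈ ball z0 R := by
      intro z hz
      rw [mem_ball_zero_iff] at hz
      rw [mem_ball, dist_eq_norm]
      unfold aff
      rw [add_sub_cancel_left, norm_mul, Complex.norm_real, Real.norm_of_nonneg hR.le]
      nlinarith
    refine rescale (S := {M : Mat 3 | pe P1 M ≠ 0 ∧ pe P2 M ≠ 0})
      (Ψ := fun z => φ (aff z0 R z)) (by positivity) ((hφ.aff z0 R).mono haff)
      (fun z hz => hS _ (haff z hz)) ?_
    have hz0 : aff z0 R 0 = z0 := by simp [aff]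
    rw [norm_fderiv_aff hR.le (by rw [hz0]; exact hφ.differentiableAt (mem_ball_self hR)), hz0]
    rw [div_lt_iff₀ hR] at hbig
    linarith
  choose g hg hgS hgd hg0 using hcon'
  set l : Ultrafilter ℕ := hyperfilter ℕ with hl
  have hcof : ∀ R : ℝ, ∀ᶠ n : ℕ in (l : Filter ℕ), R ≤ n := by
    intro R
    have h2 : ∀ᶠ n : ℕ in atTop, R ≤ n := by
      filter_upwards [eventually_ge_atTop ⌈R⌉₊] with n hn
      exact (Nat.le_ceil R).trans (by exact_mod_cast hn)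
    have h3 : (l : Filter ℕ) ≤ atTop := by
      rw [← Nat.cofinite_eq_atTop]
      exact hyperfilter_le_cofinite
    exact h3 h2
  have hsub : ∀ z : ℂ, ∀ᶠ n : ℕ in (l : Filter ℕ),
      ball z 1 ⊆ ball (0 : ℂ) ((n + 1 : ℝ) / 2) ∧ ball z 1 ⊆ ball (0 : ℂ) (n + 1 : ℝ) := by
    intro z
    filter_upwards [hcof (2 * (‖z‖ + 1))] with n hn
    constructor
    · intro w hw
      rw [mem_ball, dist_eq_norm] at hw
      rw [mem_ball_zero_iff]
      have := norm_add_le (w - z) z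
      rw [sub_add_cancel] at this
      linarith
    · intro w hw
      rw [mem_ball, dist_eq_norm] at hw
      rw [mem_ball_zero_iff]
      have := norm_add_le (w - z) z
      rw [sub_add_cancel] at this
      have := norm_nonneg z
      linarith
  obtain ⟨H, hc, hH, hHd⟩ := nf_limit (l := l) (U := univ) (h := g) isOpen_univ (fun z _ => by
    refine ⟨1, 2, one_pos, ?_⟩
    filter_upwards [hsub z] with n hn
    exact ⟨(hg n).mono hn.2, fun w hw => hgd n w (hn.1 hw)⟩)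
  have hK : ∀ z, ‖fderiv ℝ H z‖ ≤ 2 := by
    intro z
    refine le_of_tendsto (hHd z (mem_univ z)).norm ?_
    filter_upwards [hsub z] with n hn
    exact hgd n z (hn.1 (mem_ball_self one_pos))
  have hd1 : (∀ z ∈ (univ : Set ℂ), pe P1 (H z) = 0) ∨ ∀ z ∈ (univ : Set ℂ), pe P1 (H z) ≠ 0 :=
    dich h.h1 isOpen_univ isPreconnected_univ (fun z _ => ⟨1, one_pos, by
      filter_upwards [hsub z] with n hn
      exact ⟨(hg n).mono hn.2, fun w hw => (hgS n w (hn.2 hw)).1⟩⟩) hc hH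
  have hd2 : (∀ z ∈ (univ : Set ℂ), pe P2 (H z) = 0) ∨ ∀ z ∈ (univ : Set ℂ), pe P2 (H z) ≠ 0 :=
    dich h.h2 isOpen_univ isPreconnected_univ (fun z _ => ⟨1, one_pos, by
      filter_upwards [hsub z] with n hn
      exact ⟨(hg n).mono hn.2, fun w hw => (hgS n w (hn.2 hw)).2⟩⟩) hc hH
  have hd1' := hd1.imp (fun h z => h z (mem_univ z)) fun h z => h z (mem_univ z)
  have hd2' := hd2.imp (fun h z => h z (mem_univ z)) fun h z => h z (mem_univ z)
  have hconst : ∀ x y, H x = H y := by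
    by_cases h12 : (∃ z, pe P1 (H z) = 0) ∨ ∃ z, pe P2 (H z) = 0
    · exact h.no_union hk hH hK hd1' hd2' h12
    · push Not at h12
      exact hB H 2 two_pos hH hK h12.1 h12.2
  have hzero : fderiv ℝ H 0 = 0 := by
    have : H = fun _ => H 0 := funext fun z => hconst z 0
    rw [this]
    simp
  have hlim := (hHd 0 (mem_univ 0)).norm
  rw [hzero, norm_zero] at hlim
  have h3 : Tendsto (fun n => ‖fderiv ℝ (g n) 0‖) l (𝓝 1) := by
    simp only [hg0]
    exact tendsto_const_nhds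
  exact zero_ne_one (tendsto_nhds_unique hlim h3)

end Pool.Agent.H915
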