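import Pool.Agent.H915.TC.As2

/-!
The derivative of a curve in homogeneous coordinates and in the space of projections.
-/

set_option autoImplicit false

open MvPolynomial Filter Topology Metric Set

namespace Pool.Agent.H915

open Pool.Agent.Y190.OP

variable {P1 P2 : Poly} {e1 e2 : ℕ} {F : ℂ → V} {M B : ℝ} {a b : ℂ}

/-- the distance of projections is bounded by the minors -/
theorem Phi_sub_le {u v : V} (hu : u ≠ 0) (hv : v ≠ 0) {W : ℝ} (hW0 : 0 ≤ W)
    (hW : ∀ i j, ‖u i * v j - u j * v i‖ ≤ W * (‖u‖ * ‖v‖)) : ‖Phi u - Phi v‖ ≤ 6 * W := by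
  have hu1 : 0 < sq u := sq_pos hu
  have hv1 : 0 < sq v := sq_pos hv
  have hun : 0 < ‖u‖ := norm_pos_iff.2 hu
  have hvn : 0 < ‖v‖ := norm_pos_iff.2 hv
  rw [pi_norm_le_iff_of_nonneg (by positivity)]
  intro j
  rw [pi_norm_le_iff_of_nonneg (by positivity)]
  intro k
  have e1 : Phi u j k - Phi v j k =
      (∑ l, ((u j * v l - u l * v j) * (starRingEnd ℂ (u k) * starRingEnd ℂ (v l)) +
        u l * v j * starRingEnd ℂ (u k * v l - u l * v k))) / ((sq u : ℂ) * (sq v : ℂ)) := by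
    have h1 : (sq u : ℂ) ≠ 0 := by exact_mod_cast hu1.ne'
    have h2 : (sq v : ℂ) ≠ 0 := by exact_mod_cast hv1.ne'
    unfold Phi
    rw [nsq_sq, nsq_sq, div_sub_div _ _ h1 h2]
    congr 1
    rw [← nsq_sq, ← nsq_sq]
    unfold nsq
    rw [Finset.mul_sum, Finset.sum_mul, ← Finset.sum_sub_distrib]
    refine Finset.sum_congr rfl fun l _ => ?_
    rw [map_sub, map_mul, map_mul]
    ring
  rw [Pi.sub_apply, Pi.sub_apply, e1, norm_div, div_le_iff₀ (by
    rw [norm_mul, Complex.norm_real, Complex.norm_real, Real.norm_of_nonneg hu1.le,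
      Real.norm_of_nonneg hv1.le]
    positivity)]
  have e2 : ∀ l, ‖(u j * v l - u l * v j) * (starRingEnd ℂ (u k) * starRingEnd ℂ (v l)) +
      u l * v j * starRingEnd ℂ (u k * v l - u l * v k)‖ ≤ 2 * (W * (‖u‖ * ‖v‖) * (‖u‖ * ‖v‖)) := by
    intro l
    refine (norm_add_le _ _).trans ?_
    rw [norm_mul, norm_mul, norm_mul, norm_mul, Complex.norm_conj, Complex.norm_conj,
      Complex.norm_conj]
    have f1 : ‖u k‖ * ‖v l‖ ≤ ‖u‖ * ‖v‖ :=
      mul_le_mul (norm_le_pi_norm u k) (norm_le_pi_norm v l) (norm_nonneg _) (norm_nonneg _)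
    have f2 : ‖u l‖ * ‖v j‖ ≤ ‖u‖ * ‖v‖ :=
      mul_le_mul (norm_le_pi_norm u l) (norm_le_pi_norm v j) (norm_nonneg _) (norm_nonneg _)
    have f3 := mul_le_mul (hW j l) f1 (by positivity) (by positivity)
    have f4 := mul_le_mul f2 (hW k l) (norm_nonneg _) (by positivity)
    linarith
  refine (norm_sum_le _ _).trans ?_
  rw [Fin.sum_univ_three, norm_mul, Complex.norm_real, Complex.norm_real,
    Real.norm_of_nonneg hu1.le, Real.norm_of_nonneg hv1.le]
  have g1 := le_sq u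
  have g2 := le_sq v
  have g3 : ‖u‖ ^ 2 * ‖v‖ ^ 2 ≤ sq u * sq v := mul_le_mul g1 g2 (by positivity) (by positivity)
  have h0 := e2 0
  have h1 := e2 1
  have h2 := e2 2
  calc _ ≤ 6 * (W * (‖u‖ * ‖v‖) * (‖u‖ * ‖v‖)) := by linarith
    _ = 6 * W * (‖u‖ ^ 2 * ‖v‖ ^ 2) := by ring
    _ ≤ _ := by gcongr

/-- the derivative of the projection is bounded by the minors of the curve and its derivative -/
theorem fderiv_Phi_le {U : Set ℂ} (hU : IsOpen U) (hF : DifferentiableOn ℂ F U)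
    (h0 : ∀ z ∈ U, F z ≠ 0) {z : ℂ} (hz : z ∈ U) {M : ℝ} (hM : 0 ≤ M)
    (hm : ∀ i j, ‖F z i * deriv F z j - F z j * deriv F z i‖ ≤ M * ‖F z‖ ^ 2) :
    ‖fderiv ℝ (fun y => Phi (F y)) z‖ ≤ 6 * M := by
  have hHol : HolP U (fun y => Phi (F y)) := fun w hw =>
    ⟨U, F, hU, hw, hF, fun x hx => ⟨h0 x hx, rfl⟩⟩
  have hd := (hHol.differentiableAt hz).hasFDerivAt
  have hn : 0 < ‖F z‖ := norm_pos_iff.2 (h0 z hz)
  have hdz : DifferentiableAt ℂ F z := hF.differentiableAt (hU.mem_nhds hz)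
  refine le_of_forall_gt_imp_ge_of_dense fun C hC => ?_
  refine hd.le_of_lip' (by linarith [mul_nonneg (by norm_num : (0:ℝ) ≤ 6) hM]) ?_
  -- the minors near the point
  have hC6 : M < C / 6 := by linarith
  obtain ⟨C', hC1, hC2⟩ := exists_between hC6
  have hmin : ∀ i j, ∀ᶠ y in 𝓝 z, ‖F y i * F z j - F y j * F z i‖ ≤ C' * ‖F z‖ ^ 2 * ‖y - z‖ := by
    intro i j
    have hdi : HasDerivAt (fun y => F y i) (deriv F z i) z := (hasDerivAt_pi.1 hdz.hasDerivAt) i
    have hdj : HasDerivAt (fun y => F y j) (deriv F z j) z := (hasDerivAt_pi.1 hdz.hasDerivAt) j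
    have h1 := (hdi.mul_const (F z j)).sub (hdj.mul_const (F z i))
    have h2 := h1.hasFDerivAt.isLittleO.def (c := (C' - M) * ‖F z‖ ^ 2) (by
      have : 0 < C' - M := by linarith
      positivity)
    filter_upwards [h2] with y hy
    have h3 : F y i * F z j - F y j * F z i =
        ((F y i * F z j - F y j * F z i) - (F z i * F z j - F z j * F z i) -
          (y - z) * (deriv F z i * F z j - deriv F z j * F z i)) +
          (y - z) * (deriv F z i * F z j - deriv F z j * F z i) := by ring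
    have h4 : ‖(F y i * F z j - F y j * F z i) - (F z i * F z j - F z j * F z i) -
          (y - z) * (deriv F z i * F z j - deriv F z j * F z i)‖ ≤
          (C' - M) * ‖F z‖ ^ 2 * ‖y - z‖ := by
      simpa using hy
    rw [h3]
    refine (norm_add_le _ _).trans ?_
    have h5 : ‖(y - z) * (deriv F z i * F z j - deriv F z j * F z i)‖ ≤
        ‖y - z‖ * (M * ‖F z‖ ^ 2) := by
      rw [norm_mul]
      refine mul_le_mul_of_nonneg_left ?_ (norm_nonneg _)
      have := hm j i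
      rwa [show F z j * deriv F z i - F z i * deriv F z j =
        deriv F z i * F z j - deriv F z j * F z i by ring] at this
    calc _ ≤ (C' - M) * ‖F z‖ ^ 2 * ‖y - z‖ + ‖y - z‖ * (M * ‖F z‖ ^ 2) := add_le_add h4 h5
      _ = _ := by ring
  have hcn : ∀ᶠ y in 𝓝 z, C' * ‖F z‖ ≤ C / 6 * ‖F y‖ := by
    have h1 : ContinuousAt (fun y => C / 6 * ‖F y‖) z := hdz.continuousAt.norm.const_mul _
    have h2 : C' * ‖F z‖ < C / 6 * ‖F z‖ := by gcongr
    exact (h1.eventually_const_lt h2).mono fun y hy => hy.le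
  filter_upwards [eventually_all.2 fun i => eventually_all.2 (hmin i), hcn, hU.mem_nhds hz] with
    y hy1 hy2 hyU
  have hC0 : 0 ≤ C / 6 := by linarith
  have h6 := Phi_sub_le (h0 y hyU) (h0 z hz) (W := C / 6 * ‖y - z‖) (by positivity) (fun i j => by
    refine (hy1 i j).trans ?_
    calc C' * ‖F z‖ ^ 2 * ‖y - z‖ = (C' * ‖F z‖) * (‖F z‖ * ‖y - z‖) := by ring
      _ ≤ (C / 6 * ‖F y‖) * (‖F z‖ * ‖y - z‖) := by gcongr
      _ = _ := by ring)
  refine h6.trans (le_of_eq ?_)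
  ring

/-- the derivative of a ratio of coordinates, in an open set -/
theorem ratio_deriv' {z : ℂ} {m : ℝ} (hm : 0 ≤ m) (hF : DifferentiableAt ℂ F z)
    (hz : F z ≠ 0) (h0 : ∀ᶠ y in 𝓝 z, F y ≠ 0)
    (hL : Lip F z m) {i : Fin 3} (hi : ‖F z i‖ = ‖F z‖) (j : Fin 3) :
    ‖F z i * deriv F z j - F z j * deriv F z i‖ ≤ 24 * m * ‖F z‖ ^ 2 := by
  have hn : 0 < ‖F z‖ := norm_pos_iff.2 hz
  have hFi : F z i ≠ 0 := by
    rw [← norm_pos_iff, hi]
    exact hn
  set φ : ℂ → Mat 3 := fun y => Phi (F y) with hφ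
  have hdz : ‖φ z i i‖ ≥ 1 / 3 := by
    rw [hφ]
    simp only
    rw [Phi_diag, Complex.norm_real, Real.norm_of_nonneg (by have := sq_nonneg' (F z); positivity),
      hi, ge_iff_le, div_le_div_iff₀ (by norm_num) (sq_pos hz)]
    have := sq_le (F z)
    linarith
  have hcont : ContinuousAt φ z := (continuousAt_Phi hz).comp hF.continuousAt
  have hcii : ContinuousAt (fun y => φ y i i) z := (continuous_apply_apply i i).continuousAt.comp hcont
  have hdy : ∀ᶠ y in 𝓝 z, 1 / 4 < ‖φ y i i‖ :=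
    hcii.norm.eventually_const_lt (by linarith)
  have hle1 : ∀ (u : V), u ≠ 0 → ∀ j k, ‖Phi u j k‖ ≤ 1 := by
    intro u hu j k
    unfold Phi
    rw [nsq_sq, norm_div, norm_mul, Complex.norm_conj, Complex.norm_real,
      Real.norm_of_nonneg (sq_nonneg' u), div_le_one (sq_pos hu)]
    refine le_trans ?_ (le_sq u)
    rw [pow_two]
    exact mul_le_mul (norm_le_pi_norm u j) (norm_le_pi_norm u k) (norm_nonneg _) (norm_nonneg _)
  have hcoord : ∀ᶠ y in 𝓝 z, ‖F y j / F y i - F z j / F z i‖ ≤ 24 * m * ‖y - z‖ := by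
    filter_upwards [hL, hdy, h0] with y hy hy2 hy0
    have hyi : F y i ≠ 0 := by
      have h1 : φ y i i ≠ 0 := by
        intro h
        rw [h, norm_zero] at hy2
        norm_num at hy2
      exact (Phi_diag_ne hy0).1 h1
    have e1 : F y j / F y i = φ y j i / φ y i i := (Phi_ratio hy0 hyi j).symm
    have e2 : F z j / F z i = φ z j i / φ z i i := (Phi_ratio hz hFi j).symm
    have hny : φ y i i ≠ 0 := (Phi_diag_ne hy0).2 hyi
    have hnz : φ z i i ≠ 0 := (Phi_diag_ne hz).2 hFi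
    rw [e1, e2]
    have e3 : φ y j i / φ y i i - φ z j i / φ z i i =
        ((φ y j i - φ z j i) * φ z i i + φ z j i * (φ z i i - φ y i i)) / (φ y i i * φ z i i) := by
      field_simp
      ring
    have hentry : ∀ j k, ‖φ y j k - φ z j k‖ ≤ m * ‖y - z‖ := fun j k =>
      ((norm_le_pi_norm (φ y j - φ z j) k).trans (norm_le_pi_norm (φ y - φ z) j)).trans hy
    rw [e3, norm_div, norm_mul, div_le_iff₀ (by positivity)]
    have e4 : ‖(φ y j i - φ z j i) * φ z i i + φ z j i * (φ z i i - φ y i i)‖ ≤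
        2 * (m * ‖y - z‖) := by
      refine (norm_add_le _ _).trans ?_
      rw [norm_mul, norm_mul]
      have f1 := hle1 (F z) hz i i
      have f2 := hle1 (F z) hz j i
      have f3 := hentry j i
      have f4 := hentry i i
      rw [norm_sub_rev] at f4
      have f5 : ‖φ y j i - φ z j i‖ * ‖φ z i i‖ ≤ (m * ‖y - z‖) * 1 :=
        mul_le_mul f3 f1 (norm_nonneg _) (by positivity)
      have f6 : ‖φ z j i‖ * ‖φ z i i - φ y i i‖ ≤ 1 * (m * ‖y - z‖) :=
        mul_le_mul f2 f4 (norm_nonneg _) (by positivity)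
      linarith
    have e5 : 1 / 12 ≤ ‖φ y i i‖ * ‖φ z i i‖ := by
      have := mul_le_mul hy2.le hdz (by norm_num) (norm_nonneg _)
      linarith
    have e6 : 0 ≤ m * ‖y - z‖ := by positivity
    nlinarith
  have hdj : HasDerivAt (fun y => F y j) (deriv F z j) z :=
    (hasDerivAt_pi.1 hF.hasDerivAt) j
  have hdi : HasDerivAt (fun y => F y i) (deriv F z i) z :=
    (hasDerivAt_pi.1 hF.hasDerivAt) i
  have hdq := hdj.div hdi hFi
  have hb := hdq.le_of_lip' (C := 24 * m) (by positivity) hcoord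
  rw [norm_div, norm_pow, hi, div_le_iff₀ (by positivity)] at hb
  calc ‖F z i * deriv F z j - F z j * deriv F z i‖ =
      ‖deriv F z j * F z i - F z j * deriv F z i‖ := by ring_nf
    _ ≤ _ := hb

/-- the minors are bounded by the derivative of the projection -/
theorem minors_le {U : Set ℂ} (hU : IsOpen U) (hF : DifferentiableOn ℂ F U)
    (h0 : ∀ z ∈ U, F z ≠ 0) {z : ℂ} (hz : z ∈ U) {m : ℝ}
    (hm : ‖fderiv ℝ (fun y => Phi (F y)) z‖ ≤ m) (j k : Fin 3) :
    ‖F z j * deriv F z k - F z k * deriv F z j‖ ≤ 48 * m * ‖F z‖ ^ 2 := by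
  have hHol : HolP U (fun y => Phi (F y)) := fun w hw =>
    ⟨U, F, hU, hw, hF, fun x hx => ⟨h0 x hx, rfl⟩⟩
  have hm0 : 0 ≤ m := (norm_nonneg _).trans hm
  have hdz : DifferentiableAt ℂ F z := hF.differentiableAt (hU.mem_nhds hz)
  have hne : ∀ᶠ y in 𝓝 z, F y ≠ 0 := by
    filter_upwards [hU.mem_nhds hz] with y hy
    exact h0 y hy
  have hn : 0 < ‖F z‖ := norm_pos_iff.2 (h0 z hz)
  obtain ⟨i, hi⟩ := exists_norm_eq (F z)
  have h1 : ∀ j, ‖F z i * deriv F z j - F z j * deriv F z i‖ ≤ 24 * m * ‖F z‖ ^ 2 := by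
    intro j
    refine le_of_forall_gt_imp_ge_of_dense fun C hC => ?_
    have hC' : m < C / (24 * ‖F z‖ ^ 2) := by
      rw [lt_div_iff₀ (by positivity)]
      linarith
    have h2 : Lip F z (C / (24 * ‖F z‖ ^ 2)) :=
      lip_of_fderivAt (hHol.differentiableAt hz) (hm.trans_lt hC')
    have h3 := ratio_deriv' (hm0.trans hC'.le) hdz (h0 z hz) hne h2 hi j
    refine h3.trans (le_of_eq ?_)
    field_simp
  have e : F z i * (F z j * deriv F z k - F z k * deriv F z j) =
      F z j * (F z i * deriv F z k - F z k * deriv F z i) -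
      F z k * (F z i * deriv F z j - F z j * deriv F z i) := by ring
  have h3 : ‖F z‖ * ‖F z j * deriv F z k - F z k * deriv F z j‖ ≤
      ‖F z‖ * (48 * m * ‖F z‖ ^ 2) := by
    calc ‖F z‖ * ‖F z j * deriv F z k - F z k * deriv F z j‖ =
        ‖F z i * (F z j * deriv F z k - F z k * deriv F z j)‖ := by rw [norm_mul, hi]
      _ ≤ ‖F z‖ * (24 * m * ‖F z‖ ^ 2) + ‖F z‖ * (24 * m * ‖F z‖ ^ 2) := by
          rw [e]
          refine (norm_sub_le _ _).trans ?_
          rw [norm_mul, norm_mul]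
          exact add_le_add (mul_le_mul (norm_le_pi_norm _ j) (h1 k) (norm_nonneg _) hn.le)
            (mul_le_mul (norm_le_pi_norm _ k) (h1 j) (norm_nonneg _) hn.le)
      _ = _ := by ring
  exact le_of_mul_le_mul_left h3 hn

end Pool.Agent.H915
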