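import Pool.Agent.H915.TC.As3
import Pool.Graph.R_pool_sql_team_seeded_63374d34.N154.DD.Kw
import Pool.Graph.R_seed8.W603.BP.Extn

/-!
The big Picard theorem from the derivative estimate.
-/

set_option autoImplicit false

open MvPolynomial Filter Topology Metric Set

namespace Pool.Agent.H915

open Pool.Agent.Y190.OP Pool.Agent.N154.GG Pool.Agent.N155
open Pool.Agent.W603.BP (Extends extends_of Nz MRel PB mem_disc)

variable {P1 P2 : Poly} {e1 e2 : ℕ} {F : ℂ → V} {M B : ℝ} {a b : ℂ}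

/-- the punctured disc -/
def PD : Set ℂ := ball (0 : ℂ) 1 \ {0}

theorem isOpen_PD : IsOpen PD := isOpen_ball.sdiff isClosed_singleton

theorem exp_mem_PD {z : ℂ} (hz : z ∈ HP) : Complex.exp z ∈ PD := by
  refine ⟨?_, Complex.exp_ne_zero z⟩
  rw [mem_ball_zero_iff, Complex.norm_exp, Real.exp_lt_one_iff]
  exact hz

/-- the derivative estimate for discs -/
def GradEst (P1 P2 : Poly) : Prop := ∃ C : ℝ, 0 < C ∧
    ∀ (φ : ℂ → Mat 3) (z0 : ℂ) (R : ℝ), 0 < R → HolP (ball z0 R) φ →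
      (∀ z ∈ ball z0 R, pe P1 (φ z) ≠ 0 ∧ pe P2 (φ z) ≠ 0) → ‖fderiv ℝ φ z0‖ ≤ C / R

/-- **The big Picard theorem** -/
theorem picard_of (h1 : P1.IsHomogeneous (e1 + 1)) (h2 : P2.IsHomogeneous (e2 + 1))
    (hgr : GradEst P1 P2) {f : ℂ → V}
    (hf : DifferentiableOn ℂ f PD)
    (hX : ∀ z ∈ PD, f z ≠ 0 ∧ eval (f z) P1 ≠ 0 ∧ eval (f z) P2 ≠ 0) :
    Extends (n := 2) f := by
  classical
  obtain ⟨C, hC, hgrad⟩ := hgr
  set Q : ℂ → Mat 3 := fun z => Phi (f z) with hQ
  have hQh : HolP PD Q := fun z hz =>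
    ⟨PD, f, isOpen_PD, hz, hf, fun w hw => ⟨(hX w hw).1, rfl⟩⟩
  set P : ℂ → Mat 3 := fun z => Q (Complex.exp z) with hPdef
  have hP : HolP HP P := holP_comp_l hQh Complex.differentiable_exp.differentiableOn isOpen_HP
    (fun z hz => exp_mem_PD hz)
  have hPT : ∀ z ∈ HP, P z ∈ (PM : Set (Mat 3)) := fun z hz => hP.mem_PM hz
  have hper : ∀ z ∈ HP, P (z + tpi) = P z := by
    intro z _
    change Q (Complex.exp (z + tpi)) = Q (Complex.exp z)
    rw [show Complex.exp (z + tpi) = Complex.exp z from Complex.exp_periodic z]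
  obtain ⟨M0, hM0, hlim⟩ := kwack PM_compact subset_rfl hP hPT hper (fun ε hε => by
    refine ⟨C / ε, by positivity, fun z hz => ?_⟩
    have hz0 : 0 < -z.re := by
      have : 0 < C / ε := by positivity
      linarith
    have hsub : ball z (-z.re) ⊆ HP := by
      intro w hw
      rw [mem_ball, dist_eq_norm] at hw
      have h1 := Complex.re_le_norm (w - z)
      rw [Complex.sub_re] at h1
      change w.re < 0
      linarith
    have h3 := hgrad P z (-z.re) hz0 (hP.mono hsub) (fun w hw => by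
      have h4 := exp_mem_PD (hsub hw)
      obtain ⟨k0, k1, k2⟩ := hX _ h4
      exact ⟨fun h => k1 ((pe_eq_zero h1 k0).1 h), fun h => k2 ((pe_eq_zero h2 k0).1 h)⟩)
    refine h3.trans ?_
    rw [div_le_iff₀ hz0]
    have h5 : C / ε ≤ -z.re := by linarith
    rw [div_le_iff₀ hε] at h5
    linarith)
  -- the limit at the origin
  have hQlim : Tendsto Q (𝓝[≠] 0) (𝓝 M0) := by
    rw [Metric.tendsto_nhdsWithin_nhds]
    intro ε hε
    obtain ⟨A, hA, hA'⟩ := hlim (ε / 2) (by positivity)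
    refine ⟨Real.exp (-A), Real.exp_pos _, fun {z} hz hzA => ?_⟩
    have hz0 : z ≠ 0 := hz
    rw [dist_zero_right] at hzA
    have h3 := hA' (Complex.log z) (by
      rw [Complex.log_re]
      rw [← Real.log_exp (-A)]
      exact Real.log_le_log (norm_pos_iff.2 hz0) hzA.le)
    change ‖Q (Complex.exp (Complex.log z)) - M0‖ ≤ ε / 2 at h3
    rw [Complex.exp_log hz0] at h3
    rw [dist_eq_norm]
    linarith
  obtain ⟨i, hi⟩ := PM.exists_diag hM0
  have hPDm : ∀ᶠ z in 𝓝[≠] (0 : ℂ), z ∈ PD := by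
    rw [eventually_nhdsWithin_iff]
    filter_upwards [ball_mem_nhds (0 : ℂ) one_pos] with z hz hz0
    exact ⟨hz, hz0⟩
  have hdiag : ∀ᶠ z in 𝓝[≠] (0 : ℂ), f z i ≠ 0 := by
    have hc : Tendsto (fun z => Q z i i) (𝓝[≠] 0) (𝓝 (M0 i i)) :=
      ((continuous_apply_apply i i).tendsto M0).comp hQlim
    filter_upwards [hc.eventually_ne hi, hPDm] with z hz hzP
    exact (Phi_diag_ne (hX z hzP).1).1 hz
  set r : Fin 3 → ℂ → ℂ := fun j z => if z = 0 then M0 j i / M0 i i else f z j / f z i with hr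
  have hr0 : ∀ j, r j 0 = M0 j i / M0 i i := fun j => if_pos rfl
  have hrn : ∀ j z, z ≠ 0 → r j z = f z j / f z i := fun j z hz => if_neg hz
  have hran : ∀ j, AnalyticAt ℂ (r j) 0 := by
    intro j
    refine Complex.analyticAt_of_differentiable_on_punctured_nhds_of_continuousAt ?_ ?_
    · have hev : ∀ᶠ z in 𝓝[≠] (0 : ℂ), z ≠ 0 := self_mem_nhdsWithin
      filter_upwards [hdiag, hPDm, hev] with z hz1 hz2 hz3
      have hd : DifferentiableAt ℂ f z := hf.differentiableAt (isOpen_PD.mem_nhds hz2)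
      have h3 : DifferentiableAt ℂ (fun z => f z j / f z i) z :=
        (differentiableAt_pi.1 hd j).div (differentiableAt_pi.1 hd i) hz1
      refine h3.congr_of_eventuallyEq ?_
      filter_upwards [isOpen_ne.mem_nhds hz3] with w hw
      exact hrn j w hw
    · rw [continuousAt_iff_punctured_nhds, hr0]
      have h3 : Tendsto (fun z => Q z j i / Q z i i) (𝓝[≠] 0) (𝓝 (M0 j i / M0 i i)) :=
        (((continuous_apply_apply j i).tendsto M0).comp hQlim).div
          (((continuous_apply_apply i i).tendsto M0).comp hQlim) hi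
      refine h3.congr' ?_
      have hev : ∀ᶠ z in 𝓝[≠] (0 : ℂ), z ≠ 0 := self_mem_nhdsWithin
      filter_upwards [hdiag, hPDm, hev] with z hz1 hz2 hz3
      rw [hrn j z hz3]
      exact Phi_ratio (hX z hz2).1 hz1 j
  have hfr : ∀ j, ∀ᶠ z in 𝓝[≠] (0 : ℂ), f z j = r j z * f z i := by
    intro j
    have hev : ∀ᶠ z in 𝓝[≠] (0 : ℂ), z ≠ 0 := self_mem_nhdsWithin
    filter_upwards [hdiag, hev] with z hz1 hz3
    rw [hrn j z hz3, div_mul_cancel₀ _ hz1]
  have hPB : ∀ z : ℂ, z ∈ PD ↔ z ∈ PB 1 := fun z => mem_disc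
  refine extends_of f (fun j z hz => ?_) (fun z hz => (hX z ((hPB z).2 hz)).1)
    (fun j k _ hk => ?_)
  · exact (differentiableOn_pi.1 hf j).analyticAt (isOpen_PD.mem_nhds ((hPB z).2 hz))
  · have hrk : ∀ᶠ z in 𝓝[≠] (0 : ℂ), r k z ≠ 0 := by
      rcases (hran k).eventually_eq_zero_or_eventually_ne_zero with h | h
      · exfalso
        apply hk
        filter_upwards [hfr k, h.filter_mono nhdsWithin_le_nhds] with z hz1 hz2
        rw [hz1, hz2, zero_mul]
      · exact h
    refine ⟨fun z => r j z / r k z, (hran j).meromorphicAt.div (hran k).meromorphicAt, ?_⟩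
    filter_upwards [hfr j, hfr k, hrk] with z hz1 hz2 hz3
    rw [hz1, hz2]
    field_simp

end Pool.Agent.H915
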