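import Pool.Agent.H915.TC.As4

/-!
The equivalence of the hyperbolicity properties of the complement.
-/

set_option autoImplicit false

open MvPolynomial Filter Topology Metric Set

namespace Pool.Agent.H915

open Pool.Agent.Y190.OP Pool.Agent.N154.GG Pool.Agent.N155
open Pool.Agent.W603.BP (Extends)

variable {P1 P2 : Poly} {e1 e2 : ℕ} {F : ℂ → V} {M B : ℝ} {a b : ℂ}

/-- the point is in the complement -/
def InX (P1 P2 : Poly) (x : V) : Prop := x ≠ 0 ∧ eval x P1 ≠ 0 ∧ eval x P2 ≠ 0

/-- all entire curves are constant -/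
def EntHyp (P1 P2 : Poly) : Prop := ∀ f : ℂ → V, Differentiable ℂ f → (∀ z, InX P1 P2 (f z)) →
  ∀ z w i j, f z i * f w j = f z j * f w i

/-- the derivative estimate in coordinates -/
def DiscHyp (P1 P2 : Poly) : Prop := ∃ C : ℝ, ∀ (R : ℝ) (f : ℂ → V), 0 < R →
  DifferentiableOn ℂ f (ball 0 R) → (∀ z ∈ ball (0 : ℂ) R, InX P1 P2 (f z)) →
    ∀ i j, ‖f 0 i * deriv f 0 j - f 0 j * deriv f 0 i‖ * R ≤ C * ‖f 0‖ ^ 2

/-- the big Picard theorem holds -/
def PicHyp (P1 P2 : Poly) : Prop := ∀ f : ℂ → V, DifferentiableOn ℂ f (ball 0 1 \ {0}) →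
  (∀ z ∈ ball (0 : ℂ) 1 \ {0}, InX P1 P2 (f z)) → Extends (n := 2) f

theorem discHyp_of (h1 : P1.IsHomogeneous (e1 + 1)) (h2 : P2.IsHomogeneous (e2 + 1))
    (hgr : GradEst P1 P2) : DiscHyp P1 P2 := by
  obtain ⟨C, hC, hgrad⟩ := hgr
  refine ⟨48 * C, fun R f hR hf hX i j => ?_⟩
  have hHol : HolP (ball (0 : ℂ) R) (fun y => Phi (f y)) := fun w hw =>
    ⟨ball 0 R, f, isOpen_ball, hw, hf, fun x hx => ⟨(hX x hx).1, rfl⟩⟩
  have h3 := hgrad _ 0 R hR hHol (fun z hz => by
    obtain ⟨k0, k1, k2⟩ := hX z hz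
    exact ⟨fun h => k1 ((pe_eq_zero h1 k0).1 h), fun h => k2 ((pe_eq_zero h2 k0).1 h)⟩)
  have h4 := minors_le isOpen_ball hf (fun z hz => (hX z hz).1) (mem_ball_self hR) h3 i j
  calc _ ≤ 48 * (C / R) * ‖f 0‖ ^ 2 * R := mul_le_mul_of_nonneg_right h4 hR.le
    _ = _ := by field_simp

theorem picHyp_of (h1 : P1.IsHomogeneous (e1 + 1)) (h2 : P2.IsHomogeneous (e2 + 1))
    (hgr : GradEst P1 P2) : PicHyp P1 P2 := fun _ hf hX => picard_of h1 h2 hgr hf hX

/-- curves with vanishing minors are constant -/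
theorem const_of_minors {f : ℂ → V} (hf : Differentiable ℂ f) (h0 : ∀ z, f z ≠ 0)
    (hm : ∀ z i j, f z i * deriv f z j - f z j * deriv f z i = 0) (z w : ℂ) :
    Phi (f z) = Phi (f w) := by
  have hd : ∀ z, fderiv ℝ (fun y => Phi (f y)) z = 0 := by
    intro z
    have h1 := fderiv_Phi_le (M := 0) isOpen_univ hf.differentiableOn (fun z _ => h0 z)
      (mem_univ z) le_rfl (fun i j => by rw [hm, norm_zero, zero_mul])
    rw [mul_zero] at h1
    exact norm_le_zero_iff.1 h1
  have hHol : HolP univ (fun y => Phi (f y)) := holP_Phi hf h0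
  exact is_const_of_fderiv_eq_zero (𝕜 := ℝ) (fun z => hHol.differentiableAt (mem_univ z)) hd z w

theorem entHyp_of_disc (hD : DiscHyp P1 P2) : EntHyp P1 P2 := by
  obtain ⟨C, hD⟩ := hD
  intro f hf hX z w i j
  have hm : ∀ z i j, f z i * deriv f z j - f z j * deriv f z i = 0 := by
    intro z i j
    set g : ℂ → V := fun y => f (y + z) with hg
    have hgd : Differentiable ℂ g := hf.comp (by fun_prop)
    have hder : deriv g 0 = deriv f z := by
      have h1 : HasDerivAt f (deriv f z) (0 + z) := by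
        rw [zero_add]
        exact (hf z).hasDerivAt
      exact (h1.comp_add_const 0 z).deriv
    have hg0 : g 0 = f z := by rw [hg]; simp
    have key : ∀ R : ℝ, 0 < R → ‖f z i * deriv f z j - f z j * deriv f z i‖ ≤
        C * ‖f z‖ ^ 2 / R := by
      intro R hR
      have h1 := hD R g hR hgd.differentiableOn (fun y _ => hX _) i j
      rw [hder, hg0] at h1
      rw [le_div_iff₀ hR]
      exact h1
    have h2 : Tendsto (fun R : ℝ => C * ‖f z‖ ^ 2 / R) atTop (𝓝 0) :=
      tendsto_const_nhds.div_atTop tendsto_id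
    have h3 : ‖f z i * deriv f z j - f z j * deriv f z i‖ ≤ 0 :=
      ge_of_tendsto h2 ((eventually_gt_atTop 0).mono key)
    exact norm_le_zero_iff.1 h3
  have h1 := const_of_minors hf (fun z => (hX z).1) hm z w
  exact (Phi_eq_iff (hX z).1 (hX w).1).1 h1 i j

theorem bro_of_ent (h1 : P1.IsHomogeneous (e1 + 1)) (h2 : P2.IsHomogeneous (e2 + 1))
    (hE : EntHyp P1 P2) : BroHyp P1 P2 := by
  intro H K hK0 hH hK k1 k2 x y
  obtain ⟨G, hG, hG0, hGH⟩ := zero_free hH
  have hX : ∀ z, InX P1 P2 (G z) := fun z =>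
    ⟨hG0 z, fun hz => k1 z (by rw [hGH z]; exact (pe_eq_zero h1 (hG0 z)).2 hz),
      fun hz => k2 z (by rw [hGH z]; exact (pe_eq_zero h2 (hG0 z)).2 hz)⟩
  rw [hGH x, hGH y]
  exact (Phi_eq_iff (hG0 x) (hG0 y)).2 fun i j => hE G hG hX x y i j

theorem gm_of_ent (h1 : P1.IsHomogeneous (e1 + 1)) (hE : EntHyp P1 P2) : GmHyp P1 P2 := by
  intro q hq s t hs ht i j
  have h0 : eval (0 : V) P1 = 0 := by
    have := eval_smul' h1 0 0
    rwa [smul_zero, zero_pow (Nat.succ_ne_zero _), zero_mul] at this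
  have hX : ∀ z : ℂ, InX P1 P2 (fun i => (q i).eval (Complex.exp z)) := by
    intro z
    obtain ⟨h1, h2⟩ := hq _ (Complex.exp_ne_zero z)
    refine ⟨fun h => h1 ?_, h1, h2⟩
    rw [h]
    exact h0
  have hd : Differentiable ℂ fun z : ℂ => fun i => (q i).eval (Complex.exp z) := by
    rw [differentiable_pi]
    intro i
    exact (q i).differentiable.comp Complex.differentiable_exp
  have h2 := hE _ hd hX (Complex.log s) (Complex.log t) i j
  rw [Complex.exp_log hs, Complex.exp_log ht] at h2
  exact h2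

/-- the big Picard theorem implies that entire curves are constant -/
theorem ent_of_pic (hP : PicHyp P1 P2) : EntHyp P1 P2 := by
  intro f hf hX
  -- compose with a universal function
  set g : ℂ → V := fun z => f (Complex.exp z⁻¹) with hg
  have hgd : DifferentiableOn ℂ g (ball 0 1 \ {0}) := by
    intro z hz
    have hz0 : z ≠ 0 := hz.2
    have h1 : DifferentiableAt ℂ (fun z : ℂ => Complex.exp z⁻¹) z :=
      (differentiableAt_inv hz0).cexp
    exact ((hf _).comp z h1).differentiableWithinAt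
  obtain ⟨G, hG, hG0, hGg⟩ := hP g hgd (fun z _ => hX _)
  have hG0' : G 0 ≠ 0 := hG0 0 (mem_ball_self one_pos)
  have hGc : ContinuousAt G 0 := (hG.differentiableAt (ball_mem_nhds 0 one_pos)).continuousAt
  -- all values are equal to the value at the origin
  have key : ∀ w : ℂ, w ≠ 0 → ∀ i j, f w i * G 0 j = f w j * G 0 i := by
    intro w hw i j
    set s : ℕ → ℂ := fun n => (Complex.log w + (n : ℤ) * (2 * Real.pi * Complex.I))⁻¹ with hs
    have hexp : ∀ n, Complex.exp (s n)⁻¹ = w := by
      intro n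
      rw [hs]
      simp only [inv_inv]
      rw [Complex.exp_add, Complex.exp_int_mul_two_pi_mul_I, mul_one, Complex.exp_log hw]
    have hlim : Tendsto s atTop (𝓝 0) := by
      have h1 : Tendsto (fun n : ℕ => ‖Complex.log w + (n : ℤ) * (2 * Real.pi * Complex.I)‖) atTop
          atTop := by
        have h2 : ∀ n : ℕ, 2 * Real.pi * n - ‖Complex.log w‖ ≤
            ‖Complex.log w + (n : ℤ) * (2 * Real.pi * Complex.I)‖ := by
          intro n
          have h3 : ‖((n : ℤ) : ℂ) * (2 * Real.pi * Complex.I)‖ = 2 * Real.pi * n := by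
            rw [norm_mul, norm_mul, norm_mul, Complex.norm_I, Complex.norm_real,
              Real.norm_of_nonneg Real.pi_pos.le]
            simp
            ring
          have h4 := norm_sub_norm_le (((n : ℤ) : ℂ) * (2 * Real.pi * Complex.I)) (-Complex.log w)
          rw [sub_neg_eq_add, norm_neg, h3, add_comm] at h4
          linarith [add_comm (Complex.log w) (((n : ℤ) : ℂ) * (2 * Real.pi * Complex.I))]
        refine tendsto_atTop_mono h2 ?_
        apply tendsto_atTop_add_const_right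
        exact Tendsto.const_mul_atTop Real.two_pi_pos tendsto_natCast_atTop_atTop
      have h5 : Tendsto (fun n => ‖s n‖) atTop (𝓝 0) := by
        rw [hs]
        simp only [norm_inv]
        exact tendsto_inv_atTop_zero.comp h1
      exact tendsto_zero_iff_norm_tendsto_zero.2 h5
    have hne : ∀ n, s n ≠ 0 ∨ Complex.log w + (n : ℤ) * (2 * Real.pi * Complex.I) = 0 := by
      intro n
      by_cases h : Complex.log w + (n : ℤ) * (2 * Real.pi * Complex.I) = 0
      · exact Or.inr h
      · exact Or.inl (inv_ne_zero h)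
    have hev0 : ∀ᶠ n in atTop, s n ≠ 0 := by
      filter_upwards [eventually_gt_atTop ⌈‖Complex.log w‖⌉₊] with n hn
      apply inv_ne_zero
      intro h
      have h1 : ((n : ℤ) : ℂ) * (2 * Real.pi * Complex.I) = -Complex.log w := by
        linear_combination h
      have h2 : ‖((n : ℤ) : ℂ) * (2 * Real.pi * Complex.I)‖ = 2 * Real.pi * n := by
        rw [norm_mul, norm_mul, norm_mul, Complex.norm_I, Complex.norm_real,
          Real.norm_of_nonneg Real.pi_pos.le]
        simp
        ring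
      rw [h1, norm_neg] at h2
      have h3 : ‖Complex.log w‖ < n := (Nat.le_ceil _).trans_lt (by exact_mod_cast hn)
      have h4 := Real.pi_gt_three
      have h5 : (0 : ℝ) ≤ n := Nat.cast_nonneg n
      nlinarith
    have hevb : ∀ᶠ n in atTop, s n ∈ ball (0 : ℂ) 1 := hlim.eventually (ball_mem_nhds 0 one_pos)
    have hGs : ∀ᶠ n in atTop, f w i * G (s n) j - f w j * G (s n) i = 0 := by
      filter_upwards [hev0, hevb] with n h1 h2
      obtain ⟨c, hc⟩ := hGg (s n) ⟨h2, h1⟩
      have h3 : g (s n) = f w := by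
        rw [hg]
        simp only
        rw [hexp]
      rw [h3] at hc
      rw [hc]
      simp only [Pi.smul_apply, smul_eq_mul]
      ring
    have hGl : Tendsto (fun n => G (s n)) atTop (𝓝 (G 0)) := hGc.tendsto.comp hlim
    have hGi : ∀ i, Tendsto (fun n => G (s n) i) atTop (𝓝 (G 0 i)) := fun i =>
      ((continuous_apply i).tendsto _).comp hGl
    have h6 : Tendsto (fun n => f w i * G (s n) j - f w j * G (s n) i) atTop
        (𝓝 (f w i * G 0 j - f w j * G 0 i)) :=
      ((hGi j).const_mul _).sub ((hGi i).const_mul _)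
    have h7 := tendsto_nhds_unique (h6.congr' hGs) tendsto_const_nhds
    exact sub_eq_zero.1 h7
  have key2 : ∀ w : ℂ, ∀ i j, f w i * G 0 j = f w j * G 0 i := by
    intro w i j
    by_cases hw : w = 0
    · subst hw
      have h1 : Tendsto (fun w => f w i * G 0 j - f w j * G 0 i) (𝓝[≠] 0)
          (𝓝 (f 0 i * G 0 j - f 0 j * G 0 i)) := by
        have hc : ∀ i, ContinuousAt (fun w => f w i) 0 := fun i =>
          (continuous_apply i).continuousAt.comp hf.continuous.continuousAt
        exact (((hc i).mul continuousAt_const).sub ((hc j).mul continuousAt_const)).tendsto.mono_left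
          nhdsWithin_le_nhds
      have h2 : ∀ᶠ w in 𝓝[≠] (0 : ℂ), f w i * G 0 j - f w j * G 0 i = 0 := by
        have hev : ∀ᶠ z in 𝓝[≠] (0 : ℂ), z ≠ 0 := self_mem_nhdsWithin
        filter_upwards [hev] with w hw
        rw [key w hw i j, sub_self]
      exact sub_eq_zero.1 (tendsto_nhds_unique (h1.congr' h2) tendsto_const_nhds)
    · exact key w hw i j
  intro z w i j
  obtain ⟨k, hk⟩ := Function.ne_iff.1 hG0'
  have hk' : G 0 k ≠ 0 := hk
  have a1 := key2 z i k
  have a2 := key2 z j k
  have a3 := key2 w i k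
  have a4 := key2 w j k
  have h1 : (f z i * f w j - f z j * f w i) * (G 0 k * G 0 k) = 0 := by
    linear_combination f w j * G 0 k * a1 + f z k * G 0 i * a4 - f w i * G 0 k * a2 -
      f z k * G 0 j * a3
  rcases mul_eq_zero.1 h1 with h2 | h2
  · exact sub_eq_zero.1 h2
  · exact absurd h2 (mul_ne_zero hk' hk')

end Pool.Agent.H915
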