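import Pool.Agent.H915.TC.As5
import Pool.Graph.R_pool_sql_team_seeded_63374d34.N155.L.Omn

/-!
Algebraic facts on pencils: zeros of forms, curves in the plane.
-/

set_option autoImplicit false

open MvPolynomial Filter Topology Metric Set

namespace Pool.Agent.H915

open Pool.Agent.Y190.OP Pool.Agent.N154.GG Pool.Agent.N155

variable {P1 P2 : Poly} {e1 e2 : ℕ}

/-- forms have zeros -/
theorem exists_zero {P : Poly} {e : ℕ} (hP : P.IsHomogeneous (e + 1)) :
    ∃ x : V, x ≠ 0 ∧ eval x P = 0 := by
  classical
  set p : Polynomial ℂ := aeval ![Polynomial.X, 1, 0] P with hp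
  have hev : ∀ t : ℂ, p.eval t = eval ![t, 1, 0] P := by
    intro t
    have h1 := MvPolynomial.comp_aeval_apply (f := (![Polynomial.X, 1, 0] : Fin 3 → Polynomial ℂ))
      (Polynomial.aeval t) P
    rw [← Polynomial.coe_aeval_eq_eval]
    rw [hp]
    change (Polynomial.aeval t) ((aeval ![Polynomial.X, 1, 0]) P) = _
    rw [h1, ← coe_aeval_eq_eval]
    change aeval _ P = aeval _ P
    congr 2
    funext i
    fin_cases i <;> simp
  by_cases hdeg : p.degree = 0
  · rw [Polynomial.eq_C_of_degree_eq_zero hdeg] at hev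
    refine ⟨![1, 0, 0], fun h => one_ne_zero (congrFun h 0), ?_⟩
    have h1 : ∀ s : ℂ, s ≠ 0 → eval ![1, s, 0] P = s ^ (e + 1) * p.coeff 0 := by
      intro s hs
      have h2 : (![1, s, 0] : V) = s • ![s⁻¹, 1, 0] := by
        funext i
        fin_cases i
        · simp [hs]
        · simp
        · simp
      rw [h2, eval_smul' hP, ← hev, Polynomial.eval_C]
    have h2 : Tendsto (fun s : ℂ => eval ![1, s, 0] P - s ^ (e + 1) * p.coeff 0) (𝓝[≠] 0)
        (𝓝 (eval ![1, 0, 0] P - 0 ^ (e + 1) * p.coeff 0)) := by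
      have hc : Continuous fun s : ℂ => eval ![1, s, 0] P - s ^ (e + 1) * p.coeff 0 := by
        have h3 : Continuous fun s : ℂ => (![1, s, 0] : V) := by
          rw [continuous_pi_iff]
          intro i
          fin_cases i
          · exact continuous_const
          · exact continuous_id
          · exact continuous_const
        exact ((cont_eval P).comp h3).sub (by fun_prop)
      exact (hc.tendsto 0).mono_left nhdsWithin_le_nhds
    have h3 : ∀ᶠ s in 𝓝[≠] (0 : ℂ), eval ![1, s, 0] P - s ^ (e + 1) * p.coeff 0 = 0 := by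
      have hev : ∀ᶠ z in 𝓝[≠] (0 : ℂ), z ≠ 0 := self_mem_nhdsWithin
      filter_upwards [hev] with s hs
      rw [h1 s hs, sub_self]
    have h4 := tendsto_nhds_unique (h2.congr' h3) tendsto_const_nhds
    rw [zero_pow (Nat.succ_ne_zero e), zero_mul, sub_zero] at h4
    exact h4
  · obtain ⟨t, ht⟩ := IsAlgClosed.exists_root p hdeg
    refine ⟨![t, 1, 0], fun h => one_ne_zero (congrFun h 1), ?_⟩
    rw [← hev]
    exact ht

/-- forms which vanish near a point have zero gradient there -/
theorem grad_zero_of_eventually {P : Poly} {x : V} (h : ∀ᶠ y in 𝓝 x, eval y P = 0) :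
    grad P x = 0 := by
  have key : ∀ v : V, dp (grad P x) v = 0 := by
    intro v
    have h1 : HasDerivAt (fun t : ℂ => x + t • v) v 0 := by
      have := ((hasDerivAt_id (0 : ℂ)).smul_const v).const_add x
      simpa using this
    have h2 := hasDerivAt_eval P h1
    simp only [zero_smul, add_zero] at h2
    have h3 : Tendsto (fun t : ℂ => x + t • v) (𝓝 0) (𝓝 x) := by
      have := h1.continuousAt.tendsto
      simpa using this
    have h4 : (fun t : ℂ => eval (x + t • v) P) =ᶠ[𝓝 0] fun _ => 0 := h3.eventually h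
    exact h2.unique ((hasDerivAt_const (0 : ℂ) (0 : ℂ)).congr_of_eventuallyEq h4)
  funext i
  have h1 := key (Pi.single i 1)
  have h2 : dp (grad P x) (Pi.single i 1) = grad P x i := by
    unfold dp
    fin_cases i <;> simp
  rw [h2] at h1
  exact h1

/-- the members of the pencil are curves -/
theorem pencil_ne (h : SNC P1 P2 e1 e2) (β : ℂ) :
    ∃ x : V, eval x P2 ^ (e1 + 1) ≠ β * eval x P1 ^ (e2 + 1) := by
  by_contra hcon
  push Not at hcon
  obtain ⟨x0, hx0, hz⟩ := exists_zero h.h2
  -- the gradients are proportional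
  have hgr : ∀ x v : V, (e1 + 1 : ℕ) * eval x P2 ^ e1 * dp (grad P2 x) v =
      β * ((e2 + 1 : ℕ) * eval x P1 ^ e2 * dp (grad P1 x) v) := by
    intro x v
    have h1 : HasDerivAt (fun t : ℂ => x + t • v) v 0 := by
      have := ((hasDerivAt_id (0 : ℂ)).smul_const v).const_add x
      simpa using this
    have h2 := (hasDerivAt_eval P2 h1).pow (e1 + 1)
    have h3 := ((hasDerivAt_eval P1 h1).pow (e2 + 1)).const_mul β
    simp only [zero_smul, add_zero, Nat.add_sub_cancel] at h2 h3
    refine h2.unique (h3.congr_of_eventuallyEq (Eventually.of_forall fun t => ?_))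
    exact hcon _
  have hnv : ∀ x : V, eval x P2 ≠ 0 → nv P1 P2 x = 0 := by
    intro x hx
    -- the gradient of P2 is a multiple of the gradient of P1
    obtain ⟨c, hc⟩ : ∃ c : ℂ, ∀ v, dp (grad P2 x) v = c * dp (grad P1 x) v := by
      have hk : ((e1 + 1 : ℕ) : ℂ) * eval x P2 ^ e1 ≠ 0 :=
        mul_ne_zero (Nat.cast_ne_zero.2 (Nat.succ_ne_zero _)) (pow_ne_zero _ hx)
      refine ⟨β * ((e2 + 1 : ℕ) * eval x P1 ^ e2) / (((e1 + 1 : ℕ) : ℂ) * eval x P2 ^ e1),
        fun v => ?_⟩
      have := hgr x v
      field_simp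
      linear_combination this
    have hcomp : ∀ i, grad P2 x i = c * grad P1 x i := by
      intro i
      have h1 := hc (Pi.single i 1)
      unfold dp at h1
      fin_cases i <;> simpa using h1
    unfold nv
    apply v_ext
    · rw [cr_0, hcomp, hcomp, Pi.zero_apply]
      ring
    · rw [cr_1, hcomp, hcomp, Pi.zero_apply]
      ring
    · rw [cr_2, hcomp, hcomp, Pi.zero_apply]
      ring
  have hne := h.nv_ne hx0 (Or.inr hz)
  have hev : ∀ᶠ y in 𝓝 x0, nv P1 P2 y ≠ 0 := (cont_nv P1 P2).continuousAt.eventually_ne hne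
  have hev2 : ∀ᶠ y in 𝓝 x0, eval y P2 = 0 := hev.mono fun y hy => by
    by_contra hy2
    exact hy (hnv y hy2)
  exact h.s2 x0 hx0 hz (grad_zero_of_eventually hev2)

section plane

open Pool.Agent.W602.GT

/-- a subvariety of the plane on which a form vanishes is a curve or a point -/
theorem dim_le_one {K : Type} [Field K] [Algebra ℂ K] {y : Fin 3 → K} (hy : y ≠ 0)
    (hgen : coords ℂ (n := 2) y = ⊤) {w : ℕ} (hw : Algebra.trdeg ℂ K = w) {B : Poly} {m : ℕ}
    (hB : B.IsHomogeneous m) {x0 : V} (hx0 : eval x0 B ≠ 0) (hBy : aeval y B = 0) : w < 2 := by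
  classical
  by_contra hcon
  push Not at hcon
  obtain ⟨i0, hi0⟩ := Function.ne_iff.1 hy
  have hi0' : y i0 ≠ 0 := hi0
  obtain ⟨s, hs⟩ := exists_coord_basis (n := 2) hgen hi0' hw
  have hai := hs.1
  have hinj : Function.Injective s := by
    intro a b hab
    have h1 : (fun b => y (s b) / y i0) a = (fun b => y (s b) / y i0) b := by
      simp only
      rw [hab]
    exact hai.injective h1
  have hne : ∀ b, s b ≠ i0 := by
    intro b hb
    have h1 := hai.transcendental b
    rw [hb, div_self hi0'] at h1
    exact h1 isAlgebraic_one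
  have hsurj : ∀ j, j ≠ i0 → ∃ b, s b = j := by
    intro j hj
    have hcard : (Finset.univ.image s).card = w := by
      rw [Finset.card_image_of_injective _ hinj, Finset.card_univ, Fintype.card_fin]
    have hsub : Finset.univ.image s ⊆ Finset.univ.erase i0 := by
      intro k hk
      rw [Finset.mem_image] at hk
      obtain ⟨b, -, rfl⟩ := hk
      exact Finset.mem_erase.2 ⟨hne b, Finset.mem_univ _⟩
    have hcard2 : (Finset.univ.erase i0 : Finset (Fin 3)).card = 2 := by
      rw [Finset.card_erase_of_mem (Finset.mem_univ _), Finset.card_univ, Fintype.card_fin]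
    have heq := Finset.eq_of_subset_of_card_le hsub (by rw [hcard, hcard2]; exact hcon)
    have hj' : j ∈ Finset.univ.image s := by
      rw [heq]
      exact Finset.mem_erase.2 ⟨hj, Finset.mem_univ _⟩
    rw [Finset.mem_image] at hj'
    obtain ⟨b, -, hb⟩ := hj'
    exact ⟨b, hb⟩
  -- the polynomial in the affine coordinates
  let g : Fin 3 → MvPolynomial (Fin w) ℂ := fun j =>
    if h : ∃ b, s b = j then X h.choose else 1
  have hg0 : g i0 = 1 := by
    simp only [g]
    rw [dif_neg]
    rintro ⟨b, hb⟩
    exact hne b hb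
  have hgs : ∀ b, g (s b) = X b := by
    intro b
    have hex : ∃ b', s b' = s b := ⟨b, rfl⟩
    simp only [g]
    rw [dif_pos hex]
    congr 1
    exact hinj hex.choose_spec
  have hB0 : bind₁ g B = 0 := by
    have h1 : aeval (fun b => y (s b) / y i0) (bind₁ g B) = 0 := by
      rw [aeval_bind₁]
      have h2 : (fun j => aeval (fun b => y (s b) / y i0) (g j)) = fun j => y j / y i0 := by
        funext j
        by_cases hj : j = i0
        · rw [hj, hg0, map_one, div_self hi0']
        · obtain ⟨b, rfl⟩ := hsurj j hj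
          rw [hgs, aeval_X]
      rw [h2]
      have h3 : (fun j => y j / y i0) = fun j => (y i0)⁻¹ * y j := by
        funext j
        rw [div_eq_inv_mul]
      rw [h3, aeval_smul' hB, hBy, mul_zero]
    exact hai.eq_zero_of_aeval_eq_zero _ h1
  -- the form vanishes
  have hvan : ∀ x : V, x i0 ≠ 0 → eval x B = 0 := by
    intro x hx
    have h1 : eval (fun b => x (s b) / x i0) (bind₁ g B) = 0 := by rw [hB0, map_zero]
    rw [← coe_aeval_eq_eval] at h1
    change aeval _ (bind₁ g B) = 0 at h1
    rw [aeval_bind₁] at h1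
    have h2 : (fun j => aeval (fun b => x (s b) / x i0) (g j)) = fun j => x j / x i0 := by
      funext j
      by_cases hj : j = i0
      · rw [hj, hg0, map_one, div_self hx]
      · obtain ⟨b, rfl⟩ := hsurj j hj
        rw [hgs, aeval_X]
    rw [h2] at h1
    have h3 : x = x i0 • fun j => x j / x i0 := by
      funext j
      simp only [Pi.smul_apply, smul_eq_mul]
      field_simp
    rw [h3, eval_smul' hB]
    have h4 : eval (fun j => x j / x i0) B = 0 := by
      rw [← coe_aeval_eq_eval]
      exact h1
    rw [h4, mul_zero]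
  have hprod : X i0 * B = 0 := by
    apply MvPolynomial.funext
    intro x
    rw [map_mul, eval_X, map_zero]
    by_cases hx : x i0 = 0
    · rw [hx, zero_mul]
    · rw [hvan x hx, mul_zero]
  have hB00 : B = 0 := (mul_eq_zero.1 hprod).resolve_left (X_ne_zero i0)
  rw [hB00, map_zero] at hx0
  exact hx0 rfl

end plane

end Pool.Agent.H915
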