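import Pool.Agent.H915.TC.As6
import Pool.Graph.R_seed8.Results.MP_64ff02_ag.GenericPairsSpecialSet

/-!
If all closed subvarieties are of log general type then there are no Brody curves.
-/

set_option autoImplicit false

open MvPolynomial Filter Topology Metric Set

namespace Pool.Agent.H915

open Pool.Agent.Y190.OP Pool.Agent.N154.GG Pool.Agent.N155 FF Pool.Agent.W602.GT
  Pool.Agent.W603.PV
open Pool.Agent.Results.MP_64ff02_ag.GenericPairsSpecialSet (VeryGeneral OnPair Subvariety LogGT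
  LogGTOutside)
open Pool.Agent.Y741 (gp gm_on gm_not_lgt trdeg_rat)

variable {H : Fin 2 → MvPolynomial (Fin (2 + 1)) ℂ} {d : Fin 2 → ℕ}

/-- maps from the multiplicative group are contained in the exceptional set -/
theorem gm_in_G {G : MvPolynomial (Fin (2 + 1)) ℂ} (hL : LogGTOutside H d ∅ G)
    (h0 : ∀ a, eval (0 : Fin 3 → ℂ) (H a) = 0) {q : Fin 3 → Polynomial ℂ}
    (hq : ∀ t : ℂ, t ≠ 0 → eval (fun i => (q i).eval t) (H 0) ≠ 0 ∧
      eval (fun i => (q i).eval t) (H 1) ≠ 0) {s t : ℂ} (hs : s ≠ 0) (ht : t ≠ 0) {i j : Fin 3}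
    (hne : (q i).eval s * (q j).eval t ≠ (q j).eval s * (q i).eval t) (z : ℂ) :
    eval (fun i => (q i).eval z) G = 0 := by
  have hb : ∀ t : ℂ, t ≠ 0 → ∀ b, b ∉ (∅ : Finset (Fin 2)) →
      eval (fun j => (q j).eval t) (H b) ≠ 0 := by
    intro t ht b _
    obtain ⟨h1, h2⟩ := hq t ht
    fin_cases b
    · exact h1
    · exact h2
  obtain ⟨h1, h2, h3, h4⟩ := gm_on (n := 2) (P := q) (G := H) (C := ∅)
    (fun t _ c hc => absurd hc (Finset.notMem_empty c)) hb ⟨s, t, hs, ht, i, j, hne⟩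
  by_contra hG
  have hGy : aeval (gp (n := 2) q) G ≠ 0 := by
    rw [Pool.Agent.Y741.aeval_gp]
    intro h5
    rw [← map_zero (algebraMap (Polynomial ℂ) (RatFunc ℂ))] at h5
    have h6 := congrArg (Polynomial.eval z) (RatFunc.algebraMap_injective ℂ h5)
    rw [Pool.Agent.Y741.eval_aevalP, Polynomial.eval_zero] at h6
    exact hG h6
  refine gm_not_lgt (n := 2) (P := q) (G := H) (C := ∅) (dg := d) (fun t ht => ?_) hb
    (hL (RatFunc ℂ) 1 (gp q) one_pos ⟨⟨h1, h2, h3⟩, by rw [trdeg_rat, Nat.cast_one], h4⟩ hGy)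
  by_contra hcon
  push Not at hcon
  have h5 : (fun j => (q j).eval t) = 0 := funext hcon
  apply hb t ht 0 (Finset.notMem_empty 0)
  rw [h5]
  exact h0 0

/-- logarithmic general type depends monotonically on the boundary -/
theorem lgt_mono {K : Type} [Field K] [Algebra ℂ K] {w : ℕ} {B1 B2 : Place ℂ K → Prop}
    (h : ∀ P, B1 P → B2 P) (hL : LogGeneralType ℂ K w B1) : LogGeneralType ℂ K w B2 := by
  obtain ⟨htr, N, hN, ω, hω, hlog, hreg, hD⟩ := hL
  exact ⟨htr, N, hN, ω, hω, hlog, fun P hP hB => hreg P hP fun hB1 => hB (h P hB1), hD⟩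

/-- the order of a form at a place with centre outside of its zeros -/
theorem ord_le_of_ctr {K : Type} [Field K] [Algebra ℂ K] {y : Fin 3 → K} {P : Place ℂ K}
    {G : MvPolynomial (Fin (2 + 1)) ℂ} {m : ℕ} (h : Ctr G m y P) :
    P.ord (aeval y G) ≤ m * pord (n := 2) P y := by
  obtain ⟨i, hi, h0, hreg, hr⟩ := h
  have hord : ∀ j : {j // y j ≠ 0}, P.ord (y i) ≤ P.ord (y j) := by
    rintro ⟨j, hj⟩
    rcases hreg j with h1 | h1
    · exact absurd h1 (div_ne_zero hj hi)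
    · rw [P.ord_div hj hi] at h1
      simp only
      linarith
  have hne : Nonempty {j // y j ≠ 0} := ⟨⟨i, hi⟩⟩
  have hp : P.ord (y i) ≤ pord (n := 2) P y := le_ciInf hord
  have h0' : aeval y G ≠ 0 := h0
  rcases hr with h1 | h1
  · exact absurd h1 (div_ne_zero (pow_ne_zero _ hi) h0)
  · rw [P.ord_div (pow_ne_zero _ hi) h0] at h1
    have h2 : P.ord (y i ^ m) = m * P.ord (y i) := P.ord_pow _ m
    rw [h2] at h1
    have h3 : (m : ℤ) * P.ord (y i) ≤ m * pord (n := 2) P y :=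
      mul_le_mul_of_nonneg_left hp (Int.natCast_nonneg m)
    have h4 : P.ord (val y G) = P.ord (aeval y G) := rfl
    linarith

/-- **Brody curves are contained in the exceptional set of (iv)** -/
theorem brody_in_G {e1 e2 : ℕ} (hS : SNC (H 0) (H 1) e1 e2) (hd0 : d 0 = e1 + 1)
    (hd1 : d 1 = e2 + 1) (hk : 2 ≤ e1 + e2) {G : MvPolynomial (Fin (2 + 1)) ℂ} (hGf : IsForm G)
    (hL : LogGTOutside H d ∅ G) {F : ℂ → V} {f : ℂ → ℂ} {K : ℝ} (hF : EC (H 0) (H 1) F K f)
    (hKF : ∀ z, ‖fderiv ℝ (fun y => Phi (F y)) z‖ ≤ K) (hnc : ∃ z, Phi (F z) ≠ Phi (F 0)) (z : ℂ) :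
    eval (F z) G = 0 := by
  classical
  have hHd : ∀ a, (H a).IsHomogeneous (d a) := by
    intro a
    fin_cases a
    · exact hd0 ▸ hS.h1
    · exact hd1 ▸ hS.h2
  have hdpos : ∀ a, 0 < d a := by
    intro a
    fin_cases a
    · change 0 < d 0
      omega
    · change 0 < d 1
      omega
  have h0 : ∀ a, eval (0 : Fin 3 → ℂ) (H a) = 0 := by
    intro a
    have := eval_smul' (hHd a) 0 0
    rwa [smul_zero, zero_pow (hdpos a).ne', zero_mul] at this
  have hH1 : ∀ z, eval (F z) (H 0) ≠ 0 := fun z => by rw [hF.v1]; exact one_ne_zero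
  have hH2 : ∀ z, eval (F z) (H 1) ≠ 0 := fun z => by rw [hF.v2]; exact Complex.exp_ne_zero _
  have hHa : ∀ a z, eval (F z) (H a) ≠ 0 := by
    intro a z
    fin_cases a
    · exact hH1 z
    · exact hH2 z
  rcases hF.alt hS hk with ⟨β, hβ, hfib⟩ | ⟨b, q, hb, halg⟩
  · -- curves in a fibre
    obtain ⟨x0, hx0⟩ := pencil_ne hS (β ^ (e1 + 1))
    obtain ⟨B, hBdef⟩ : ∃ B : Poly, B = H 1 ^ (e1 + 1) - C (β ^ (e1 + 1)) * H 0 ^ (e2 + 1) :=
      ⟨_, rfl⟩
    have hBev : ∀ v, eval v B = eval v (H 1) ^ (e1 + 1) -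
        β ^ (e1 + 1) * eval v (H 0) ^ (e2 + 1) := by
      intro v
      rw [hBdef]
      simp only [map_sub, map_pow, map_mul, eval_C]
    have hBh : B.IsHomogeneous ((e2 + 1) * (e1 + 1)) := by
      rw [hBdef]
      refine (hS.h2.pow (e1 + 1)).sub ?_
      have h3 := (isHomogeneous_C (Fin 3) (β ^ (e1 + 1))).mul (hS.h1.pow (e2 + 1))
      rwa [zero_add, mul_comm (e1 + 1)] at h3
    have hB0 : eval x0 B ≠ 0 := by
      rw [hBev]
      exact sub_ne_zero.2 hx0
    have hBF : ∀ z, eval (F z) B = 0 := by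
      intro z
      rw [hBev, hF.v1, hfib, one_pow, mul_one, sub_self]
    have hφ : HolP univ (fun y => Phi (F y)) := holP_Phi hF.dif hF.ne
    obtain ⟨K1, _, _, w, y1, hy1, hgen, hw, hrel, hw0⟩ := exists_closure hφ
    have hnz : ∀ (G : MvPolynomial (Fin (2 + 1)) ℂ), IsForm G → ∀ z,
        (nz G (Phi (F z)) ↔ eval (F z) G ≠ 0) := by
      rintro G ⟨m, hm⟩ z
      exact nz_Phi hm (hF.ne z)
    have hBy : aeval y1 B = 0 := (hrel B ⟨_, hBh⟩).2 fun z hz =>
      (hnz B ⟨_, hBh⟩ z).1 hz (hBF z)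
    have hw2 := dim_le_one hy1 hgen hw hBh hB0 hBy
    have hw1 : w = 1 := by
      have : w ≠ 0 := by
        intro hw'
        obtain ⟨z, hz⟩ := hnc
        exact hz (hw0 hw' z)
      omega
    subst hw1
    have hCv : Cv y1 (fun y => Phi (F y)) := by
      refine ⟨hφ, fun z => ⟨F z, ⟨hF.ne z, fun G hG hG0 => ?_⟩, rfl⟩, fun G hG hG0 => ?_⟩
      · have h3 := (hrel G hG).1 hG0 z
        rw [hnz G hG, not_not] at h3
        rw [val_eval]
        exact h3
      · by_contra hcon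
        push Not at hcon
        exact hG0 ((hrel G hG).2 hcon)
    have hya : ∀ a, aeval y1 (H a) ≠ 0 := by
      intro a h3
      have h4 := (hrel (H a) ⟨_, hHd a⟩).1 h3 0
      exact h4 ((hnz (H a) ⟨_, hHd a⟩ 0).2 (hHa a 0))
    have halgc : Algebra.IsAlgebraic (coords ℂ y1) K1 := by
      rw [hgen]
      exact ⟨fun x => isAlgebraic_algebraMap (A := K1) (⟨x, IntermediateField.mem_top⟩ :
        (⊤ : IntermediateField ℂ K1))⟩
    by_contra hGz
    have hGy : aeval y1 G ≠ 0 := by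
      intro h3
      exact (hrel G hGf).1 h3 z ((hnz G hGf z).2 hGz)
    have hLG := hL K1 1 y1 one_pos ⟨⟨hy1, fun c hc => absurd hc (Finset.notMem_empty c),
      fun b _ => hya b⟩, by rw [hw], halgc⟩ hGy
    refine strat_curve (n := 2) (α := Fin 2) (κ := Unit) (G := fun a _ => H a)
      (fun a _ => ⟨_, hHd a⟩) hgen hCv (fun a => Or.inl fun z => ⟨(), ?_⟩) hKF
      (lgt_mono (fun P hP hctr => ?_) hLG)
    · exact (hnz (H a) ⟨_, hHd a⟩ z).2 (hHa a z)
    · obtain ⟨b, -, hlt⟩ := hP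
      obtain ⟨_, m, hm, hc⟩ := hctr b ⟨(), hya b⟩
      have hmd : m = d b := by
        have hne : H b ≠ 0 := by
          intro h3
          apply hya b
          rw [h3, map_zero]
        exact (hm.inj_right (hHd b) hne)
      have h5 := ord_le_of_ctr hc
      rw [hmd] at h5
      exact absurd hlt (not_lt.2 h5)
  · -- algebraic curves
    have hev : ∀ t : ℂ, t ≠ 0 → eval (fun i => (q i).eval t) (H 0) ≠ 0 ∧
        eval (fun i => (q i).eval t) (H 1) ≠ 0 := by
      intro t ht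
      obtain ⟨c, hc, h2⟩ := halg (Complex.log t / b)
      rw [mul_div_cancel₀ _ hb, Complex.exp_log ht] at h2
      have h3 := hH1 (Complex.log t / b)
      have h4 := hH2 (Complex.log t / b)
      rw [h2, eval_smul' hS.h1] at h3
      rw [h2, eval_smul' hS.h2] at h4
      exact ⟨right_ne_zero_of_mul h3, right_ne_zero_of_mul h4⟩
    obtain ⟨w, hw⟩ := hnc
    obtain ⟨i, j, hij⟩ : ∃ i j, F w i * F 0 j ≠ F w j * F 0 i := by
      by_contra hcon
      push Not at hcon
      exact hw (Phi_eq_of_par (hF.ne w) (hF.ne 0) hcon)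
    obtain ⟨c, hc, h2⟩ := halg w
    obtain ⟨c', hc', h3⟩ := halg 0
    have hne : (q i).eval (Complex.exp (b * w)) * (q j).eval (Complex.exp (b * 0)) ≠
        (q j).eval (Complex.exp (b * w)) * (q i).eval (Complex.exp (b * 0)) := by
      intro h4
      apply hij
      rw [h2, h3]
      simp only [Pi.smul_apply, smul_eq_mul]
      linear_combination c * c' * h4
    obtain ⟨c2, hc2, h4⟩ := halg z
    obtain ⟨m, hm⟩ := hGf
    rw [h4, eval_smul' hm, gm_in_G hL h0 hev (Complex.exp_ne_zero _) (Complex.exp_ne_zero _) hne,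
      mul_zero]

/-- **(iv) implies that there are no Brody curves** -/
theorem bro_of_lgt {e1 e2 : ℕ} (hS : SNC (H 0) (H 1) e1 e2) (hd0 : d 0 = e1 + 1)
    (hd1 : d 1 = e2 + 1) (hk : 2 ≤ e1 + e2) (hL : LogGTOutside H d ∅ 1) :
    BroHyp (H 0) (H 1) := by
  intro φ K hK0 hφ hK k1 k2 x y
  obtain ⟨F, f, hF, hFφ⟩ := hS.curve hK0 hφ hK k1 k2
  by_contra hxy
  have hnc : ∃ z, Phi (F z) ≠ Phi (F 0) := by
    by_contra hcon
    push Not at hcon
    apply hxy
    rw [← hFφ x, ← hFφ y, hcon x, hcon y]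
  have h1 := brody_in_G hS hd0 hd1 hk (G := 1) ⟨0, isHomogeneous_one _ _⟩ hL hF (fun z => by
    have : (fun y => Phi (F y)) = φ := funext hFφ
    rw [this]
    exact hK z) hnc 0
  rw [map_one] at h1
  exact one_ne_zero h1

end Pool.Agent.H915
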