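import Pool.Agent.H915.TC.Alg

/-!
Two smooth plane curves which meet transversally: estimates for the cross product of the gradients.
-/

set_option autoImplicit false

open Filter Topology Metric Set MvPolynomial

namespace Pool.Agent.H915

/-- `P1 = 0` and `P2 = 0` are smooth plane curves of degrees `e1 + 1`, `e2 + 1` which meet
transversally. -/
structure SNC (P1 P2 : Poly) (e1 e2 : ℕ) : Prop where
  h1 : P1.IsHomogeneous (e1 + 1)
  h2 : P2.IsHomogeneous (e2 + 1)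
  s1 : ∀ x : V, x ≠ 0 → eval x P1 = 0 → grad P1 x ≠ 0
  s2 : ∀ x : V, x ≠ 0 → eval x P2 = 0 → grad P2 x ≠ 0
  tr : ∀ x : V, x ≠ 0 → eval x P1 = 0 → eval x P2 = 0 → cr (grad P1 x) (grad P2 x) ≠ 0

/-- the normal vector -/
noncomputable def nv (P1 P2 : Poly) (x : V) : V := cr (grad P1 x) (grad P2 x)

variable {P1 P2 : Poly} {e1 e2 : ℕ}

theorem cr_swap (a b : V) : cr b a = -cr a b := by
  apply v_ext <;> simp <;> ring

theorem SNC.swap (h : SNC P1 P2 e1 e2) : SNC P2 P1 e2 e1 where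
  h1 := h.h2
  h2 := h.h1
  s1 := h.s2
  s2 := h.s1
  tr := fun x hx a b => by
    rw [cr_swap, neg_ne_zero]
    exact h.tr x hx b a

theorem nv_swap (P1 P2 : Poly) (x : V) : nv P2 P1 x = -nv P1 P2 x := cr_swap _ _

theorem exists_smul_of_cr {a b : V} (h : cr a b = 0) (ha : a ≠ 0) : ∃ c : ℂ, b = c • a := by
  have h0 : a 1 * b 2 - a 2 * b 1 = 0 := congrFun h 0
  have h1 : a 2 * b 0 - a 0 * b 2 = 0 := congrFun h 1
  have h2 : a 0 * b 1 - a 1 * b 0 = 0 := congrFun h 2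
  obtain ⟨i, hi⟩ := Function.ne_iff.1 ha
  have hi' : a i ≠ 0 := hi
  refine ⟨b i / a i, ?_⟩
  fin_cases i
  · have hi0 : a 0 ≠ 0 := hi'
    apply v_ext
    · simp; field_simp
    · simp; field_simp; linear_combination h2
    · simp; field_simp; linear_combination -h1
  · have hi0 : a 1 ≠ 0 := hi'
    apply v_ext
    · simp; field_simp; linear_combination -h2
    · simp; field_simp
    · simp; field_simp; linear_combination h0
  · have hi0 : a 2 ≠ 0 := hi'
    apply v_ext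
    · simp; field_simp; linear_combination h1
    · simp; field_simp; linear_combination -h0
    · simp; field_simp

theorem SNC.nv_ne1 (h : SNC P1 P2 e1 e2) {x : V} (hx : x ≠ 0) (h0 : eval x P1 = 0) :
    nv P1 P2 x ≠ 0 := by
  by_cases h2 : eval x P2 = 0
  · exact h.tr x hx h0 h2
  · intro hc
    obtain ⟨c, hcc⟩ := exists_smul_of_cr hc (h.s1 x hx h0)
    have e1' := euler h.h1 x
    have e2' := euler h.h2 x
    rw [hcc] at e2'
    have e3 : dp (c • grad P1 x) x = c * dp (grad P1 x) x := by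
      simp only [dp, Pi.smul_apply, smul_eq_mul]
      ring
    rw [e3, e1', h0, mul_zero, mul_zero] at e2'
    have : ((e2 + 1 : ℕ) : ℂ) ≠ 0 := Nat.cast_ne_zero.2 (Nat.succ_ne_zero e2)
    rcases mul_eq_zero.1 e2'.symm with h4 | h4
    · exact this h4
    · exact h2 h4

theorem SNC.nv_ne (h : SNC P1 P2 e1 e2) {x : V} (hx : x ≠ 0)
    (h0 : eval x P1 = 0 ∨ eval x P2 = 0) : nv P1 P2 x ≠ 0 := by
  rcases h0 with h0 | h0
  · exact h.nv_ne1 hx h0
  · rw [nv_swap, neg_ne_zero]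
    exact h.swap.nv_ne1 hx h0

theorem cont_cr {X : Type*} [TopologicalSpace X] {f g : X → V} (hf : Continuous f)
    (hg : Continuous g) : Continuous fun x => cr (f x) (g x) := by
  rw [continuous_pi_iff] at hf hg
  rw [continuous_pi_iff]
  intro i
  fin_cases i
  · exact ((hf 1).mul (hg 2)).sub ((hf 2).mul (hg 1))
  · exact ((hf 2).mul (hg 0)).sub ((hf 0).mul (hg 2))
  · exact ((hf 0).mul (hg 1)).sub ((hf 1).mul (hg 0))

theorem cont_nv (P1 P2 : Poly) : Continuous (nv P1 P2) := cont_cr (cont_grad _) (cont_grad _)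

theorem cr_smul_smul (a b : V) (c d : ℂ) : cr (c • a) (d • b) = (c * d) • cr a b := by
  apply v_ext <;> simp <;> ring

theorem nv_smul (h : SNC P1 P2 e1 e2) (c : ℂ) (x : V) :
    nv P1 P2 (c • x) = c ^ (e1 + e2) • nv P1 P2 x := by
  unfold nv
  rw [grad_smul h.h1, grad_smul h.h2, cr_smul_smul, pow_add]

/-- the unit vector -/
noncomputable def unit (x : V) : V := ((‖x‖ : ℂ)⁻¹) • x

theorem unit_spec {x : V} (hx : x ≠ 0) : ‖unit x‖ = 1 ∧ x = (‖x‖ : ℂ) • unit x := by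
  have h : ‖x‖ ≠ 0 := norm_ne_zero_iff.2 hx
  have h' : (‖x‖ : ℂ) ≠ 0 := by exact_mod_cast h
  constructor
  · unfold unit
    rw [norm_smul, norm_inv, Complex.norm_real, norm_norm, inv_mul_cancel₀ h]
  · unfold unit
    rw [smul_smul, mul_inv_cancel₀ h', one_smul]

theorem norm_cast_norm (x : V) (n : ℕ) : ‖((‖x‖ : ℂ)) ^ n‖ = ‖x‖ ^ n := by
  rw [norm_pow, Complex.norm_real, norm_norm]

/-- the unit sphere -/
abbrev Sph : Set V := sphere (0 : V) 1

theorem isCompact_Sph : IsCompact Sph := isCompact_sphere 0 1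

theorem unit_mem {x : V} (hx : x ≠ 0) : unit x ∈ Sph := by
  rw [mem_sphere_zero_iff_norm]
  exact (unit_spec hx).1

theorem Sph_ne {x : V} (hx : x ∈ Sph) : x ≠ 0 := by
  rw [mem_sphere_zero_iff_norm] at hx
  intro h
  rw [h, norm_zero] at hx
  exact zero_ne_one hx

/-- upper bounds -/
theorem eval_le {P : Poly} {d : ℕ} (hP : P.IsHomogeneous d) :
    ∃ C : ℝ, 0 < C ∧ ∀ x : V, x ≠ 0 → ‖eval x P‖ ≤ C * ‖x‖ ^ d := by
  obtain ⟨C, hC⟩ := isCompact_Sph.exists_bound_of_continuousOn (cont_eval P).continuousOn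
  refine ⟨max C 1, by positivity, fun x hx => ?_⟩
  obtain ⟨h1, h2⟩ := unit_spec hx
  have h3 := hC _ (unit_mem hx)
  have h4 : eval x P = (‖x‖ : ℂ) ^ d * eval (unit x) P := by
    conv_lhs => rw [h2]
    exact eval_smul' hP _ _
  rw [h4, norm_mul, norm_cast_norm, mul_comm]
  gcongr
  exact h3.trans (le_max_left _ _)

theorem nv_le (h : SNC P1 P2 e1 e2) :
    ∃ C : ℝ, 0 < C ∧ ∀ x : V, x ≠ 0 → ‖nv P1 P2 x‖ ≤ C * ‖x‖ ^ (e1 + e2) := by
  obtain ⟨C, hC⟩ := isCompact_Sph.exists_bound_of_continuousOn (cont_nv P1 P2).continuousOn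
  refine ⟨max C 1, by positivity, fun x hx => ?_⟩
  obtain ⟨h1, h2⟩ := unit_spec hx
  have h3 := hC _ (unit_mem hx)
  have h4 : nv P1 P2 x = (‖x‖ : ℂ) ^ (e1 + e2) • nv P1 P2 (unit x) := by
    conv_lhs => rw [h2]
    exact nv_smul h _ _
  rw [h4, norm_smul, norm_cast_norm, mul_comm]
  gcongr
  exact h3.trans (le_max_left _ _)

theorem grad_le {P : Poly} {e : ℕ} (hP : P.IsHomogeneous (e + 1)) :
    ∃ C : ℝ, 0 < C ∧ ∀ x : V, x ≠ 0 → ‖grad P x‖ ≤ C * ‖x‖ ^ e := by
  obtain ⟨C, hC⟩ := isCompact_Sph.exists_bound_of_continuousOn (cont_grad P).continuousOn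
  refine ⟨max C 1, by positivity, fun x hx => ?_⟩
  obtain ⟨h1, h2⟩ := unit_spec hx
  have h3 := hC _ (unit_mem hx)
  have h4 : grad P x = (‖x‖ : ℂ) ^ e • grad P (unit x) := by
    conv_lhs => rw [h2]
    exact grad_smul hP _ _
  rw [h4, norm_smul, norm_cast_norm, mul_comm]
  gcongr
  exact h3.trans (le_max_left _ _)

/-- `x` is near the curves -/
def Near (P1 P2 : Poly) (e1 e2 : ℕ) (η : ℝ) (x : V) : Prop :=
  ‖eval x P1‖ ≤ η * ‖x‖ ^ (e1 + 1) ∨ ‖eval x P2‖ ≤ η * ‖x‖ ^ (e2 + 1)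

/-- `x` is near the crossings -/
def NearC (P1 P2 : Poly) (e1 e2 : ℕ) (η : ℝ) (x : V) : Prop :=
  ‖eval x P1‖ ≤ η * ‖x‖ ^ (e1 + 1) ∧ ‖eval x P2‖ ≤ η * ‖x‖ ^ (e2 + 1)

/-- points near the zeros of `a`, in a compact set -/
theorem near_zero {K : Set V} (hK : IsCompact K) {a b : V → ℝ} (ha : Continuous a)
    (hb : Continuous b) (h0 : ∀ x ∈ K, 0 ≤ a x) (hpos : ∀ x ∈ K, a x = 0 → 0 < b x) :
    ∃ η c : ℝ, 0 < η ∧ 0 < c ∧ ∀ x ∈ K, a x ≤ η → c ≤ b x := by
  -- a lower bound for `b` on the zeros of `a`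
  have h1 : ∃ c : ℝ, 0 < c ∧ ∀ x ∈ K, a x = 0 → c < b x := by
    have hc : IsCompact (K ∩ a ⁻¹' {0}) := hK.inter_right (isClosed_singleton.preimage ha)
    rcases (K ∩ a ⁻¹' {0}).eq_empty_or_nonempty with h | h
    · refine ⟨1, one_pos, fun x hx hx0 => ?_⟩
      have : x ∈ K ∩ a ⁻¹' {0} := ⟨hx, hx0⟩
      rw [h] at this
      exact absurd this (notMem_empty _)
    · obtain ⟨x0, hx0, hmin⟩ := hc.exists_isMinOn h hb.continuousOn
      have hp := hpos x0 hx0.1 hx0.2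
      refine ⟨b x0 / 2, by positivity, fun x hx hx' => ?_⟩
      have := hmin (show x ∈ K ∩ a ⁻¹' {0} from ⟨hx, hx'⟩)
      have h2 : b x0 ≤ b x := this
      linarith
  obtain ⟨c, hc, hc'⟩ := h1
  have hc2 : IsCompact (K ∩ b ⁻¹' Iic c) := hK.inter_right (isClosed_Iic.preimage hb)
  rcases (K ∩ b ⁻¹' Iic c).eq_empty_or_nonempty with h | h
  · refine ⟨1, c, one_pos, hc, fun x hx _ => ?_⟩
    by_contra hcon
    push Not at hcon
    have : x ∈ K ∩ b ⁻¹' Iic c := ⟨hx, hcon.le⟩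
    rw [h] at this
    exact notMem_empty _ this
  · obtain ⟨x0, hx0, hmin⟩ := hc2.exists_isMinOn h ha.continuousOn
    have hp : 0 < a x0 := by
      rcases (h0 x0 hx0.1).lt_or_eq with h2 | h2
      · exact h2
      · have h3 := hc' x0 hx0.1 h2.symm
        have h4 : b x0 ≤ c := hx0.2
        linarith
    refine ⟨a x0 / 2, c, by positivity, hc, fun x hx hxa => ?_⟩
    by_contra hcon
    push Not at hcon
    have := hmin (show x ∈ K ∩ b ⁻¹' Iic c from ⟨hx, hcon.le⟩)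
    have h2 : a x0 ≤ a x := this
    linarith

theorem norm_eval_unit {P : Poly} {d : ℕ} (hP : P.IsHomogeneous d) {x : V} (hx : x ≠ 0) :
    ‖eval x P‖ = ‖x‖ ^ d * ‖eval (unit x) P‖ := by
  have h4 : eval x P = (‖x‖ : ℂ) ^ d * eval (unit x) P := by
    conv_lhs => rw [(unit_spec hx).2]
    exact eval_smul' hP _ _
  rw [h4, norm_mul, norm_cast_norm]

theorem norm_nv_unit (h : SNC P1 P2 e1 e2) {x : V} (hx : x ≠ 0) :
    ‖nv P1 P2 x‖ = ‖x‖ ^ (e1 + e2) * ‖nv P1 P2 (unit x)‖ := by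
  have h4 : nv P1 P2 x = (‖x‖ : ℂ) ^ (e1 + e2) • nv P1 P2 (unit x) := by
    conv_lhs => rw [(unit_spec hx).2]
    exact nv_smul h _ _
  rw [h4, norm_smul, norm_cast_norm]

theorem SNC.near (h : SNC P1 P2 e1 e2) : ∃ η c : ℝ, 0 < η ∧ 0 < c ∧ ∀ x : V, x ≠ 0 →
    Near P1 P2 e1 e2 η x → c * ‖x‖ ^ (e1 + e2) ≤ ‖nv P1 P2 x‖ := by
  obtain ⟨η, c, hη, hc, hk⟩ := near_zero isCompact_Sph
    (a := fun x => min ‖eval x P1‖ ‖eval x P2‖) (b := fun x => ‖nv P1 P2 x‖)
    ((cont_eval P1).norm.min (cont_eval P2).norm) (cont_nv P1 P2).norm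
    (fun x _ => le_min (norm_nonneg _) (norm_nonneg _)) (fun x hx h0 => by
      apply norm_pos_iff.2
      apply h.nv_ne (Sph_ne hx)
      rcases min_choice ‖eval x P1‖ ‖eval x P2‖ with h1 | h1
      · left
        rw [h1] at h0
        exact norm_eq_zero.1 h0
      · right
        rw [h1] at h0
        exact norm_eq_zero.1 h0)
  refine ⟨η, c, hη, hc, fun x hx hn => ?_⟩
  have hx0 : 0 < ‖x‖ := norm_pos_iff.2 hx
  have h1 : min ‖eval (unit x) P1‖ ‖eval (unit x) P2‖ ≤ η := by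
    rcases hn with hn | hn
    · rw [norm_eval_unit h.h1 hx, mul_comm η] at hn
      exact (min_le_left _ _).trans (le_of_mul_le_mul_left hn (pow_pos hx0 _))
    · rw [norm_eval_unit h.h2 hx, mul_comm η] at hn
      exact (min_le_right _ _).trans (le_of_mul_le_mul_left hn (pow_pos hx0 _))
  have h2 := hk (unit x) (unit_mem hx) h1
  rw [norm_nv_unit h hx, mul_comm]
  gcongr

/-- **The difference of two points with the same values of the forms.** -/
theorem SNC.exists_nn (h : SNC P1 P2 e1 e2) : ∃ nn : V → V → V,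
    (∀ (z : ℂ) (F G : ℂ → V), AnalyticAt ℂ F z → AnalyticAt ℂ G z →
      AnalyticAt ℂ (fun w => nn (F w) (G w)) z) ∧
    (∀ x y : V, eval y P1 = eval x P1 → eval y P2 = eval x P2 → ∀ i j,
      (y - x) i * nn x y j = (y - x) j * nn x y i) ∧
    ∀ c1 : ℝ, 0 < c1 → ∃ ε0 C0 : ℝ, 0 < ε0 ∧ ε0 ≤ 1 ∧ 0 < C0 ∧ ∀ x y : V, x ≠ 0 →
      ‖y - x‖ ≤ ε0 * ‖x‖ → c1 * ‖x‖ ^ (e1 + e2) ≤ ‖nv P1 P2 x‖ →
      c1 / 2 * ‖x‖ ^ (e1 + e2) ≤ ‖nn x y‖ ∧ ‖nn x y‖ ≤ C0 * ‖x‖ ^ (e1 + e2) := by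
  obtain ⟨A, a1, a2, a3, a4⟩ := hasDQ h.h1
  obtain ⟨B, b1, b2, b3, b4⟩ := hasDQ h.h2
  have hA := dq_diag a1 a3
  have hB := dq_diag b1 b3
  set nn : V → V → V := fun x y => cr (A x y) (B x y) with hnn
  have hcont : Continuous fun p : V × V => nn p.1 p.2 := cont_cr a3 b3
  have hsc : ∀ (c : ℂ), c ≠ 0 → ∀ x y : V, nn (c • x) (c • y) = c ^ (e1 + e2) • nn x y := by
    intro c hc x y
    have e1' : A (c • x) (c • y) = c ^ e1 • A x y := by
      have := a4 c x y
      rw [pow_succ', mul_smul] at this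
      exact smul_right_injective V hc this
    have e2' : B (c • x) (c • y) = c ^ e2 • B x y := by
      have := b4 c x y
      rw [pow_succ', mul_smul] at this
      exact smul_right_injective V hc this
    rw [hnn]
    simp only
    rw [e1', e2', cr_smul_smul, pow_add]
  have hdiag : ∀ x, nn x x = nv P1 P2 x := by
    intro x
    rw [hnn]
    simp only [hA, hB]
    rfl
  refine ⟨nn, ?_, ?_, ?_⟩
  · intro z F G hF hG
    have hAz := analyticAt_pi_iff.1 (a2 z F G hF hG)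
    have hBz := analyticAt_pi_iff.1 (b2 z F G hF hG)
    rw [analyticAt_pi_iff]
    intro i
    fin_cases i
    · exact ((hAz 1).mul (hBz 2)).sub ((hAz 2).mul (hBz 1))
    · exact ((hAz 2).mul (hBz 0)).sub ((hAz 0).mul (hBz 2))
    · exact ((hAz 0).mul (hBz 1)).sub ((hAz 1).mul (hBz 0))
  · intro x y hx hy i j
    have h1 : dp (A x y) (y - x) = 0 := by rw [← a1, hx, sub_self]
    have h2 : dp (B x y) (y - x) = 0 := by rw [← b1, hy, sub_self]
    exact par_of_dp h1 h2 i j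
  · intro c1 hc1
    set K : Set (V × V) := {p | ‖p.1‖ = 1 ∧ ‖p.2 - p.1‖ ≤ 1} with hK
    have hKc : IsCompact K := by
      apply (isCompact_closedBall (0 : V × V) 2).of_isClosed_subset
      · have e1' : IsClosed {p : V × V | ‖p.1‖ = 1} :=
          isClosed_eq continuous_fst.norm continuous_const
        have e2' : IsClosed {p : V × V | ‖p.2 - p.1‖ ≤ 1} :=
          isClosed_le (continuous_snd.sub continuous_fst).norm continuous_const
        exact e1'.inter e2'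
      · rintro ⟨x, y⟩ ⟨h1, h2⟩
        simp only at h1 h2
        rw [mem_closedBall_zero_iff, Prod.norm_def]
        apply max_le
        · simp only [h1]; norm_num
        · have := norm_add_le (y - x) x
          rw [sub_add_cancel] at this
          simp only
          linarith
    obtain ⟨C, hC⟩ := hKc.exists_bound_of_continuousOn hcont.continuousOn
    have huc := hKc.uniformContinuousOn_of_continuous hcont.continuousOn
    obtain ⟨δ, hδ, hδ'⟩ := Metric.uniformContinuousOn_iff.1 huc (c1 / 2) (by positivity)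
    refine ⟨min (δ / 2) 1, max C 1, by positivity, min_le_right _ _, by positivity,
      fun x y hx hxy hlow => ?_⟩
    obtain ⟨hu1, hu2⟩ := unit_spec hx
    have hx0 : 0 < ‖x‖ := norm_pos_iff.2 hx
    have hxc : (‖x‖ : ℂ) ≠ 0 := by exact_mod_cast hx0.ne'
    set v : V := ((‖x‖ : ℂ)⁻¹) • y with hv
    have hy : y = (‖x‖ : ℂ) • v := by rw [hv, smul_smul, mul_inv_cancel₀ hxc, one_smul]
    have hvu : ‖v - unit x‖ ≤ min (δ / 2) 1 := by
      have e : v - unit x = ((‖x‖ : ℂ)⁻¹) • (y - x) := by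
        rw [hv, unit, smul_sub]
      rw [e, norm_smul, norm_inv, Complex.norm_real, norm_norm, inv_mul_le_iff₀ hx0]
      rw [mul_comm]
      exact hxy
    have hnorm : ‖nn x y‖ = ‖x‖ ^ (e1 + e2) * ‖nn (unit x) v‖ := by
      conv_lhs => rw [hu2, hy]
      rw [hsc _ hxc, norm_smul, norm_cast_norm]
    have hm1 : ((unit x, v) : V × V) ∈ K := ⟨hu1, hvu.trans (min_le_right _ _)⟩
    have hm2 : ((unit x, unit x) : V × V) ∈ K := ⟨hu1, by simp⟩
    have hd := hδ' _ hm1 _ hm2 (by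
      rw [Prod.dist_eq, dist_self, max_eq_right dist_nonneg, dist_eq_norm]
      exact lt_of_le_of_lt (hvu.trans (min_le_left _ _)) (by linarith))
    simp only at hd
    rw [dist_eq_norm, hdiag] at hd
    have hl : c1 ≤ ‖nv P1 P2 (unit x)‖ := by
      rw [norm_nv_unit h hx, mul_comm] at hlow
      exact le_of_mul_le_mul_left hlow (pow_pos hx0 _)
    constructor
    · rw [hnorm, mul_comm]
      apply mul_le_mul_of_nonneg_left _ (by positivity)
      have := norm_sub_norm_le (nv P1 P2 (unit x)) (nn (unit x) v)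
      rw [norm_sub_rev] at this
      linarith
    · rw [hnorm, mul_comm]
      apply mul_le_mul_of_nonneg_right _ (by positivity)
      exact (hC _ hm1).trans (le_max_left _ _)

end Pool.Agent.H915
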