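import Pool.Agent.H915.TC.Gap

/-!
Curves with bounded derivative on which the two forms are constant.
-/

set_option autoImplicit false

open Filter Topology Metric Set MvPolynomial

namespace Pool.Agent.H915

open Pool.Agent.Y190.OP

variable {P1 P2 : Poly} {e1 e2 : ℕ} {F : ℂ → V} {M B : ℝ}

/-- curves with bounded derivative -/
structure BC (F : ℂ → V) (M : ℝ) : Prop where
  dif : Differentiable ℂ F
  ne : ∀ z, F z ≠ 0
  pos : 0 < M
  lip : ∀ y z, ‖Phi (F y) - Phi (F z)‖ ≤ M * ‖y - z‖

theorem BC.cont (h : BC F M) : Continuous (Sf F) := cont_Sf h.dif.continuous h.ne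

theorem BC.contPhi (h : BC F M) : Continuous fun z => Phi (F z) :=
  continuous_iff_continuousAt.2 fun z =>
    (continuousAt_Phi (h.ne z)).comp h.dif.continuous.continuousAt

theorem BC.osc (h : BC F M) {y z : ℂ} (hy : ‖y - z‖ ≤ 1 / (6 * M)) :
    ‖Phi (F y) - Phi (F z)‖ ≤ 1 / 6 := by
  have hM := h.pos
  refine (h.lip y z).trans ?_
  calc M * ‖y - z‖ ≤ M * (1 / (6 * M)) := by gcongr
    _ = 1 / 6 := by field_simp

theorem BC.loc (h : BC F M) (hB : ∀ z, -B ≤ Sf F z) {y z : ℂ} (hy : ‖y - z‖ ≤ 1 / (12 * M)) :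
    Sf F y + B ≤ 3 * (Sf F z + B + 1) := by
  have hM := h.pos
  set r : ℝ := 1 / (6 * M) with hr
  have hrp : 0 < r := by positivity
  have hr2 : 1 / (12 * M) = r / 2 := by
    rw [hr]
    field_simp
    norm_num
  rw [hr2] at hy
  have hyb : y ∈ ball z r := by
    rw [mem_ball, dist_eq_norm]
    linarith
  have h1 := (S_harnack (B := B) h.dif.differentiableOn (fun y _ => h.ne y) (fun w hw => by
    rw [mem_ball, dist_eq_norm] at hw
    exact h.osc hw.le) (fun w _ => hB w) hyb).2
  have hz := hB z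
  have hy' := hB y
  have hn := norm_nonneg (y - z)
  have h2 : r / 2 * (Sf F y + B) ≤ (r - ‖y - z‖) * (Sf F y + B) :=
    mul_le_mul_of_nonneg_right (by linarith) (by linarith)
  have h3 : (r + ‖y - z‖) * (Sf F z + B + 1) ≤ (3 * (r / 2)) * (Sf F z + B + 1) :=
    mul_le_mul_of_nonneg_right (by linarith) (by linarith)
  have h4 : r / 2 * (Sf F y + B) ≤ r / 2 * (3 * (Sf F z + B + 1)) := by linarith
  exact le_of_mul_le_mul_left h4 (by positivity)

/-- the logarithm of the norm has bounded oscillation -/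
theorem BC.osc_le (h : BC F M) (hB : ∀ z, -B ≤ Sf F z) {K0 : ℝ}
    (hdead : ∀ S : Set ℂ, IsPreconnected S → (∀ z ∈ S, K0 < Sf F z) →
      ∀ y ∈ S, ∀ z ∈ S, ‖Phi (F y) - Phi (F z)‖ ≤ 1 / 6) :
    ∃ C : ℝ, ∀ z y : ℂ, ‖y - z‖ ≤ 1 / (24 * M) → Sf F y ≤ Sf F z + C := by
  have hM := h.pos
  set r0 : ℝ := 1 / (6 * M) with hr0
  have hr0p : 0 < r0 := by positivity
  have hr2 : 1 / (12 * M) = r0 / 2 := by
    rw [hr0]
    field_simp
    norm_num
  have hr4 : 1 / (24 * M) = r0 / 4 := by
    rw [hr0]
    field_simp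
    norm_num
  set C1 : ℝ := 3 * (|K0| + B + 1) with hC1
  have hKB : -B ≤ |K0| ∨ ∀ z, K0 < Sf F z := by
    by_cases hA : ∀ z, K0 < Sf F z
    · exact Or.inr hA
    · left
      push Not at hA
      obtain ⟨z, hz⟩ := hA
      have := hB z
      have := le_abs_self K0
      linarith
  refine ⟨max (3 * (|C1| + 1)) (4 * (|C1| + 1) + 4), fun z y hy => ?_⟩
  rw [hr4] at hy
  have hzB := hB z
  have hyB := hB y
  have hn := norm_nonneg (y - z)
  have hC1a := le_abs_self C1
  have hC1b := abs_nonneg C1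
  by_cases hA : ∀ z, K0 < Sf F z
  · -- everything is dead
    have hosc := hdead univ isPreconnected_univ (fun z _ => hA z)
    set X := Sf F z + B + 1 with hX
    have hXp : 0 < X := by linarith
    set R : ℝ := ‖y - z‖ + 2 * ‖y - z‖ * X + 1 with hR
    have hyb : y ∈ ball z R := by
      rw [mem_ball, dist_eq_norm, hR]
      have : 0 ≤ 2 * ‖y - z‖ * X := by positivity
      linarith
    have h1 := (S_harnack (B := B) h.dif.differentiableOn (fun y _ => h.ne y) (fun w _ =>
      hosc w (mem_univ _) z (mem_univ _)) (fun w _ => hB w) hyb).2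
    have h2 : R - ‖y - z‖ = 2 * ‖y - z‖ * X + 1 := by rw [hR]; ring
    have h3 : R + ‖y - z‖ = (2 * ‖y - z‖ * X + 1) + 2 * ‖y - z‖ := by rw [hR]; ring
    rw [h2, h3] at h1
    change _ ≤ _ * X at h1
    have hp : 0 < 2 * ‖y - z‖ * X + 1 := by positivity
    have h4 : Sf F y + B ≤ X + 1 := by
      by_contra hcon
      push Not at hcon
      have : (2 * ‖y - z‖ * X + 1) * (X + 1) < (2 * ‖y - z‖ * X + 1) * (Sf F y + B) :=
        mul_lt_mul_of_pos_left hcon hp
      nlinarith
    have h5 := le_max_left (3 * (|C1| + 1)) (4 * (|C1| + 1) + 4)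
    have h6 := le_max_right (3 * (|C1| + 1)) (4 * (|C1| + 1) + 4)
    linarith
  · have hKB' : -B ≤ |K0| := hKB.resolve_right hA
    push Not at hA
    set A : Set ℂ := {z | Sf F z ≤ K0} with hAdef
    have hAc : IsClosed A := isClosed_le h.cont continuous_const
    have hAn : A.Nonempty := hA
    obtain ⟨a, ha, haz⟩ := hAc.exists_infDist_eq_dist hAn z
    set r := infDist z A with hr
    have haK : Sf F a ≤ |K0| := le_trans ha (le_abs_self K0)
    have hnear : ∀ w, ‖w - a‖ ≤ r0 / 2 → Sf F w + B ≤ C1 := by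
      intro w hw
      rw [← hr2] at hw
      have := h.loc hB hw
      linarith
    have hC1p : C1 = |C1| := by
      rw [abs_of_nonneg]
      rw [hC1]
      linarith
    by_cases hrr : r ≤ r0 / 2
    · have h1 : Sf F z + B ≤ C1 := hnear z (by rw [← dist_eq_norm, ← haz]; exact hrr)
      have h2 := h.loc hB (y := y) (z := z) (by rw [hr2]; linarith)
      have h5 := le_max_left (3 * (|C1| + 1)) (4 * (|C1| + 1) + 4)
      linarith
    · push Not at hrr
      have hrp : 0 < r := by linarith
      have hball : ∀ w ∈ ball z r, K0 < Sf F w := by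
        intro w hw
        by_contra hcon
        push Not at hcon
        have h1 : infDist z A ≤ dist z w := infDist_le_dist_of_mem hcon
        rw [mem_ball, dist_comm] at hw
        linarith
      have hosc := hdead (ball z r) (convex_ball z r).isPreconnected hball
      have hH : ∀ w ∈ ball z r, (r - ‖w - z‖) * (Sf F z + B) ≤ (r + ‖w - z‖) * (Sf F w + B + 1) ∧
          (r - ‖w - z‖) * (Sf F w + B) ≤ (r + ‖w - z‖) * (Sf F z + B + 1) := fun w hw =>
        S_harnack (B := B) h.dif.differentiableOn (fun y _ => h.ne y) (fun w hw =>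
          hosc w hw z (mem_ball_self hrp)) (fun w _ => hB w) hw
      set y0 : ℂ := a + ((r0 / 2 / r : ℝ) : ℂ) * (z - a) with hy0
      have hza : ‖z - a‖ = r := by rw [← dist_eq_norm, ← haz]
      have hfr : r0 / 2 / r ≤ 1 := by
        rw [div_le_one hrp]
        exact hrr.le
      have h1 : ‖y0 - a‖ = r0 / 2 := by
        have e : y0 - a = ((r0 / 2 / r : ℝ) : ℂ) * (z - a) := by rw [hy0]; ring
        rw [e, norm_mul, Complex.norm_real, Real.norm_of_nonneg (by positivity), hza]
        field_simp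
      have h2 : ‖y0 - z‖ = r - r0 / 2 := by
        have e : y0 - z = ((-(1 - r0 / 2 / r) : ℝ) : ℂ) * (z - a) := by
          rw [hy0]
          push_cast
          ring
        rw [e, norm_mul, Complex.norm_real, norm_neg, Real.norm_of_nonneg (by linarith), hza]
        field_simp
      have hy0b : y0 ∈ ball z r := by
        rw [mem_ball, dist_eq_norm, h2]
        linarith
      have h3 := (hH y0 hy0b).1
      rw [h2] at h3
      have h4 := hnear y0 h1.le
      have hy0B := hB y0
      have h5 : r0 / 2 * (Sf F z + B) ≤ 2 * r * (|C1| + 1) := by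
        have e1 : r - (r - r0 / 2) = r0 / 2 := by ring
        rw [e1] at h3
        refine h3.trans ?_
        apply mul_le_mul _ _ (by linarith) (by positivity)
        · linarith
        · linarith
      have hyb : y ∈ ball z r := by
        rw [mem_ball, dist_eq_norm]
        linarith
      have h6 := (hH y hyb).2
      set X := Sf F z + B + 1 with hX
      have hXp : 0 < X := by linarith
      set t := ‖y - z‖ with ht
      -- `(r - t) (S y + B) ≤ (r + t) X`
      have hrt : r / 2 ≤ r - t := by linarith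
      have h7 : 2 * t * X ≤ (r - t) * (4 * (|C1| + 1) + 2) := by
        have e1 : r0 * X ≤ 4 * r * (|C1| + 1) + r0 := by
          rw [hX]
          linarith
        calc 2 * t * X ≤ r0 / 2 * X := by
              apply mul_le_mul_of_nonneg_right _ hXp.le
              linarith
          _ ≤ 2 * r * (|C1| + 1) + r0 / 2 := by linarith
          _ ≤ (r / 2) * (4 * (|C1| + 1) + 2) := by nlinarith
          _ ≤ _ := by
              apply mul_le_mul_of_nonneg_right hrt
              positivity
      have h8 : Sf F y + B ≤ X + (4 * (|C1| + 1) + 2) := by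
        have e1 : (r - t) * (Sf F y + B) ≤ (r - t) * (X + (4 * (|C1| + 1) + 2)) := by
          have e2 : (r + t) * X = (r - t) * X + 2 * t * X := by ring
          rw [e2] at h6
          linarith
        exact le_of_mul_le_mul_left e1 (by linarith)
      have h9 := le_max_right (3 * (|C1| + 1)) (4 * (|C1| + 1) + 4)
      linarith

/-- the logarithmic derivative is bounded -/
theorem BC.deriv_le (h : BC F M) {ρ C : ℝ} (hρ : 0 < ρ)
    (hC : ∀ z y : ℂ, ‖y - z‖ ≤ ρ → Sf F y ≤ Sf F z + C) :
    ∃ K : ℝ, 0 < K ∧ ∀ z, ‖deriv F z‖ ≤ K * ‖F z‖ := by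
  refine ⟨Real.exp (C + 1) / ρ, by positivity, fun z => ?_⟩
  have h1 : ∀ y ∈ sphere z ρ, ‖F y‖ ≤ Real.exp (C + 1) * ‖F z‖ := by
    intro y hy
    have h2 : ‖y - z‖ ≤ ρ := by
      rw [mem_sphere, dist_eq_norm] at hy
      exact hy.le
    have h3 := hC z y h2
    have h4 := log_le_Sf (h.ne y)
    have h5 := Sf_le (h.ne z)
    have hy0 : 0 < ‖F y‖ := norm_pos_iff.2 (h.ne y)
    have hz0 : 0 < ‖F z‖ := norm_pos_iff.2 (h.ne z)
    rw [← Real.exp_log hy0]
    conv_rhs => rw [← Real.exp_log hz0, ← Real.exp_add]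
    apply Real.exp_le_exp.2
    linarith
  have h6 := Complex.norm_deriv_le_of_forall_mem_sphere_norm_le hρ h.dif.diffContOnCl h1
  calc ‖deriv F z‖ ≤ Real.exp (C + 1) * ‖F z‖ / ρ := h6
    _ = _ := by ring

end Pool.Agent.H915
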