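import Pool.Agent.H915.TC.Cur

/-!
Curves with bounded derivative on which the two forms are constant are constant.
-/

set_option autoImplicit false

open Filter Topology Metric Set MvPolynomial

namespace Pool.Agent.H915

open Pool.Agent.Y190.OP

variable {P1 P2 : Poly} {e1 e2 : ℕ} {F : ℂ → V} {M B : ℝ}

theorem removable {g m : ℂ → ℂ} {C : ℝ} (hm : ∀ z, ∀ᶠ y in 𝓝[≠] z, m y ≠ 0)
    (hg : ∀ z, m z ≠ 0 → DifferentiableAt ℂ g z) (hb : ∀ z, m z ≠ 0 → ‖g z‖ ≤ C) :
    ∃ G : ℂ → ℂ, Differentiable ℂ G ∧ (∀ z, m z ≠ 0 → G z = g z) ∧ ∀ z, ‖G z‖ ≤ C := by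
  set G : ℂ → ℂ := fun z => limUnder (𝓝[≠] z) g with hG
  have h1 : ∀ z, m z ≠ 0 → G z = g z := by
    intro z hz
    have h2 : Tendsto g (𝓝[≠] z) (𝓝 (g z)) := (hg z hz).continuousAt.tendsto.mono_left
      nhdsWithin_le_nhds
    exact h2.limUnder_eq
  have h2 : Differentiable ℂ G := by
    intro z
    have h3 := hm z
    rw [eventually_nhdsWithin_iff] at h3
    set s : Set ℂ := {y | y ∈ ({z} : Set ℂ)ᶜ → m y ≠ 0} with hs
    have hsz : s ∈ 𝓝 z := h3
    have h4 := Complex.differentiableOn_update_limUnder_of_bddAbove (f := g) hsz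
      (fun y hy => (hg y (hy.1 hy.2)).differentiableWithinAt) (by
        refine ⟨C, ?_⟩
        rintro _ ⟨y, hy, rfl⟩
        exact hb y (hy.1 hy.2))
    have h5 := h4.differentiableAt hsz
    refine h5.congr_of_eventuallyEq ?_
    filter_upwards [hsz] with y hy
    by_cases hyz : y = z
    · rw [hyz, Function.update_self]
    · rw [Function.update_of_ne hyz]
      exact h1 y (hy hyz)
  refine ⟨G, h2, h1, fun z => ?_⟩
  have h3 : Tendsto (fun y => ‖G y‖) (𝓝[≠] z) (𝓝 ‖G z‖) :=
    (h2.continuous.norm.tendsto z).mono_left nhdsWithin_le_nhds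
  refine le_of_tendsto h3 ?_
  filter_upwards [hm z] with y hy
  rw [h1 y hy]
  exact hb y hy

theorem exists_scalar {f g : ℂ → V} (hf : Differentiable ℂ f) (hg : Differentiable ℂ g)
    (hpar : ∀ z i j, f z i * g z j = f z j * g z i) :
    ∃ L : ℂ → ℂ, ∀ z, g z ≠ 0 → f z = L z • g z ∧ DifferentiableAt ℂ L z := by
  have h1 : ∀ z, ∃ c : ℂ, g z ≠ 0 → f z = c • g z := by
    intro z
    by_cases hz : g z = 0
    · exact ⟨0, fun h => absurd hz h⟩
    · obtain ⟨i, hi⟩ := Function.ne_iff.1 hz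
      have hi' : g z i ≠ 0 := hi
      refine ⟨f z i / g z i, fun _ => ?_⟩
      funext j
      rw [Pi.smul_apply, smul_eq_mul]
      have := hpar z i j
      field_simp
      linear_combination -this
  choose L hL using h1
  refine ⟨L, fun z hz => ⟨hL z hz, ?_⟩⟩
  obtain ⟨i, hi⟩ := Function.ne_iff.1 hz
  have hi' : g z i ≠ 0 := hi
  have hfi : DifferentiableAt ℂ (fun w => f w i) z := differentiableAt_pi.1 (hf z) i
  have hgi : DifferentiableAt ℂ (fun w => g w i) z := differentiableAt_pi.1 (hg z) i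
  refine (hfi.div hgi hi').congr_of_eventuallyEq ?_
  filter_upwards [hgi.continuousAt.eventually_ne hi'] with w hw
  have hgw : g w ≠ 0 := fun h => hw (by rw [h]; rfl)
  have := congrFun (hL w hgw) i
  rw [Pi.smul_apply, smul_eq_mul] at this
  simp only [Pi.div_apply]
  rw [this]
  field_simp

theorem Phi_of_par {u v : V} (hu : u ≠ 0) (hv : v ≠ 0) (h : ∀ i j, u i * v j = u j * v i) :
    Phi u = Phi v := by
  obtain ⟨i, hi⟩ := Function.ne_iff.1 hv
  have hi' : v i ≠ 0 := hi
  have h1 : u = (u i / v i) • v := by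
    funext j
    rw [Pi.smul_apply, smul_eq_mul]
    have := h i j
    field_simp
    linear_combination -this
  have h2 : u i / v i ≠ 0 := by
    intro h0
    rw [h0, zero_smul] at h1
    exact hu h1
  conv_lhs => rw [h1]
  exact Phi_smul h2 v

theorem BC.const_of (h : BC F M) {K C : ℝ} (hK : ∀ z, ‖deriv F z‖ ≤ K * ‖F z‖)
    {g : ℂ → V} (hg : Differentiable ℂ g)
    (hpar : ∀ z i j, deriv F z i * g z j = deriv F z j * g z i)
    {m : ℂ → ℂ} (hm : Differentiable ℂ m) (hC : ∀ z, ‖m z‖ * ‖F z‖ ^ 2 ≤ C * ‖g z‖)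
    (hm0 : ∃ z, m z ≠ 0) (x y : ℂ) : Phi (F x) = Phi (F y) := by
  have hdF : Differentiable ℂ (deriv F) := h.dif.deriv
  -- the zeros of `m`
  have hmz : ∀ z, ∀ᶠ y in 𝓝[≠] z, m y ≠ 0 := by
    intro z
    rcases (hm.analyticAt z).eventually_eq_zero_or_eventually_ne_zero with h1 | h1
    · exfalso
      obtain ⟨w, hw⟩ := hm0
      have hA : AnalyticOnNhd ℂ m univ := fun z _ => hm.analyticAt z
      exact hw (hA.eqOn_zero_of_preconnected_of_eventuallyEq_zero isPreconnected_univ
        (mem_univ z) h1 (mem_univ w))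
    · exact h1
  have hgm : ∀ z, m z ≠ 0 → g z ≠ 0 := by
    intro z hz h0
    have h1 := hC z
    rw [h0, norm_zero, mul_zero] at h1
    have h2 : 0 < ‖m z‖ := norm_pos_iff.2 hz
    have h3 : 0 < ‖F z‖ := norm_pos_iff.2 (h.ne z)
    have : 0 < ‖m z‖ * ‖F z‖ ^ 2 := by positivity
    linarith
  obtain ⟨L, hL⟩ := exists_scalar hdF hg hpar
  have hbound : ∀ z, m z ≠ 0 → ‖L z‖ * ‖m z‖ * ‖F z‖ ≤ K * C := by
    intro z hz
    obtain ⟨h1, -⟩ := hL z (hgm z hz)
    have h2 : 0 < ‖g z‖ := norm_pos_iff.2 (hgm z hz)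
    have h3 : ‖L z‖ * ‖g z‖ ≤ K * ‖F z‖ := by
      rw [← norm_smul, ← h1]
      exact hK z
    have h4 := hC z
    have hF0 : 0 < ‖F z‖ := norm_pos_iff.2 (h.ne z)
    have hm1 : 0 < ‖m z‖ := norm_pos_iff.2 hz
    have hK0 : 0 ≤ K := by
      by_contra hcon
      push Not at hcon
      have : K * ‖F z‖ < 0 := mul_neg_of_neg_of_pos hcon hF0
      have : 0 ≤ ‖L z‖ * ‖g z‖ := by positivity
      linarith
    have h5 : (‖L z‖ * ‖m z‖ * ‖F z‖) * ‖g z‖ ≤ (K * C) * ‖g z‖ := by
      calc (‖L z‖ * ‖m z‖ * ‖F z‖) * ‖g z‖ = (‖L z‖ * ‖g z‖) * (‖m z‖ * ‖F z‖) := by ring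
        _ ≤ (K * ‖F z‖) * (‖m z‖ * ‖F z‖) := mul_le_mul_of_nonneg_right h3 (by positivity)
        _ = K * (‖m z‖ * ‖F z‖ ^ 2) := by ring
        _ ≤ K * (C * ‖g z‖) := mul_le_mul_of_nonneg_left h4 hK0
        _ = _ := by ring
    exact le_of_mul_le_mul_right h5 h2
  have hFj : ∀ j, Differentiable ℂ fun z => F z j := fun j => differentiable_pi.1 h.dif j
  have hG : ∀ j : Fin 3, ∃ v : ℂ, ∀ z, m z ≠ 0 → L z * m z * F z j = v := by
    intro j
    obtain ⟨G, h1, h2, h3⟩ := removable (g := fun z => L z * m z * F z j) (C := K * C) hmz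
      (fun z hz => (((hL z (hgm z hz)).2.mul (hm z)).mul (hFj j z))) (fun z hz => by
        rw [norm_mul, norm_mul]
        refine le_trans ?_ (hbound z hz)
        apply mul_le_mul_of_nonneg_left (norm_le_pi_norm (F z) j) (by positivity))
    obtain ⟨v, hv⟩ := h1.exists_const_forall_eq_of_bounded (isBounded_iff_forall_norm_le.2
      ⟨K * C, by rintro _ ⟨z, rfl⟩; exact h3 z⟩)
    exact ⟨v, fun z hz => by rw [← h2 z hz]; exact hv z⟩
  choose v hv using hG
  -- density
  have hdense : ∀ f : ℂ → ℂ, Continuous f → (∀ z, m z ≠ 0 → f z = 0) → ∀ z, f z = 0 := by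
    intro f hf h0 z
    have h1 : Tendsto f (𝓝[≠] z) (𝓝 (f z)) := (hf.tendsto z).mono_left nhdsWithin_le_nhds
    have h2 : Tendsto f (𝓝[≠] z) (𝓝 0) := by
      refine tendsto_const_nhds.congr' ?_
      filter_upwards [hmz z] with y hy
      exact (h0 y hy).symm
    exact tendsto_nhds_unique h1 h2
  by_cases hv0 : v = 0
  · -- the derivative vanishes
    have h1 : ∀ z, m z ≠ 0 → deriv F z = 0 := by
      intro z hz
      obtain ⟨j, hj⟩ := Function.ne_iff.1 (h.ne z)
      have h2 := hv j z hz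
      rw [hv0, Pi.zero_apply] at h2
      have h3 : L z = 0 := by
        rcases mul_eq_zero.1 h2 with h4 | h4
        · rcases mul_eq_zero.1 h4 with h5 | h5
          · exact h5
          · exact absurd h5 hz
        · exact absurd h4 hj
      rw [(hL z (hgm z hz)).1, h3, zero_smul]
    have h2 : ∀ z, deriv F z = 0 := by
      intro z
      funext i
      refine hdense (fun z => deriv F z i) ?_ (fun z hz => by rw [h1 z hz]; rfl) z
      exact (continuous_apply i).comp hdF.continuous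
    have h3 : F x = F y := is_const_of_deriv_eq_zero h.dif h2 x y
    rw [h3]
  · have h1 : ∀ z i j, F z i * v j = F z j * v i := by
      intro z i j
      have := hdense (fun z => F z i * v j - F z j * v i) (by
        have := (hFj i).continuous
        have := (hFj j).continuous
        fun_prop) (fun z hz => by
          rw [← hv j z hz, ← hv i z hz]
          ring) z
      exact sub_eq_zero.1 this
    rw [Phi_of_par (h.ne x) hv0 (h1 x), Phi_of_par (h.ne y) hv0 (h1 y)]

/-- differentiating the two equations -/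
theorem par_of_const (hF : Differentiable ℂ F) {a b : ℂ} (h1 : ∀ z, eval (F z) P1 = a)
    (h2 : ∀ z, eval (F z) P2 = b) (z : ℂ) (i j : Fin 3) :
    deriv F z i * nv P1 P2 (F z) j = deriv F z j * nv P1 P2 (F z) i := by
  apply par_of_dp
  · have := hasDerivAt_eval P1 (hF z).hasDerivAt
    simp only [h1] at this
    exact this.unique (hasDerivAt_const z a)
  · have := hasDerivAt_eval P2 (hF z).hasDerivAt
    simp only [h2] at this
    exact this.unique (hasDerivAt_const z b)

theorem diff_grad (P : Poly) (hF : Differentiable ℂ F) : Differentiable ℂ fun z => grad P (F z) :=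
  differentiable_pi.2 fun i => fun z => (hasDerivAt_eval (pderiv i P) (hF z).hasDerivAt).differentiableAt

theorem diff_cr {f g : ℂ → V} (hf : Differentiable ℂ f) (hg : Differentiable ℂ g) :
    Differentiable ℂ fun z => cr (f z) (g z) := by
  have hf' := differentiable_pi.1 hf
  have hg' := differentiable_pi.1 hg
  rw [differentiable_pi]
  intro i
  fin_cases i
  · exact ((hf' 1).mul (hg' 2)).sub ((hf' 2).mul (hg' 1))
  · exact ((hf' 2).mul (hg' 0)).sub ((hf' 0).mul (hg' 2))
  · exact ((hf' 0).mul (hg' 1)).sub ((hf' 1).mul (hg' 0))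

theorem diff_nv (P1 P2 : Poly) (hF : Differentiable ℂ F) :
    Differentiable ℂ fun z => nv P1 P2 (F z) :=
  diff_cr (diff_grad P1 hF) (diff_grad P2 hF)

end Pool.Agent.H915
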