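import Pool.Agent.H915.TC.Str

/-!
Entire curves in the complement of the two curves: first estimates.
-/

set_option autoImplicit false

open Filter Topology Metric Set MvPolynomial

namespace Pool.Agent.H915

open Pool.Agent.Y190.OP

variable {P1 P2 : Poly} {e1 e2 : ℕ} {F : ℂ → V} {M B : ℝ} {h : ℂ → ℂ}

/-- a curve with bounded derivative in the complement, normalised by the first form -/
structure EC (P1 P2 : Poly) (F : ℂ → V) (M : ℝ) (h : ℂ → ℂ) : Prop extends BC F M where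
  v1 : ∀ z, eval (F z) P1 = 1
  v2 : ∀ z, eval (F z) P2 = Complex.exp (h z)
  hd : Differentiable ℂ h

/-- the local Lipschitz condition -/
def Lip (F : ℂ → V) (z : ℂ) (m : ℝ) : Prop := ∀ᶠ y in 𝓝 z, ‖Phi (F y) - Phi (F z)‖ ≤ m * ‖y - z‖

theorem Lip.mono {z : ℂ} {m m' : ℝ} (h : Lip F z m) (hm : m ≤ m') : Lip F z m' := by
  filter_upwards [h] with y hy
  exact hy.trans (mul_le_mul_of_nonneg_right hm (norm_nonneg _))

theorem BC.lipAt (h : BC F M) (z : ℂ) : Lip F z M := Eventually.of_forall fun y => h.lip y z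

theorem lip_of_fderivAt {φ : ℂ → Mat 3} {z : ℂ} {m : ℝ} (hd : DifferentiableAt ℝ φ z)
    (hm : ‖fderiv ℝ φ z‖ < m) : ∀ᶠ y in 𝓝 z, ‖φ y - φ z‖ ≤ m * ‖y - z‖ := by
  have h1 := hd.hasFDerivAt.isLittleO.def (c := m - ‖fderiv ℝ φ z‖) (by linarith)
  filter_upwards [h1] with y hy
  have h2 : φ y - φ z = (φ y - φ z - fderiv ℝ φ z (y - z)) + fderiv ℝ φ z (y - z) := by abel
  rw [h2]
  refine (norm_add_le _ _).trans ?_
  have h3 := (fderiv ℝ φ z).le_opNorm (y - z)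
  calc _ ≤ (m - ‖fderiv ℝ φ z‖) * ‖y - z‖ + ‖fderiv ℝ φ z‖ * ‖y - z‖ := add_le_add hy h3
    _ = _ := by ring

theorem holP_Phi (hF : Differentiable ℂ F) (h0 : ∀ z, F z ≠ 0) :
    HolP univ (fun z => Phi (F z)) := fun z _ =>
  ⟨univ, F, isOpen_univ, mem_univ z, hF.differentiableOn, fun w _ => ⟨h0 w, rfl⟩⟩

/-- lower bounds for the logarithm of the norm -/
theorem EC.lower (hS : SNC P1 P2 e1 e2) (hF : EC P1 P2 F M h) :
    ∃ B : ℝ, 0 < B ∧ (∀ z, -B ≤ Sf F z) ∧ ∀ z, (h z).re / (e2 + 1 : ℕ) - B ≤ Sf F z := by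
  obtain ⟨c, hc, hc'⟩ := lower_of_const hS.h1 (one_ne_zero (α := ℂ))
  obtain ⟨C, hC, hC'⟩ := eval_le hS.h2
  have hd : (0 : ℝ) < (e2 + 1 : ℕ) := by positivity
  have hd1 : (1 : ℝ) ≤ (e2 + 1 : ℕ) := by exact_mod_cast Nat.succ_pos e2
  refine ⟨|Real.log c| + |Real.log C| + 1, by positivity, fun z => ?_, fun z => ?_⟩
  · have h1 := log_le_Sf (hF.ne z)
    have h2 := Real.log_le_log hc (hc' _ (hF.v1 z))
    have h3 := neg_abs_le (Real.log c)
    have h4 := abs_nonneg (Real.log C)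
    linarith
  · have h0 : 0 < ‖F z‖ := norm_pos_iff.2 (hF.ne z)
    have h1 := hC' _ (hF.ne z)
    rw [hF.v2, Complex.norm_exp] at h1
    have h2 := Real.log_le_log (Real.exp_pos _) h1
    rw [Real.log_exp, Real.log_mul hC.ne' (by positivity), Real.log_pow] at h2
    have h3 := log_le_Sf (hF.ne z)
    have h4 : (h z).re / (e2 + 1 : ℕ) ≤ Real.log C / (e2 + 1 : ℕ) + Real.log ‖F z‖ := by
      rw [div_add' _ _ _ hd.ne', div_le_div_iff_of_pos_right hd]
      linarith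
    have h5 : Real.log C / (e2 + 1 : ℕ) ≤ |Real.log C| := by
      rw [div_le_iff₀ hd]
      have := le_abs_self (Real.log C)
      have := abs_nonneg (Real.log C)
      nlinarith
    have h6 := abs_nonneg (Real.log c)
    linarith

/-- the values at points far from the curves -/
theorem EC.alive (hS : SNC P1 P2 e1 e2) (hF : EC P1 P2 F M h) {η : ℝ} (hη : 0 < η) :
    ∃ K : ℝ, 0 < K ∧ ∀ z, η ≤ ‖pe P1 (Phi (F z))‖ → η ≤ ‖pe P2 (Phi (F z))‖ →
      Sf F z ≤ K ∧ |(h z).re| ≤ K := by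
  obtain ⟨B, hB0, hB, hB2⟩ := hF.lower hS
  have hd : (0 : ℝ) < (e2 + 1 : ℕ) := by positivity
  have hd1 : (1 : ℝ) ≤ (e2 + 1 : ℕ) := by exact_mod_cast Nat.succ_pos e2
  set L := |Real.log η| with hL
  have hL0 : 0 ≤ L := abs_nonneg _
  refine ⟨L + (e2 + 1 : ℕ) * (L + B + 2), by positivity, fun z h1 h2 => ?_⟩
  have h0 : 0 < ‖F z‖ := norm_pos_iff.2 (hF.ne z)
  have h3 := pe_le hS.h1 (hF.ne z)
  rw [hF.v1, norm_one] at h3
  have h4 : η * ‖F z‖ ^ (e1 + 1) ≤ 1 := le_trans (by gcongr) h3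
  have h5 := Real.log_le_log (by positivity) h4
  rw [Real.log_mul hη.ne' (by positivity), Real.log_pow, Real.log_one] at h5
  have h6 : Real.log ‖F z‖ ≤ L := by
    have e1' : (1 : ℝ) ≤ (e1 + 1 : ℕ) := by exact_mod_cast Nat.succ_pos e1
    have := neg_abs_le (Real.log η)
    by_contra hcon
    push Not at hcon
    nlinarith
  have h7 := Sf_le (hF.ne z)
  have h8 := log_le_Sf (hF.ne z)
  have h9 : Sf F z ≤ L + 1 := by linarith
  have h10 := pe_le hS.h2 (hF.ne z)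
  rw [hF.v2, Complex.norm_exp] at h10
  have h11 : η * ‖F z‖ ^ (e2 + 1) ≤ Real.exp (h z).re := le_trans (by gcongr) h10
  have h12 := Real.log_le_log (by positivity) h11
  rw [Real.log_mul hη.ne' (by positivity), Real.log_pow, Real.log_exp] at h12
  have h13 := hB z
  have h14 := hB2 z
  have h15 : (h z).re ≤ (e2 + 1 : ℕ) * (L + B + 1) := by
    rw [div_sub' hd.ne', div_le_iff₀ hd] at h14
    nlinarith
  have h16 : -(L + (e2 + 1 : ℕ) * (B + 1)) ≤ (h z).re := by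
    have e3 : -(B + 1) ≤ Real.log ‖F z‖ := by linarith
    have e4 : (e2 + 1 : ℕ) * (-(B + 1)) ≤ (e2 + 1 : ℕ) * Real.log ‖F z‖ :=
      mul_le_mul_of_nonneg_left e3 hd.le
    have := neg_abs_le (Real.log η)
    linarith
  refine ⟨?_, abs_le.2 ⟨?_, ?_⟩⟩
  · nlinarith
  · nlinarith
  · nlinarith

/-- the derivative of a ratio of coordinates -/
theorem ratio_deriv {z : ℂ} {m : ℝ} (hm : 0 ≤ m) (hF : Differentiable ℂ F) (h0 : ∀ z, F z ≠ 0)
    (hL : Lip F z m) {i : Fin 3} (hi : ‖F z i‖ = ‖F z‖) (j : Fin 3) :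
    ‖F z i * deriv F z j - F z j * deriv F z i‖ ≤ 24 * m * ‖F z‖ ^ 2 := by
  have hz := h0 z
  have hn : 0 < ‖F z‖ := norm_pos_iff.2 hz
  have hFi : F z i ≠ 0 := by
    rw [← norm_pos_iff, hi]
    exact hn
  set φ : ℂ → Mat 3 := fun y => Phi (F y) with hφ
  have hdz : ‖φ z i i‖ ≥ 1 / 3 := by
    rw [hφ]
    simp only
    rw [Phi_diag, Complex.norm_real, Real.norm_of_nonneg (by have := sq_nonneg' (F z); positivity),
      hi, ge_iff_le, div_le_div_iff₀ (by norm_num) (sq_pos hz)]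
    have := sq_le (F z)
    linarith
  have hcont : ContinuousAt φ z := (continuousAt_Phi hz).comp hF.continuous.continuousAt
  have hcii : ContinuousAt (fun y => φ y i i) z := (continuous_apply_apply i i).continuousAt.comp hcont
  have hdy : ∀ᶠ y in 𝓝 z, 1 / 4 < ‖φ y i i‖ :=
    hcii.norm.eventually_const_lt (by linarith)
  have hle1 : ∀ (u : V), u ≠ 0 → ∀ j k, ‖Phi u j k‖ ≤ 1 := by
    intro u hu j k
    unfold Phi
    rw [nsq_sq, norm_div, norm_mul, Complex.norm_conj, Complex.norm_real,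
      Real.norm_of_nonneg (sq_nonneg' u), div_le_one (sq_pos hu)]
    refine le_trans ?_ (le_sq u)
    rw [pow_two]
    exact mul_le_mul (norm_le_pi_norm u j) (norm_le_pi_norm u k) (norm_nonneg _) (norm_nonneg _)
  have hcoord : ∀ᶠ y in 𝓝 z, ‖F y j / F y i - F z j / F z i‖ ≤ 24 * m * ‖y - z‖ := by
    filter_upwards [hL, hdy] with y hy hy2
    have hyi : F y i ≠ 0 := by
      have h1 : φ y i i ≠ 0 := by
        intro h
        rw [h, norm_zero] at hy2
        norm_num at hy2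
      exact (Phi_diag_ne (h0 y)).1 h1
    have e1 : F y j / F y i = φ y j i / φ y i i := (Phi_ratio (h0 y) hyi j).symm
    have e2 : F z j / F z i = φ z j i / φ z i i := (Phi_ratio hz hFi j).symm
    have hny : φ y i i ≠ 0 := (Phi_diag_ne (h0 y)).2 hyi
    have hnz : φ z i i ≠ 0 := (Phi_diag_ne hz).2 hFi
    rw [e1, e2]
    have e3 : φ y j i / φ y i i - φ z j i / φ z i i =
        ((φ y j i - φ z j i) * φ z i i + φ z j i * (φ z i i - φ y i i)) / (φ y i i * φ z i i) := by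
      field_simp
      ring
    have hentry : ∀ j k, ‖φ y j k - φ z j k‖ ≤ m * ‖y - z‖ := fun j k =>
      ((norm_le_pi_norm (φ y j - φ z j) k).trans (norm_le_pi_norm (φ y - φ z) j)).trans hy
    rw [e3, norm_div, norm_mul, div_le_iff₀ (by positivity)]
    have e4 : ‖(φ y j i - φ z j i) * φ z i i + φ z j i * (φ z i i - φ y i i)‖ ≤
        2 * (m * ‖y - z‖) := by
      refine (norm_add_le _ _).trans ?_
      rw [norm_mul, norm_mul]
      have f1 := hle1 (F z) hz i i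
      have f2 := hle1 (F z) hz j i
      have f3 := hentry j i
      have f4 := hentry i i
      rw [norm_sub_rev] at f4
      have f5 : ‖φ y j i - φ z j i‖ * ‖φ z i i‖ ≤ (m * ‖y - z‖) * 1 :=
        mul_le_mul f3 f1 (norm_nonneg _) (by positivity)
      have f6 : ‖φ z j i‖ * ‖φ z i i - φ y i i‖ ≤ 1 * (m * ‖y - z‖) :=
        mul_le_mul f2 f4 (norm_nonneg _) (by positivity)
      linarith
    have e5 : 1 / 12 ≤ ‖φ y i i‖ * ‖φ z i i‖ := by
      have := mul_le_mul hy2.le hdz (by norm_num) (norm_nonneg _)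
      linarith
    have e6 : 0 ≤ m * ‖y - z‖ := by positivity
    nlinarith
  have hdj : HasDerivAt (fun y => F y j) (deriv F z j) z :=
    (hasDerivAt_pi.1 (hF z).hasDerivAt) j
  have hdi : HasDerivAt (fun y => F y i) (deriv F z i) z :=
    (hasDerivAt_pi.1 (hF z).hasDerivAt) i
  have hdq := hdj.div hdi hFi
  have hb := hdq.le_of_lip' (C := 24 * m) (by positivity) hcoord
  rw [norm_div, norm_pow, hi, div_le_iff₀ (by positivity)] at hb
  calc ‖F z i * deriv F z j - F z j * deriv F z i‖ =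
      ‖deriv F z j * F z i - F z j * deriv F z i‖ := by ring_nf
    _ ≤ _ := hb

theorem cr_deriv {z : ℂ} {m : ℝ} (hm : 0 ≤ m) (hF : Differentiable ℂ F) (h0 : ∀ z, F z ≠ 0)
    (hL : Lip F z m) : ‖cr (F z) (deriv F z)‖ ≤ 48 * m * ‖F z‖ ^ 2 := by
  obtain ⟨i, hi⟩ := exists_norm_eq (F z)
  have hn : 0 < ‖F z‖ := norm_pos_iff.2 (h0 z)
  have h1 := ratio_deriv hm hF h0 hL hi
  -- all minors
  have h2 : ∀ j k, ‖F z j * deriv F z k - F z k * deriv F z j‖ ≤ 48 * m * ‖F z‖ ^ 2 := by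
    intro j k
    have e : F z i * (F z j * deriv F z k - F z k * deriv F z j) =
        F z j * (F z i * deriv F z k - F z k * deriv F z i) -
        F z k * (F z i * deriv F z j - F z j * deriv F z i) := by ring
    have h3 : ‖F z‖ * ‖F z j * deriv F z k - F z k * deriv F z j‖ ≤
        ‖F z‖ * (48 * m * ‖F z‖ ^ 2) := by
      calc ‖F z‖ * ‖F z j * deriv F z k - F z k * deriv F z j‖ =
          ‖F z i * (F z j * deriv F z k - F z k * deriv F z j)‖ := by rw [norm_mul, hi]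
        _ ≤ ‖F z‖ * (24 * m * ‖F z‖ ^ 2) + ‖F z‖ * (24 * m * ‖F z‖ ^ 2) := by
            rw [e]
            refine (norm_sub_le _ _).trans ?_
            rw [norm_mul, norm_mul]
            exact add_le_add (mul_le_mul (norm_le_pi_norm _ j) (h1 k) (norm_nonneg _) hn.le)
              (mul_le_mul (norm_le_pi_norm _ k) (h1 j) (norm_nonneg _) hn.le)
        _ = _ := by ring
    exact le_of_mul_le_mul_left h3 hn
  rw [pi_norm_le_iff_of_nonneg (by positivity)]
  intro k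
  fin_cases k
  · exact h2 1 2
  · exact h2 2 0
  · exact h2 0 1

/-- **The derivative of `h` is bounded by the speed** -/
theorem SNC.speed (hS : SNC P1 P2 e1 e2) : ∃ C : ℝ, 0 < C ∧ ∀ (F : ℂ → V) (M : ℝ) (h : ℂ → ℂ),
    EC P1 P2 F M h → ∀ (z : ℂ) (m : ℝ), 0 ≤ m → Lip F z m →
      ‖deriv h z‖ * (‖pe P1 (Phi (F z))‖ * ‖pe P2 (Phi (F z))‖) ≤ C * m := by
  obtain ⟨C, hC, hC'⟩ := nv_le hS
  refine ⟨3 * C * 48, by positivity, fun F M h hF z m hm hL => ?_⟩
  have hn : 0 < ‖F z‖ := norm_pos_iff.2 (hF.ne z)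
  have h1 := cr_deriv hm hF.dif hF.ne hL
  have h2 := hC' _ (hF.ne z)
  have d1 : dp (grad P1 (F z)) (deriv F z) = 0 := by
    have := hasDerivAt_eval P1 (hF.dif z).hasDerivAt
    simp only [hF.v1] at this
    exact this.unique (hasDerivAt_const z 1)
  have d2 : dp (grad P2 (F z)) (deriv F z) = Complex.exp (h z) * deriv h z := by
    have h3 := hasDerivAt_eval P2 (hF.dif z).hasDerivAt
    simp only [hF.v2] at h3
    exact h3.unique (hF.hd z).hasDerivAt.cexp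
  have h4 : dp (nv P1 P2 (F z)) (cr (F z) (deriv F z)) =
      (e1 + 1 : ℕ) * (Complex.exp (h z) * deriv h z) := by
    unfold nv
    rw [dp_cr_cr, d1, d2, euler hS.h1, hF.v1]
    ring
  have h5 : ‖dp (nv P1 P2 (F z)) (cr (F z) (deriv F z))‖ ≤
      3 * (‖nv P1 P2 (F z)‖ * ‖cr (F z) (deriv F z)‖) := by
    unfold dp
    have hb : ∀ i, ‖nv P1 P2 (F z) i * cr (F z) (deriv F z) i‖ ≤
        ‖nv P1 P2 (F z)‖ * ‖cr (F z) (deriv F z)‖ := fun i => by
      rw [norm_mul]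
      exact mul_le_mul (norm_le_pi_norm _ i) (norm_le_pi_norm _ i) (norm_nonneg _) (norm_nonneg _)
    refine (norm_add_le _ _).trans ?_
    have := norm_add_le (nv P1 P2 (F z) 0 * cr (F z) (deriv F z) 0)
      (nv P1 P2 (F z) 1 * cr (F z) (deriv F z) 1)
    linarith [hb 0, hb 1, hb 2]
  rw [h4, norm_mul, norm_mul, Complex.norm_natCast] at h5
  have h6 : ‖Complex.exp (h z)‖ * ‖deriv h z‖ ≤
      (e1 + 1 : ℕ) * (‖Complex.exp (h z)‖ * ‖deriv h z‖) := by
    have : (1 : ℝ) ≤ (e1 + 1 : ℕ) := by exact_mod_cast Nat.succ_pos e1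
    have h7 : 0 ≤ ‖Complex.exp (h z)‖ * ‖deriv h z‖ := by positivity
    nlinarith
  have h7 : 3 * (‖nv P1 P2 (F z)‖ * ‖cr (F z) (deriv F z)‖) ≤
      3 * ((C * ‖F z‖ ^ (e1 + e2)) * (48 * m * ‖F z‖ ^ 2)) := by gcongr
  have p1 := pe_le hS.h1 (hF.ne z)
  have p2 := pe_le hS.h2 (hF.ne z)
  rw [hF.v1, norm_one] at p1
  rw [hF.v2] at p2
  have h8 : (‖deriv h z‖ * (‖pe P1 (Phi (F z))‖ * ‖pe P2 (Phi (F z))‖)) * ‖F z‖ ^ (e1 + e2 + 2) ≤
      (3 * C * 48 * m) * ‖F z‖ ^ (e1 + e2 + 2) := by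
    calc (‖deriv h z‖ * (‖pe P1 (Phi (F z))‖ * ‖pe P2 (Phi (F z))‖)) * ‖F z‖ ^ (e1 + e2 + 2) =
        ‖deriv h z‖ * ((‖pe P1 (Phi (F z))‖ * ‖F z‖ ^ (e1 + 1)) *
          (‖pe P2 (Phi (F z))‖ * ‖F z‖ ^ (e2 + 1))) := by ring
      _ ≤ ‖deriv h z‖ * (1 * ‖Complex.exp (h z)‖) := by gcongr
      _ ≤ 3 * ((C * ‖F z‖ ^ (e1 + e2)) * (48 * m * ‖F z‖ ^ 2)) := by
          rw [one_mul, mul_comm]
          exact h6.trans (h5.trans h7)
      _ = _ := by ring
  exact le_of_mul_le_mul_right h8 (by positivity)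

end Pool.Agent.H915
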