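import Pool.Agent.H915.TC.Gn3

/-!
Very general pairs: the critical points of the pencil are nondegenerate.
-/

set_option autoImplicit false

open MvPolynomial

namespace Pool.Agent.H915

/-- the derivative of the gradient in the direction `e` -/
noncomputable def DG (P : Poly) (x e : V) : V := fun j => dp (grad (pderiv j P) x) e

theorem DG_sub (P : Poly) (x e f : V) (c : ℂ) : DG P x (e - c • f) = DG P x e - c • DG P x f := by
  funext j
  simp only [DG, dp, Pi.sub_apply, Pi.smul_apply, smul_eq_mul]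
  ring

theorem DG_smul (P : Poly) (x e : V) (c : ℂ) : DG P x (c • e) = c • DG P x e := by
  funext j
  simp only [DG, dp, Pi.smul_apply, smul_eq_mul]
  ring

theorem DG_self {P : Poly} {n : ℕ} (hP : P.IsHomogeneous (n + 1)) (x : V) :
    DG P x x = (n : ℂ) • grad P x := by
  funext j
  rw [DG, euler (hP.pderiv (i := j))]
  rfl

theorem pd_comm (P : Poly) (i j : Fin 3) : pderiv i (pderiv j P) = pderiv j (pderiv i P) := by
  by_cases hij : i = j
  · rw [hij]
  · ext m
    rw [coeff_pderiv, coeff_pderiv, coeff_pderiv, coeff_pderiv, add_right_comm m,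
      Finsupp.add_apply, Finsupp.add_apply, Finsupp.single_eq_of_ne hij,
      Finsupp.single_eq_of_ne (Ne.symm hij)]
    push_cast
    ring

theorem dp_DG_self {P : Poly} {n : ℕ} (hP : P.IsHomogeneous (n + 1)) (x e : V) :
    dp (DG P x e) x = n * dp (grad P x) e := by
  have h := DG_self hP x
  have h0 := congrFun h 0
  have h1 := congrFun h 1
  have h2 := congrFun h 2
  simp only [DG, dp, grad, Pi.smul_apply, smul_eq_mul] at h0 h1 h2 ⊢
  rw [pd_comm P 1 0, pd_comm P 2 0] at h0
  rw [pd_comm P 2 1] at h1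
  rw [pd_comm P 1 0, pd_comm P 2 0, pd_comm P 2 1]
  linear_combination e 0 * h0 + e 1 * h1 + e 2 * h2

theorem hasDerivAt_grad (P : Poly) {F : ℂ → V} {F' : V} {z : ℂ} (hF : HasDerivAt F F' z) :
    HasDerivAt (fun w => grad P (F w)) (DG P (F z) F') z := by
  rw [hasDerivAt_pi]
  intro j
  exact hasDerivAt_eval (pderiv j P) hF

theorem hasDerivAt_cr {F G : ℂ → V} {F' G' : V} {z : ℂ} (hF : HasDerivAt F F' z)
    (hG : HasDerivAt G G' z) :
    HasDerivAt (fun w => cr (F w) (G w)) (cr F' (G z) + cr (F z) G') z := by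
  have f := fun i => (hasDerivAt_pi.1 hF) i
  have g := fun i => (hasDerivAt_pi.1 hG) i
  rw [hasDerivAt_pi]
  intro i
  fin_cases i
  · refine (((f 1).mul (g 2)).sub ((f 2).mul (g 1))).congr_deriv ?_
    simp
    ring
  · refine (((f 2).mul (g 0)).sub ((f 0).mul (g 2))).congr_deriv ?_
    simp
    ring
  · refine (((f 0).mul (g 1)).sub ((f 1).mul (g 0))).congr_deriv ?_
    simp
    ring

theorem fderiv_nv (P1 P2 : Poly) (x e : V) : fderiv ℂ (nv P1 P2) x e =
    cr (DG P1 x e) (grad P2 x) + cr (grad P1 x) (DG P2 x e) := by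
  have h1 : HasDerivAt (fun t : ℂ => x + t • e) e 0 := by
    have := ((hasDerivAt_id (0 : ℂ)).smul_const e).const_add x
    simpa using this
  have h2 := hasDerivAt_cr (hasDerivAt_grad P1 h1) (hasDerivAt_grad P2 h1)
  have h3 : HasFDerivAt (nv P1 P2) (fderiv ℂ (nv P1 P2) x) (x + (0 : ℂ) • e) := by
    rw [zero_smul, add_zero]
    exact (diffAt_nv x).hasFDerivAt
  have h4 := h3.comp_hasDerivAt (0 : ℂ) h1
  have h5 := h4.unique h2
  simp only [zero_smul, add_zero] at h5
  exact h5

theorem pd_sb (g : Matrix (Fin 3) (Fin 3) ℂ) (P : Poly) (j : Fin 3) :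
    pderiv j (sb g P) = ∑ i, C (g i j) * sb g (pderiv i P) := by
  apply MvPolynomial.funext
  intro v
  rw [eval_pd_sb, map_sum, Fin.sum_univ_three]
  simp only [map_mul, eval_C, eval_sb]
  have hb : ∀ i, g.mulVec (bv j) i = g i j := by
    intro i
    simp [Matrix.mulVec, dotProduct, bv, Pi.single_apply]
  simp only [dp, grad, hb]
  ring

theorem eval_pd2_sb (g : Matrix (Fin 3) (Fin 3) ℂ) (P : Poly) (v : V) (j l : Fin 3) :
    eval v (pderiv j (pderiv l (sb g P))) =
      dp (DG P (g.mulVec v) (g.mulVec (bv j))) (g.mulVec (bv l)) := by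
  rw [pd_sb, map_sum, map_sum, Fin.sum_univ_three]
  have hC : ∀ i, eval v (pderiv j (C (g i l) * sb g (pderiv i P))) =
      g i l * eval v (pderiv j (sb g (pderiv i P))) := by
    intro i
    rw [pderiv_C_mul, map_mul, eval_C]
  have hb : ∀ i, g.mulVec (bv l) i = g i l := by
    intro i
    simp [Matrix.mulVec, dotProduct, bv, Pi.single_apply]
  rw [hC, hC, hC, eval_pd_sb, eval_pd_sb, eval_pd_sb]
  simp only [dp, hb, DG]
  ring

theorem DG_scale {P : Poly} {n : ℕ} (hP : P.IsHomogeneous (n + 1)) (c : ℂ) (x e : V) :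
    DG P (c • x) (c • e) = c ^ n • DG P x e := by
  have h1 : HasDerivAt (fun t : ℂ => x + t • e) e 0 := by
    have := ((hasDerivAt_id (0 : ℂ)).smul_const e).const_add x
    simpa using this
  have h2 : HasDerivAt (fun t : ℂ => c • (x + t • e)) (c • e) 0 := h1.const_smul c
  have h3 := hasDerivAt_grad P h2
  have h4 := (hasDerivAt_grad P h1).const_smul (c ^ n)
  simp only [grad_smul hP] at h3
  have h5 := h3.unique h4
  simpa using h5

theorem co_pd2' {Q : Poly} {n : ℕ} (hQ : Q.IsHomogeneous (n + 2)) :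
    eval (bv 0) (pderiv 1 (pderiv 1 Q)) = co Q (n, 2, 0) * 2 ∧
      eval (bv 0) (pderiv 1 (pderiv 2 Q)) = co Q (n, 1, 1) := by
  rw [pd_comm Q 1 2]
  exact co_pd2 hQ

/-- critical points of very general pairs are nondegenerate -/
theorem VG.nondeg {d : Fin 2 → ℕ} {H : Fin 2 → Poly} (h : VG H d) {a b : Fin 2} (hab : a ≠ b)
    {n m : ℕ} (hda : d a = n + 1) (hdb : d b = m + 2) {x e : V} (hx : x ≠ 0)
    (h0 : eval x (H a) ≠ 0) (hcx : cr (grad (H a) x) (grad (H b) x) = 0)
    (he : fderiv ℂ (nv (H a) (H b)) x e = 0) : cr e x = 0 := by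
  classical
  by_contra hex
  have hPa : (H a).IsHomogeneous (n + 1) := hda ▸ h.1 a
  have hPb : (H b).IsHomogeneous (m + 1 + 1) := hdb ▸ h.1 b
  rw [fderiv_nv] at he
  obtain ⟨c, i, hc, hi⟩ := normal_vec hx
  obtain ⟨x', hx'⟩ : ∃ x', x' = c • x := ⟨_, rfl⟩
  obtain ⟨e1, he1⟩ : ∃ e1, e1 = c • e := ⟨_, rfl⟩
  rw [← hx'] at hi
  have hcrx : cr (grad (H a) x') (grad (H b) x') = 0 := by
    rw [hx', grad_smul hPa, grad_smul hPb, cr_smul_smul, hcx, smul_zero]
  have hex' : cr e1 x' ≠ 0 := by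
    rw [hx', he1, cr_smul_smul]
    exact smul_ne_zero (mul_ne_zero hc hc) hex
  have hva0 : eval x' (H a) ≠ 0 := by
    rw [hx', eval_smul' hPa]
    exact mul_ne_zero (pow_ne_zero _ hc) h0
  have hk1 : cr (DG (H a) x' e1) (grad (H b) x') + cr (grad (H a) x') (DG (H b) x' e1) = 0 := by
    rw [hx', he1, DG_scale hPa, DG_scale hPb, grad_smul hPa, grad_smul hPb, cr_smul_smul,
      cr_smul_smul, ← smul_add, he, smul_zero]
  have hn1 : (n : ℂ) + 1 ≠ 0 := Nat.cast_add_one_ne_zero n
  have hG : dp (grad (H a) x') x' = ((n : ℂ) + 1) * eval x' (H a) := by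
    rw [euler hPa]
    push_cast
    rfl
  have hG0 : dp (grad (H a) x') x' ≠ 0 := by
    rw [hG]
    exact mul_ne_zero hn1 hva0
  have gx : grad (H a) x' ≠ 0 := by
    intro hcon
    apply hG0
    rw [hcon]
    simp [dp]
  obtain ⟨μ, hμ⟩ := exists_smul_of_cr hcrx gx
  -- the direction in the kernel of the gradient
  obtain ⟨s, hs⟩ : ∃ s, s = dp (grad (H a) x') e1 / dp (grad (H a) x') x' := ⟨_, rfl⟩
  obtain ⟨e2, he2⟩ : ∃ e2, e2 = e1 - s • x' := ⟨_, rfl⟩
  have hd2 : dp (grad (H a) x') e2 = 0 := by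
    have : dp (grad (H a) x') e2 = dp (grad (H a) x') e1 - s * dp (grad (H a) x') x' := by
      rw [he2]
      simp only [dp, Pi.sub_apply, Pi.smul_apply, smul_eq_mul]
      ring
    rw [this, hs, div_mul_cancel₀ _ hG0, sub_self]
  have hex2 : cr e2 x' ≠ 0 := by
    have : cr e2 x' = cr e1 x' := by
      rw [he2]
      apply v_ext <;> simp <;> ring
    rw [this]
    exact hex'
  have hk2 : cr (grad (H a) x') (DG (H b) x' e2 - μ • DG (H a) x' e2) = 0 := by
    have a1 : DG (H a) x' e2 = DG (H a) x' e1 - s • (n : ℂ) • grad (H a) x' := by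
      rw [he2, DG_sub, DG_self hPa]
    have a2 : DG (H b) x' e2 = DG (H b) x' e1 - s • ((m + 1 : ℕ) : ℂ) • grad (H b) x' := by
      rw [he2, DG_sub, DG_self hPb]
    rw [a1, a2]
    rw [hμ] at hk1 ⊢
    rw [← hk1]
    apply v_ext <;> simp <;> ring
  obtain ⟨ρ, hρ⟩ := exists_smul_of_cr hk2 gx
  have hρ0 : ρ = 0 := by
    have b1 := dp_DG_self hPa x' e2
    have b2 := dp_DG_self hPb x' e2
    rw [hd2, mul_zero] at b1
    have b3 : dp (grad (H b) x') e2 = 0 := by
      rw [hμ]
      have : dp (μ • grad (H a) x') e2 = μ * dp (grad (H a) x') e2 := by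
        simp only [dp, Pi.smul_apply, smul_eq_mul]
        ring
      rw [this, hd2, mul_zero]
    rw [b3, mul_zero] at b2
    have b4 : dp (DG (H b) x' e2 - μ • DG (H a) x' e2) x' = 0 := by
      have : dp (DG (H b) x' e2 - μ • DG (H a) x' e2) x' =
          dp (DG (H b) x' e2) x' - μ * dp (DG (H a) x' e2) x' := by
        simp only [dp, Pi.sub_apply, Pi.smul_apply, smul_eq_mul]
        ring
      rw [this, b1, b2, mul_zero, sub_zero]
    rw [hρ] at b4
    have b5 : dp (ρ • grad (H a) x') x' = ρ * dp (grad (H a) x') x' := by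
      simp only [dp, Pi.smul_apply, smul_eq_mul]
      ring
    rw [b5] at b4
    exact (mul_eq_zero.1 b4).resolve_right hG0
  have hk3 : DG (H b) x' e2 = μ • DG (H a) x' e2 := by
    rw [hρ0, zero_smul] at hρ
    exact sub_eq_zero.1 hρ
  -- normalise the direction
  have he20 : e2 ≠ 0 := by
    intro hcon
    apply hex2
    rw [hcon]
    apply v_ext <;> simp
  obtain ⟨c3, j, hc3, hj⟩ := normal_vec he20
  obtain ⟨e3, he3⟩ : ∃ e3, e3 = c3 • e2 := ⟨_, rfl⟩
  rw [← he3] at hj
  have hk4 : DG (H b) x' e3 = μ • DG (H a) x' e3 := by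
    rw [he3, DG_smul, DG_smul, hk3, smul_comm]
  have hd3 : dp (grad (H a) x') e3 = 0 := by
    have : dp (grad (H a) x') e3 = c3 * dp (grad (H a) x') e2 := by
      rw [he3]
      simp only [dp, Pi.smul_apply, smul_eq_mul]
      ring
    rw [this, hd2, mul_zero]
  have hxe : cr x' e3 ≠ 0 := by
    rw [cr_swap, neg_ne_zero, he3, cr_smul_left]
    exact smul_ne_zero hc3 hex2
  obtain ⟨g, hg, hg0, hg1, hgK⟩ := exists_frame2 hxe
  obtain ⟨Z, hZ, hZK⟩ := params2 hi
  obtain ⟨Z', hZ', hZK'⟩ := params2 hj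
  have key0 : ∀ j, eval (bv 0) (pderiv j (sb g (H b))) =
      μ * eval (bv 0) (pderiv j (sb g (H a))) := by
    intro j
    rw [eval_pd_sb, eval_pd_sb, hg0, hμ]
    simp only [dp, Pi.smul_apply, smul_eq_mul]
    ring
  have key1 : ∀ l, eval (bv 0) (pderiv 1 (pderiv l (sb g (H b)))) =
      μ * eval (bv 0) (pderiv 1 (pderiv l (sb g (H a)))) := by
    intro l
    rw [eval_pd2_sb, eval_pd2_sb, hg0, hg1, hk4]
    simp only [dp, Pi.smul_apply, smul_eq_mul]
    ring
  have hv : co (sb g (H a)) (n, 1, 0) = 0 := by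
    rw [← (co_pd0 (sb_hom hPa g)).2.1, eval_pd_sb, hg0, hg1, hd3]
  obtain ⟨k0, k1, k2⟩ := co_pd0 (sb_hom hPb g)
  obtain ⟨l0, l1⟩ := co_pd2' (n := m) (sb_hom hPb g)
  rw [key0] at k0 k1 k2
  rw [key1] at l0 l1
  refine h.count g hg (insert μ (Z ∪ Z'))
    {(a, n, 1, 0), (b, m + 1 + 1, 0, 0), (b, m + 1, 1, 0), (b, m + 1, 0, 1),
      (b, m, 2, 0), (b, m, 1, 1)} ?_ ?_
    (fun K hK => hgK K
      (hZK K fun z hz => hK (Finset.mem_coe.2 (Finset.mem_insert_of_mem (Finset.mem_union_left _ hz))))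
      (hZK' K fun z hz => hK (Finset.mem_coe.2 (Finset.mem_insert_of_mem
        (Finset.mem_union_right _ hz))))) ?_
  · intro t ht
    simp only [Finset.mem_insert, Finset.mem_singleton] at ht
    rcases ht with rfl | rfl | rfl | rfl | rfl | rfl <;> (simp [hda, hdb])
  · have h1 := Finset.card_insert_le μ (Z ∪ Z')
    have h2 := Finset.card_union_le Z Z'
    refine lt_of_le_of_lt h1 ?_
    rw [Finset.card_insert_of_notMem (by simp [hab]), Finset.card_insert_of_notMem (by simp),
      Finset.card_insert_of_notMem (by simp), Finset.card_insert_of_notMem (by simp),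
      Finset.card_insert_of_notMem (by simp), Finset.card_singleton]
    omega
  · intro L hZL hout t ht
    have hμL : μ ∈ L := hZL (Finset.mem_coe.2 (Finset.mem_insert_self _ _))
    have hall : InL L (sb g (H a)) := InL_of_co fun t => by
      by_cases ht : t = (n, 1, 0)
      · rw [ht, hv]
        exact zero_mem L
      · exact hout (a, t) (by simp [hab, ht])
    have hev : ∀ i j, eval (bv i) (pderiv j (sb g (H a))) ∈ L := fun i j =>
      (hall.pderiv j).eval (bv_mem L i)
    have hev2 : ∀ i j l, eval (bv i) (pderiv l (pderiv j (sb g (H a)))) ∈ L := fun i j l =>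
      ((hall.pderiv j).pderiv l).eval (bv_mem L i)
    have hn : ((m + 1 : ℕ) : ℂ) + 1 ≠ 0 := Nat.cast_add_one_ne_zero (m + 1)
    simp only [Finset.mem_insert, Finset.mem_singleton] at ht
    rcases ht with rfl | rfl | rfl | rfl | rfl | rfl
    · simp only
      rw [hv]
      exact zero_mem L
    · simp only
      have : co (sb g (H b)) (m + 1 + 1, 0, 0) =
          μ * eval (bv 0) (pderiv 0 (sb g (H a))) * (((m + 1 : ℕ) : ℂ) + 1)⁻¹ := by
        rw [k0, mul_assoc, mul_inv_cancel₀ hn, mul_one]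
      rw [this]
      exact mul_mem (mul_mem hμL (hev _ 0)) (inv_mem (add_mem (natCast_mem L _) (one_mem L)))
    · simp only
      rw [← k1]
      exact mul_mem hμL (hev _ 1)
    · simp only
      rw [← k2]
      exact mul_mem hμL (hev _ 2)
    · simp only
      have h2 : (2 : ℂ) ≠ 0 := two_ne_zero
      have : co (sb g (H b)) (m, 2, 0) =
          μ * eval (bv 0) (pderiv 1 (pderiv 1 (sb g (H a)))) * (((2 : ℕ) : ℂ))⁻¹ := by
        rw [l0, mul_assoc]
        push_cast
        rw [mul_inv_cancel₀ h2, mul_one]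
      rw [this]
      exact mul_mem (mul_mem hμL (hev2 _ _ _)) (inv_mem (natCast_mem L _))
    · simp only
      rw [← l1]
      exact mul_mem hμL (hev2 _ _ _)

/-- very general pairs are transversal -/
theorem VG.snc {d : Fin 2 → ℕ} {H : Fin 2 → Poly} (h : VG H d) {a b : Fin 2} (hab : a ≠ b)
    {n m : ℕ} (hda : d a = n + 1) (hdb : d b = m + 1) : SNC (H a) (H b) n m where
  h1 := hda ▸ h.1 a
  h2 := hdb ▸ h.1 b
  s1 := fun _ hx _ => h.smooth a hda hx
  s2 := fun _ hx _ => h.smooth b hdb hx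
  tr := fun _ hx h0 _ => h.trans hab hda hdb hx h0

/-- the fibres of very general pairs are at most nodal -/
theorem VG.nodal {d : Fin 2 → ℕ} {H : Fin 2 → Poly} (h : VG H d) {a b : Fin 2} (hab : a ≠ b)
    {n m : ℕ} (hda : d a = n + 1) (hdb : d b = m + 3) {α β : ℂ} (hα : α ≠ 0) :
    Nodal (H a) (H b) α β := by
  intro x hx h1 h2 h3
  refine ⟨fun y _ h4 h5 h6 => h.crit hab hda hdb hx (by rw [h1]; exact hα) (by rw [h4, h1])
    (by rw [h5, h2]) h3 h6, fun e he => ?_⟩
  exact h.nondeg (m := m + 1) hab hda hdb hx (by rw [h1]; exact hα) h3 he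

end Pool.Agent.H915
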