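import Pool.Agent.H915.TC.As7
import Pool.Agent.H915.TC.Gn4

/-!
Assembly.
-/

set_option autoImplicit false

open MvPolynomial Filter Topology Metric Set

namespace Pool.Agent.H915

open Pool.Agent.Y190.OP Pool.Agent.N154.GG Pool.Agent.N155 FF Pool.Agent.W602.GT
  Pool.Agent.W603.PV
open Pool.Agent.Results.MP_64ff02_ag.GenericPairsSpecialSet (VeryGeneral OnPair Subvariety LogGT
  LogGTOutside BrodyOutside PicardOutside)

variable {H : Fin 2 → MvPolynomial (Fin (2 + 1)) ℂ} {d : Fin 2 → ℕ}

theorem onPair_iff {x : V} : OnPair H ∅ x ↔ InX (H 0) (H 1) x := by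
  constructor
  · rintro ⟨h0, -, h1⟩
    refine ⟨h0, ?_, ?_⟩
    · have := h1 0 (Finset.notMem_empty 0)
      rwa [aeval_eq_eval] at this
    · have := h1 1 (Finset.notMem_empty 1)
      rwa [aeval_eq_eval] at this
  · rintro ⟨h0, h1, h2⟩
    refine ⟨h0, fun c hc => absurd hc (Finset.notMem_empty c), fun b _ => ?_⟩
    rw [aeval_eq_eval]
    fin_cases b
    · exact h1
    · exact h2

theorem brody_iff : BrodyOutside H ∅ 1 ↔ EntHyp (H 0) (H 1) := by
  constructor
  · intro h f hf hX z w i j
    by_contra hne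
    have h1 := h f (fun j => differentiable_pi.1 hf j) (fun z => onPair_iff.2 (hX z))
      ⟨z, w, i, j, hne⟩ 0
    rw [map_one] at h1
    exact one_ne_zero h1
  · rintro h f hf hX ⟨z, w, i, j, hne⟩
    exact absurd (h f (differentiable_pi.2 hf) (fun z => onPair_iff.1 (hX z)) z w i j) hne

theorem picard_iff : PicardOutside H ∅ 1 ↔ PicHyp (H 0) (H 1) := by
  constructor
  · intro h f hf hX
    by_contra hne
    have h1 := h f hf (fun z hz => onPair_iff.2 (hX z hz)) hne
    have h2 : (1 / 2 : ℂ) ∈ ball (0 : ℂ) 1 \ {0} := by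
      refine ⟨?_, ?_⟩
      · rw [mem_ball_zero_iff]
        norm_num
      · simp
    have h3 := h1 _ h2
    rw [map_one] at h3
    exact one_ne_zero h3
  · intro h f hf hX hext
    exact absurd (h f hf fun z hz => onPair_iff.1 (hX z hz)) hext

end Pool.Agent.H915
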