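import Pool.Agent.H915.TC.NF

/-!
The crossing points are isolated; Harnack's inequality for the logarithm of the norm.
-/

set_option autoImplicit false

open Filter Topology Metric Set MvPolynomial

namespace Pool.Agent.H915

open Pool.Agent.Y190.OP

variable {P1 P2 : Poly} {e1 e2 : ℕ}

/-- a real sequence -/
theorem hyper_lt {ε : ℝ} (hε : 0 < ε) :
    ∀ᶠ n : ℕ in (hyperfilter ℕ : Filter ℕ), 1 / ((n : ℝ) + 1) < ε := by
  have h1 := tendsto_one_div_add_atTop_nhds_zero_nat (𝕜 := ℝ)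
  have h2 := h1.eventually_lt_const hε
  have h3 : ((hyperfilter ℕ : Ultrafilter ℕ) : Filter ℕ) ≤ atTop := by
    rw [← Nat.cofinite_eq_atTop]
    exact hyperfilter_le_cofinite
  exact h3 h2

theorem exists_lim_PM {l : Ultrafilter ℕ} {M : ℕ → Mat 3} (h : ∀ᶠ n in (l : Filter ℕ), M n ∈ PM) :
    ∃ y ∈ (PM : Set (Mat 3)), Tendsto M l (𝓝 y) := by
  have h1 : (l.map M : Filter (Mat 3)) ≤ 𝓟 (PM : Set (Mat 3)) := by
    rw [Ultrafilter.coe_map, le_principal_iff, mem_map]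
    exact h
  obtain ⟨y, hy, hy'⟩ := PM_compact.ultrafilter_le_nhds (l.map M) h1
  exact ⟨y, hy, hy'⟩

theorem tendsto_zero_of_lt {l : Filter ℕ} (hl : ∀ ε : ℝ, 0 < ε → ∀ᶠ n : ℕ in l, 1 / ((n : ℝ) + 1) < ε)
    {E : Type*} [NormedAddCommGroup E] {f : ℕ → E} (hf : ∀ᶠ n in l, ‖f n‖ < 1 / ((n : ℝ) + 1)) :
    Tendsto f l (𝓝 0) := by
  rw [Metric.tendsto_nhds]
  intro ε hε
  filter_upwards [hl ε hε, hf] with n h1 h2
  rw [dist_zero_right]
  linarith

theorem pe_chart {P : Poly} {d : ℕ} (hP : P.IsHomogeneous d) {M : Mat 3} (hM : M ∈ PM) {i : Fin 3}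
    (hi : M i i ≠ 0) : eval (chart i M) P = 0 ↔ pe P M = 0 := by
  rw [← pe_eq_zero hP (PM.chart_ne hi), PM.Phi_chart hM hi]

/-- the crossings are uniformly isolated -/
theorem SNC.isolated (h : SNC P1 P2 e1 e2) : ∃ δ : ℝ, 0 < δ ∧ ∀ M N : Mat 3, M ∈ PM → N ∈ PM →
    pe P1 M = 0 → pe P2 M = 0 → pe P1 N = 0 → pe P2 N = 0 → ‖M - N‖ < δ → M = N := by
  by_contra hcon
  push Not at hcon
  have hcon' : ∀ n : ℕ, ∃ M N : Mat 3, M ∈ PM ∧ N ∈ PM ∧
    pe P1 M = 0 ∧ pe P2 M = 0 ∧ pe P1 N = 0 ∧ pe P2 N = 0 ∧ ‖M - N‖ < 1 / ((n : ℝ) + 1) ∧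
    M ≠ N := by
    intro n
    obtain ⟨M, N, h1, h2, h3, h4, h5, h6, h7, h8⟩ := hcon (1 / ((n : ℝ) + 1)) (by positivity)
    exact ⟨M, N, h1, h2, h3, h4, h5, h6, h7, h8⟩
  choose M N hM hN m1 m2 n1 n2 hd hne using hcon'
  set l : Ultrafilter ℕ := hyperfilter ℕ with hl
  obtain ⟨Q, hQ, hQM⟩ := exists_lim_PM (l := l) (Eventually.of_forall hM)
  have hQN : Tendsto N l (𝓝 Q) := by
    have e1 : Tendsto (fun n => M n - N n) l (𝓝 0) :=
      tendsto_zero_of_lt (fun ε hε => hyper_lt hε) (Eventually.of_forall hd)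
    have e2 := hQM.sub e1
    simpa using e2
  have q1 : pe P1 Q = 0 := by
    have := ((cont_pe P1).tendsto Q).comp hQM
    exact tendsto_nhds_unique this (by simp [Function.comp_def, m1])
  have q2 : pe P2 Q = 0 := by
    have := ((cont_pe P2).tendsto Q).comp hQM
    exact tendsto_nhds_unique this (by simp [Function.comp_def, m2])
  obtain ⟨i, hi⟩ := PM.exists_diag hQ
  obtain ⟨A, a1, a2, a3, a4⟩ := hasDQ h.h1
  obtain ⟨B, b1, b2, b3, b4⟩ := hasDQ h.h2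
  have hA := dq_diag a1 a3
  have hB := dq_diag b1 b3
  have hcont : Continuous fun p : V × V => cr (A p.1 p.2) (B p.1 p.2) := cont_cr a3 b3
  set x := chart i Q with hx
  have hx0 : x ≠ 0 := PM.chart_ne hi
  have hxi : x i = 1 := PM.chart_self hi
  have x1 : eval x P1 = 0 := (pe_chart h.h1 hQ hi).2 q1
  have x2 : eval x P2 = 0 := (pe_chart h.h2 hQ hi).2 q2
  have hnv := h.tr x hx0 x1 x2
  have hnvi : nv P1 P2 x i ≠ 0 := by
    intro h0
    apply hnv
    have e1 : dp (grad P1 x) x = 0 := by rw [euler h.h1, x1, mul_zero]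
    have e2 : dp (grad P2 x) x = 0 := by rw [euler h.h2, x2, mul_zero]
    funext j
    have e3 := par_of_dp e1 e2 i j
    have e4 : cr (grad P1 x) (grad P2 x) i = 0 := h0
    rw [e4, mul_zero, hxi, one_mul] at e3
    exact e3
  have c1 : Tendsto (fun n => chart i (M n)) l (𝓝 x) := (continuousAt_chart hi).tendsto.comp hQM
  have c2 : Tendsto (fun n => chart i (N n)) l (𝓝 x) := (continuousAt_chart hi).tendsto.comp hQN
  have c3 : Tendsto (fun n => cr (A (chart i (M n)) (chart i (N n)))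
      (B (chart i (M n)) (chart i (N n))) i) l (𝓝 (nv P1 P2 x i)) := by
    have e1 := (hcont.tendsto (x, x)).comp (c1.prodMk_nhds c2)
    simp only at e1
    rw [hA, hB] at e1
    exact ((continuous_apply i).tendsto _).comp e1
  have c4 : ∀ᶠ n in (l : Filter ℕ), M n i i ≠ 0 :=
    (((continuous_apply_apply i i).tendsto Q).comp hQM).eventually_ne hi
  have c5 : ∀ᶠ n in (l : Filter ℕ), N n i i ≠ 0 :=
    (((continuous_apply_apply i i).tendsto Q).comp hQN).eventually_ne hi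
  obtain ⟨n, ⟨k1, k2⟩, k3⟩ := ((c3.eventually_ne hnvi).and c4 |>.and c5).exists
  apply hne n
  set u := chart i (M n) with hu
  set v := chart i (N n) with hv
  have u1 : eval u P1 = 0 := (pe_chart h.h1 (hM n) k2).2 (m1 n)
  have u2 : eval u P2 = 0 := (pe_chart h.h2 (hM n) k2).2 (m2 n)
  have v1 : eval v P1 = 0 := (pe_chart h.h1 (hN n) k3).2 (n1 n)
  have v2 : eval v P2 = 0 := (pe_chart h.h2 (hN n) k3).2 (n2 n)
  have ui : u i = 1 := PM.chart_self k2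
  have vi : v i = 1 := PM.chart_self k3
  have d1 : dp (A u v) (v - u) = 0 := by rw [← a1, u1, v1, sub_self]
  have d2 : dp (B u v) (v - u) = 0 := by rw [← b1, u2, v2, sub_self]
  have huv : u = v := by
    funext j
    have e3 := par_of_dp d1 d2 j i
    rw [Pi.sub_apply, Pi.sub_apply, ui, vi, sub_self, zero_mul] at e3
    rcases mul_eq_zero.1 e3 with e4 | e4
    · exact (sub_eq_zero.1 e4).symm
    · exact absurd e4 k1
  rw [← PM.Phi_chart (hM n) k2, ← PM.Phi_chart (hN n) k3]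
  change Phi u = Phi v
  rw [huv]

/-- points near the crossings are near each other or not -/
theorem SNC.gap (h : SNC P1 P2 e1 e2) : ∃ δ0 : ℝ, 0 < δ0 ∧ ∀ δ : ℝ, 0 < δ → ∃ η : ℝ, 0 < η ∧
    ∀ M N : Mat 3, M ∈ PM → N ∈ PM → ‖pe P1 M‖ < η → ‖pe P2 M‖ < η → ‖pe P1 N‖ < η →
      ‖pe P2 N‖ < η → ‖M - N‖ < δ0 → ‖M - N‖ < δ := by
  obtain ⟨δ1, hδ1, hδ2⟩ := h.isolated
  refine ⟨δ1 / 2, by positivity, fun δ hδ => ?_⟩
  by_contra hcon
  push Not at hcon
  have hcon' : ∀ n : ℕ, ∃ M N : Mat 3, M ∈ PM ∧ N ∈ PM ∧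
    ‖pe P1 M‖ < 1 / ((n : ℝ) + 1) ∧ ‖pe P2 M‖ < 1 / ((n : ℝ) + 1) ∧
    ‖pe P1 N‖ < 1 / ((n : ℝ) + 1) ∧ ‖pe P2 N‖ < 1 / ((n : ℝ) + 1) ∧ ‖M - N‖ < δ1 / 2 ∧
    δ ≤ ‖M - N‖ := by
    intro n
    obtain ⟨M, N, h1, h2, h3, h4, h5, h6, h7, h8⟩ := hcon (1 / ((n : ℝ) + 1)) (by positivity)
    exact ⟨M, N, h1, h2, h3, h4, h5, h6, h7, h8⟩
  choose M N hM hN m1 m2 n1 n2 hd hne using hcon'
  set l : Ultrafilter ℕ := hyperfilter ℕ with hl
  obtain ⟨Q, hQ, hQM⟩ := exists_lim_PM (l := l) (Eventually.of_forall hM)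
  obtain ⟨R, hR, hRN⟩ := exists_lim_PM (l := l) (Eventually.of_forall hN)
  have key : ∀ (P : Poly) (X : ℕ → Mat 3) (Y : Mat 3), Tendsto X l (𝓝 Y) →
      (∀ n, ‖pe P (X n)‖ < 1 / ((n : ℝ) + 1)) → pe P Y = 0 := by
    intro P X Y hX hlt
    have e1 := ((cont_pe P).tendsto Y).comp hX
    have e2 : Tendsto (fun n => pe P (X n)) l (𝓝 0) :=
      tendsto_zero_of_lt (fun ε hε => hyper_lt hε) (Eventually.of_forall hlt)
    exact tendsto_nhds_unique e1 e2
  have hQR : ‖Q - R‖ ≤ δ1 / 2 :=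
    le_of_tendsto (hQM.sub hRN).norm (Eventually.of_forall fun n => (hd n).le)
  have hQR2 : δ ≤ ‖Q - R‖ :=
    ge_of_tendsto (hQM.sub hRN).norm (Eventually.of_forall fun n => hne n)
  have := hδ2 Q R hQ hR (key P1 M Q hQM m1) (key P2 M Q hQM m2) (key P1 N R hRN n1)
    (key P2 N R hRN n2) (by linarith)
  rw [this, sub_self, norm_zero] at hQR2
  linarith

/-- curves near the crossings stay near one crossing -/
theorem SNC.stay (h : SNC P1 P2 e1 e2) {δ : ℝ} (hδ : 0 < δ) : ∃ η : ℝ, 0 < η ∧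
    ∀ (S : Set ℂ) (φ : ℂ → Mat 3), IsPreconnected S → ContinuousOn φ S → (∀ z ∈ S, φ z ∈ PM) →
      (∀ z ∈ S, ‖pe P1 (φ z)‖ < η ∧ ‖pe P2 (φ z)‖ < η) → ∀ y ∈ S, ∀ z ∈ S, ‖φ y - φ z‖ < δ := by
  obtain ⟨δ0, hδ0, hg⟩ := h.gap
  obtain ⟨η, hη, hη'⟩ := hg (min δ δ0 / 2) (by positivity)
  refine ⟨η, hη, fun S φ hS hφ hPM hlt y hy z hz => ?_⟩
  have hc : ContinuousOn (fun w => ‖φ w - φ z‖) S := (hφ.sub continuousOn_const).norm
  have hdich : ∀ w ∈ S, ‖φ w - φ z‖ < min δ δ0 / 2 ∨ δ0 ≤ ‖φ w - φ z‖ := by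
    intro w hw
    by_cases h1 : ‖φ w - φ z‖ < δ0
    · left
      exact hη' _ _ (hPM w hw) (hPM z hz) (hlt w hw).1 (hlt w hw).2 (hlt z hz).1 (hlt z hz).2 h1
    · right
      exact not_lt.1 h1
  have hpos : 0 < min δ δ0 := by positivity
  have hlt1 : min δ δ0 / 2 < δ0 := by
    have := min_le_right δ δ0
    linarith
  rcases hdich y hy with h1 | h1
  · have := min_le_left δ δ0
    linarith
  · exfalso
    have h2 : ‖φ z - φ z‖ ≤ min δ δ0 / 2 := by
      rw [sub_self, norm_zero]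
      positivity
    have h3 := hS.intermediate_value hz hy hc
    have h4 : (3 * (min δ δ0 / 2) / 2) ∈ Icc ‖φ z - φ z‖ ‖φ y - φ z‖ := by
      constructor
      · linarith
      · have := min_le_right δ δ0
        linarith
    obtain ⟨w, hw, hw'⟩ := h3 h4
    simp only at hw'
    rcases hdich w hw with h5 | h5
    · rw [hw'] at h5
      linarith
    · rw [hw'] at h5
      have := min_le_right δ δ0
      linarith

/-- **Harnack's inequality** for the logarithm of the norm -/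
theorem S_harnack {F : ℂ → V} {z : ℂ} {r B : ℝ} (hF : DifferentiableOn ℂ F (ball z r))
    (h0 : ∀ y ∈ ball z r, F y ≠ 0) (hosc : ∀ y ∈ ball z r, ‖Phi (F y) - Phi (F z)‖ ≤ 1 / 6)
    (hB : ∀ y ∈ ball z r, -B ≤ Sf F y) {y : ℂ} (hy : y ∈ ball z r) :
    (r - ‖y - z‖) * (Sf F z + B) ≤ (r + ‖y - z‖) * (Sf F y + B + 1) ∧
      (r - ‖y - z‖) * (Sf F y + B) ≤ (r + ‖y - z‖) * (Sf F z + B + 1) := by
  have hr : 0 < r := pos_of_mem_ball hy
  obtain ⟨j, hj⟩ := loc_log h0 (mem_ball_self hr) hosc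
  have hd : DifferentiableOn ℂ (fun y => F y j) (ball z r) := fun w hw =>
    (differentiableWithinAt_pi.1 (hF w hw)) j
  have h1 := harnack (B := B + 1) hd (fun y hy => (hj y hy).1) (fun w hw => by
    have := (hj w hw).2.1
    have := hB w hw
    linarith) hy
  have hyz : ‖y - z‖ < r := by rwa [mem_ball, dist_eq_norm] at hy
  have hjz := (hj z (mem_ball_self hr)).2
  have hjy := (hj y hy).2
  have hn := norm_nonneg (y - z)
  constructor
  · calc (r - ‖y - z‖) * (Sf F z + B) ≤ (r - ‖y - z‖) * (Real.log ‖F z j‖ + (B + 1)) := by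
          apply mul_le_mul_of_nonneg_left _ (by linarith)
          linarith [hjz.1]
      _ ≤ (r + ‖y - z‖) * (Real.log ‖F y j‖ + (B + 1)) := h1.1
      _ ≤ _ := by
          apply mul_le_mul_of_nonneg_left _ (by linarith)
          linarith [hjy.2]
  · calc (r - ‖y - z‖) * (Sf F y + B) ≤ (r - ‖y - z‖) * (Real.log ‖F y j‖ + (B + 1)) := by
          apply mul_le_mul_of_nonneg_left _ (by linarith)
          linarith [hjy.1]
      _ ≤ (r + ‖y - z‖) * (Real.log ‖F z j‖ + (B + 1)) := h1.2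
      _ ≤ _ := by
          apply mul_le_mul_of_nonneg_left _ (by linarith)
          linarith [hjz.2]

end Pool.Agent.H915
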