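import Pool.Graph.R_seed8.Y735.Lines
import Pool.Agent.H915.TC.Cpt

/-!
Linear substitutions in forms, and the count of the generic coefficients.
-/

set_option autoImplicit false

open MvPolynomial

namespace Pool.Agent.H915

/-- linear substitution -/
noncomputable def sb (g : Matrix (Fin 3) (Fin 3) ℂ) (P : Poly) : Poly :=
  bind₁ (fun i => ∑ j, C (g i j) * X j) P

theorem eval_sb (g : Matrix (Fin 3) (Fin 3) ℂ) (P : Poly) (v : V) :
    eval v (sb g P) = eval (g.mulVec v) P := by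
  unfold sb
  rw [← coe_aeval_eq_eval, ← coe_aeval_eq_eval]
  change aeval v (bind₁ _ P) = aeval (g.mulVec v) P
  rw [aeval_bind₁]
  congr 2
  funext i
  simp [Matrix.mulVec, dotProduct]

theorem sb_hom {P : Poly} {d : ℕ} (hP : P.IsHomogeneous d) (g : Matrix (Fin 3) (Fin 3) ℂ) :
    (sb g P).IsHomogeneous d := by
  have h := hP.aeval (S := ℂ) (g := fun i => (∑ j, C (g i j) * X j : Poly)) (n := 1) (fun i => by
    apply IsHomogeneous.sum
    intro j _
    have h1 := (isHomogeneous_C (Fin 3) (g i j)).mul (isHomogeneous_X ℂ j)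
    rwa [zero_add] at h1)
  rw [one_mul] at h
  exact h

theorem sb_inv {g : Matrix (Fin 3) (Fin 3) ℂ} (hg : IsUnit g.det) (P : Poly) :
    sb g⁻¹ (sb g P) = P := by
  apply MvPolynomial.funext
  intro v
  rw [eval_sb, eval_sb, Matrix.mulVec_mulVec, Matrix.mul_nonsing_inv g hg, Matrix.one_mulVec]

theorem dp_grad_sb (g : Matrix (Fin 3) (Fin 3) ℂ) (P : Poly) (v w : V) :
    dp (grad (sb g P) v) w = dp (grad P (g.mulVec v)) (g.mulVec w) := by
  have h1 : HasDerivAt (fun t : ℂ => v + t • w) w 0 := by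
    have := ((hasDerivAt_id (0 : ℂ)).smul_const w).const_add v
    simpa using this
  have h2 : HasDerivAt (fun t : ℂ => g.mulVec v + t • g.mulVec w) (g.mulVec w) 0 := by
    have := ((hasDerivAt_id (0 : ℂ)).smul_const (g.mulVec w)).const_add (g.mulVec v)
    simpa using this
  have h3 := hasDerivAt_eval (sb g P) h1
  have h4 := hasDerivAt_eval P h2
  simp only [zero_smul, add_zero] at h3 h4
  refine h3.unique (h4.congr_of_eventuallyEq (Filter.Eventually.of_forall fun t => ?_))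
  simp only
  rw [eval_sb, Matrix.mulVec_add, Matrix.mulVec_smul]

/-- the coefficients are in the field -/
def InL (L : IntermediateField ℚ ℂ) (P : Poly) : Prop := ∀ m, coeff m P ∈ L

theorem InL_iff {L : IntermediateField ℚ ℂ} {P : Poly} :
    InL L P ↔ P ∈ Set.range (MvPolynomial.map (algebraMap L ℂ) : MvPolynomial (Fin 3) L →+* Poly) := by
  rw [mem_range_map_iff_coeffs_subset]
  constructor
  · intro h c hc
    rw [Finset.mem_coe, mem_coeffs_iff] at hc
    obtain ⟨m, -, rfl⟩ := hc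
    exact ⟨⟨_, h m⟩, rfl⟩
  · intro h m
    by_cases hm : coeff m P = 0
    · rw [hm]
      exact zero_mem _
    · have := h (by
        rw [Finset.mem_coe, mem_coeffs_iff]
        exact ⟨m, mem_support_iff.2 hm, rfl⟩ : coeff m P ∈ (P.coeffs : Set ℂ))
      obtain ⟨c, hc⟩ := this
      rw [← hc]
      exact c.2

theorem InL.sb {L : IntermediateField ℚ ℂ} {P : Poly} (hP : InL L P)
    {g : Matrix (Fin 3) (Fin 3) ℂ} (hg : ∀ i j, g i j ∈ L) : InL L (sb g P) := by
  rw [InL_iff] at hP ⊢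
  obtain ⟨P0, rfl⟩ := hP
  refine ⟨bind₁ (fun i => ∑ j, C (⟨g i j, hg i j⟩ : L) * X j) P0, ?_⟩
  unfold H915.sb
  rw [map_bind₁]
  congr 2
  funext i
  simp

theorem InL.eval {L : IntermediateField ℚ ℂ} {P : Poly} (hP : InL L P) {v : V}
    (hv : ∀ i, v i ∈ L) : eval v P ∈ L := by
  rw [eval_eq']
  exact sum_mem fun m _ => mul_mem (hP m) (prod_mem fun i _ => pow_mem (hv i) _)

theorem InL.pderiv {L : IntermediateField ℚ ℂ} {P : Poly} (hP : InL L P) (i : Fin 3) :
    InL L (pderiv i P) := by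
  intro m
  rw [coeff_pderiv]
  refine mul_mem (hP _) ?_
  exact add_mem (natCast_mem L _) (one_mem L)

theorem inv_mem_L {L : IntermediateField ℚ ℂ} {g : Matrix (Fin 3) (Fin 3) ℂ}
    (hg : ∀ i j, g i j ∈ L) (i j : Fin 3) : g⁻¹ i j ∈ L := by
  obtain ⟨g0, hg0⟩ : ∃ g0 : Matrix (Fin 3) (Fin 3) L, g = (algebraMap L ℂ).mapMatrix g0 :=
    ⟨fun i j => ⟨g i j, hg i j⟩, by
      ext i j
      rfl⟩
  have h1 : g.det = algebraMap L ℂ g0.det := by
    rw [hg0, RingHom.map_det]
  have h2 : g.adjugate = (algebraMap L ℂ).mapMatrix g0.adjugate := by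
    rw [hg0, RingHom.map_adjugate]
  have h3 : ∀ x : L, algebraMap L ℂ x ∈ L := fun x => x.2
  rw [Matrix.inv_def, Matrix.smul_apply, smul_eq_mul, Ring.inverse_eq_inv', h1, h2]
  exact mul_mem (inv_mem (h3 _)) (h3 _)

/-- the count -/
theorem generic_count {d : Fin 2 → ℕ} {H : Fin 2 → Poly} (hh : ∀ a, (H a).IsHomogeneous (d a))
    (hind : AlgebraicIndependent ℚ fun p : (a : Fin 2) × {I : Fin 3 →₀ ℕ // I.degree = d a} =>
      (H p.1).coeff p.2.1)
    (g : Matrix (Fin 3) (Fin 3) ℂ) (hg : IsUnit g.det) (Z : Finset ℂ)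
    (D : Finset ((a : Fin 2) × {I : Fin 3 →₀ ℕ // I.degree = d a})) (hZD : Z.card < D.card)
    (hgZ : ∀ i j, g i j ∈ IntermediateField.adjoin ℚ (Z : Set ℂ))
    (hD : ∀ L : IntermediateField ℚ ℂ, (Z : Set ℂ) ⊆ L → (∀ p ∉ D, coeff p.2.1 (sb g (H p.1)) ∈ L) →
      ∀ p ∈ D, coeff p.2.1 (sb g (H p.1)) ∈ L) : False := by
  classical
  have hfin : ∀ e : ℕ, Finite {I : Fin 3 →₀ ℕ // I.degree = e} := by
    intro e
    have : Set.Finite {I : Fin 3 →₀ ℕ | I.degree = e} := by
      refine (Set.finite_Iic (Finsupp.equivFunOnFinite.symm fun _ : Fin 3 => e)).subset ?_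
      intro I hI i
      have hI' : I.degree = e := hI
      rw [Finsupp.equivFunOnFinite_symm_apply_apply, ← hI']
      exact Finsupp.le_degree i I
    exact this.to_subtype
  have := fun a => hfin (d a)
  have hft : Fintype ((a : Fin 2) × {I : Fin 3 →₀ ℕ // I.degree = d a}) := Fintype.ofFinite _
  obtain ⟨S, hS⟩ : ∃ S : Finset ℂ, S = Z ∪ (Finset.univ \ D).image
    fun p : (a : Fin 2) × {I : Fin 3 →₀ ℕ // I.degree = d a} => coeff p.2.1 (sb g (H p.1)) :=
    ⟨_, rfl⟩
  obtain ⟨L, hL⟩ : ∃ L, L = IntermediateField.adjoin ℚ (S : Set ℂ) := ⟨_, rfl⟩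
  have hSL : ∀ z ∈ S, z ∈ L := by
    intro z hz
    rw [hL]
    exact IntermediateField.subset_adjoin _ _ hz
  have hZL : (Z : Set ℂ) ⊆ L := by
    intro z hz
    apply hSL
    rw [hS]
    exact Finset.mem_union_left _ hz
  have hout : ∀ p ∉ D, coeff p.2.1 (sb g (H p.1)) ∈ L := by
    intro p hp
    apply hSL
    rw [hS]
    exact (Finset.mem_union_right _ (Finset.mem_image_of_mem _
      (Finset.mem_sdiff.2 ⟨Finset.mem_univ _, hp⟩)))
  have hin := hD L hZL hout
  have hgL : ∀ i j, g i j ∈ L := by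
    intro i j
    have h1 : IntermediateField.adjoin ℚ (Z : Set ℂ) ≤ L := IntermediateField.adjoin_le_iff.2 hZL
    exact h1 (hgZ i j)
  have hall : ∀ a, InL L (sb g (H a)) := by
    intro a m
    by_cases hm : m.degree = d a
    · obtain ⟨p, hp1⟩ : ∃ p : (a : Fin 2) × {I : Fin 3 →₀ ℕ // I.degree = d a}, p = ⟨a, m, hm⟩ :=
        ⟨_, rfl⟩
      have h2 : coeff p.2.1 (sb g (H p.1)) ∈ L := by
        by_cases hp : p ∈ D
        · exact hin p hp
        · exact hout p hp
      rw [hp1] at h2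
      exact h2
    · rw [(sb_hom (hh a) g).coeff_eq_zero hm]
      exact zero_mem L
  have hginv : ∀ i j, g⁻¹ i j ∈ L := inv_mem_L hgL
  have hH : ∀ p : (a : Fin 2) × {I : Fin 3 →₀ ℕ // I.degree = d a}, (H p.1).coeff p.2.1 ∈ L := by
    intro p
    have h3 := (hall p.1).sb hginv p.2.1
    rwa [sb_inv hg] at h3
  rw [hL] at hH
  have h1 := Pool.Agent.Y735.card_le_adjoin hind S hH
  rw [Nat.card_eq_fintype_card] at h1
  have h2 : S.card ≤ Z.card + (Fintype.card ((a : Fin 2) × {I : Fin 3 →₀ ℕ // I.degree = d a}) - D.card) := by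
    rw [hS]
    refine (Finset.card_union_le _ _).trans (add_le_add_right (Finset.card_image_le.trans ?_) _)
    rw [Finset.card_sdiff_of_subset (Finset.subset_univ _), Finset.card_univ]
  have h3 : D.card ≤ Fintype.card ((a : Fin 2) × {I : Fin 3 →₀ ℕ // I.degree = d a}) :=
    Finset.card_le_univ _
  omega

end Pool.Agent.H915
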