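import Pool.Agent.H915.TC.Gn1

/-!
Very general pairs: smoothness and transversality.
-/

set_option autoImplicit false

open MvPolynomial

namespace Pool.Agent.H915

/-- exponents -/
noncomputable def mo (t : ℕ × ℕ × ℕ) : Fin 3 →₀ ℕ :=
  Finsupp.equivFunOnFinite.symm ![t.1, t.2.1, t.2.2]

@[simp] theorem mo_0 (t : ℕ × ℕ × ℕ) : mo t 0 = t.1 := rfl
@[simp] theorem mo_1 (t : ℕ × ℕ × ℕ) : mo t 1 = t.2.1 := rfl
@[simp] theorem mo_2 (t : ℕ × ℕ × ℕ) : mo t 2 = t.2.2 := rfl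

theorem mo_inj : Function.Injective mo := by
  intro s t h
  have h0 := DFunLike.congr_fun h 0
  have h1 := DFunLike.congr_fun h 1
  have h2 := DFunLike.congr_fun h 2
  rw [mo_0, mo_0] at h0
  rw [mo_1, mo_1] at h1
  rw [mo_2, mo_2] at h2
  exact Prod.ext h0 (Prod.ext h1 h2)

theorem mo_deg (t : ℕ × ℕ × ℕ) : (mo t).degree = t.1 + t.2.1 + t.2.2 := by
  rw [Finsupp.degree_eq_sum, Fin.sum_univ_three]
  rfl

theorem mo_surj (m : Fin 3 →₀ ℕ) : mo (m 0, m 1, m 2) = m := by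
  ext i
  fin_cases i <;> rfl

/-- coefficients -/
noncomputable def co (P : Poly) (t : ℕ × ℕ × ℕ) : ℂ := coeff (mo t) P

/-- very general pairs -/
def VG (H : Fin 2 → Poly) (d : Fin 2 → ℕ) : Prop :=
  (∀ a, (H a).IsHomogeneous (d a)) ∧
    AlgebraicIndependent ℚ fun p : (a : Fin 2) × {I : Fin 3 →₀ ℕ // I.degree = d a} =>
      (H p.1).coeff p.2.1

theorem VG.count {d : Fin 2 → ℕ} {H : Fin 2 → Poly} (h : VG H d)
    (g : Matrix (Fin 3) (Fin 3) ℂ) (hg : IsUnit g.det) (Z : Finset ℂ)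
    (T : Finset (Fin 2 × ℕ × ℕ × ℕ)) (hT : ∀ t ∈ T, t.2.1 + t.2.2.1 + t.2.2.2 = d t.1)
    (hZT : Z.card < T.card)
    (hgZ : ∀ K : IntermediateField ℚ ℂ, (Z : Set ℂ) ⊆ K → ∀ i j, g i j ∈ K)
    (hD : ∀ L : IntermediateField ℚ ℂ, (Z : Set ℂ) ⊆ L → (∀ t ∉ T, co (sb g (H t.1)) t.2 ∈ L) →
      ∀ t ∈ T, co (sb g (H t.1)) t.2 ∈ L) : False := by
  classical
  obtain ⟨D, hDdef⟩ : ∃ D : Finset ((a : Fin 2) × {I : Fin 3 →₀ ℕ // I.degree = d a}),
      D = T.attach.image (fun t => ⟨t.1.1, mo t.1.2, by rw [mo_deg]; exact hT t.1 t.2⟩) := ⟨_, rfl⟩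
  have hcard : D.card = T.card := by
    rw [hDdef, Finset.card_image_of_injective, Finset.card_attach]
    intro s t hst
    have h1 : s.1.1 = t.1.1 := congrArg Sigma.fst hst
    have h2 : mo s.1.2 = mo t.1.2 := by
      have := congrArg (fun p : (a : Fin 2) × {I : Fin 3 →₀ ℕ // I.degree = d a} => p.2.1) hst
      exact this
    exact Subtype.ext (Prod.ext h1 (mo_inj h2))
  refine generic_count h.1 h.2 g hg Z D (hcard ▸ hZT)
    (hgZ _ (IntermediateField.subset_adjoin _ _)) fun L hZL hout => ?_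
  have h1 : ∀ t ∉ T, co (sb g (H t.1)) t.2 ∈ L := by
    intro t ht
    by_cases hd : t.2.1 + t.2.2.1 + t.2.2.2 = d t.1
    · have := hout ⟨t.1, mo t.2, by rw [mo_deg]; exact hd⟩ (fun hmem => by
        rw [hDdef, Finset.mem_image] at hmem
        obtain ⟨s, -, hs⟩ := hmem
        have h1 : s.1.1 = t.1 := congrArg Sigma.fst hs
        have h2 : mo s.1.2 = mo t.2 :=
          congrArg (fun p : (a : Fin 2) × {I : Fin 3 →₀ ℕ // I.degree = d a} => p.2.1) hs
        apply ht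
        have h3 : s.1 = t := Prod.ext h1 (mo_inj h2)
        rw [← h3]
        exact s.2)
      exact this
    · unfold co
      rw [(sb_hom (h.1 t.1) g).coeff_eq_zero (by rw [mo_deg]; exact hd)]
      exact zero_mem L
  have h2 := hD L hZL h1
  intro p hp
  rw [hDdef, Finset.mem_image] at hp
  obtain ⟨s, -, rfl⟩ := hp
  exact h2 s.1 s.2

/-- basis vectors -/
def bv (k : Fin 3) : V := Pi.single k 1

theorem eval_bv {Q : Poly} {n : ℕ} (hQ : Q.IsHomogeneous n) (k : Fin 3) :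
    eval (bv k) Q = coeff (Finsupp.single k n) Q := by
  rw [eval_eq', Finset.sum_eq_single (Finsupp.single k n)]
  · rw [Finset.prod_eq_one, mul_one]
    intro i _
    by_cases hi : i = k
    · rw [hi, bv, Pi.single_eq_same, one_pow]
    · rw [Finsupp.single_eq_of_ne hi, pow_zero]
  · intro m hm hne
    have hdeg : m.degree = n := by
      by_contra hcon
      exact (mem_support_iff.1 hm) (hQ.coeff_eq_zero hcon)
    obtain ⟨i, hik, hi⟩ : ∃ i, i ≠ k ∧ m i ≠ 0 := by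
      by_contra hcon
      push Not at hcon
      apply hne
      have h1 : m = Finsupp.single k (m k) := by
        ext i
        by_cases hi : i = k
        · rw [hi, Finsupp.single_eq_same]
        · rw [Finsupp.single_eq_of_ne hi, hcon i hi]
      have h2 : m.degree = m k := by
        rw [h1, Finsupp.degree_single, Finsupp.single_eq_same]
      rw [h1, ← h2, hdeg]
    rw [Finset.prod_eq_zero (Finset.mem_univ i), mul_zero]
    rw [bv, Pi.single_eq_of_ne hik, zero_pow hi]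
  · intro hm
    rw [notMem_support_iff.1 hm, zero_mul]

theorem eval_pd {Q : Poly} {n : ℕ} (hQ : Q.IsHomogeneous (n + 1)) (k j : Fin 3) :
    eval (bv k) (pderiv j Q) =
      coeff (Finsupp.single k n + Finsupp.single j 1) Q * ((Finsupp.single k n) j + 1) := by
  rw [eval_bv (hQ.pderiv), coeff_pderiv]
  rfl

theorem co_val {Q : Poly} {n : ℕ} (hQ : Q.IsHomogeneous n) : eval (bv 0) Q = co Q (n, 0, 0) ∧
    eval (bv 1) Q = co Q (0, n, 0) := by
  have e0 : (Finsupp.single 0 n : Fin 3 →₀ ℕ) = mo (n, 0, 0) := by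
    ext i; fin_cases i <;> simp [mo]
  have e1 : (Finsupp.single 1 n : Fin 3 →₀ ℕ) = mo (0, n, 0) := by
    ext i; fin_cases i <;> simp [mo]
  rw [eval_bv hQ, eval_bv hQ, e0, e1]
  exact ⟨rfl, rfl⟩

theorem co_pd0 {Q : Poly} {n : ℕ} (hQ : Q.IsHomogeneous (n + 1)) :
    eval (bv 0) (pderiv 0 Q) = co Q (n + 1, 0, 0) * (n + 1) ∧
      eval (bv 0) (pderiv 1 Q) = co Q (n, 1, 0) ∧ eval (bv 0) (pderiv 2 Q) = co Q (n, 0, 1) := by
  have e0 : (Finsupp.single 0 n + Finsupp.single 0 1 : Fin 3 →₀ ℕ) = mo (n + 1, 0, 0) := by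
    ext i; fin_cases i <;> simp [mo]
  have e1 : (Finsupp.single 0 n + Finsupp.single 1 1 : Fin 3 →₀ ℕ) = mo (n, 1, 0) := by
    ext i; fin_cases i <;> simp [mo]
  have e2 : (Finsupp.single 0 n + Finsupp.single 2 1 : Fin 3 →₀ ℕ) = mo (n, 0, 1) := by
    ext i; fin_cases i <;> simp [mo]
  rw [eval_pd hQ, eval_pd hQ, eval_pd hQ, e0, e1, e2]
  unfold co
  simp

theorem co_pd1 {Q : Poly} {n : ℕ} (hQ : Q.IsHomogeneous (n + 1)) :
    eval (bv 1) (pderiv 0 Q) = co Q (1, n, 0) ∧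
      eval (bv 1) (pderiv 1 Q) = co Q (0, n + 1, 0) * (n + 1) ∧
        eval (bv 1) (pderiv 2 Q) = co Q (0, n, 1) := by
  have e0 : (Finsupp.single 1 n + Finsupp.single 0 1 : Fin 3 →₀ ℕ) = mo (1, n, 0) := by
    ext i; fin_cases i <;> simp [mo]
  have e1 : (Finsupp.single 1 n + Finsupp.single 1 1 : Fin 3 →₀ ℕ) = mo (0, n + 1, 0) := by
    ext i; fin_cases i <;> simp [mo]
  have e2 : (Finsupp.single 1 n + Finsupp.single 2 1 : Fin 3 →₀ ℕ) = mo (0, n, 1) := by
    ext i; fin_cases i <;> simp [mo]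
  rw [eval_pd hQ, eval_pd hQ, eval_pd hQ, e0, e1, e2]
  unfold co
  simp

theorem co_pd2 {Q : Poly} {n : ℕ} (hQ : Q.IsHomogeneous (n + 2)) :
    eval (bv 0) (pderiv 1 (pderiv 1 Q)) = co Q (n, 2, 0) * 2 ∧
      eval (bv 0) (pderiv 2 (pderiv 1 Q)) = co Q (n, 1, 1) := by
  have h1 : (pderiv 1 Q).IsHomogeneous (n + 1) := hQ.pderiv
  have h2 := co_pd0 h1
  rw [h2.2.1, h2.2.2]
  unfold co
  rw [coeff_pderiv, coeff_pderiv]
  have e1 : (mo (n, 1, 0) + Finsupp.single 1 1 : Fin 3 →₀ ℕ) = mo (n, 2, 0) := by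
    ext i; fin_cases i <;> simp [mo]
  have e2 : (mo (n, 0, 1) + Finsupp.single 1 1 : Fin 3 →₀ ℕ) = mo (n, 1, 1) := by
    ext i; fin_cases i <;> simp [mo]
  rw [e1, e2]
  constructor
  · rw [mo_1]
    norm_num
  · rw [mo_1]
    norm_num

/-- a frame with given first two columns -/
def fr (x y : V) (k : Fin 3) : Matrix (Fin 3) (Fin 3) ℂ := fun i j => ![x i, y i, bv k i] j

theorem fr_det (x y : V) (k : Fin 3) : (fr x y k).det = cr x y k := by
  rw [Matrix.det_fin_three]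
  unfold fr bv
  fin_cases k <;> simp <;> ring

theorem fr_0 (x y : V) (k : Fin 3) : (fr x y k).mulVec (bv 0) = x := by
  funext i
  simp [Matrix.mulVec, dotProduct, Fin.sum_univ_three, fr, bv]

theorem fr_1 (x y : V) (k : Fin 3) : (fr x y k).mulVec (bv 1) = y := by
  funext i
  simp [Matrix.mulVec, dotProduct, Fin.sum_univ_three, fr, bv]

theorem fr_mem {K : IntermediateField ℚ ℂ} {x y : V} (hx : ∀ i, x i ∈ K) (hy : ∀ i, y i ∈ K)
    (k i j : Fin 3) : fr x y k i j ∈ K := by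
  unfold fr
  fin_cases j
  · exact hx i
  · exact hy i
  · change bv k i ∈ K
    unfold bv
    by_cases h : i = k
    · rw [h, Pi.single_eq_same]
      exact one_mem K
    · rw [Pi.single_eq_of_ne h]
      exact zero_mem K

theorem bv_mem (K : IntermediateField ℚ ℂ) (k i : Fin 3) : bv k i ∈ K := by
  unfold bv
  by_cases h : i = k
  · rw [h, Pi.single_eq_same]
    exact one_mem K
  · rw [Pi.single_eq_of_ne h]
    exact zero_mem K

theorem exists_frame2 {x y : V} (h : cr x y ≠ 0) : ∃ g : Matrix (Fin 3) (Fin 3) ℂ,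
    IsUnit g.det ∧ g.mulVec (bv 0) = x ∧ g.mulVec (bv 1) = y ∧
      ∀ K : IntermediateField ℚ ℂ, (∀ i, x i ∈ K) → (∀ i, y i ∈ K) → ∀ i j, g i j ∈ K := by
  obtain ⟨k, hk⟩ := Function.ne_iff.1 h
  refine ⟨fr x y k, ?_, fr_0 x y k, fr_1 x y k, fun K hx hy => fr_mem hx hy k⟩
  rw [fr_det]
  exact isUnit_iff_ne_zero.2 hk

theorem exists_frame1 {x : V} (h : x ≠ 0) : ∃ g : Matrix (Fin 3) (Fin 3) ℂ,
    IsUnit g.det ∧ g.mulVec (bv 0) = x ∧
      ∀ K : IntermediateField ℚ ℂ, (∀ i, x i ∈ K) → ∀ i j, g i j ∈ K := by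
  obtain ⟨k, hk⟩ : ∃ k, cr x (bv k) ≠ 0 := by
    by_contra hcon
    push Not at hcon
    apply h
    have h0 := hcon 0
    have h1 := hcon 1
    have a1 := congrFun h0 1
    have a2 := congrFun h0 2
    have b2 := congrFun h1 2
    simp [bv] at a1 a2 b2
    apply v_ext <;> simp_all
  obtain ⟨g, h1, h2, -, h4⟩ := exists_frame2 hk
  exact ⟨g, h1, h2, fun K hx => h4 K hx (bv_mem K k)⟩

/-- parameters of a normalised vector -/
theorem params2 {x : V} {i : Fin 3} (hx : x i = 1) : ∃ Z : Finset ℂ, Z.card ≤ 2 ∧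
    ∀ K : IntermediateField ℚ ℂ, (Z : Set ℂ) ⊆ K → ∀ j, x j ∈ K := by
  classical
  refine ⟨(Finset.univ.erase i).image x, ?_, fun K hK j => ?_⟩
  · refine Finset.card_image_le.trans ?_
    rw [Finset.card_erase_of_mem (Finset.mem_univ _), Finset.card_univ, Fintype.card_fin]
  · by_cases hj : j = i
    · rw [hj, hx]
      exact one_mem K
    · exact hK (Finset.mem_coe.2 (Finset.mem_image_of_mem _
        (Finset.mem_erase.2 ⟨hj, Finset.mem_univ _⟩)))

/-- parameters of a vector -/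
theorem params3 (x : V) : ∃ Z : Finset ℂ, Z.card ≤ 3 ∧
    ∀ K : IntermediateField ℚ ℂ, (Z : Set ℂ) ⊆ K → ∀ j, x j ∈ K := by
  classical
  refine ⟨Finset.univ.image x, ?_, fun K hK j => ?_⟩
  · refine Finset.card_image_le.trans ?_
    rw [Finset.card_univ, Fintype.card_fin]
  · exact hK (Finset.mem_coe.2 (Finset.mem_image_of_mem _ (Finset.mem_univ _)))

theorem normal_vec {x : V} (hx : x ≠ 0) : ∃ (c : ℂ) (i : Fin 3), c ≠ 0 ∧ (c • x) i = 1 := by
  obtain ⟨i, hi⟩ := Function.ne_iff.1 hx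
  refine ⟨(x i)⁻¹, i, inv_ne_zero hi, ?_⟩
  rw [Pi.smul_apply, smul_eq_mul, inv_mul_cancel₀ hi]

theorem dp_bv (v : V) (k : Fin 3) : dp v (bv k) = v k := by
  unfold dp bv
  fin_cases k <;> simp

theorem eval_pd_sb (g : Matrix (Fin 3) (Fin 3) ℂ) (P : Poly) (v : V) (j : Fin 3) :
    eval v (pderiv j (sb g P)) = dp (grad P (g.mulVec v)) (g.mulVec (bv j)) := by
  rw [← dp_grad_sb, dp_bv]
  rfl

/-- very general forms are smooth -/
theorem VG.smooth {d : Fin 2 → ℕ} {H : Fin 2 → Poly} (h : VG H d) (a : Fin 2) {n : ℕ}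
    (hd : d a = n + 1) {x : V} (hx : x ≠ 0) : grad (H a) x ≠ 0 := by
  classical
  intro h0
  have hP : (H a).IsHomogeneous (n + 1) := hd ▸ h.1 a
  obtain ⟨c, i, hc, hi⟩ := normal_vec hx
  obtain ⟨x', hx'⟩ : ∃ x', x' = c • x := ⟨_, rfl⟩
  rw [← hx'] at hi
  have hx0 : x' ≠ 0 := by
    rw [hx']
    exact smul_ne_zero hc hx
  have h0' : grad (H a) x' = 0 := by
    rw [hx', grad_smul hP, h0, smul_zero]
  obtain ⟨g, hg, hg0, hgK⟩ := exists_frame1 hx0
  obtain ⟨Z, hZ, hZK⟩ := params2 hi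
  have key : ∀ j, eval (bv 0) (pderiv j (sb g (H a))) = 0 := by
    intro j
    rw [eval_pd_sb, hg0, h0']
    simp [dp]
  obtain ⟨k0, k1, k2⟩ := co_pd0 (sb_hom hP g)
  rw [key] at k0 k1 k2
  refine h.count g hg Z {(a, n + 1, 0, 0), (a, n, 1, 0), (a, n, 0, 1)} ?_ ?_
    (fun K hK => hgK K (hZK K hK)) ?_
  · intro t ht
    simp only [Finset.mem_insert, Finset.mem_singleton] at ht
    rcases ht with rfl | rfl | rfl <;> simp [hd]
  · rw [Finset.card_insert_of_notMem (by simp), Finset.card_insert_of_notMem (by simp),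
      Finset.card_singleton]
    omega
  · intro L hZL hout t ht
    simp only [Finset.mem_insert, Finset.mem_singleton] at ht
    have hn : (n : ℂ) + 1 ≠ 0 := Nat.cast_add_one_ne_zero n
    rcases ht with rfl | rfl | rfl
    · have : co (sb g (H a)) (n + 1, 0, 0) = 0 := by
        rcases mul_eq_zero.1 k0.symm with h5 | h5
        · exact h5
        · exact absurd h5 hn
      simp only
      rw [this]
      exact zero_mem L
    · simp only
      rw [← k1]
      exact zero_mem L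
    · simp only
      rw [← k2]
      exact zero_mem L

end Pool.Agent.H915
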