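import Pool.Agent.H915.TC.Gn2
import Pool.Agent.H915.TC.Cur3

/-!
Very general pairs: the critical points of the pencil are nodal, and at most one in each fibre.
-/

set_option autoImplicit false

open MvPolynomial

namespace Pool.Agent.H915

theorem InL_of_co {L : IntermediateField ℚ ℂ} {P : Poly} (h : ∀ t, co P t ∈ L) : InL L P := by
  intro m
  rw [← mo_surj m]
  exact h _

theorem cr_smul_left (c : ℂ) (a b : V) : cr (c • a) b = c • cr a b := by
  apply v_ext <;> simp <;> ring

theorem cr_smul_right (c : ℂ) (a b : V) : cr a (c • b) = c • cr a b := by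
  apply v_ext <;> simp <;> ring

/-- very general pairs are transversal -/
theorem VG.trans {d : Fin 2 → ℕ} {H : Fin 2 → Poly} (h : VG H d) {a b : Fin 2} (hab : a ≠ b)
    {n m : ℕ} (hda : d a = n + 1) (hdb : d b = m + 1) {x : V} (hx : x ≠ 0)
    (h0 : eval x (H a) = 0) : cr (grad (H a) x) (grad (H b) x) ≠ 0 := by
  classical
  intro hc0
  have hPa : (H a).IsHomogeneous (n + 1) := hda ▸ h.1 a
  have hPb : (H b).IsHomogeneous (m + 1) := hdb ▸ h.1 b
  obtain ⟨c, i, hc, hi⟩ := normal_vec hx
  obtain ⟨x', hx'⟩ : ∃ x', x' = c • x := ⟨_, rfl⟩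
  rw [← hx'] at hi
  have hx0 : x' ≠ 0 := by
    rw [hx']
    exact smul_ne_zero hc hx
  have hcr : cr (grad (H a) x') (grad (H b) x') = 0 := by
    rw [hx', grad_smul hPa, grad_smul hPb, cr_smul_smul, hc0, smul_zero]
  have h0' : eval x' (H a) = 0 := by
    rw [hx', eval_smul' hPa, h0, mul_zero]
  obtain ⟨μ, hμ⟩ := exists_smul_of_cr hcr (h.smooth a hda hx0)
  obtain ⟨g, hg, hg0, hgK⟩ := exists_frame1 hx0
  obtain ⟨Z, hZ, hZK⟩ := params2 hi
  have key : ∀ j, eval (bv 0) (pderiv j (sb g (H b))) = μ * eval (bv 0) (pderiv j (sb g (H a))) := by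
    intro j
    rw [eval_pd_sb, eval_pd_sb, hg0, hμ]
    simp only [dp, Pi.smul_apply, smul_eq_mul]
    ring
  have hv : co (sb g (H a)) (n + 1, 0, 0) = 0 := by
    rw [← (co_val (sb_hom hPa g)).1, eval_sb, hg0, h0']
  obtain ⟨k0, k1, k2⟩ := co_pd0 (sb_hom hPb g)
  rw [key] at k0 k1 k2
  refine h.count g hg (insert μ Z)
    {(a, n + 1, 0, 0), (b, m + 1, 0, 0), (b, m, 1, 0), (b, m, 0, 1)} ?_ ?_
    (fun K hK => hgK K (hZK K fun z hz => hK (Finset.mem_coe.2 (Finset.mem_insert_of_mem hz)))) ?_
  · intro t ht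
    simp only [Finset.mem_insert, Finset.mem_singleton] at ht
    rcases ht with rfl | rfl | rfl | rfl <;> simp [hda, hdb]
  · have := Finset.card_insert_le μ Z
    refine lt_of_le_of_lt this ?_
    rw [Finset.card_insert_of_notMem (by simp [hab]), Finset.card_insert_of_notMem (by simp),
      Finset.card_insert_of_notMem (by simp), Finset.card_singleton]
    omega
  · intro L hZL hout t ht
    have hμL : μ ∈ L := hZL (Finset.mem_coe.2 (Finset.mem_insert_self _ _))
    have hall : InL L (sb g (H a)) := InL_of_co fun t => by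
      by_cases ht : t = (n + 1, 0, 0)
      · rw [ht, hv]
        exact zero_mem L
      · exact hout (a, t) (by simp [hab, ht])
    have hev : ∀ j, eval (bv 0) (pderiv j (sb g (H a))) ∈ L := fun j =>
      (hall.pderiv j).eval (bv_mem L 0)
    simp only [Finset.mem_insert, Finset.mem_singleton] at ht
    have hn : (m : ℂ) + 1 ≠ 0 := Nat.cast_add_one_ne_zero m
    rcases ht with rfl | rfl | rfl | rfl
    · simp only
      rw [hv]
      exact zero_mem L
    · simp only
      have : co (sb g (H b)) (m + 1, 0, 0) =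
          μ * eval (bv 0) (pderiv 0 (sb g (H a))) * ((m : ℂ) + 1)⁻¹ := by
        rw [k0, mul_assoc, mul_inv_cancel₀ hn, mul_one]
      rw [this]
      exact mul_mem (mul_mem hμL (hev 0)) (inv_mem (add_mem (natCast_mem L m) (one_mem L)))
    · simp only
      rw [← k1]
      exact mul_mem hμL (hev 1)
    · simp only
      rw [← k2]
      exact mul_mem hμL (hev 2)

/-- critical points of very general pairs on the same fibre are proportional -/
theorem VG.crit {d : Fin 2 → ℕ} {H : Fin 2 → Poly} (h : VG H d) {a b : Fin 2} (hab : a ≠ b)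
    {n m : ℕ} (hda : d a = n + 1) (hdb : d b = m + 3) {x y : V} (hx : x ≠ 0)
    (h0 : eval x (H a) ≠ 0) (h1 : eval y (H a) = eval x (H a)) (h2 : eval y (H b) = eval x (H b))
    (hcx : cr (grad (H a) x) (grad (H b) x) = 0) (hcy : cr (grad (H a) y) (grad (H b) y) = 0) :
    cr x y = 0 := by
  classical
  by_contra hxy
  have hPa : (H a).IsHomogeneous (n + 1) := hda ▸ h.1 a
  have hPb : (H b).IsHomogeneous (m + 2 + 1) := hdb ▸ h.1 b
  obtain ⟨c, i, hc, hi⟩ := normal_vec hx
  obtain ⟨x', hx'⟩ : ∃ x', x' = c • x := ⟨_, rfl⟩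
  obtain ⟨y', hy'⟩ : ∃ y', y' = c • y := ⟨_, rfl⟩
  rw [← hx'] at hi
  have hcrx : cr (grad (H a) x') (grad (H b) x') = 0 := by
    rw [hx', grad_smul hPa, grad_smul hPb, cr_smul_smul, hcx, smul_zero]
  have hcry : cr (grad (H a) y') (grad (H b) y') = 0 := by
    rw [hy', grad_smul hPa, grad_smul hPb, cr_smul_smul, hcy, smul_zero]
  have hxy' : cr x' y' ≠ 0 := by
    rw [hx', hy', cr_smul_smul]
    exact smul_ne_zero (mul_ne_zero hc hc) hxy
  have hva : eval y' (H a) = eval x' (H a) := by
    rw [hx', hy', eval_smul' hPa, eval_smul' hPa, h1]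
  have hvb : eval y' (H b) = eval x' (H b) := by
    rw [hx', hy', eval_smul' hPb, eval_smul' hPb, h2]
  have hva0 : eval x' (H a) ≠ 0 := by
    rw [hx', eval_smul' hPa]
    exact mul_ne_zero (pow_ne_zero _ hc) h0
  have hn1 : (n : ℂ) + 1 ≠ 0 := Nat.cast_add_one_ne_zero n
  have gx : grad (H a) x' ≠ 0 := by
    intro hcon
    have := euler hPa x'
    rw [hcon] at this
    simp only [dp, Pi.zero_apply, zero_mul, add_zero] at this
    push_cast at this
    exact mul_ne_zero hn1 hva0 this.symm
  have gy : grad (H a) y' ≠ 0 := by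
    intro hcon
    have := euler hPa y'
    rw [hcon, hva] at this
    simp only [dp, Pi.zero_apply, zero_mul, add_zero] at this
    push_cast at this
    exact mul_ne_zero hn1 hva0 this.symm
  obtain ⟨μ, hμ⟩ := exists_smul_of_cr hcrx gx
  obtain ⟨ν, hν⟩ := exists_smul_of_cr hcry gy
  have hμν : ν = μ := by
    have e1 := euler hPb x'
    have e2 := euler hPb y'
    have e3 := euler hPa x'
    have e4 := euler hPa y'
    rw [hμ] at e1
    rw [hν] at e2
    have f1 : dp (μ • grad (H a) x') x' = μ * dp (grad (H a) x') x' := by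
      simp only [dp, Pi.smul_apply, smul_eq_mul]
      ring
    have f2 : dp (ν • grad (H a) y') y' = ν * dp (grad (H a) y') y' := by
      simp only [dp, Pi.smul_apply, smul_eq_mul]
      ring
    rw [f1, e3] at e1
    rw [f2, e4, hva, hvb] at e2
    rw [← e1] at e2
    push_cast at e2
    exact mul_right_cancel₀ (mul_ne_zero hn1 hva0) e2
  rw [hμν] at hν
  obtain ⟨g, hg, hg0, hg1, hgK⟩ := exists_frame2 hxy'
  obtain ⟨Z, hZ, hZK⟩ := params2 hi
  obtain ⟨Z', hZ', hZK'⟩ := params3 y'
  have key0 : ∀ j, eval (bv 0) (pderiv j (sb g (H b))) =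
      μ * eval (bv 0) (pderiv j (sb g (H a))) := by
    intro j
    rw [eval_pd_sb, eval_pd_sb, hg0, hμ]
    simp only [dp, Pi.smul_apply, smul_eq_mul]
    ring
  have key1 : ∀ j, eval (bv 1) (pderiv j (sb g (H b))) =
      μ * eval (bv 1) (pderiv j (sb g (H a))) := by
    intro j
    rw [eval_pd_sb, eval_pd_sb, hg1, hν]
    simp only [dp, Pi.smul_apply, smul_eq_mul]
    ring
  have hv : co (sb g (H a)) (n + 1, 0, 0) = co (sb g (H a)) (0, n + 1, 0) := by
    rw [← (co_val (sb_hom hPa g)).1, ← (co_val (sb_hom hPa g)).2, eval_sb, eval_sb, hg0, hg1, hva]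
  obtain ⟨k0, k1, k2⟩ := co_pd0 (sb_hom hPb g)
  obtain ⟨l0, l1, l2⟩ := co_pd1 (sb_hom hPb g)
  rw [key0] at k0 k1 k2
  rw [key1] at l0 l1 l2
  refine h.count g hg (insert μ (Z ∪ Z'))
    {(a, n + 1, 0, 0), (b, m + 2 + 1, 0, 0), (b, m + 2, 1, 0), (b, m + 2, 0, 1),
      (b, 1, m + 2, 0), (b, 0, m + 2 + 1, 0), (b, 0, m + 2, 1)} ?_ ?_
    (fun K hK => hgK K
      (hZK K fun z hz => hK (Finset.mem_coe.2 (Finset.mem_insert_of_mem (Finset.mem_union_left _ hz))))
      (hZK' K fun z hz => hK (Finset.mem_coe.2 (Finset.mem_insert_of_mem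
        (Finset.mem_union_right _ hz))))) ?_
  · intro t ht
    simp only [Finset.mem_insert, Finset.mem_singleton] at ht
    rcases ht with rfl | rfl | rfl | rfl | rfl | rfl | rfl <;> (simp [hda, hdb]; try omega)
  · have h1 := Finset.card_insert_le μ (Z ∪ Z')
    have h2 := Finset.card_union_le Z Z'
    refine lt_of_le_of_lt h1 ?_
    rw [Finset.card_insert_of_notMem (by simp [hab]), Finset.card_insert_of_notMem (by simp),
      Finset.card_insert_of_notMem (by simp), Finset.card_insert_of_notMem (by simp),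
      Finset.card_insert_of_notMem (by simp), Finset.card_insert_of_notMem (by simp),
      Finset.card_singleton]
    omega
  · intro L hZL hout t ht
    have hμL : μ ∈ L := hZL (Finset.mem_coe.2 (Finset.mem_insert_self _ _))
    have hall : InL L (sb g (H a)) := InL_of_co fun t => by
      by_cases ht : t = (n + 1, 0, 0)
      · rw [ht, hv]
        exact hout (a, 0, n + 1, 0) (by simp [hab])
      · exact hout (a, t) (by simp [hab, ht])
    have hev : ∀ i j, eval (bv i) (pderiv j (sb g (H a))) ∈ L := fun i j =>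
      (hall.pderiv j).eval (bv_mem L i)
    have hn : ((m + 2 : ℕ) : ℂ) + 1 ≠ 0 := Nat.cast_add_one_ne_zero (m + 2)
    simp only [Finset.mem_insert, Finset.mem_singleton] at ht
    rcases ht with rfl | rfl | rfl | rfl | rfl | rfl | rfl
    · simp only
      rw [hv]
      exact hout (a, 0, n + 1, 0) (by simp [hab])
    · simp only
      have : co (sb g (H b)) (m + 2 + 1, 0, 0) =
          μ * eval (bv 0) (pderiv 0 (sb g (H a))) * (((m + 2 : ℕ) : ℂ) + 1)⁻¹ := by
        rw [k0, mul_assoc, mul_inv_cancel₀ hn, mul_one]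
      rw [this]
      exact mul_mem (mul_mem hμL (hev _ 0)) (inv_mem (add_mem (natCast_mem L _) (one_mem L)))
    · simp only
      rw [← k1]
      exact mul_mem hμL (hev _ 1)
    · simp only
      rw [← k2]
      exact mul_mem hμL (hev _ 2)
    · simp only
      rw [← l0]
      exact mul_mem hμL (hev _ 0)
    · simp only
      have : co (sb g (H b)) (0, m + 2 + 1, 0) =
          μ * eval (bv 1) (pderiv 1 (sb g (H a))) * (((m + 2 : ℕ) : ℂ) + 1)⁻¹ := by
        rw [l1, mul_assoc, mul_inv_cancel₀ hn, mul_one]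
      rw [this]
      exact mul_mem (mul_mem hμL (hev _ 1)) (inv_mem (add_mem (natCast_mem L _) (one_mem L)))
    · simp only
      rw [← l2]
      exact mul_mem hμL (hev _ 2)

end Pool.Agent.H915
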