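import Pool.Agent.H915.TC.Ec

/-!
Entire curves in the complement: the function `h` is a polynomial of degree at most two.
-/

set_option autoImplicit false

open Filter Topology Metric Set MvPolynomial

namespace Pool.Agent.H915

open Pool.Agent.Y190.OP

variable {P1 P2 : Poly} {e1 e2 : ℕ} {F : ℂ → V} {M B : ℝ} {h : ℂ → ℂ}

theorem log_le_two_sqrt {x : ℝ} (hx : 0 < x) : Real.log x ≤ 2 * Real.sqrt x := by
  have h1 : Real.log x = 2 * Real.log (Real.sqrt x) := by
    rw [Real.log_sqrt hx.le]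
    ring
  rw [h1]
  have := Real.log_le_sub_one_of_pos (Real.sqrt_pos.2 hx)
  linarith

/-- the barrier on an annulus, for points where the logarithm of the norm is large -/
theorem BC.annulus (hF : BC F M) (hB : ∀ z, -B ≤ Sf F z) {z : ℂ} {ρ R m κ : ℝ} (hρ : 0 < ρ)
    (hρR : ρ < R) (hm : 0 ≤ m) (hmz : ∀ w, ‖w - z‖ = ρ → m - B ≤ Sf F w) (hκ : 9 / 2 * M ^ 2 ≤ κ)
    {w : ℂ} (hw : ρ ≤ ‖w - z‖) (hw2 : ‖w - z‖ ≤ R) :
    m / Real.log (R / ρ) * Real.log (R / ‖w - z‖) + κ * (‖w - z‖ ^ 2 - R ^ 2) - B ≤ Sf F w := by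
  have hR : 0 < R := hρ.trans hρR
  have hlog : 0 < Real.log (R / ρ) := Real.log_pos (by rwa [one_lt_div hρ])
  have hκ0 : 0 ≤ κ := le_trans (by positivity) hκ
  set K : Set ℂ := closedBall z R \ ball z ρ with hK
  have hKc : IsCompact K := (isCompact_closedBall z R).diff isOpen_ball
  have hKn : ∀ u ∈ K, ρ ≤ ‖u - z‖ ∧ ‖u - z‖ ≤ R := by
    rintro u ⟨h1, h2⟩
    rw [mem_closedBall, dist_eq_norm] at h1
    rw [mem_ball, dist_eq_norm, not_lt] at h2
    exact ⟨h2, h1⟩
  have hmem : w ∈ K := by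
    refine ⟨?_, ?_⟩
    · rw [mem_closedBall, dist_eq_norm]
      exact hw2
    · rw [mem_ball, dist_eq_norm, not_lt]
      exact hw
  set Ψ : ℂ → ℝ := fun u => m / Real.log (R / ρ) * (-Real.log ‖u - z‖ + Real.log R) +
    κ * (‖u - z‖ ^ 2) + (-κ * R ^ 2 - B) with hΨ
  have key : ∀ u ∈ K, Ψ u ≤ Sf F u := by
    refine S_ge hF.dif hF.ne hKc ?_ fun u hu => ?_
    · apply ContinuousOn.add _ continuousOn_const
      apply ContinuousOn.add
      · apply continuousOn_const.mul
        apply ContinuousOn.add _ continuousOn_const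
        apply ContinuousOn.neg
        apply ContinuousOn.log (by fun_prop)
        intro u hu
        have := (hKn u hu).1
        linarith
      · fun_prop
    · obtain ⟨h1, h2⟩ := hKn u hu
      have hu0 : 0 < ‖u - z‖ := by linarith
      rcases h1.eq_or_lt with h3 | h3
      · left
        have h4 := hmz u h3.symm
        have h5 : -Real.log ‖u - z‖ + Real.log R = Real.log (R / ρ) := by
          rw [← h3, Real.log_div hR.ne' hρ.ne']
          ring
        have h6 : κ * ‖u - z‖ ^ 2 ≤ κ * R ^ 2 := by gcongr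
        rw [hΨ]
        simp only
        rw [h5, div_mul_cancel₀ _ hlog.ne']
        linarith
      · rcases h2.eq_or_lt with h4 | h4
        · left
          rw [hΨ]
          simp only
          rw [h4]
          have := hB u
          have e : m / Real.log (R / ρ) * (-Real.log R + Real.log R) + κ * R ^ 2 +
            (-κ * R ^ 2 - B) = -B := by ring
          rw [e]
          exact this
        · right
          refine ⟨?_, M, κ, hκ, hF.lipAt u, ?_⟩
          · have ho : IsOpen {v : ℂ | ρ < ‖v - z‖ ∧ ‖v - z‖ < R} := by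
              apply IsOpen.and
              · exact isOpen_lt continuous_const (by fun_prop)
              · exact isOpen_lt (by fun_prop) continuous_const
            refine mem_of_superset (ho.mem_nhds ⟨h3, h4⟩) ?_
            rintro v ⟨hv1, hv2⟩
            refine ⟨?_, ?_⟩
            · rw [mem_closedBall, dist_eq_norm]
              exact hv2.le
            · rw [mem_ball, dist_eq_norm, not_lt]
              exact hv1.le
          · have l1 : LS 0 (fun u : ℂ => -Real.log ‖u - z‖) u :=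
              LS.neg_log (g := fun u => u - z) (by fun_prop) (by
                intro h
                rw [h, norm_zero] at hu0
                exact lt_irrefl _ hu0)
            have l2 := (l1.addc (Real.log R)).cmul (c := m / Real.log (R / ρ)) (by positivity)
            have l3 := (LS.nsq (z := u) z).cmul (c := κ) hκ0
            have l4 := (l2.add l3).addc (-κ * R ^ 2 - B)
            rw [mul_zero, zero_add, mul_one] at l4
            exact l4
  have h1 := key w hmem
  have hw0 : 0 < ‖w - z‖ := by linarith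
  rw [Real.log_div hR.ne' hw0.ne']
  rw [hΨ] at h1
  simp only at h1
  calc _ = m / Real.log (R / ρ) * (-Real.log ‖w - z‖ + Real.log R) +
    κ * (‖w - z‖ ^ 2) + (-κ * R ^ 2 - B) := by ring
    _ ≤ _ := h1

/-- **The growth of a curve with bounded derivative** -/
theorem BC.S_growth (hF : BC F M) (hB0 : 0 < B) (hB : ∀ z, -B ≤ Sf F z) :
    ∃ C : ℝ, 0 < C ∧ ∀ T : ℝ, 1 ≤ T → ∀ z : ℂ, ‖z‖ ≤ T ^ 2 → Sf F z ≤ C * T ^ 5 := by
  have hM := hF.pos
  set ρ : ℝ := 1 / (12 * M) with hρ
  have hρ0 : 0 < ρ := by positivity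
  set κ : ℝ := 9 / 2 * M ^ 2 with hκ
  have hκ0 : 0 < κ := by positivity
  set D : ℝ := |Sf F 0| + B + 3 * κ with hD
  have hD0 : 0 < D := by positivity
  have hl2 : 0 < Real.log 2 := Real.log_pos (by norm_num)
  refine ⟨3 * (2 * Real.sqrt (2 / ρ) / Real.log 2 * D) + 3 + 3 * (|Sf F 0| + B + 1), by positivity,
    fun T hT z hz => ?_⟩
  have hT5 : 1 ≤ T ^ 5 := one_le_pow₀ hT
  have hS0 := le_abs_self (Sf F 0)
  have hS0' := abs_nonneg (Sf F 0)
  have hsq : 0 ≤ Real.sqrt (2 / ρ) := Real.sqrt_nonneg _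
  by_cases hzρ : ‖z‖ ≤ ρ
  · have h1 := hF.loc hB (y := z) (z := 0) (by rwa [sub_zero])
    have h2 : Sf F z ≤ 3 * (|Sf F 0| + B + 1) := by linarith
    have h3 : (0 : ℝ) ≤ 3 * (2 * Real.sqrt (2 / ρ) / Real.log 2 * D) + 3 := by positivity
    have h4 : 0 ≤ 3 * (|Sf F 0| + B + 1) := by positivity
    nlinarith
  · push Not at hzρ
    set r := ‖z‖ with hr
    have hr0 : 0 < r := hρ0.trans hzρ
    set m : ℝ := max ((Sf F z + B) / 3 - 1) 0 with hm
    have hm0 : 0 ≤ m := le_max_right _ _
    have h1 := hF.annulus hB (z := z) (ρ := ρ) (R := 2 * r) (m := m) (κ := κ) hρ0 (by linarith) hm0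
      (fun w hw => by
        have h2 := hF.loc hB (y := z) (z := w) (by rw [norm_sub_rev, hw])
        have h3 := hB w
        have h4 : m ≤ Sf F w + B := max_le (by linarith) (by linarith)
        linarith) le_rfl (w := 0) (by rw [zero_sub, norm_neg]; exact hzρ.le)
        (by rw [zero_sub, norm_neg]; linarith)
    rw [zero_sub, norm_neg] at h1
    change m / Real.log (2 * r / ρ) * Real.log (2 * r / r) + κ * (r ^ 2 - (2 * r) ^ 2) - B ≤
      Sf F 0 at h1
    rw [mul_div_assoc, mul_div_assoc, div_self hr0.ne', mul_one] at h1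
    have hrρ : 1 < 2 * (r / ρ) := by
      have : 1 < r / ρ := by rwa [one_lt_div hρ0]
      linarith
    have hL : 0 < Real.log (2 * (r / ρ)) := Real.log_pos hrρ
    have h2 : m ≤ Real.log (2 * (r / ρ)) / Real.log 2 * (D * T ^ 4) := by
      have e1 : m / Real.log (2 * (r / ρ)) * Real.log 2 ≤ D * T ^ 4 := by
        have e2 : r ^ 2 ≤ T ^ 4 := by
          calc r ^ 2 ≤ (T ^ 2) ^ 2 := by gcongr
            _ = _ := by ring
        have e3 : (1 : ℝ) ≤ T ^ 4 := one_le_pow₀ hT
        rw [hD]
        nlinarith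
      rw [div_mul_eq_mul_div, div_le_iff₀ hL] at e1
      rw [div_mul_eq_mul_div, le_div_iff₀ hl2]
      linarith
    have h3 : Real.log (2 * (r / ρ)) ≤ 2 * Real.sqrt (2 / ρ) * T := by
      refine (log_le_two_sqrt (by positivity)).trans ?_
      have e1 : 2 * (r / ρ) ≤ 2 / ρ * T ^ 2 := by
        calc 2 * (r / ρ) = 2 / ρ * r := by ring
          _ ≤ _ := by gcongr
      have e2 : Real.sqrt (2 * (r / ρ)) ≤ Real.sqrt (2 / ρ) * T := by
        calc Real.sqrt (2 * (r / ρ)) ≤ Real.sqrt (2 / ρ * T ^ 2) := Real.sqrt_le_sqrt e1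
          _ = _ := by rw [Real.sqrt_mul (by positivity), Real.sqrt_sq (by linarith)]
      linarith
    have h4 : m ≤ 2 * Real.sqrt (2 / ρ) / Real.log 2 * D * T ^ 5 := by
      calc m ≤ Real.log (2 * (r / ρ)) / Real.log 2 * (D * T ^ 4) := h2
        _ ≤ (2 * Real.sqrt (2 / ρ) * T) / Real.log 2 * (D * T ^ 4) := by gcongr
        _ = _ := by ring
    have h5 : (Sf F z + B) / 3 - 1 ≤ m := le_max_left _ _
    have h6 : 0 ≤ 3 * (|Sf F 0| + B + 1) := by positivity
    nlinarith

/-- `h` is a polynomial of degree at most two -/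
theorem EC.quad (hS : SNC P1 P2 e1 e2) (hF : EC P1 P2 F M h) :
    ∃ α β γ : ℂ, ∀ z, h z = α * z ^ 2 + β * z + γ := by
  obtain ⟨B, hB0, hB, hB2⟩ := hF.lower hS
  obtain ⟨C, hC, hC'⟩ := hF.S_growth hB0 hB
  have hd : (0 : ℝ) < (e2 + 1 : ℕ) := by positivity
  -- bound for the real part
  have hre : ∀ T : ℝ, 1 ≤ T → ∀ z : ℂ, ‖z‖ ≤ T ^ 2 → (h z).re ≤ (e2 + 1 : ℕ) * (C + B) * T ^ 5 := by
    intro T hT z hz
    have h1 := hC' T hT z hz
    have h2 := hB2 z
    have hT5 : 1 ≤ T ^ 5 := one_le_pow₀ hT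
    rw [div_sub' hd.ne', div_le_iff₀ hd] at h2
    have h3 : Sf F z * (e2 + 1 : ℕ) ≤ C * T ^ 5 * (e2 + 1 : ℕ) :=
      mul_le_mul_of_nonneg_right h1 hd.le
    have h4 : (e2 + 1 : ℕ) * B ≤ (e2 + 1 : ℕ) * B * T ^ 5 :=
      le_mul_of_one_le_right (by positivity) hT5
    linarith
  set C1 : ℝ := (e2 + 1 : ℕ) * (C + B) with hC1
  have hC10 : 0 < C1 := by positivity
  have h3 : ∀ c : ℂ, iteratedDeriv 3 h c = 0 := by
    intro c
    have hb : ∀ T : ℝ, 1 + ‖c‖ ≤ T → ‖iteratedDeriv 3 h c‖ ≤ 6 * (64 * C1 + 3 * ‖h 0‖) / T := by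
      intro T hT
      have hT1 : 1 ≤ T := by
        have := norm_nonneg c
        linarith
      have hT0 : 0 < T := by linarith
      have hTT : T ≤ T ^ 2 := by nlinarith
      have hsph : ∀ z ∈ sphere c (T ^ 2), ‖h z‖ ≤ (64 * C1 + 3 * ‖h 0‖) * T ^ 5 := by
        intro z hz
        rw [mem_sphere, dist_eq_norm] at hz
        have hz1 : ‖z‖ ≤ 2 * T ^ 2 := by
          have := norm_add_le (z - c) c
          rw [sub_add_cancel] at this
          linarith
        have hmaps : MapsTo h (ball 0 (4 * T ^ 2)) {z | z.re ≤ 32 * C1 * T ^ 5} := by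
          intro w hw
          rw [mem_ball_zero_iff] at hw
          have := hre (2 * T) (by linarith) w (by nlinarith)
          have e : C1 * (2 * T) ^ 5 = 32 * C1 * T ^ 5 := by ring
          rw [← e]
          exact this
        have hbc := Complex.borelCaratheodory (M := 32 * C1 * T ^ 5) (R := 4 * T ^ 2) (f := h)
          (z := z) (by positivity) hF.hd.differentiableOn hmaps (by positivity) (by
            rw [mem_ball_zero_iff]
            nlinarith)
        have hden : 2 * T ^ 2 ≤ 4 * T ^ 2 - ‖z‖ := by linarith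
        have hden0 : 0 < 4 * T ^ 2 - ‖z‖ := by nlinarith
        have b1 : 2 * (32 * C1 * T ^ 5) * ‖z‖ / (4 * T ^ 2 - ‖z‖) ≤ 64 * C1 * T ^ 5 := by
          rw [div_le_iff₀ hden0]
          have : 0 ≤ 64 * C1 * T ^ 5 := by positivity
          nlinarith
        have b2 : ‖h 0‖ * (4 * T ^ 2 + ‖z‖) / (4 * T ^ 2 - ‖z‖) ≤ 3 * ‖h 0‖ := by
          rw [div_le_iff₀ hden0]
          have := norm_nonneg (h 0)
          nlinarith
        have hT5 : 1 ≤ T ^ 5 := one_le_pow₀ hT1
        have := norm_nonneg (h 0)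
        nlinarith
      have h4 := Complex.norm_iteratedDeriv_le_of_forall_mem_sphere_norm_le 3
        (show 0 < T ^ 2 by positivity) hF.hd.diffContOnCl hsph
      refine h4.trans (le_of_eq ?_)
      have : ((Nat.factorial 3 : ℕ) : ℝ) = 6 := by norm_num [Nat.factorial]
      rw [this]
      field_simp
    have hz : ‖iteratedDeriv 3 h c‖ ≤ 0 := by
      have ht : Tendsto (fun T : ℝ => 6 * (64 * C1 + 3 * ‖h 0‖) / T) atTop (𝓝 0) :=
        tendsto_const_nhds.div_atTop tendsto_id
      refine ge_of_tendsto ht ?_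
      filter_upwards [eventually_ge_atTop (1 + ‖c‖)] with T hT
      exact hb T hT
    exact norm_le_zero_iff.1 hz
  have hd0 := hF.hd
  have hd1 : Differentiable ℂ (deriv h) := hd0.deriv
  have hd2 : Differentiable ℂ (deriv (deriv h)) := hd1.deriv
  have e3 : ∀ c, deriv (deriv (deriv h)) c = 0 := by
    intro c
    have := h3 c
    rw [iteratedDeriv_succ, iteratedDeriv_succ, iteratedDeriv_one] at this
    exact this
  have e2' : ∀ z, deriv (deriv h) z = deriv (deriv h) 0 := fun z =>
    is_const_of_deriv_eq_zero hd2 e3 z 0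
  set α := deriv (deriv h) 0 / 2 with hα
  have e1' : ∀ z, deriv h z - 2 * α * z = deriv h 0 := by
    intro z
    have h4 : Differentiable ℂ fun z => deriv h z - 2 * α * z := by fun_prop
    have h5 : ∀ z, deriv (fun z => deriv h z - 2 * α * z) z = 0 := by
      intro z
      have h6 : HasDerivAt (fun z => deriv h z - 2 * α * z)
          (deriv (deriv h) z - 2 * α * 1) z :=
        (hd1 z).hasDerivAt.sub ((hasDerivAt_id z).const_mul (2 * α))
      rw [h6.deriv, e2' z, hα]
      ring
    have := is_const_of_deriv_eq_zero h4 h5 z 0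
    simpa using this
  refine ⟨α, deriv h 0, h 0, fun z => ?_⟩
  have h4 : Differentiable ℂ fun z => h z - (α * z ^ 2 + deriv h 0 * z) := by fun_prop
  have h5 : ∀ z, deriv (fun z => h z - (α * z ^ 2 + deriv h 0 * z)) z = 0 := by
    intro z
    have h6 : HasDerivAt (fun z : ℂ => α * z ^ 2 + deriv h 0 * z)
        (α * (2 * z) + deriv h 0 * 1) z := by
      have h7 := (hasDerivAt_pow 2 z).const_mul α
      have h8 := (hasDerivAt_id z).const_mul (deriv h 0)
      have h9 := h7.fun_add h8
      simpa using h9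
    have h7 := (hd0 z).hasDerivAt.sub h6
    have h8 : deriv (fun z => h z - (α * z ^ 2 + deriv h 0 * z)) z =
        deriv h z - (α * (2 * z) + deriv h 0 * 1) := h7.deriv
    rw [h8]
    have := e1' z
    linear_combination this
  have := is_const_of_deriv_eq_zero h4 h5 z 0
  simp only [ne_eq, OfNat.ofNat_ne_zero, not_false_eq_true, zero_pow, mul_zero, add_zero,
    sub_zero] at this
  linear_combination this

end Pool.Agent.H915
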