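import Pool.Agent.H915.TC.Gr9

/-!
Normalised entire curves in the complement: the exact growth in the left half plane, II.
-/

set_option autoImplicit false

open Filter Topology Metric Set MvPolynomial Asymptotics Bornology

namespace Pool.Agent.H915

open Pool.Agent.Y190.OP

variable {P1 P2 : Poly} {e1 e2 : ℕ} {F : ℂ → V} {M B : ℝ} {h : ℂ → ℂ} {η K : ℝ}

/-- **The growth on the left** -/
theorem ND.left (hS : SNC P1 P2 e1 e2) (hF : EC P1 P2 F M (fun z => z))
    (hN : ND P1 P2 e2 F η K) {C : ℝ} (hC0 : 0 < C) (hC : ∀ z, Sf F z ≤ C * (1 + |z.re|)) :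
    ∃ κ D : ℝ, 0 ≤ κ ∧ ∀ z : ℂ, z.re ≤ 0 → |Sf F z - κ * (|z.re|)| ≤ D := by
  have hK := hN.pos
  set s : ℝ → ℝ := fun x => Sf F (-x + (0 : ℝ) * Complex.I) / x with hs
  have hre : ∀ (x y0 : ℝ), (-x + y0 * Complex.I : ℂ).re = -x := fun x y0 => by simp
  have hup : ∀ x : ℝ, 1 ≤ x → s x ≤ 2 * C := by
    intro x hx
    have h1 := hC (-x + (0 : ℝ) * Complex.I)
    rw [hre, abs_neg, abs_of_pos (by linarith)] at h1
    rw [hs]
    simp only
    rw [div_le_iff₀ (by linarith)]
    nlinarith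
  have hlo : ∀ x : ℝ, 1 ≤ x → -K ≤ s x := by
    intro x hx
    have h1 := hN.lo (-x + (0 : ℝ) * Complex.I)
    rw [hs]
    simp only
    rw [le_div_iff₀ (by linarith)]
    nlinarith
  have hbdd : IsBoundedUnder (· ≤ ·) atTop s :=
    ⟨2 * C, by
      rw [eventually_map]
      filter_upwards [eventually_ge_atTop 1] with x hx
      exact hup x hx⟩
  have hbdd' : IsBoundedUnder (· ≥ ·) atTop s :=
    ⟨-K, by
      rw [eventually_map]
      filter_upwards [eventually_ge_atTop 1] with x hx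
      exact hlo x hx⟩
  have hcob : IsCoboundedUnder (· ≤ ·) atTop s := hbdd'.isCoboundedUnder_le
  set κ := limsup s atTop with hκ
  have hev : ∀ ε : ℝ, 0 < ε → ∀ᶠ x : ℝ in atTop, s x < κ + ε := fun ε hε =>
    eventually_lt_of_limsup_lt (by linarith) hbdd
  have hfr : ∀ ε : ℝ, 0 < ε → ∃ᶠ x : ℝ in atTop, κ - ε < s x := fun ε hε =>
    frequently_lt_of_lt_limsup hcob (by linarith)
  have hκ0 : 0 ≤ κ := by
    by_contra hcon
    push Not at hcon
    obtain ⟨x, hx1, hx2⟩ := ((hev (-κ / 2) (by linarith)).and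
      (eventually_ge_atTop (2 * K / -κ + 1))).exists
    have hx0 : 0 < x := by
      have : 0 < 2 * K / -κ := div_pos (by linarith) (by linarith)
      linarith
    have h1 := hN.lo (-x + (0 : ℝ) * Complex.I)
    rw [hs] at hx1
    simp only at hx1
    rw [div_lt_iff₀ hx0] at hx1
    have h2 : 2 * K / -κ < x := by linarith
    rw [div_lt_iff₀ (by linarith)] at h2
    nlinarith
  have hupper := hF.toBC.left_upper (κ := κ) hC (y0 := 0) (fun ε hε => by
    filter_upwards [hev ε hε, eventually_gt_atTop 0] with x hx hx0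
    rw [hs] at hx
    simp only at hx
    rw [div_lt_iff₀ hx0] at hx
    exact hx.le)
  rcases hκ0.eq_or_lt with h0 | hκp
  · refine ⟨0, C + 1 + K, le_rfl, fun z hz => ?_⟩
    have h1 := hupper z hz
    rw [← h0, zero_mul, zero_add] at h1
    have h2 := hN.lo z
    rw [zero_mul, sub_zero, abs_le]
    constructor <;> linarith
  -- the growth on all horizontal lines
  have hall : ∀ y0 : ℝ, ∃ᶠ x : ℝ in atTop, κ / 2 * x < Sf F (-x + y0 * Complex.I) := by
    intro y0
    by_contra hcon
    rw [not_frequently] at hcon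
    have h1 := hF.toBC.left_upper (κ := κ / 2) hC (y0 := y0) (fun ε hε => by
      filter_upwards [hcon, eventually_gt_atTop 0] with x hx hx0
      have : 0 < ε * x := by positivity
      push Not at hx
      linarith)
    obtain ⟨x, hx1, hx2⟩ := ((hfr (κ / 4) (by positivity)).and_eventually
      (eventually_ge_atTop (4 * (C + 1) / κ + 1))).exists
    have hx0 : 0 < x := by
      have : 0 < 4 * (C + 1) / κ := by positivity
      linarith
    have h2 := h1 (-x + (0 : ℝ) * Complex.I) (by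
      rw [hre]
      linarith)
    rw [hre, abs_neg, abs_of_pos hx0] at h2
    rw [hs] at hx1
    simp only at hx1
    rw [lt_div_iff₀ hx0] at hx1
    have h3 : 4 * (C + 1) / κ < x := by linarith
    rw [div_lt_iff₀ hκp] at h3
    nlinarith
  obtain ⟨c, D, hc, hlow⟩ := hN.left_lower hF.toBC (κ := κ / 2) (by positivity) hall
  -- near one crossing on the left
  obtain ⟨δ, hδ, hst⟩ := hS.stay (δ := 1 / 6) (by norm_num)
  have hd2 : (0 : ℝ) < (e2 + 1 : ℕ) := by positivity
  set X0 : ℝ := (|D| + |Real.log δ| + 2) / c + (|Real.log δ| + (K + 1) * (e2 + 1 : ℕ) + 1) with hX0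
  have hX00 : 0 < X0 := by positivity
  have hnear : ∀ z ∈ {z : ℂ | z.re ≤ -X0}, ‖pe P1 (Phi (F z))‖ < δ ∧ ‖pe P2 (Phi (F z))‖ < δ := by
    intro z hz
    have hz' : z.re ≤ -X0 := hz
    have hz0 : z.re ≤ 0 := by linarith
    have habs : |z.re| = -z.re := abs_of_nonpos hz0
    have hl := neg_abs_le (Real.log δ)
    have hl0 := abs_nonneg (Real.log δ)
    have hp1 : 0 ≤ (|D| + |Real.log δ| + 2) / c := by positivity
    have hp2 : 0 ≤ (K + 1) * ((e2 + 1 : ℕ) : ℝ) := by positivity
    constructor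
    · have h1 := hlow z hz0
      rw [habs] at h1
      have h2 : (|D| + |Real.log δ| + 2) / c ≤ -z.re := by linarith
      rw [div_le_iff₀ hc] at h2
      have h3 := le_abs_self D
      have h4 : |Real.log δ| + 2 ≤ Sf F z := by linarith
      have h5 := hF.pe1_S hS z (by linarith)
      refine h5.trans_lt ?_
      rw [← Real.lt_log_iff_exp_lt hδ]
      linarith
    · refine (hN.pe2_le hS hF z).trans_lt ?_
      rw [← Real.lt_log_iff_exp_lt hδ]
      linarith
  have hconv : IsPreconnected {z : ℂ | z.re ≤ -X0} := (convex_halfSpace_re_le (-X0)).isPreconnected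
  have hosc := hst _ (fun z => Phi (F z)) hconv hF.contPhi.continuousOn
    (fun z _ => ⟨F z, hF.ne z, rfl⟩) hnear
  have hmem : ((-X0 : ℝ) : ℂ) ∈ {z : ℂ | z.re ≤ -X0} := by
    change ((-X0 : ℝ) : ℂ).re ≤ -X0
    rw [Complex.ofReal_re]
  obtain ⟨j, hj⟩ := loc_log (F := F) (K := {z : ℂ | z.re ≤ -X0}) (fun y _ => hF.ne y) hmem
    (fun y hy => (hosc y hy _ hmem).le)
  -- the function
  set f : ℂ → ℂ := fun z => F (-X0 - z) j with hf
  have hFj : Differentiable ℂ fun z => F z j := differentiable_pi.1 hF.dif j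
  have hfd : Differentiable ℂ f := hFj.comp (by fun_prop)
  have hfre : ∀ z : ℂ, (-X0 - z : ℂ).re = -X0 - z.re := fun z => by simp
  have hfm : ∀ z : ℂ, 0 ≤ z.re → (-X0 - z : ℂ) ∈ {z : ℂ | z.re ≤ -X0} := by
    intro z hz
    change (-X0 - z : ℂ).re ≤ -X0
    rw [hfre]
    linarith
  have hf0 : ∀ z : ℂ, 0 ≤ z.re → f z ≠ 0 := fun z hz => (hj _ (hfm z hz)).1
  have hfS : ∀ z : ℂ, 0 ≤ z.re → Sf F (-X0 - z) - 1 ≤ Real.log ‖f z‖ ∧
      Real.log ‖f z‖ ≤ Sf F (-X0 - z) := by
    intro z hz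
    obtain ⟨-, h2, h3⟩ := hj _ (hfm z hz)
    exact ⟨by linarith, h3⟩
  have hfup : ∀ z : ℂ, 0 ≤ z.re → Real.log ‖f z‖ ≤ κ * z.re + (κ * X0 + C + 1) := by
    intro z hz
    have h1 := (hfS z hz).2
    have h2 := hupper (-X0 - z) (by
      rw [hfre]
      linarith)
    rw [hfre, abs_of_nonpos (by linarith)] at h2
    linarith
  set C2 : ℝ := κ * X0 + C + 2 with hC2
  have hv : ∀ z : ℂ, 0 ≤ z.re → 0 < κ * z.re + C2 - Real.log ‖f z‖ := by
    intro z hz
    have := hfup z hz
    linarith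
  have hlowax : ∀ ε : ℝ, 0 < ε → ∀ᶠ x : ℝ in atTop, (κ - ε) * x ≤ Real.log ‖f x‖ := by
    intro ε hε
    -- a good point
    set C3 := C2 + 1 with hC3
    have hC30 : 0 < C3 := by positivity
    obtain ⟨x, hx1, hx2⟩ := ((hfr (ε / 2) (by positivity)).and_eventually
      (eventually_ge_atTop (X0 + X0 + 1 + 2 * C3 / ε))).exists
    have hdiv : 0 < 2 * C3 / ε := by positivity
    have hx0 : 0 < x := by linarith
    rw [hs] at hx1
    simp only at hx1
    rw [lt_div_iff₀ hx0] at hx1
    set r := x - X0 with hr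
    have hr0 : 0 < r := by linarith
    have hrε : 2 * C3 / ε ≤ r - X0 := by linarith
    rw [div_le_iff₀ hε] at hrε
    have hpt : (-X0 - (r : ℂ)) = -x + (0 : ℝ) * Complex.I := by
      rw [hr]
      push_cast
      ring
    have h1 := (hfS (r : ℂ) (by rw [Complex.ofReal_re]; exact hr0.le)).1
    rw [hpt] at h1
    have h2 : κ * r + C2 - Real.log ‖f r‖ ≤ ε * r := by
      have e1 : (κ - ε / 2) * x = κ * r + κ * X0 - ε / 2 * r - ε / 2 * X0 := by
        rw [hr]
        ring
      have e2 : 0 ≤ κ * X0 := by positivity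
      linarith
    filter_upwards [eventually_ge_atTop r] with R hR
    have h3 := harnack_axis hfd hf0 hv hr0 hR
    have h4 : R / r * (κ * r + C2 - Real.log ‖f r‖) ≤ R / r * (ε * r) := by
      apply mul_le_mul_of_nonneg_left h2
      exact div_nonneg (by linarith) hr0.le
    have h5 : R / r * (ε * r) = ε * R := by
      field_simp
    have h6 : 0 < C2 := by positivity
    linarith
  -- the inverse
  have hflo : ∀ z : ℂ, 0 ≤ z.re → -(K + 1) ≤ Real.log ‖f z‖ := by
    intro z hz
    have h1 := (hfS z hz).1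
    have h2 := hN.lo (-X0 - z)
    linarith
  have hinv : ∀ z : ℂ, 0 ≤ z.re → ‖(f z)⁻¹‖ = Real.exp (-Real.log ‖f z‖) := by
    intro z hz
    rw [norm_inv, Real.exp_neg, Real.exp_log (norm_pos_iff.2 (hf0 z hz))]
  have hPL : ∀ z : ℂ, 0 ≤ z.re → ‖(f z)⁻¹‖ ≤ Real.exp (K + 1) * Real.exp (-κ * z.re) := by
    intro z hz
    refine pl_type (f := fun z => (f z)⁻¹) (A := K + 1) ?_ (fun z hz => ?_) (fun y => ?_)
      (fun ε hε => ?_) hz
    · refine ⟨?_, ?_⟩
      · intro w hw
        have hw' : 0 < w.re := hw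
        exact ((hfd w).inv (hf0 w hw'.le)).differentiableWithinAt
      · intro w hw
        have hw' : 0 ≤ w.re := by
          rw [Complex.closure_setOfPred_lt_re] at hw
          exact hw
        exact ((hfd w).inv (hf0 w hw')).continuousAt.continuousWithinAt
    · rw [hinv z hz]
      apply Real.exp_le_exp.2
      have h1 := hflo z hz
      have h2 := norm_nonneg z
      nlinarith
    · have hy : (0 : ℝ) ≤ (y * Complex.I : ℂ).re := by simp
      rw [hinv _ hy]
      apply Real.exp_le_exp.2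
      linarith [hflo _ hy]
    · filter_upwards [hlowax ε hε, eventually_ge_atTop 0] with x hx hx0
      rw [hinv _ (by rw [Complex.ofReal_re]; exact hx0)]
      apply Real.exp_le_exp.2
      linarith
  have hfin : ∀ z : ℂ, 0 ≤ z.re → κ * z.re - (K + 1) ≤ Real.log ‖f z‖ := by
    intro z hz
    have h1 := hPL z hz
    rw [hinv z hz, ← Real.exp_add] at h1
    have h2 := Real.exp_le_exp.1 h1
    linarith
  refine ⟨κ, C + 1 + κ * X0 + K + 1, hκ0, fun z hz => ?_⟩
  have h1 := hupper z hz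
  have hX : 0 ≤ κ * X0 := by positivity
  rw [abs_le]
  refine ⟨?_, by linarith⟩
  have habs : |z.re| = -z.re := abs_of_nonpos hz
  rw [habs] at h1 ⊢
  by_cases hzX : z.re ≤ -X0
  · have h2 : 0 ≤ (-X0 - z : ℂ).re := by
      rw [hfre]
      linarith
    have h3 := hfin (-X0 - z) h2
    have h4 := (hfS (-X0 - z) h2).2
    rw [sub_sub_cancel] at h4
    rw [hfre] at h3
    linarith
  · push Not at hzX
    have h2 := hN.lo z
    have h3 : κ * -z.re ≤ κ * X0 := by
      apply mul_le_mul_of_nonneg_left _ hκ0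
      linarith
    linarith

end Pool.Agent.H915
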