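import Pool.Graph.R_pool_sql_team_seeded_63374d34.N154.GG.Aff

/-!
Periodic entire functions of exponential growth are Laurent polynomials in the exponential.
-/

set_option autoImplicit false

open Filter Topology Metric Set

namespace Pool.Agent.H915

theorem per_int {g : ℂ → ℂ} (hper : ∀ z, g (z + 2 * Real.pi * Complex.I) = g z) (n : ℤ) :
    ∀ z, g (z + n * (2 * Real.pi * Complex.I)) = g z := by
  have hn : ∀ (n : ℕ) (z : ℂ), g (z + n * (2 * Real.pi * Complex.I)) = g z := by
    intro n
    induction n with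
    | zero => intro z; simp
    | succ n ih =>
      intro z
      have e : z + ((n + 1 : ℕ) : ℂ) * (2 * Real.pi * Complex.I) =
        (z + n * (2 * Real.pi * Complex.I)) + 2 * Real.pi * Complex.I := by
        push_cast
        ring
      rw [e, hper, ih]
  intro z
  rcases Int.eq_nat_or_neg n with ⟨k, rfl | rfl⟩
  · exact_mod_cast hn k z
  · have := hn k (z - k * (2 * Real.pi * Complex.I))
    rw [sub_add_cancel] at this
    rw [this]
    congr 1
    push_cast
    ring

theorem per_poly {g : ℂ → ℂ} (hg : Differentiable ℂ g)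
    (hper : ∀ z, g (z + 2 * Real.pi * Complex.I) = g z) {C K : ℝ} {M : ℕ} (hKM : K ≤ M)
    (hb : ∀ z, ‖g z‖ ≤ C * Real.exp (K * |z.re|)) :
    ∃ q : Polynomial ℂ, ∀ z, g z * Complex.exp z ^ (M + 1) = q.eval (Complex.exp z) := by
  have hC : 0 ≤ C := by
    have := (norm_nonneg _).trans (hb 0)
    simpa using this
  have hexp : ∀ z w : ℂ, Complex.exp z = Complex.exp w → g z = g w := by
    intro z w h
    obtain ⟨n, hn⟩ := Complex.exp_eq_exp_iff_exists_int.1 h
    rw [hn]
    exact per_int hper n w
  set h : ℂ → ℂ := fun w => g (Complex.log w) * w ^ (M + 1) with hh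
  have hd : ∀ w : ℂ, w ≠ 0 → DifferentiableAt ℂ h w := by
    intro w0 hw0
    have h1 : (fun w => g (Complex.log (w / w0) + Complex.log w0) * w ^ (M + 1)) =ᶠ[𝓝 w0] h := by
      filter_upwards [isOpen_ne.mem_nhds hw0] with w hw
      have hw' : w ≠ 0 := hw
      rw [hh]
      congr 1
      apply hexp
      rw [Complex.exp_add, Complex.exp_log (div_ne_zero hw' hw0), Complex.exp_log hw0,
        Complex.exp_log hw']
      field_simp
    refine DifferentiableAt.congr_of_eventuallyEq ?_ h1.symm
    have h2 : DifferentiableAt ℂ (fun w : ℂ => Complex.log (w / w0)) w0 := by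
      apply DifferentiableAt.clog
      · fun_prop
      · rw [div_self hw0]
        exact Complex.one_mem_slitPlane
    have h3 : DifferentiableAt ℂ (fun w : ℂ => g (Complex.log (w / w0) + Complex.log w0)) w0 :=
      DifferentiableAt.comp (g := g) w0 (hg _) (h2.add_const _)
    exact h3.mul (differentiableAt_id.pow _)
  have hbd : ∀ w : ℂ, w ≠ 0 → ‖h w‖ ≤ C * Real.exp (M * |Real.log ‖w‖| + (M + 1) * Real.log ‖w‖) := by
    intro w hw
    have hwp : 0 < ‖w‖ := norm_pos_iff.2 hw
    rw [hh]
    simp only
    rw [norm_mul, norm_pow]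
    have e1 : ‖w‖ ^ (M + 1) = Real.exp ((M + 1) * Real.log ‖w‖) := by
      have := Real.exp_nat_mul (Real.log ‖w‖) (M + 1)
      rw [Real.exp_log hwp] at this
      rw [← this]
      push_cast
      rfl
    rw [e1, Real.exp_add, ← mul_assoc]
    apply mul_le_mul_of_nonneg_right _ (Real.exp_pos _).le
    refine (hb _).trans ?_
    rw [Complex.log_re]
    gcongr
  have h0 : h 0 = 0 := by
    rw [hh]
    simp
  have hcont : ContinuousAt h 0 := by
    unfold ContinuousAt
    rw [h0]
    rw [tendsto_zero_iff_norm_tendsto_zero]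
    have h1 : ∀ᶠ w : ℂ in 𝓝 0, ‖h w‖ ≤ C * ‖w‖ := by
      filter_upwards [ball_mem_nhds (0 : ℂ) one_pos] with w hw
      by_cases hw0 : w = 0
      · rw [hw0, h0]
        simp
      · have hwp : 0 < ‖w‖ := norm_pos_iff.2 hw0
        have hw1 : ‖w‖ < 1 := mem_ball_zero_iff.1 hw
        refine (hbd w hw0).trans ?_
        have hl : Real.log ‖w‖ < 0 := Real.log_neg hwp hw1
        rw [abs_of_neg hl]
        have e : M * -Real.log ‖w‖ + (M + 1) * Real.log ‖w‖ = Real.log ‖w‖ := by ring
        rw [e, Real.exp_log hwp]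
    refine squeeze_zero' (Eventually.of_forall fun w => norm_nonneg _) h1 ?_
    have : Continuous fun w : ℂ => C * ‖w‖ := by fun_prop
    simpa using this.tendsto 0
  have hD : Differentiable ℂ h := by
    intro w
    by_cases hw : w = 0
    · subst hw
      have h1 := (Complex.differentiableOn_compl_singleton_and_continuousAt_iff
        (f := h) (s := univ) (c := 0) univ_mem).1
        ⟨fun w hw => (hd w hw.2).differentiableWithinAt, hcont⟩
      exact h1.differentiableAt univ_mem
    · exact hd w hw
  obtain ⟨q, hq⟩ := Pool.Agent.N154.GG.poly_of_growth (F := h) hD (A := C) (M := 2 * M + 1) (by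
    intro w
    by_cases hw : w = 0
    · rw [hw, h0, norm_zero]
      positivity
    · have hwp : 0 < ‖w‖ := norm_pos_iff.2 hw
      refine (hbd w hw).trans ?_
      apply mul_le_mul_of_nonneg_left _ hC
      have e1 : (1 + ‖w‖) ^ (2 * M + 1) = Real.exp ((2 * M + 1) * Real.log (1 + ‖w‖)) := by
        have := Real.exp_nat_mul (Real.log (1 + ‖w‖)) (2 * M + 1)
        rw [Real.exp_log (by positivity)] at this
        rw [← this]
        push_cast
        rfl
      rw [e1]
      apply Real.exp_le_exp.2
      have hl1 : 0 ≤ Real.log (1 + ‖w‖) := Real.log_nonneg (by linarith)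
      rcases le_or_gt 0 (Real.log ‖w‖) with hl | hl
      · rw [abs_of_nonneg hl]
        have := Real.log_le_log hwp (show ‖w‖ ≤ 1 + ‖w‖ by linarith)
        nlinarith
      · rw [abs_of_neg hl]
        nlinarith)
  refine ⟨q, fun z => ?_⟩
  rw [← hq, hh]
  simp only
  congr 1
  apply hexp
  rw [Complex.exp_log (Complex.exp_ne_zero z)]

end Pool.Agent.H915
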