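import Pool.Agent.H915.TC.Rig3

/-!
Rigidity: curves of exact exponential growth are periodic.
-/

set_option autoImplicit false

open Filter Topology Metric Set MvPolynomial

namespace Pool.Agent.H915

variable {P1 P2 : Poly} {e m : ℕ} {c1 c C a b ε0 C0 : ℝ} {nn : V → V → V}

/-- **Rigidity.** -/
theorem rig_core (hm : 0 < m) (hc1 : 0 < c1) (hc : 0 < c) (hC : 0 < C) (hb : 0 < b) (hε : 0 < ε0)
    (hC0 : 0 < C0) : ∃ L0 : ℝ, ∀ F G : ℂ → V, RS P1 P2 m c1 c C a b ε0 C0 nn F G →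
      (∀ z : ℂ, ‖z‖ ≤ L0 → ‖G z - F z‖ < ε0 * ‖F z‖) → ∀ z, G z = F z := by
  have hpi := Real.pi_pos
  have hmr : (0 : ℝ) < m := by exact_mod_cast hm
  have hl4 : 0 < Real.log 4 := Real.log_pos (by norm_num)
  -- the first constant
  obtain ⟨X0, hX, hX0⟩ : ∃ X0 : ℝ, 2 * ε0 / (c1 * c ^ m) < ε0 * c / (2 * C) / (C0 * C ^ m) *
      Real.exp (m * b * (7 / 32) / Real.log 4 * (ε0 * c / (16 * C) * X0)) ∧ 0 < X0 := by
    have h1 : Tendsto (fun X0 : ℝ => ε0 * c / (2 * C) / (C0 * C ^ m) *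
      Real.exp (m * b * (7 / 32) / Real.log 4 * (ε0 * c / (16 * C) * X0))) atTop atTop := by
      apply Tendsto.const_mul_atTop (by positivity)
      apply Real.tendsto_exp_atTop.comp
      apply Tendsto.const_mul_atTop (by positivity)
      apply Tendsto.const_mul_atTop (by positivity)
      exact tendsto_id
    exact ((h1.eventually_gt_atTop _).and (eventually_gt_atTop 0)).exists
  set W1 : ℝ := Real.exp ((|a| + b) * (X0 + 1)) with hW1
  have hW1p : 0 < W1 := Real.exp_pos _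
  set s : ℝ := ε0 * (c / W1) / (8 * (C * W1)) / 2 with hs
  have hs0 : 0 < s := by positivity
  -- the second constant
  have hρt : Tendsto (fun y : ℝ => Real.sqrt (s * y)) atTop atTop :=
    Real.tendsto_sqrt_atTop.comp (tendsto_id.const_mul_atTop hs0)
  have h2 : ∀ᶠ y : ℝ in atTop, 2 * ε0 / (c1 * c ^ m) * Real.exp (m * b * X0 -
      m * b * (2 / Real.pi * (s * (Real.log (Real.sqrt (s * y)) - Real.log (s + X0))))) <
      ε0 * (c / W1) / (2 * (C * W1)) / (C0 * C ^ m) := by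
    have h3 : Tendsto (fun y : ℝ => 2 * ε0 / (c1 * c ^ m) * Real.exp (m * b * X0 -
      m * b * (2 / Real.pi * (s * (Real.log (Real.sqrt (s * y)) - Real.log (s + X0)))))) atTop
      (𝓝 (2 * ε0 / (c1 * c ^ m) * 0)) := by
      apply Tendsto.const_mul
      apply Real.tendsto_exp_atBot.comp
      apply tendsto_atBot_add_const_left atTop (m * b * X0)
        (f := fun y : ℝ => -(m * b * (2 / Real.pi * (s * (Real.log (Real.sqrt (s * y)) -
          Real.log (s + X0))))))
      apply tendsto_neg_atTop_atBot.comp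
      apply Tendsto.const_mul_atTop (by positivity)
      apply Tendsto.const_mul_atTop (by positivity)
      apply Tendsto.const_mul_atTop hs0
      apply tendsto_atTop_add_const_right
      exact Real.tendsto_log_atTop.comp hρt
    rw [mul_zero] at h3
    exact h3.eventually (gt_mem_nhds (by positivity))
  obtain ⟨Y0, hY0⟩ := eventually_atTop.1 (((h2.and (eventually_ge_atTop s)).and
    (hρt.eventually_ge_atTop (s + X0))).and (eventually_gt_atTop 0))
  refine ⟨max (Y0 + X0) 0, fun F G h hnear => ?_⟩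
  by_contra hne
  have hnot : ¬ ∀ z : ℂ, ‖G z - F z‖ ≤ ε0 * ‖F z‖ := fun hcl => hne (h.eq_of_near hm hcl)
  push Not at hnot
  obtain ⟨z', hz'⟩ := hnot
  have hFc := h.F.dif.continuous
  have hGc := h.G.dif.continuous
  set S : Set ℂ := closedBall (0 : ℂ) ‖z'‖ ∩ {z | ε0 * ‖F z‖ ≤ ‖G z - F z‖} with hS
  have hSc : IsCompact S := (isCompact_closedBall (0 : ℂ) ‖z'‖).inter_right
    (isClosed_le (continuous_const.mul hFc.norm) (hGc.sub hFc).norm)
  obtain ⟨z1, hz1, hmin⟩ := hSc.exists_isMinOn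
    ⟨z', mem_closedBall_zero_iff.2 le_rfl, hz'.le⟩ continuous_norm.continuousOn
  set L := ‖z1‖ with hL
  have hstrict : ∀ z : ℂ, ‖z‖ < L → ‖G z - F z‖ < ε0 * ‖F z‖ := by
    intro z hz
    by_contra hcon
    push Not at hcon
    have hz1' := mem_closedBall_zero_iff.1 hz1.1
    have : z ∈ S := ⟨mem_closedBall_zero_iff.2 (by linarith), hcon⟩
    have h3 : L ≤ ‖z‖ := hmin this
    linarith
  have hLL : max (Y0 + X0) 0 < L := by
    by_contra hcon
    push Not at hcon
    have := hnear z1 hcon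
    exact absurd hz1.2 (not_le.2 this)
  have hL0 : 0 < L := (le_max_right _ _).trans_lt hLL
  have hcl : ∀ z : ℂ, ‖z‖ ≤ L → ‖G z - F z‖ ≤ ε0 * ‖F z‖ := by
    intro z hz
    have h3 : z ∈ closure (ball (0 : ℂ) L) := by
      rw [closure_ball _ hL0.ne']
      exact mem_closedBall_zero_iff.2 hz
    have h4 : IsClosed {z | ‖G z - F z‖ ≤ ε0 * ‖F z‖} :=
      isClosed_le (hGc.sub hFc).norm (continuous_const.mul hFc.norm)
    exact (closure_minimal (fun w hw => (hstrict w (mem_ball_zero_iff.1 hw)).le) h4) h3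
  have hx := h.caseB hX0 hX hcl hL.symm hz1.2
  have hy : Y0 ≤ |z1.im| := by
    have h3 := Complex.norm_le_abs_re_add_abs_im z1
    have h4 := (le_max_left (Y0 + X0) 0).trans hLL.le
    linarith
  obtain ⟨⟨⟨h5, h6⟩, h7⟩, h8⟩ := hY0 _ hy
  refine h.caseA (s := s) (ρ := Real.sqrt (s * |z1.im|)) (y := |z1.im|) hX0 hW1 hs hcl hL.symm
    hz1.2 hx rfl (Real.sqrt_pos.2 (by positivity)) (Real.sq_sqrt (by positivity)) h6 h7 h5

/-- **Curves of exact exponential growth are periodic.** -/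
theorem rig_period {e1 e2 : ℕ} (hS : SNC P1 P2 e1 e2) (hme : e1 + e2 = m + 1) (hm : 0 < m)
    (hc1 : 0 < c1) (hc : 0 < c) (hb : 0 < b) {F : ℂ → V}
    (hF : Crv P1 P2 (m + 1) c1 c C a b F) :
    ∃ n : ℕ, 0 < n ∧ ∀ z, F (z + n * (2 * Real.pi * Complex.I)) = F z := by
  obtain ⟨nn, han, hpar, hest⟩ := hS.exists_nn
  obtain ⟨ε0, C0, hε, hε1, hC0, hest'⟩ := hest c1 hc1
  rw [hme] at hest'
  have hFpos : ∀ z, 0 < ‖F z‖ := fun z => lt_of_lt_of_le (mul_pos hc (W_pos a b z)) (hF.low z)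
  have hC : 0 < C := by
    have h1 := (hFpos 0).trans_le (hF.up 0)
    exact (pos_iff_pos_of_mul_pos h1).2 (W_pos a b 0)
  obtain ⟨L0, hL0⟩ := rig_core (P1 := P1) (P2 := P2) (a := a) (nn := nn) hm hc1 hc hC hb hε hC0
  set R : ℝ := max L0 1 with hR
  have hR1 : 1 ≤ R := le_max_right _ _
  set B : ℝ := C * Real.exp ((|a| + b) * (R + 1)) with hB
  set c' : ℝ := c * Real.exp (-((|a| + b) * (R + 1))) with hc'
  have hB0 : 0 < B := by positivity
  have hc'0 : 0 < c' := by positivity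
  set Fk : ℤ → ℂ → V := fun k z => F (z + k * (2 * Real.pi * Complex.I)) with hFk
  have hFkc : ∀ k, Crv P1 P2 (m + 1) c1 c C a b (Fk k) := fun k => hF.shift k
  have hWb : ∀ z : ℂ, ‖z‖ ≤ R + 1 → W a b z ≤ Real.exp ((|a| + b) * (R + 1)) ∧
      Real.exp (-((|a| + b) * (R + 1))) ≤ W a b z := by
    intro z hz
    have h1 : |z.re| ≤ R + 1 := (Complex.abs_re_le_norm z).trans hz
    have h3 : |a * z.re| = |a| * |z.re| := abs_mul _ _
    have h4 := abs_le.1 (le_refl |a * z.re|)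
    have h5 : |a| * |z.re| ≤ |a| * (R + 1) := by gcongr
    have h6 : b * |z.re| ≤ b * (R + 1) := by gcongr
    have h7 : 0 ≤ b * |z.re| := by positivity
    unfold W
    constructor
    · apply Real.exp_le_exp.2
      linarith
    · apply Real.exp_le_exp.2
      nlinarith [abs_nonneg a]
  have hup : ∀ k, ∀ z : ℂ, ‖z‖ ≤ R + 1 → ‖Fk k z‖ ≤ B := by
    intro k z hz
    refine ((hFkc k).up z).trans ?_
    rw [hB]
    have := (hWb z hz).1
    gcongr
  have hlow : ∀ k, ∀ z : ℂ, ‖z‖ ≤ R + 1 → c' ≤ ‖Fk k z‖ := by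
    intro k z hz
    refine le_trans ?_ ((hFkc k).low z)
    rw [hc']
    have := (hWb z hz).2
    gcongr
  -- a finite net
  set r : ℝ := min 1 (ε0 * c' / (16 * B)) with hr
  have hr0 : 0 < r := by positivity
  obtain ⟨T, hT1, hT2, hT3⟩ := (isCompact_closedBall (0 : ℂ) R).finite_cover_balls hr0
  haveI : Fintype T := hT2.fintype
  -- two of the curves are near to each other on the net
  have hK : IsCompact (closedBall (0 : T → V) B) := isCompact_closedBall _ _
  obtain ⟨v, -, φ, hφ, hlim⟩ := hK.tendsto_subseq (x := fun k : ℕ => fun t : T => Fk k (t : ℂ))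
    (fun k => by
      rw [mem_closedBall_zero_iff, pi_norm_le_iff_of_nonneg hB0.le]
      intro t
      have := mem_closedBall_zero_iff.1 (hT1 t.2)
      exact hup _ _ (by linarith))
  have hcau := hlim.cauchySeq
  obtain ⟨N, hN⟩ := Metric.cauchySeq_iff'.1 hcau (ε0 * c' / 4) (by positivity)
  have hN1 := hN (N + 1) (Nat.le_succ N)
  have hlt : φ N < φ (N + 1) := hφ (Nat.lt_succ_self N)
  set k := φ N with hk
  set l := φ (N + 1) with hl
  have hnear : ∀ z : ℂ, ‖z‖ ≤ L0 → ‖Fk l z - Fk k z‖ < ε0 * ‖Fk k z‖ := by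
    intro z hz
    have hzR : ‖z‖ ≤ R := hz.trans (le_max_left _ _)
    obtain ⟨t, ht, hzt⟩ := mem_iUnion₂.1 (hT3 (mem_closedBall_zero_iff.2 hzR))
    have htR := mem_closedBall_zero_iff.1 (hT1 ht)
    have hzt' : z ∈ ball t 1 := ball_subset_ball (min_le_left _ _) hzt
    have hlip : ∀ j : ℤ, ‖Fk j z - Fk j t‖ ≤ ε0 * c' / 8 := by
      intro j
      have h1 := lip (f := Fk j) (z0 := t) (r := 1) (B := B) (hFkc j).dif.differentiableOn
        (fun w hw => hup j w (by
          rw [mem_ball, dist_eq_norm] at hw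
          have := norm_add_le (w - t) t
          rw [sub_add_cancel] at this
          linarith)) hzt'
      rw [mem_ball, dist_eq_norm] at hzt
      have h2 : ‖z - t‖ ≤ ε0 * c' / (16 * B) := hzt.le.trans (min_le_right _ _)
      calc _ ≤ 2 * B / 1 * ‖z - t‖ := h1
        _ ≤ 2 * B / 1 * (ε0 * c' / (16 * B)) := by gcongr
        _ = ε0 * c' / 8 := by field_simp; norm_num
    have h1 : ‖Fk l t - Fk k t‖ < ε0 * c' / 4 := by
      have h2 := (dist_le_pi_dist _ _ (⟨t, ht⟩ : T)).trans_lt hN1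
      simp only [Function.comp_apply] at h2
      rw [dist_eq_norm] at h2
      exact h2
    have e1 : Fk l z - Fk k z = (Fk l z - Fk l t) + (Fk l t - Fk k t) - (Fk k z - Fk k t) := by
      abel
    have h2 := norm_sub_le ((Fk l z - Fk l t) + (Fk l t - Fk k t)) (Fk k z - Fk k t)
    have h3 := norm_add_le (Fk l z - Fk l t) (Fk l t - Fk k t)
    have h4 := hlip l
    have h5 := hlip k
    rw [← e1] at h2
    have h6 : ε0 * c' ≤ ε0 * ‖Fk k z‖ := by
      have := hlow k z (by linarith)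
      gcongr
    have h7 : 0 < ε0 * c' := by positivity
    linarith
  have hRS : RS P1 P2 m c1 c C a b ε0 C0 nn (Fk k) (Fk l) :=
    ⟨hFkc k, hFkc l, hc1, hc, hb, hε, hε1, hC0, han, hpar, hest'⟩
  have hfin := hL0 _ _ hRS hnear
  refine ⟨l - k, by omega, fun z => ?_⟩
  have h1 := hfin (z - k * (2 * Real.pi * Complex.I))
  simp only [hFk, Int.cast_natCast] at h1
  rw [sub_add_cancel] at h1
  rw [← h1]
  congr 1
  rw [Nat.cast_sub hlt.le]
  ring

end Pool.Agent.H915
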