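import Pool.Agent.H915.TC.Gr10
import Pool.Agent.H915.TC.Rig4
import Pool.Agent.H915.TC.Per

/-!
Normalised entire curves in the complement are periodic, and given by polynomials in an
exponential function.
-/

set_option autoImplicit false

open Filter Topology Metric Set MvPolynomial Asymptotics Bornology

namespace Pool.Agent.H915

open Pool.Agent.Y190.OP

variable {P1 P2 : Poly} {e1 e2 : ℕ} {F : ℂ → V} {M B : ℝ} {h : ℂ → ℂ} {η K : ℝ}

theorem Sf_smul {c : ℂ} (hc : c ≠ 0) {F : ℂ → V} {z : ℂ} (hF : F z ≠ 0) {G : ℂ → V} {w : ℂ}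
    (hG : G w = c • F z) : Sf G w = Real.log ‖c‖ + Sf F z := by
  unfold Sf
  have h1 : sq (G w) = ‖c‖ ^ 2 * sq (F z) := by
    rw [hG]
    unfold sq
    rw [Finset.mul_sum]
    refine Finset.sum_congr rfl fun i _ => ?_
    rw [Pi.smul_apply, smul_eq_mul, norm_mul]
    ring
  have hc0 : 0 < ‖c‖ := norm_pos_iff.2 hc
  rw [h1, Real.log_mul (by positivity) (sq_pos hF).ne', Real.log_pow]
  push_cast
  ring

/-- **The exact growth** -/
theorem EC.exact (hS : SNC P1 P2 e1 e2) (hk : 2 ≤ e1 + e2) (hF : EC P1 P2 F M (fun z => z)) :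
    ∃ a b D : ℝ, 0 < b ∧ ∀ z : ℂ, |Sf F z - (a * z.re + b * (|z.re|))| ≤ D := by
  obtain ⟨η, C, hη, hC, hsd, hsd'⟩ := hS.exists_SD hk
  have hη2 : 0 < η / 2 := by positivity
  have hd1 : (0 : ℝ) < ((e1 + 1 : ℕ) : ℝ) := by positivity
  obtain ⟨K, hN⟩ := hF.nd hS hη2 hC (hsd.mono (by linarith) le_rfl)
  obtain ⟨C1, hC1, hC1'⟩ := hF.S_le hS hη hC hsd hsd' hN
  obtain ⟨κ1, D1, hκ1, hD1⟩ := hN.left hS hF hC1 hC1'
  have hc := rat_pos e1 e2
  have hH := hF.hat hS
  obtain ⟨K', hN'⟩ := hH.nd hS.swap hη2 hC (hsd'.mono (by linarith) le_rfl)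
  obtain ⟨C2, hC2, hC2'⟩ := hH.S_le hS.swap hη hC hsd' hsd hN'
  obtain ⟨κ2, D2, hκ2, hD2⟩ := hN'.left hS.swap hH hC2 hC2'
  set c := rat e1 e2 with hcd
  set κ3 : ℝ := (κ2 + 1 / ((e1 + 1 : ℕ) : ℝ)) / c with hκ3
  have hκ30 : 0 < κ3 := by positivity
  -- the right half plane
  have hright : ∀ z : ℂ, 0 ≤ z.re → |Sf F z - κ3 * z.re| ≤ D2 := by
    intro z hz
    set w : ℂ := -((c⁻¹ : ℝ) : ℂ) * z with hw
    have hwre : w.re = -(c⁻¹ * z.re) := by
      rw [hw, ← Complex.ofReal_neg, Complex.re_ofReal_mul]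
      ring
    have hwz : -(c : ℂ) * w = z := by
      rw [hw]
      have : (c : ℂ) ≠ 0 := by exact_mod_cast hc.ne'
      push_cast
      field_simp
    have hwn : w.re ≤ 0 := by
      rw [hwre]
      have : 0 ≤ c⁻¹ * z.re := by positivity
      linarith
    have h1 := hD2 w hwn
    have h2 : Sf (H915.hat e1 e2 F) w = w.re / ((e1 + 1 : ℕ) : ℝ) + Sf F z := by
      have h3 := Sf_smul (c := Complex.exp (w / ((e1 + 1 : ℕ) : ℂ))) (Complex.exp_ne_zero _)
        (hF.ne z) (G := H915.hat e1 e2 F) (w := w) (by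
          unfold H915.hat
          rw [← hcd, hwz])
      rw [h3, Complex.norm_exp, Real.log_exp]
      congr 1
      have : ((e1 + 1 : ℕ) : ℂ) = (((e1 + 1 : ℕ) : ℝ) : ℂ) := by push_cast; rfl
      rw [this, Complex.div_ofReal_re]
    have h3 : Sf (H915.hat e1 e2 F) w - κ2 * |w.re| = Sf F z - κ3 * z.re := by
      rw [h2, abs_of_nonpos hwn, hwre, hκ3]
      field_simp
      ring
    rwa [h3] at h1
  refine ⟨(κ3 - κ1) / 2, (κ3 + κ1) / 2, max D1 D2, by positivity, fun z => ?_⟩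
  rcases le_total z.re 0 with hz | hz
  · have h1 := hD1 z hz
    have h2 : (κ3 - κ1) / 2 * z.re + (κ3 + κ1) / 2 * |z.re| = κ1 * |z.re| := by
      rw [abs_of_nonpos hz]
      ring
    rw [h2]
    exact h1.trans (le_max_left _ _)
  · have h1 := hright z hz
    have h2 : (κ3 - κ1) / 2 * z.re + (κ3 + κ1) / 2 * |z.re| = κ3 * z.re := by
      rw [abs_of_nonneg hz]
      ring
    rw [h2]
    exact h1.trans (le_max_right _ _)

/-- the lower bound for the cross product of the gradients -/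
theorem EC.nvl (hS : SNC P1 P2 e1 e2) (hF : EC P1 P2 F M (fun z => z)) :
    ∃ c1 : ℝ, 0 < c1 ∧ ∀ z, c1 * ‖F z‖ ^ (e1 + e2) ≤ ‖nv P1 P2 (F z)‖ := by
  have hM := hF.pos
  obtain ⟨η0, c, hη0, hc, hnear⟩ := hS.near
  obtain ⟨L, hL, hL'⟩ := lower_of_const hS.h1 (one_ne_zero (α := ℂ))
  set U : ℝ := max 1 (1 / η0) with hU
  have hU1 : 1 ≤ U := le_max_left _ _
  have hU0 : 0 < U := by linarith
  set c2 : ℝ := η0 * L ^ (e2 + 1) / (144 * M * U ^ 2) / U ^ (e1 + e2) with hc2
  have hc20 : 0 < c2 := by positivity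
  refine ⟨min c c2, by positivity, fun z => ?_⟩
  have hn : 0 < ‖F z‖ := norm_pos_iff.2 (hF.ne z)
  by_cases hN : Near P1 P2 e1 e2 η0 (F z)
  · refine le_trans ?_ (hnear _ (hF.ne z) hN)
    exact mul_le_mul_of_nonneg_right (min_le_left _ _) (by positivity)
  · unfold Near at hN
    push Not at hN
    obtain ⟨h1, h2⟩ := hN
    rw [hF.v1, norm_one] at h1
    rw [hF.v2, Complex.norm_exp] at h2
    have hFU : ‖F z‖ ≤ U := by
      by_contra hcon
      push Not at hcon
      have h3 : 1 ≤ ‖F z‖ := by linarith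
      have h4 : ‖F z‖ ≤ ‖F z‖ ^ (e1 + 1) := le_self_pow₀ h3 (by omega)
      have h5 : 1 / η0 < ‖F z‖ := (le_max_right _ _).trans_lt hcon
      rw [div_lt_iff₀ hη0] at h5
      nlinarith
    have hFL := hL' _ (hF.v1 z)
    -- the identity
    have h3 := cr_deriv hM.le hF.dif hF.ne (hF.lipAt z)
    have d1 : dp (grad P1 (F z)) (deriv F z) = 0 := by
      have := hasDerivAt_eval P1 (hF.dif z).hasDerivAt
      simp only [hF.v1] at this
      exact this.unique (hasDerivAt_const z 1)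
    have d2 : dp (grad P2 (F z)) (deriv F z) = Complex.exp z := by
      have h3 := hasDerivAt_eval P2 (hF.dif z).hasDerivAt
      simp only [hF.v2] at h3
      exact h3.unique (Complex.hasDerivAt_exp z)
    have h4 : dp (nv P1 P2 (F z)) (cr (F z) (deriv F z)) = (e1 + 1 : ℕ) * Complex.exp z := by
      unfold nv
      rw [dp_cr_cr, d1, d2, euler hS.h1, hF.v1]
      ring
    have h5 : ‖dp (nv P1 P2 (F z)) (cr (F z) (deriv F z))‖ ≤
        3 * (‖nv P1 P2 (F z)‖ * ‖cr (F z) (deriv F z)‖) := by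
      unfold dp
      have hb : ∀ i, ‖nv P1 P2 (F z) i * cr (F z) (deriv F z) i‖ ≤
          ‖nv P1 P2 (F z)‖ * ‖cr (F z) (deriv F z)‖ := fun i => by
        rw [norm_mul]
        exact mul_le_mul (norm_le_pi_norm _ i) (norm_le_pi_norm _ i) (norm_nonneg _) (norm_nonneg _)
      refine (norm_add_le _ _).trans ?_
      have := norm_add_le (nv P1 P2 (F z) 0 * cr (F z) (deriv F z) 0)
        (nv P1 P2 (F z) 1 * cr (F z) (deriv F z) 1)
      linarith [hb 0, hb 1, hb 2]
    rw [h4, norm_mul, Complex.norm_natCast, Complex.norm_exp] at h5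
    have h6 : Real.exp z.re ≤ (e1 + 1 : ℕ) * Real.exp z.re := by
      have : (1 : ℝ) ≤ (e1 + 1 : ℕ) := by exact_mod_cast Nat.succ_pos e1
      have h7 := Real.exp_pos z.re
      nlinarith
    have h7 : η0 * L ^ (e2 + 1) ≤ ‖nv P1 P2 (F z)‖ * (144 * M * U ^ 2) := by
      calc η0 * L ^ (e2 + 1) ≤ η0 * ‖F z‖ ^ (e2 + 1) := by gcongr
        _ ≤ Real.exp z.re := h2.le
        _ ≤ 3 * (‖nv P1 P2 (F z)‖ * ‖cr (F z) (deriv F z)‖) := h6.trans h5
        _ ≤ 3 * (‖nv P1 P2 (F z)‖ * (48 * M * ‖F z‖ ^ 2)) := by gcongr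
        _ ≤ 3 * (‖nv P1 P2 (F z)‖ * (48 * M * U ^ 2)) := by gcongr
        _ = _ := by ring
    calc min c c2 * ‖F z‖ ^ (e1 + e2) ≤ c2 * U ^ (e1 + e2) := by
          apply mul_le_mul (min_le_right _ _) _ (by positivity) hc20.le
          exact pow_le_pow_left₀ hn.le hFU _
      _ = η0 * L ^ (e2 + 1) / (144 * M * U ^ 2) := by
          rw [hc2]
          field_simp
      _ ≤ ‖nv P1 P2 (F z)‖ := by
          rw [div_le_iff₀ (by positivity)]
          exact h7

/-- **Normalised curves are periodic** -/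
theorem EC.periodic (hS : SNC P1 P2 e1 e2) (hk : 2 ≤ e1 + e2) (hF : EC P1 P2 F M (fun z => z)) :
    ∃ n : ℕ, 0 < n ∧ ∀ z, F (z + n * (2 * Real.pi * Complex.I)) = F z := by
  obtain ⟨a, b, D, hb, hD⟩ := hF.exact hS hk
  obtain ⟨c1, hc1, hc1'⟩ := hF.nvl hS
  obtain ⟨m, hm⟩ : ∃ m, e1 + e2 = m + 1 := ⟨e1 + e2 - 1, by omega⟩
  have hexp : ∀ z, 0 < ‖F z‖ := fun z => norm_pos_iff.2 (hF.ne z)
  refine rig_period (m := m) (c1 := c1) (c := Real.exp (-(D + 1))) (C := Real.exp D) (a := a)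
    (b := b) hS hm (by omega) hc1 (Real.exp_pos _) hb ⟨hF.dif, hF.v1, hF.v2, fun z => ?_,
      fun z => ?_, fun z => ?_⟩
  · have h1 := abs_le.1 (hD z)
    have h2 := Sf_le (hF.ne z)
    unfold W
    rw [← Real.exp_add, ← Real.exp_log (hexp z)]
    apply Real.exp_le_exp.2
    linarith [h1.1]
  · have h1 := abs_le.1 (hD z)
    have h2 := log_le_Sf (hF.ne z)
    unfold W
    rw [← Real.exp_add, ← Real.exp_log (hexp z)]
    apply Real.exp_le_exp.2
    linarith [h1.2]
  · rw [← hm]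
    exact hc1' z

/-- **Normalised curves are algebraic** -/
theorem EC.algebraic (hS : SNC P1 P2 e1 e2) (hk : 2 ≤ e1 + e2) (hF : EC P1 P2 F M (fun z => z)) :
    ∃ (n N : ℕ) (q : Fin 3 → Polynomial ℂ), 0 < n ∧
      ∀ z, (fun i => (q i).eval (Complex.exp z)) = Complex.exp (N * z) • F (n * z) := by
  obtain ⟨a, b, D, hb, hD⟩ := hF.exact hS hk
  obtain ⟨n, hn, hper⟩ := hF.periodic hS hk
  have hn' : (0 : ℝ) < n := by exact_mod_cast hn
  obtain ⟨N, hN⟩ := exists_nat_ge ((|a| + b) * n)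
  have h1 : ∀ i : Fin 3, ∃ q : Polynomial ℂ, ∀ z, F (n * z) i * Complex.exp z ^ (N + 1) =
      q.eval (Complex.exp z) := by
    intro i
    have hFi : Differentiable ℂ fun z => F z i := differentiable_pi.1 hF.dif i
    refine per_poly (g := fun z => F (n * z) i) (hFi.comp (by fun_prop)) (fun z => ?_)
      (C := Real.exp D) (K := (|a| + b) * n) hN (fun z => ?_)
    · have : (n : ℂ) * (z + 2 * Real.pi * Complex.I) = n * z + n * (2 * Real.pi * Complex.I) := by
        ring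
      change F ((n : ℂ) * (z + 2 * Real.pi * Complex.I)) i = F (n * z) i
      rw [this, hper]
    · have h2 := abs_le.1 (hD (n * z))
      have h3 := log_le_Sf (hF.ne (n * z))
      have h4 : ‖F (n * z)‖ ≤ Real.exp D * Real.exp ((|a| + b) * n * |z.re|) := by
        rw [← Real.exp_add, ← Real.exp_log (norm_pos_iff.2 (hF.ne (n * z)))]
        apply Real.exp_le_exp.2
        have hre : (n * z : ℂ).re = n * z.re := by simp
        rw [hre, abs_mul, abs_of_pos hn'] at h2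
        have h5 : a * (n * z.re) ≤ |a| * n * |z.re| := by
          calc a * (n * z.re) ≤ |a * (n * z.re)| := le_abs_self _
            _ = |a| * n * |z.re| := by
                rw [abs_mul, abs_mul, abs_of_pos hn']
                ring
        linarith [h2.2]
      exact (norm_le_pi_norm _ i).trans h4
  choose q hq using h1
  refine ⟨n, N + 1, q, hn, fun z => ?_⟩
  funext i
  rw [← hq, Pi.smul_apply, smul_eq_mul, Complex.exp_nat_mul]
  ring

end Pool.Agent.H915
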