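import Pool.Agent.H915.TC.Gr1

/-!
Entire curves in the complement: the function `h` is a polynomial of degree at most one.
-/

set_option autoImplicit false

open Filter Topology Metric Set MvPolynomial

namespace Pool.Agent.H915

open Pool.Agent.Y190.OP

variable {P1 P2 : Poly} {e1 e2 : ℕ} {F : ℂ → V} {M B : ℝ} {h : ℂ → ℂ}

theorem norm_sq_cplx (u : ℂ) : ‖u‖ ^ 2 = u.re ^ 2 + u.im ^ 2 := by
  rw [← Complex.normSq_eq_norm_sq, Complex.normSq_apply]
  ring

theorem LS.log1p {z : ℂ} :
    LS (1 / (2 * (1 + ‖z‖ ^ 2) ^ 2)) (fun y => Real.log (1 + ‖y‖ ^ 2)) z := by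
  set N : ℝ := 1 + ‖z‖ ^ 2 with hN
  have hN0 : 0 < N := by positivity
  have hN0' : (N : ℂ) ≠ 0 := by exact_mod_cast hN0.ne'
  have hzz : 1 + z * (starRingEnd ℂ) z = (N : ℂ) := by
    rw [Complex.mul_conj, Complex.normSq_eq_norm_sq, hN]
    push_cast
    ring
  refine ⟨fun y => ((1 + y * (starRingEnd ℂ) z) / N) ^ 2, by fun_prop, ?_, ?_⟩
  · simp only
    rw [hzz, div_self hN0', one_pow]
  · have hne : ∀ᶠ y : ℂ in 𝓝 z, 1 + y * (starRingEnd ℂ) z ≠ 0 := by
      have hc : Continuous fun y : ℂ => 1 + y * (starRingEnd ℂ) z := by fun_prop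
      refine (hc.tendsto z).eventually_ne ?_
      rw [hzz]
      exact hN0'
    have hlt : ∀ᶠ y : ℂ in 𝓝 z, 1 + ‖y‖ ^ 2 < 2 * N := by
      have hc : Continuous fun y : ℂ => 1 + ‖y‖ ^ 2 := by fun_prop
      exact (hc.tendsto z).eventually_lt_const (by rw [← hN]; linarith)
    filter_upwards [hne, hlt] with y hy1 hy2
    set p : ℝ := ‖1 + y * (starRingEnd ℂ) z‖ ^ 2 with hp
    have hp0 : 0 < p := by
      have := norm_pos_iff.2 hy1
      positivity
    have hid : (1 + ‖y‖ ^ 2) * N = p + ‖y - z‖ ^ 2 := by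
      rw [hN, hp, norm_sq_cplx, norm_sq_cplx, norm_sq_cplx, norm_sq_cplx]
      simp only [Complex.add_re, Complex.one_re, Complex.mul_re, Complex.conj_re, Complex.conj_im,
        Complex.add_im, Complex.one_im, Complex.mul_im, Complex.sub_re, Complex.sub_im]
      ring
    have h1 : Real.log ‖((1 + y * (starRingEnd ℂ) z) / N) ^ 2‖ = Real.log p - 2 * Real.log N := by
      rw [norm_pow, norm_div, Complex.norm_real, Real.norm_of_nonneg hN0.le, div_pow, ← hp,
        Real.log_div hp0.ne' (by positivity), Real.log_pow N 2]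
      push_cast
      ring
    have h2 : Real.log (1 + ‖y‖ ^ 2) = Real.log (p + ‖y - z‖ ^ 2) - Real.log N := by
      rw [← hid, Real.log_mul (by positivity) hN0.ne']
      ring
    rw [h1, h2]
    have hq : 0 < p + ‖y - z‖ ^ 2 := by positivity
    have h3 : ‖y - z‖ ^ 2 / (p + ‖y - z‖ ^ 2) ≤ Real.log (p + ‖y - z‖ ^ 2) - Real.log p := by
      rw [← Real.log_div hq.ne' hp0.ne']
      have h4 := Real.one_sub_inv_le_log_of_pos (x := (p + ‖y - z‖ ^ 2) / p) (by positivity)
      refine le_trans (le_of_eq ?_) h4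
      rw [inv_div]
      field_simp
      ring
    have h4 : 1 / (2 * N ^ 2) * ‖y - z‖ ^ 2 ≤ ‖y - z‖ ^ 2 / (p + ‖y - z‖ ^ 2) := by
      rw [div_mul_eq_mul_div, one_mul]
      apply div_le_div_of_nonneg_left (by positivity) hq
      rw [← hid]
      nlinarith
    linarith

/-- the second form is not the exponential of a polynomial of degree two -/
theorem EC.no_quad (hS : SNC P1 P2 e1 e2) (hk : 2 ≤ e1 + e2) (hF : EC P1 P2 F M h) {α γ : ℂ}
    (hα : α ≠ 0) (hh : ∀ z, h z = α * z ^ 2 + γ) : False := by
  obtain ⟨B, hB0, hB, hB2⟩ := hF.lower hS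
  obtain ⟨η, CH, hη, hCH, hH⟩ := hS.lemmaH hk
  obtain ⟨Cs, hCs, hsp⟩ := hS.speed
  have hM := hF.pos
  have hd : (0 : ℝ) < (e2 + 1 : ℕ) := by positivity
  have hd1 : (1 : ℝ) ≤ (e2 + 1 : ℕ) := by exact_mod_cast Nat.succ_pos e2
  set d : ℝ := ((e2 + 1 : ℕ) : ℝ) with hdd
  have hA : 0 < ‖α‖ := norm_pos_iff.2 hα
  have hder : ∀ z, deriv h z = 2 * α * z := by
    intro z
    have h1 : h = fun z => α * z ^ 2 + γ := funext hh
    have h7 := ((hasDerivAt_pow 2 z).const_mul α).add_const γ
    rw [h1]
    rw [h7.deriv]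
    push_cast
    ring
  -- far from the origin the curve is near the divisor
  set R1 : ℝ := Cs * M / (2 * ‖α‖ * η ^ 2) + 1 with hR1
  have hR10 : 0 < R1 := by positivity
  have hnear : ∀ z : ℂ, R1 ≤ ‖z‖ → pe P1 (Phi (F z)) ≠ 0 ∧ pe P2 (Phi (F z)) ≠ 0 ∧
      (‖pe P1 (Phi (F z))‖ < η ∨ ‖pe P2 (Phi (F z))‖ < η) := by
    intro z hz
    refine ⟨?_, ?_, ?_⟩
    · rw [Ne, pe_eq_zero hS.h1 (hF.ne z), hF.v1]
      exact one_ne_zero
    · rw [Ne, pe_eq_zero hS.h2 (hF.ne z), hF.v2]
      exact Complex.exp_ne_zero _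
    · by_contra hcon
      push Not at hcon
      have h1 := hsp F M h hF z M hM.le (hF.lipAt z)
      rw [hder, norm_mul, norm_mul, Complex.norm_ofNat] at h1
      have h2 : 2 * ‖α‖ * ‖z‖ * η ^ 2 ≤ Cs * M := by
        refine le_trans ?_ h1
        rw [pow_two]
        gcongr
        · exact hcon.1
        · exact hcon.2
      have h3 : ‖z‖ ≤ Cs * M / (2 * ‖α‖ * η ^ 2) := by
        rw [le_div_iff₀ (by positivity)]
        linarith
      linarith
  have hhol := holP_Phi hF.dif hF.ne
  have hsmall : ∀ z : ℂ, 2 * R1 ≤ ‖z‖ → Lip F z (4 * CH / ‖z‖) := by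
    intro z hz
    have hz0 : 0 < ‖z‖ := by linarith
    have h1 := hH (fun z => Phi (F z)) z (‖z‖ / 2) (by positivity) (hhol.mono (subset_univ _))
      (fun w hw => hnear w (by
        rw [mem_ball, dist_eq_norm] at hw
        have := norm_sub_norm_le z w
        rw [norm_sub_rev] at this
        linarith))
    apply lip_of_fderivAt (hhol.differentiableAt (mem_univ z))
    refine h1.trans_lt ?_
    rw [div_div_eq_mul_div]
    apply div_lt_div_of_pos_right _ hz0
    linarith
  set κ1 : ℝ := ‖α‖ / (8 * d) with hκ1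
  have hκ10 : 0 < κ1 := by positivity
  set R2 : ℝ := 2 * R1 + 72 * CH ^ 2 / κ1 + 1 with hR2
  have hR20 : 1 ≤ R2 := by
    have : 0 < 72 * CH ^ 2 / κ1 := by positivity
    linarith
  set K2 : ℝ := 9 * M ^ 2 * (1 + R2 ^ 2) ^ 2 with hK2
  have hK20 : 0 < K2 := by positivity
  set B2 : ℝ := B + ‖γ‖ with hB2d
  have main : ∀ R : ℝ, R2 ≤ R → κ1 * R ^ 2 ≤ |Sf F 0| + B2 + K2 * Real.log (1 + R ^ 2) := by
    intro R hR
    have hR0 : 0 < R := by linarith
    set p : ℂ → ℂ := fun z => 1 / 2 * (α * z ^ 2) + (α * z ^ 2) ^ 2 / (4 * (‖α‖ * R ^ 2 : ℝ)) with hp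
    set Ψ : ℂ → ℝ := fun z => 1 / d * (p z).re + κ1 * ‖z‖ ^ 2 + K2 * Real.log (1 + ‖z‖ ^ 2) +
      (1 / d * (‖α‖ * R ^ 2 / 4) - κ1 * R ^ 2 - K2 * Real.log (1 + R ^ 2) - B2) with hΨ
    have hpd : Differentiable ℂ p := by
      rw [hp]
      fun_prop
    have key : ∀ z ∈ closedBall (0 : ℂ) R, Ψ z ≤ Sf F z := by
      refine S_ge hF.dif hF.ne (isCompact_closedBall 0 R) ?_ fun z hz => ?_
      · apply Continuous.continuousOn
        apply Continuous.add _ continuous_const
        apply Continuous.add
        · apply Continuous.add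
          · exact continuous_const.mul (Complex.continuous_re.comp hpd.continuous)
          · fun_prop
        · apply continuous_const.mul
          apply Continuous.log (by fun_prop)
          intro z
          positivity
      · rw [mem_closedBall_zero_iff] at hz
        rcases hz.eq_or_lt with h1 | h1
        · left
          -- the boundary
          set u := α * z ^ 2 with hu
          set ρ := ‖α‖ * R ^ 2 with hρ
          have hρ0 : 0 < ρ := by positivity
          have hun : ‖u‖ = ρ := by rw [hu, norm_mul, norm_pow, h1]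
          have hpz : (p z).re = u.re / 2 + (2 * u.re ^ 2 - ρ ^ 2) / (4 * ρ) := by
            have e1 : ‖u‖ ^ 2 = u.re ^ 2 + u.im ^ 2 := norm_sq_cplx u
            rw [hun] at e1
            have e2 : p z = 1 / 2 * u + u ^ 2 / ((4 * ρ : ℝ) : ℂ) := by
              rw [hp]
              push_cast
              rfl
            rw [e2, Complex.add_re, Complex.div_ofReal_re]
            have e3 : (u ^ 2).re = u.re ^ 2 - u.im ^ 2 := by
              rw [pow_two, Complex.mul_re]
              ring
            have e4 : ((1 : ℂ) / 2 * u).re = u.re / 2 := by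
              have : (1 : ℂ) / 2 * u = ((1 / 2 : ℝ) : ℂ) * u := by push_cast; ring
              rw [this, Complex.re_ofReal_mul]
              ring
            rw [e3, e4]
            congr 2
            linarith
          have hx1 : |u.re| ≤ ρ := hun ▸ Complex.abs_re_le_norm u
          rw [abs_le] at hx1
          have hH : (p z).re + ρ / 4 ≤ max u.re 0 := by
            rw [hpz]
            have e1 : u.re / 2 + (2 * u.re ^ 2 - ρ ^ 2) / (4 * ρ) + ρ / 4 =
                u.re / 2 * (1 + u.re / ρ) := by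
              field_simp
              ring
            rw [e1]
            have e2 : u.re / ρ ≤ 1 := by
              rw [div_le_one hρ0]
              exact hx1.2
            have e3 : -1 ≤ u.re / ρ := by
              rw [le_div_iff₀ hρ0]
              linarith [hx1.1]
            rcases le_total 0 u.re with h2 | h2
            · rw [max_eq_left h2]
              nlinarith
            · rw [max_eq_right h2]
              nlinarith
          have hS1 := hB z
          have hS2 := hB2 z
          rw [hh, ← hu, Complex.add_re] at hS2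
          have hΨz : Ψ z = 1 / d * ((p z).re + ρ / 4) - B2 := by
            rw [hΨ]
            simp only
            rw [h1]
            ring
          rw [hΨz]
          have hγ : |γ.re| ≤ ‖γ‖ := Complex.abs_re_le_norm γ
          rw [abs_le] at hγ
          have hγd : γ.re / d ≥ -‖γ‖ := by
            rw [ge_iff_le, le_div_iff₀ hd]
            have := norm_nonneg γ
            nlinarith [hγ.1]
          rw [add_div] at hS2
          rcases le_total 0 u.re with h2 | h2
          · rw [max_eq_left h2] at hH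
            have h3 : 1 / d * ((p z).re + ρ / 4) ≤ u.re / d := by
              rw [div_mul_eq_mul_div, one_mul]
              exact div_le_div_of_nonneg_right hH hd.le
            rw [hB2d]
            linarith
          · rw [max_eq_right h2] at hH
            have h3 : 1 / d * ((p z).re + ρ / 4) ≤ 0 :=
              mul_nonpos_of_nonneg_of_nonpos (by positivity) hH
            have := norm_nonneg γ
            rw [hB2d]
            linarith
        · right
          refine ⟨closedBall_mem_nhds_of_mem (by rwa [mem_ball_zero_iff]), ?_⟩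
          have l1 := (LS.re (hpd.analyticAt z)).cmul (c := 1 / d) (by positivity)
          have l2 : LS 1 (fun y : ℂ => ‖y‖ ^ 2) z := by
            have := LS.nsq (z := z) 0
            simpa using this
          have l3 := l2.cmul (c := κ1) hκ10.le
          have l4 := (LS.log1p (z := z)).cmul (c := K2) hK20.le
          have l5 := ((l1.add l3).add l4).addc (1 / d * (‖α‖ * R ^ 2 / 4) - κ1 * R ^ 2 -
            K2 * Real.log (1 + R ^ 2) - B2)
          have hl4 : 0 ≤ K2 * (1 / (2 * (1 + ‖z‖ ^ 2) ^ 2)) := by positivity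
          by_cases h2 : R2 ≤ ‖z‖
          · have hz0 : 0 < ‖z‖ := by linarith
            refine ⟨4 * CH / ‖z‖, _, ?_, hsmall z (by
              have : 0 < 72 * CH ^ 2 / κ1 := by positivity
              linarith), l5⟩
            have h3 : 72 * CH ^ 2 / κ1 ≤ ‖z‖ ^ 2 := by
              have : 72 * CH ^ 2 / κ1 ≤ ‖z‖ := by linarith
              nlinarith
            have h4 : 9 / 2 * (4 * CH / ‖z‖) ^ 2 ≤ κ1 := by
              rw [div_le_iff₀ hκ10] at h3
              have e : 9 / 2 * (4 * CH / ‖z‖) ^ 2 = 72 * CH ^ 2 / ‖z‖ ^ 2 := by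
                field_simp
                ring
              rw [e, div_le_iff₀ (by positivity)]
              linarith
            linarith
          · push Not at h2
            refine ⟨M, _, ?_, hF.lipAt z, l5⟩
            have h3 : (1 + ‖z‖ ^ 2) ^ 2 ≤ (1 + R2 ^ 2) ^ 2 := by gcongr
            have h4 : 9 / 2 * M ^ 2 ≤ K2 * (1 / (2 * (1 + ‖z‖ ^ 2) ^ 2)) := by
              rw [mul_one_div, le_div_iff₀ (by positivity), hK2]
              have : 0 < M ^ 2 := by positivity
              nlinarith
            linarith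
    have h0 := key 0 (mem_closedBall_self hR0.le)
    have hΨ0 : Ψ 0 = 1 / d * (‖α‖ * R ^ 2 / 4) - κ1 * R ^ 2 - K2 * Real.log (1 + R ^ 2) - B2 := by
      rw [hΨ]
      simp [hp]
    rw [hΨ0] at h0
    have e : 1 / d * (‖α‖ * R ^ 2 / 4) = 2 * (κ1 * R ^ 2) := by
      rw [hκ1]
      field_simp
      ring
    have := le_abs_self (Sf F 0)
    linarith
  -- contradiction for large `R`
  set D : ℝ := |Sf F 0| + B2 + 4 * K2 with hD
  have hB20 : 0 ≤ B2 := by positivity
  have hD0 : 0 < D := by
    have := abs_nonneg (Sf F 0)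
    linarith
  set R : ℝ := R2 + D / κ1 + 1 with hR
  have hDκ : 0 < D / κ1 := by positivity
  have hR1' : 1 ≤ R := by linarith
  have h1 := main R (by linarith)
  have h2 : Real.log (1 + R ^ 2) ≤ 4 * R := by
    refine (log_le_two_sqrt (by positivity)).trans ?_
    have : Real.sqrt (1 + R ^ 2) ≤ 2 * R := by
      rw [Real.sqrt_le_left (by positivity)]
      nlinarith
    linarith
  have h3 : κ1 * R ^ 2 ≤ D * R := by
    have e1 : K2 * Real.log (1 + R ^ 2) ≤ K2 * (4 * R) := by gcongr
    have := abs_nonneg (Sf F 0)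
    nlinarith
  have h4 : κ1 * R ≤ D := by
    have : (κ1 * R) * R ≤ D * R := by linarith
    exact le_of_mul_le_mul_right this (by linarith)
  have h5 : R ≤ D / κ1 := by
    rw [le_div_iff₀ hκ10]
    linarith
  linarith

end Pool.Agent.H915
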