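import Pool.Agent.H915.TC.Gr2

/-!
Normalised entire curves in the complement: the speed, and the linear bound.
-/

set_option autoImplicit false

open Filter Topology Metric Set MvPolynomial

namespace Pool.Agent.H915

open Pool.Agent.Y190.OP

variable {P1 P2 : Poly} {e1 e2 : ℕ} {F : ℂ → V} {M B : ℝ} {h : ℂ → ℂ}

theorem BC.aff (hF : BC F M) {c : ℂ} (hc : c ≠ 0) (z0 : ℂ) :
    BC (fun z => F (c * z + z0)) (‖c‖ * M) where
  dif := hF.dif.comp (by fun_prop)
  ne := fun z => hF.ne _
  pos := mul_pos (norm_pos_iff.2 hc) hF.pos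
  lip := fun y z => by
    refine (hF.lip _ _).trans (le_of_eq ?_)
    have : c * y + z0 - (c * z + z0) = c * (y - z) := by ring
    rw [this, norm_mul]
    ring

theorem EC.aff (hF : EC P1 P2 F M h) {c : ℂ} (hc : c ≠ 0) (z0 : ℂ) :
    EC P1 P2 (fun z => F (c * z + z0)) (‖c‖ * M) (fun z => h (c * z + z0)) where
  toBC := hF.toBC.aff hc z0
  v1 := fun z => hF.v1 _
  v2 := fun z => hF.v2 _
  hd := hF.hd.comp (by fun_prop)

/-- normalisation -/
theorem EC.normal (hS : SNC P1 P2 e1 e2) (hk : 2 ≤ e1 + e2) (hF : EC P1 P2 F M h)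
    (hne : ∃ x y, h x ≠ h y) : ∃ c z0 : ℂ, c ≠ 0 ∧
      EC P1 P2 (fun z => F (c * z + z0)) (‖c‖ * M) (fun z => z) := by
  obtain ⟨α, β, γ, hh⟩ := hF.quad hS
  by_cases hα : α = 0
  · have hβ : β ≠ 0 := by
      rintro rfl
      obtain ⟨x, y, hxy⟩ := hne
      apply hxy
      rw [hh, hh, hα]
      ring
    refine ⟨β⁻¹, -γ * β⁻¹, inv_ne_zero hβ, ?_⟩
    have h1 := hF.aff (inv_ne_zero hβ) (-γ * β⁻¹)
    have h2 : (fun z => h (β⁻¹ * z + -γ * β⁻¹)) = fun z => z := by
      funext z
      rw [hh, hα]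
      field_simp
      ring
    rwa [h2] at h1
  · exfalso
    have h1 := hF.aff (one_ne_zero (α := ℂ)) (-β / (2 * α))
    refine h1.no_quad hS hk (α := α) (γ := γ - β ^ 2 / (4 * α)) hα fun z => ?_
    rw [hh]
    field_simp
    ring

/-- the points far from the curves -/
def Al (P1 P2 : Poly) (F : ℂ → V) (η : ℝ) : Set ℂ :=
  {z | η ≤ ‖pe P1 (Phi (F z))‖ ∧ η ≤ ‖pe P2 (Phi (F z))‖}

theorem BC.isClosed_Al (hF : BC F M) (P1 P2 : Poly) (η : ℝ) : IsClosed (Al P1 P2 F η) :=
  (isClosed_le continuous_const ((cont_pe P1).comp hF.contPhi).norm).inter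
    (isClosed_le continuous_const ((cont_pe P2).comp hF.contPhi).norm)

theorem EC.pe_ne (hS : SNC P1 P2 e1 e2) (hF : EC P1 P2 F M h) (z : ℂ) :
    pe P1 (Phi (F z)) ≠ 0 ∧ pe P2 (Phi (F z)) ≠ 0 := by
  refine ⟨?_, ?_⟩
  · rw [Ne, pe_eq_zero hS.h1 (hF.ne z), hF.v1]
    exact one_ne_zero
  · rw [Ne, pe_eq_zero hS.h2 (hF.ne z), hF.v2]
    exact Complex.exp_ne_zero _

/-- the speed at points far from the alive points -/
theorem SNC.speed_dead (hS : SNC P1 P2 e1 e2) (hk : 2 ≤ e1 + e2) : ∃ η C : ℝ, 0 < η ∧ 0 < C ∧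
    ∀ (F : ℂ → V) (M : ℝ) (h : ℂ → ℂ), EC P1 P2 F M h → ∀ (z : ℂ) (r : ℝ), 0 < r →
      (∀ w ∈ ball z r, w ∉ Al P1 P2 F η) → Lip F z (C / r) := by
  obtain ⟨η, CH, hη, hCH, hH⟩ := hS.lemmaH hk
  refine ⟨η, 2 * CH, hη, by positivity, fun F M h hF z r hr hd => ?_⟩
  have hhol := holP_Phi hF.dif hF.ne
  have h1 := hH (fun z => Phi (F z)) z r hr (hhol.mono (subset_univ _)) (fun w hw => by
    refine ⟨(hF.pe_ne hS w).1, (hF.pe_ne hS w).2, ?_⟩
    have := hd w hw
    by_contra hcon
    push Not at hcon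
    exact this ⟨hcon.1, hcon.2⟩)
  apply lip_of_fderivAt (hhol.differentiableAt (mem_univ z))
  refine h1.trans_lt ?_
  apply div_lt_div_of_pos_right _ hr
  linarith

theorem log_le_quad {s : ℝ} (hs : -1 < s) (hs2 : s ≤ 1 / 2) :
    Real.log (1 + s) ≤ s - s ^ 2 / 6 := by
  have h0 : 0 < 1 + s := by linarith
  set v := Real.sqrt (1 + s) with hv
  have hv0 : 0 < v := Real.sqrt_pos.2 h0
  have hvv : v ^ 2 = 1 + s := Real.sq_sqrt h0.le
  have h1 : Real.log (1 + s) = 2 * Real.log v := by
    rw [hv, Real.log_sqrt h0.le]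
    ring
  have h2 := Real.log_le_sub_one_of_pos hv0
  have h3 : v ≤ 5 / 4 := by
    by_contra hcon
    push Not at hcon
    nlinarith
  have h4 : s = v ^ 2 - 1 := by linarith
  rw [h1]
  have h5 : (v ^ 2 - 1) - (v ^ 2 - 1) ^ 2 / 6 - 2 * (v - 1) = (v - 1) ^ 2 * (1 - (v + 1) ^ 2 / 6) := by
    ring
  have h6 : 0 ≤ (v - 1) ^ 2 * (1 - (v + 1) ^ 2 / 6) := by
    apply mul_nonneg (sq_nonneg _)
    nlinarith
  rw [h4]
  linarith

/-- the weight -/
noncomputable def qf (t : ℝ) : ℝ := 2 * |t| - Real.log (1 + |t|)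

theorem cont_qf : Continuous qf := by
  unfold qf
  apply Continuous.sub (by fun_prop)
  apply Continuous.log (by fun_prop)
  intro t
  positivity

theorem qf_lip (s t : ℝ) : qf s - qf t ≤ 2 * |s - t| := by
  unfold qf
  have h1 := abs_nonneg s
  have h2 := abs_nonneg t
  have h3 : |s| - |t| ≤ |s - t| := abs_sub_abs_le_abs_sub s t
  rcases le_total |t| |s| with h4 | h4
  · have h5 : Real.log (1 + |t|) ≤ Real.log (1 + |s|) := Real.log_le_log (by linarith) (by linarith)
    linarith
  · have h5 : Real.log (1 + |t|) - Real.log (1 + |s|) ≤ |t| - |s| := by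
      rw [← Real.log_div (by linarith) (by linarith)]
      have h6 := Real.log_le_sub_one_of_pos (x := (1 + |t|) / (1 + |s|)) (by positivity)
      have h7 : (1 + |t|) / (1 + |s|) - 1 ≤ |t| - |s| := by
        rw [div_sub_one (by linarith), div_le_iff₀ (by linarith)]
        nlinarith
      linarith
    have h6 := abs_nonneg (s - t)
    linarith

theorem qf_support (t0 : ℝ) : ∃ a : ℝ, ∀ᶠ t in 𝓝 t0,
    qf t0 + a * (t - t0) + 1 / (6 * (1 + |t0|) ^ 2) * (t - t0) ^ 2 ≤ qf t := by
  rcases lt_trichotomy t0 0 with h0 | h0 | h0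
  · refine ⟨-(2 - 1 / (1 - t0)), ?_⟩
    have e1 : ∀ᶠ t in 𝓝 t0, t < 0 := gt_mem_nhds h0
    have e2 : ∀ᶠ t in 𝓝 t0, |t - t0| < 1 / 2 := by
      have hc : Continuous fun t : ℝ => |t - t0| := by fun_prop
      exact (hc.tendsto t0).eventually_lt_const (by simp)
    filter_upwards [e1, e2] with t ht ht2
    unfold qf
    rw [abs_of_neg h0, abs_of_neg ht]
    have hN : 0 < 1 - t0 := by linarith
    rw [abs_lt] at ht2
    set s : ℝ := (t0 - t) / (1 - t0) with hs
    have hs1 : s ≤ 1 / 2 := by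
      rw [hs, div_le_iff₀ hN]
      nlinarith
    have hs2 : -1 < s := by
      rw [hs, lt_div_iff₀ hN]
      nlinarith
    have h2 := log_le_quad hs2 hs1
    have h3 : Real.log (1 + -t) = Real.log (1 + -t0) + Real.log (1 + s) := by
      rw [← Real.log_mul (by linarith) (by linarith)]
      congr 1
      rw [hs]
      field_simp
      ring
    rw [h3]
    have h4 : s ^ 2 / 6 = 1 / (6 * (1 + -t0) ^ 2) * (t - t0) ^ 2 := by
      rw [hs, ← sub_eq_add_neg]
      field_simp
      ring
    have h5 : (1 / (1 - t0)) * (t - t0) = -s := by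
      rw [hs]
      field_simp
      ring
    nlinarith
  · refine ⟨0, ?_⟩
    have e2 : ∀ᶠ t in 𝓝 t0, |t - t0| < 1 / 2 := by
      have hc : Continuous fun t : ℝ => |t - t0| := by fun_prop
      exact (hc.tendsto t0).eventually_lt_const (by simp)
    filter_upwards [e2] with t ht
    rw [h0, sub_zero] at ht
    unfold qf
    rw [h0]
    simp only [abs_zero, mul_zero, add_zero, Real.log_one, sub_zero, zero_mul, zero_add, one_pow,
      mul_one]
    have h1 := Real.log_le_sub_one_of_pos (x := 1 + |t|) (by positivity)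
    have h2 : t ^ 2 = |t| ^ 2 := (sq_abs t).symm
    have h3 := abs_nonneg t
    rw [h2]
    nlinarith
  · refine ⟨2 - 1 / (1 + t0), ?_⟩
    have e1 : ∀ᶠ t in 𝓝 t0, 0 < t := lt_mem_nhds h0
    have e2 : ∀ᶠ t in 𝓝 t0, |t - t0| < 1 / 2 := by
      have hc : Continuous fun t : ℝ => |t - t0| := by fun_prop
      exact (hc.tendsto t0).eventually_lt_const (by simp)
    filter_upwards [e1, e2] with t ht ht2
    unfold qf
    rw [abs_of_pos h0, abs_of_pos ht]
    have hN : 0 < 1 + t0 := by linarith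
    rw [abs_lt] at ht2
    set s : ℝ := (t - t0) / (1 + t0) with hs
    have hs1 : s ≤ 1 / 2 := by
      rw [hs, div_le_iff₀ hN]
      nlinarith
    have hs2 : -1 < s := by
      rw [hs, lt_div_iff₀ hN]
      nlinarith
    have h2 := log_le_quad hs2 hs1
    have h3 : Real.log (1 + t) = Real.log (1 + t0) + Real.log (1 + s) := by
      rw [← Real.log_mul (by linarith) (by linarith)]
      congr 1
      rw [hs]
      field_simp
      ring
    rw [h3]
    have h4 : s ^ 2 / 6 = 1 / (6 * (1 + t0) ^ 2) * (t - t0) ^ 2 := by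
      rw [hs]
      field_simp
    have h5 : (1 / (1 + t0)) * (t - t0) = s := by
      rw [hs]
      field_simp
    nlinarith

theorem LS.qf (z : ℂ) : LS (1 / (12 * (1 + |z.re|) ^ 2)) (fun y => qf y.re) z := by
  obtain ⟨a, ha⟩ := qf_support z.re
  have := LS.ofRe (z := z) ha
  refine this.mono (le_of_eq ?_)
  field_simp
  norm_num

/-- the barrier on an annulus, with a weight -/
theorem BC.annulus2 (hF : BC F M) (hB : ∀ z, -B ≤ Sf F z) {z : ℂ} {ρ R m W0 : ℝ} (hρ : 0 < ρ)
    (hρR : ρ < R) (hm : 0 ≤ m) (hmz : ∀ w, ‖w - z‖ = ρ → m - B ≤ Sf F w)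
    {W : ℂ → ℝ} (hWc : Continuous W)
    (hW : ∀ w, ∃ m κ : ℝ, 9 / 2 * m ^ 2 ≤ κ ∧ Lip F w m ∧ LS κ W w)
    (hW0 : ∀ w, ‖w - z‖ ≤ R → W w ≤ W0)
    {w : ℂ} (hw : ρ ≤ ‖w - z‖) (hw2 : ‖w - z‖ ≤ R) :
    m / Real.log (R / ρ) * Real.log (R / ‖w - z‖) + (W w - W0) - B ≤ Sf F w := by
  have hR : 0 < R := hρ.trans hρR
  have hlog : 0 < Real.log (R / ρ) := Real.log_pos (by rwa [one_lt_div hρ])
  set K : Set ℂ := closedBall z R \ ball z ρ with hK
  have hKc : IsCompact K := (isCompact_closedBall z R).diff isOpen_ball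
  have hKn : ∀ u ∈ K, ρ ≤ ‖u - z‖ ∧ ‖u - z‖ ≤ R := by
    rintro u ⟨h1, h2⟩
    rw [mem_closedBall, dist_eq_norm] at h1
    rw [mem_ball, dist_eq_norm, not_lt] at h2
    exact ⟨h2, h1⟩
  have hmem : w ∈ K := by
    refine ⟨?_, ?_⟩
    · rw [mem_closedBall, dist_eq_norm]
      exact hw2
    · rw [mem_ball, dist_eq_norm, not_lt]
      exact hw
  set Ψ : ℂ → ℝ := fun u => m / Real.log (R / ρ) * (-Real.log ‖u - z‖ + Real.log R) +
    W u + (-W0 - B) with hΨ
  have key : ∀ u ∈ K, Ψ u ≤ Sf F u := by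
    refine S_ge hF.dif hF.ne hKc ?_ fun u hu => ?_
    · apply ContinuousOn.add _ continuousOn_const
      apply ContinuousOn.add
      · apply continuousOn_const.mul
        apply ContinuousOn.add _ continuousOn_const
        apply ContinuousOn.neg
        apply ContinuousOn.log (by fun_prop)
        intro u hu
        have := (hKn u hu).1
        linarith
      · exact hWc.continuousOn
    · obtain ⟨h1, h2⟩ := hKn u hu
      have hu0 : 0 < ‖u - z‖ := by linarith
      have hWu := hW0 u h2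
      rcases h1.eq_or_lt with h3 | h3
      · left
        have h4 := hmz u h3.symm
        have h5 : -Real.log ‖u - z‖ + Real.log R = Real.log (R / ρ) := by
          rw [← h3, Real.log_div hR.ne' hρ.ne']
          ring
        rw [hΨ]
        simp only
        rw [h5, div_mul_cancel₀ _ hlog.ne']
        linarith
      · rcases h2.eq_or_lt with h4 | h4
        · left
          rw [hΨ]
          simp only
          rw [h4]
          have := hB u
          have e : m / Real.log (R / ρ) * (-Real.log R + Real.log R) = 0 := by ring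
          rw [e]
          linarith
        · right
          obtain ⟨m', κ, hκ, hL, hLS⟩ := hW u
          refine ⟨?_, m', κ, hκ, hL, ?_⟩
          · have ho : IsOpen {v : ℂ | ρ < ‖v - z‖ ∧ ‖v - z‖ < R} := by
              apply IsOpen.and
              · exact isOpen_lt continuous_const (by fun_prop)
              · exact isOpen_lt (by fun_prop) continuous_const
            refine mem_of_superset (ho.mem_nhds ⟨h3, h4⟩) ?_
            rintro v ⟨hv1, hv2⟩
            refine ⟨?_, ?_⟩
            · rw [mem_closedBall, dist_eq_norm]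
              exact hv2.le
            · rw [mem_ball, dist_eq_norm, not_lt]
              exact hv1.le
          · have l1 : LS 0 (fun u : ℂ => -Real.log ‖u - z‖) u :=
              LS.neg_log (g := fun u => u - z) (by fun_prop) (by
                intro h
                rw [h, norm_zero] at hu0
                exact lt_irrefl _ hu0)
            have l2 := (l1.addc (Real.log R)).cmul (c := m / Real.log (R / ρ)) (by positivity)
            have l4 := (l2.add hLS).addc (-W0 - B)
            rw [mul_zero, zero_add] at l4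
            exact l4
  have h1 := key w hmem
  have hw0 : 0 < ‖w - z‖ := by linarith
  rw [Real.log_div hR.ne' hw0.ne']
  rw [hΨ] at h1
  simp only at h1
  calc _ = m / Real.log (R / ρ) * (-Real.log ‖w - z‖ + Real.log R) + W w + (-W0 - B) := by ring
    _ ≤ _ := h1

end Pool.Agent.H915
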