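import Pool.Agent.H915.TC.Gr3

/-!
Normalised entire curves in the complement: the linear bound.
-/

set_option autoImplicit false

open Filter Topology Metric Set MvPolynomial

namespace Pool.Agent.H915

open Pool.Agent.Y190.OP

variable {P1 P2 : Poly} {e1 e2 : ℕ} {F : ℂ → V} {M B : ℝ} {h : ℂ → ℂ} {η K : ℝ}

/-- the estimates for a normalised curve -/
structure ND (P1 P2 : Poly) (e2 : ℕ) (F : ℂ → V) (η K : ℝ) : Prop where
  pos : 0 < K
  cl : IsClosed (Al P1 P2 F η)
  ne : (Al P1 P2 F η).Nonempty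
  al : ∀ z ∈ Al P1 P2 F η, Sf F z ≤ K ∧ |z.re| ≤ K
  lo : ∀ z, -K ≤ Sf F z
  lo2 : ∀ z, z.re / (e2 + 1 : ℕ) - K ≤ Sf F z
  sp : ∀ (z : ℂ) (r : ℝ), 0 < r → (∀ w ∈ ball z r, w ∉ Al P1 P2 F η) → Lip F z (K / r)
  sp2 : ∀ z, Lip F z (K / (1 + |z.re|))

theorem EC.nd (hS : SNC P1 P2 e1 e2) {C : ℝ} (hη : 0 < η) (hC : 0 < C)
    (hsd : ∀ (F : ℂ → V) (M : ℝ) (h : ℂ → ℂ), EC P1 P2 F M h → ∀ (z : ℂ) (r : ℝ), 0 < r →
      (∀ w ∈ ball z r, w ∉ Al P1 P2 F η) → Lip F z (C / r))
    (hF : EC P1 P2 F M (fun z => z)) : ∃ K : ℝ, ND P1 P2 e2 F η K := by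
  obtain ⟨B, hB0, hB, hB2⟩ := hF.lower hS
  obtain ⟨K1, hK1, hK1'⟩ := hF.alive hS hη
  obtain ⟨Cs, hCs, hsp⟩ := hS.speed
  have hM := hF.pos
  set X : ℝ := K1 + 1 with hX
  refine ⟨B + K1 + C + M * (1 + 2 * X) + 4 * C, by positivity, hF.isClosed_Al P1 P2 η, ?_,
    fun z hz => ?_, fun z => ?_, fun z => ?_, fun z r hr hd => ?_, fun z => ?_⟩
  · by_contra hcon
    rw [not_nonempty_iff_eq_empty] at hcon
    have h1 : ∀ r : ℝ, 0 < r → ‖pe P1 (Phi (F 0))‖ * ‖pe P2 (Phi (F 0))‖ ≤ Cs * (C / r) := by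
      intro r hr
      have h2 := hsd F M _ hF 0 r hr (fun w _ => by rw [hcon]; exact notMem_empty w)
      have h3 := hsp F M _ hF 0 (C / r) (by positivity) h2
      simp only [deriv_id'', norm_one, one_mul] at h3
      exact h3
    obtain ⟨n1, n2⟩ := hF.pe_ne hS 0
    have hp : 0 < ‖pe P1 (Phi (F 0))‖ * ‖pe P2 (Phi (F 0))‖ :=
      mul_pos (norm_pos_iff.2 n1) (norm_pos_iff.2 n2)
    set p := ‖pe P1 (Phi (F 0))‖ * ‖pe P2 (Phi (F 0))‖ with hpd
    have h4 := h1 (2 * Cs * C / p) (by positivity)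
    have h5 : Cs * (C / (2 * Cs * C / p)) = p / 2 := by field_simp
    rw [h5] at h4
    linarith
  · obtain ⟨h1, h2⟩ := hK1' z hz.1 hz.2
    have : 0 < M * (1 + 2 * X) := by positivity
    exact ⟨by linarith, by linarith⟩
  · have := hB z
    have : 0 < M * (1 + 2 * X) := by positivity
    linarith
  · have := hB2 z
    have : 0 < M * (1 + 2 * X) := by positivity
    linarith
  · refine (hsd F M _ hF z r hr hd).mono ?_
    apply div_le_div_of_nonneg_right _ hr.le
    have : 0 < M * (1 + 2 * X) := by positivity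
    linarith
  · have hx := abs_nonneg z.re
    by_cases hz : |z.re| ≤ 2 * X
    · refine (hF.lipAt z).mono ?_
      rw [le_div_iff₀ (by positivity)]
      have : M * (1 + |z.re|) ≤ M * (1 + 2 * X) := by gcongr
      linarith
    · push Not at hz
      have hr : 0 < |z.re| / 2 := by linarith
      have h1 := hsd F M _ hF z (|z.re| / 2) hr (fun w hw hwA => by
        obtain ⟨-, h2⟩ := hK1' w hwA.1 hwA.2
        rw [mem_ball, dist_eq_norm] at hw
        have h3 := Complex.abs_re_le_norm (w - z)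
        rw [Complex.sub_re] at h3
        have h4 := abs_sub_abs_le_abs_sub z.re w.re
        rw [abs_sub_comm] at h4
        linarith)
      refine h1.mono ?_
      rw [div_div_eq_mul_div]
      rw [div_le_div_iff₀ (by linarith) (by linarith)]
      have h2 : 1 + |z.re| ≤ 2 * |z.re| := by linarith
      have h3 : 0 < M * (1 + 2 * X) := by positivity
      have h4 : C * 2 * (1 + |z.re|) ≤ C * 2 * (2 * |z.re|) := by gcongr
      have h5 : 4 * C * |z.re| ≤ (B + K1 + C + M * (1 + 2 * X) + 4 * C) * |z.re| := by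
        apply mul_le_mul_of_nonneg_right _ hx
        linarith
      linarith

theorem BC.lip_ball (hF : BC F M) {z : ℂ} {s m : ℝ} (hm : 0 ≤ m) (hL : ∀ w ∈ ball z s, Lip F w m)
    {y : ℂ} (hy : y ∈ ball z s) : ‖Phi (F y) - Phi (F z)‖ ≤ m * ‖y - z‖ := by
  have hhol := holP_Phi hF.dif hF.ne
  have hs : 0 < s := pos_of_mem_ball hy
  exact (convex_ball z s).norm_image_sub_le_of_norm_fderiv_le (𝕜 := ℝ) (f := fun z => Phi (F z))
    (fun w _ => hhol.differentiableAt (mem_univ w))
    (fun w hw => (hhol.differentiableAt (mem_univ w)).hasFDerivAt.le_of_lip' hm (hL w hw))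
    (mem_ball_self hs) hy

/-- a Harnack inequality at the scale of the distance from the alive points -/
theorem ND.harnack (hF : BC F M) (hN : ND P1 P2 e2 F η K) {z : ℂ} {r : ℝ} (hr : 0 < r)
    (hL : ∀ w ∈ ball z (r / 2), Lip F w (2 * K / r)) {w : ℂ}
    (hw : ‖w - z‖ ≤ min (1 / 2) (1 / (12 * K)) * r / 2) :
    (Sf F z + K) / 3 - 1 ≤ Sf F w + K ∧ (Sf F w + K) / 3 - 1 ≤ Sf F z + K := by
  have hK := hN.pos
  set τ : ℝ := min (1 / 2) (1 / (12 * K)) with hτ
  have hτ0 : 0 < τ := by positivity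
  have hτ1 : τ ≤ 1 / 2 := min_le_left _ _
  have hτ2 : τ ≤ 1 / (12 * K) := min_le_right _ _
  set s : ℝ := τ * r with hs
  have hs0 : 0 < s := by positivity
  have hsr : s ≤ r / 2 := by nlinarith
  have hosc : ∀ y ∈ ball z s, ‖Phi (F y) - Phi (F z)‖ ≤ 1 / 6 := by
    intro y hy
    have h1 := hF.lip_ball (z := z) (s := r / 2) (m := 2 * K / r) (by positivity) hL
      (ball_subset_ball hsr hy)
    refine h1.trans ?_
    rw [mem_ball, dist_eq_norm] at hy
    calc 2 * K / r * ‖y - z‖ ≤ 2 * K / r * s := by gcongr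
      _ = 2 * K * τ := by
          rw [hs]
          field_simp
      _ ≤ 2 * K * (1 / (12 * K)) := by gcongr
      _ = 1 / 6 := by
          field_simp
          norm_num
  have hwb : w ∈ ball z s := by
    rw [mem_ball, dist_eq_norm]
    linarith
  obtain ⟨h1, h2⟩ := S_harnack (B := K) hF.dif.differentiableOn (fun y _ => hF.ne y) hosc
    (fun y _ => hN.lo y) hwb
  have hlz := hN.lo z
  have hlw := hN.lo w
  have hn := norm_nonneg (w - z)
  constructor
  · have e1 : s / 2 * (Sf F z + K) ≤ (s - ‖w - z‖) * (Sf F z + K) :=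
      mul_le_mul_of_nonneg_right (by linarith) (by linarith)
    have e2 : (s + ‖w - z‖) * (Sf F w + K + 1) ≤ (3 * (s / 2)) * (Sf F w + K + 1) :=
      mul_le_mul_of_nonneg_right (by linarith) (by linarith)
    have e3 : s / 2 * (Sf F z + K) ≤ s / 2 * (3 * (Sf F w + K + 1)) := by linarith
    have := le_of_mul_le_mul_left e3 (by positivity)
    linarith
  · have e1 : s / 2 * (Sf F w + K) ≤ (s - ‖w - z‖) * (Sf F w + K) :=
      mul_le_mul_of_nonneg_right (by linarith) (by linarith)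
    have e2 : (s + ‖w - z‖) * (Sf F z + K + 1) ≤ (3 * (s / 2)) * (Sf F z + K + 1) :=
      mul_le_mul_of_nonneg_right (by linarith) (by linarith)
    have e3 : s / 2 * (Sf F w + K) ≤ s / 2 * (3 * (Sf F z + K + 1)) := by linarith
    have := le_of_mul_le_mul_left e3 (by positivity)
    linarith

/-- **The linear bound** -/
theorem ND.lin (hF : BC F M) (hN : ND P1 P2 e2 F η K) :
    ∃ C : ℝ, 0 < C ∧ ∀ z, Sf F z ≤ C * (1 + infDist z (Al P1 P2 F η)) := by
  have hK := hN.pos
  set A := Al P1 P2 F η with hA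
  set τ : ℝ := min (1 / 2) (1 / (12 * K)) with hτ
  have hτ0 : 0 < τ := by positivity
  have hτ1 : τ ≤ 1 / 2 := min_le_left _ _
  have hl2 : 0 < Real.log 2 := Real.log_pos (by norm_num)
  have hl4 : 0 < Real.log (4 / τ) := Real.log_pos (by
    rw [lt_div_iff₀ hτ0]
    linarith)
  set Q : ℝ := 54 * K ^ 2 with hQ
  have hQ0 : 0 < Q := by positivity
  set L : ℝ := Real.log (4 / τ) / Real.log 2 with hL
  have hL0 : 0 < L := by positivity
  refine ⟨3 * (2 * K * L + 6 * Q * L) + 3 + K, by positivity, fun z => ?_⟩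
  set r := infDist z A with hr
  have hr0 : 0 ≤ r := infDist_nonneg
  by_cases hz : z ∈ A
  · have h1 := (hN.al z hz).1
    have h2 : 0 ≤ 3 * (2 * K * L + 6 * Q * L) + 3 := by positivity
    nlinarith
  have hrp : 0 < r := (hN.cl.notMem_iff_infDist_pos hN.ne).1 hz
  obtain ⟨a, ha, haz⟩ := hN.cl.exists_infDist_eq_dist hN.ne z
  have hza : ‖a - z‖ = r := by
    rw [norm_sub_rev, ← dist_eq_norm]
    exact haz.symm
  have hball : ∀ w ∈ ball z r, w ∉ A := by
    intro w hw hwA
    have h1 : infDist z A ≤ dist z w := infDist_le_dist_of_mem hwA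
    rw [mem_ball, dist_comm] at hw
    linarith
  have hLip : ∀ w ∈ ball z (r / 2), Lip F w (2 * K / r) := by
    intro w hw
    have h1 := hN.sp w (r / 2) (by positivity) (fun u hu => hball u (by
      rw [mem_ball] at hw hu ⊢
      have := dist_triangle u w z
      linarith))
    refine h1.mono (le_of_eq ?_)
    field_simp
  set m : ℝ := max ((Sf F z + K) / 3 - 1) 0 with hm
  have hm0 : 0 ≤ m := le_max_right _ _
  have h1 := hF.annulus2 hN.lo (z := z) (ρ := τ * r / 2) (R := 2 * r) (m := m)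
    (W0 := Q * qf z.re + 4 * Q * r) (by positivity) (by nlinarith) hm0 (fun w hw => by
      have h2 := (hN.harnack hF hrp hLip (w := w) (by rw [hw])).1
      have h3 := hN.lo w
      have h4 : m ≤ Sf F w + K := max_le (by linarith) (by linarith)
      linarith) (W := fun w => Q * qf w.re)
      (continuous_const.mul (cont_qf.comp Complex.continuous_re)) (fun w => by
        refine ⟨K / (1 + |w.re|), _, ?_, hN.sp2 w, (LS.qf w).cmul hQ0.le⟩
        have : 0 < 1 + |w.re| := by positivity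
        rw [hQ]
        apply le_of_eq
        field_simp
        norm_num) (fun w hw => by
        have h2 := qf_lip w.re z.re
        have h3 := Complex.abs_re_le_norm (w - z)
        rw [Complex.sub_re] at h3
        have h4 : qf w.re - qf z.re ≤ 4 * r := by linarith
        have h5 : Q * (qf w.re - qf z.re) ≤ Q * (4 * r) := mul_le_mul_of_nonneg_left h4 hQ0.le
        linarith) (w := a) (by rw [hza]; nlinarith) (by rw [hza]; linarith)
  rw [hza] at h1
  have e1 : 2 * r / (τ * r / 2) = 4 / τ := by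
    field_simp
    norm_num
  have e2 : 2 * r / r = 2 := by field_simp
  rw [e1, e2] at h1
  have h2 := (hN.al a ha).1
  have h3 := qf_lip z.re a.re
  have h4 := Complex.abs_re_le_norm (a - z)
  rw [Complex.sub_re, abs_sub_comm, hza] at h4
  have h5 : Q * (qf z.re - qf a.re) ≤ Q * (2 * r) :=
    mul_le_mul_of_nonneg_left (by linarith) hQ0.le
  have h6 : m / Real.log (4 / τ) * Real.log 2 ≤ 2 * K + 6 * Q * r := by linarith
  have h7 : m ≤ (2 * K + 6 * Q * r) * L := by
    rw [div_mul_eq_mul_div, div_le_iff₀ hl4] at h6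
    rw [hL, mul_div_assoc', le_div_iff₀ hl2]
    exact h6
  have h8 : (Sf F z + K) / 3 - 1 ≤ m := le_max_left _ _
  have h9 : 0 ≤ 2 * K * L * r := by positivity
  have h10 : 0 ≤ 6 * Q * L := by positivity
  have h11 : 0 ≤ r * (3 + K) := by positivity
  nlinarith

end Pool.Agent.H915
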