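import Pool.Agent.H915.TC.Rig2

/-!
Rigidity: points near the axis.
-/

set_option autoImplicit false

open Filter Topology Metric Set MvPolynomial

namespace Pool.Agent.H915

/-- the harmonic function with the values `(π / 2) |x|` on the line `Re ζ = 0` -/
noncomputable def eh (ρ : ℝ) (ζ : ℂ) : ℝ :=
  ζ.re * (Real.log ρ - Real.log ‖ζ‖) + ζ.im * ζ.arg

theorem eh_cont (ρ : ℝ) : ContinuousOn (eh ρ) {ζ | 0 ≤ ζ.re} := by
  intro ζ hζ
  have hζ' : 0 ≤ ζ.re := hζ
  by_cases h0 : ζ = 0
  · subst h0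
    have e0 : eh ρ 0 = 0 := by simp [eh]
    apply ContinuousAt.continuousWithinAt
    unfold ContinuousAt
    rw [e0]
    have h1 : ∀ ζ : ℂ, ‖eh ρ ζ‖ ≤ ‖ζ‖ * |Real.log ρ| + |‖ζ‖ * Real.log ‖ζ‖| + ‖ζ‖ * Real.pi := by
      intro ζ
      unfold eh
      have a1 := Complex.abs_re_le_norm ζ
      have a2 := Complex.abs_im_le_norm ζ
      have a3 := Complex.abs_arg_le_pi ζ
      rw [Real.norm_eq_abs]
      refine (abs_add_le _ _).trans ?_
      rw [abs_mul, abs_mul]
      have a4 : |Real.log ρ - Real.log ‖ζ‖| ≤ |Real.log ρ| + |Real.log ‖ζ‖| := abs_sub _ _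
      have a5 : |ζ.re| * |Real.log ρ - Real.log ‖ζ‖| ≤ ‖ζ‖ * (|Real.log ρ| + |Real.log ‖ζ‖|) := by
        gcongr
      have a6 : |ζ.im| * |ζ.arg| ≤ ‖ζ‖ * Real.pi := by gcongr
      rw [abs_mul, abs_norm]
      nlinarith
    apply squeeze_zero_norm h1
    have c1 : Continuous fun ζ : ℂ => ‖ζ‖ * |Real.log ρ| + |‖ζ‖ * Real.log ‖ζ‖| + ‖ζ‖ * Real.pi := by
      have c2 : Continuous fun ζ : ℂ => ‖ζ‖ * Real.log ‖ζ‖ :=
        Real.continuous_mul_log.comp continuous_norm
      fun_prop
    have := c1.tendsto 0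
    simpa using this
  · apply ContinuousAt.continuousWithinAt
    have hs : ζ ∈ Complex.slitPlane := by
      rw [Complex.mem_slitPlane_iff]
      rcases hζ'.lt_or_eq with h1 | h1
      · exact Or.inl h1
      · right
        intro h2
        exact h0 (Complex.ext h1.symm h2)
    unfold eh
    apply ContinuousAt.add
    · apply Complex.continuous_re.continuousAt.mul
      apply continuousAt_const.sub
      exact continuous_norm.continuousAt.log (norm_ne_zero_iff.2 h0)
    · exact Complex.continuous_im.continuousAt.mul (Complex.continuousAt_arg hs)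

theorem im_arg_nonneg (ζ : ℂ) : 0 ≤ ζ.im * ζ.arg := by
  rcases le_or_gt 0 ζ.im with h | h
  · exact mul_nonneg h (Complex.arg_nonneg_iff.2 h)
  · exact mul_nonneg_of_nonpos_of_nonpos h.le (Complex.arg_neg_iff.2 h).le

theorem im_arg_le {ζ : ℂ} (h : 0 ≤ ζ.re) : ζ.im * ζ.arg ≤ Real.pi / 2 * |ζ.im| := by
  have h1 : |ζ.arg| ≤ Real.pi / 2 := Complex.abs_arg_le_pi_div_two_iff.2 h
  calc ζ.im * ζ.arg ≤ |ζ.im * ζ.arg| := le_abs_self _
    _ = |ζ.im| * |ζ.arg| := abs_mul _ _
    _ ≤ |ζ.im| * (Real.pi / 2) := by gcongr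
    _ = _ := by ring

variable {P1 P2 : Poly} {e m : ℕ} {c1 c C a b ε0 C0 : ℝ} {F G : ℂ → V} {nn : V → V → V}

variable (h : RS P1 P2 m c1 c C a b ε0 C0 nn F G)

include h

/-- the second case: points near the axis -/
theorem RS.caseA {X0 L W1 s ρ y : ℝ} (hX0 : 0 < X0) (hW1 : W1 = Real.exp ((|a| + b) * (X0 + 1)))
    (hs : s = ε0 * (c / W1) / (8 * (C * W1)) / 2)
    (hcl : ∀ z : ℂ, ‖z‖ ≤ L → ‖G z - F z‖ ≤ ε0 * ‖F z‖) {z1 : ℂ} (hz1 : ‖z1‖ = L)
    (hd : ε0 * ‖F z1‖ ≤ ‖G z1 - F z1‖) (hx : |z1.re| < X0) (hy : y = |z1.im|)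
    (hρ : 0 < ρ) (hρ2 : ρ ^ 2 = s * y) (hsy : s ≤ y) (hsρ : s + X0 ≤ ρ)
    (hfin : 2 * ε0 / (c1 * c ^ m) * Real.exp (m * b * X0 -
      m * b * (2 / Real.pi * (s * (Real.log ρ - Real.log (s + X0))))) <
      ε0 * (c / W1) / (2 * (C * W1)) / (C0 * C ^ m)) : False := by
  have hC := h.Cp
  have hc := h.cp
  have hC0 := h.C0p
  have hε := h.ep
  have hb := h.bp
  have hcC := h.cC
  have hpi := Real.pi_pos
  have hW1p : 0 < W1 := by rw [hW1]; exact Real.exp_pos _
  have hW11 : 1 ≤ W1 := by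
    rw [hW1]
    apply Real.one_le_exp
    positivity
  set C' : ℝ := C * W1 with hC'
  set c' : ℝ := c / W1 with hc'
  have hC'0 : 0 < C' := by positivity
  have hc'0 : 0 < c' := by positivity
  have hcC' : c' ≤ C' := by
    rw [hc', hC']
    calc c / W1 ≤ c := div_le_self hc.le hW11
      _ ≤ C * 1 := by rw [mul_one]; exact hcC
      _ ≤ C * W1 := by gcongr
  set t : ℝ := ε0 * c' / (8 * C') with ht
  have ht0 : 0 < t := by positivity
  have hst : s = t / 2 := hs
  have hs0 : 0 < s := by rw [hst]; positivity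
  have ht1 : t < 1 := by
    rw [ht, div_lt_one (by positivity)]
    have := h.e1
    nlinarith
  -- bounds near the point
  have hWb : ∀ w ∈ ball z1 1, W a b w ≤ W1 ∧ 1 / W1 ≤ W a b w := by
    intro w hw
    rw [mem_ball, dist_eq_norm] at hw
    have h1 := (Complex.abs_re_le_norm (w - z1)).trans_lt hw
    rw [Complex.sub_re] at h1
    have h2 : |w.re| ≤ X0 + 1 := by
      have := abs_sub_abs_le_abs_sub w.re z1.re
      linarith
    have h3 : |a * w.re| = |a| * |w.re| := abs_mul _ _
    have h4 := abs_le.1 (le_refl |a * w.re|)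
    have h5 : |a| * |w.re| ≤ |a| * (X0 + 1) := by gcongr
    have h6 : b * |w.re| ≤ b * (X0 + 1) := by gcongr
    have h7 : 0 ≤ b * |w.re| := by positivity
    rw [hW1, one_div, ← Real.exp_neg]
    unfold W
    constructor
    · apply Real.exp_le_exp.2
      linarith
    · apply Real.exp_le_exp.2
      nlinarith [abs_nonneg a]
  have key : ∀ H : ℂ → V, Crv P1 P2 (m + 1) c1 c C a b H → ∀ w ∈ ball z1 1,
      c' ≤ ‖H w‖ ∧ ‖H w‖ ≤ C' := by
    intro H hH w hw
    obtain ⟨h1, h2⟩ := hWb w hw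
    refine ⟨le_trans ?_ (hH.low w), (hH.up w).trans ?_⟩
    · rw [hc', div_eq_mul_one_div]
      gcongr
    · rw [hC']
      gcongr
  set τ : ℝ := if 0 ≤ z1.im then 1 else -1 with hτ
  have hτy : τ * z1.im = y := by
    rw [hτ, hy]
    split_ifs with h0
    · rw [abs_of_nonneg h0, one_mul]
    · push Not at h0
      rw [abs_of_neg h0]
      ring
  have hττ : τ * τ = 1 := by
    rw [hτ]
    split_ifs <;> norm_num
  have hτa : |τ| = 1 := by
    rw [hτ]
    split_ifs <;> simp
  set z : ℂ := z1 - (τ * t : ℝ) * Complex.I with hz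
  have hzz : ‖z - z1‖ = t := by
    have e1 : z - z1 = -((τ * t : ℝ) * Complex.I) := by rw [hz]; ring
    rw [e1, norm_neg, norm_mul, Complex.norm_I, mul_one, Complex.norm_real, Real.norm_eq_abs,
      abs_mul, hτa, one_mul, abs_of_pos ht0]
  have hzb : z ∈ ball z1 1 := by
    rw [mem_ball, dist_eq_norm, hzz]
    exact ht1
  have hz1b : z1 ∈ ball z1 1 := mem_ball_self one_pos
  have hlip : ∀ H : ℂ → V, Crv P1 P2 (m + 1) c1 c C a b H → ‖H z - H z1‖ ≤ 2 * C' * t := by
    intro H hH
    have := lip (f := H) (z0 := z1) (r := 1) (B := C') hH.dif.differentiableOn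
      (fun w hw => (key H hH w hw).2) hzb
    rw [hzz, div_one] at this
    exact this
  have h4 : ε0 * c' / 2 ≤ ‖G z - F z‖ := by
    have e1 : G z1 - F z1 = (G z - F z) - (G z - G z1) + (F z - F z1) := by abel
    have h5 := norm_add_le (G z - F z - (G z - G z1)) (F z - F z1)
    have h6 := norm_sub_le (G z - F z) (G z - G z1)
    rw [← e1] at h5
    have h7 : 2 * C' * t + 2 * C' * t = ε0 * c' / 2 := by
      rw [ht]
      field_simp
      norm_num
    have h8 := hlip F h.F
    have h9 := hlip G h.G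
    have h10 : ε0 * c' ≤ ε0 * ‖F z1‖ := by
      have := (key F h.F z1 hz1b).1
      gcongr
    linarith
  -- the position of the point
  have hzre : z.re = z1.re := by simp [hz]
  have hzim : z.im = z1.im - τ * t := by simp [hz]
  set ζ : ℂ → ℂ := fun w => τ * Complex.I * (w - (τ * (y - s) : ℝ) * Complex.I) with hζ
  have hζre : ∀ w, (ζ w).re = (y - s) - τ * w.im := by
    intro w
    have : (ζ w).re = -(τ * (w.im - τ * (y - s))) := by
      simp [hζ]
    rw [this]
    linear_combination (y - s) * hττ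
  have hζim : ∀ w, (ζ w).im = τ * w.re := by
    intro w
    simp [hζ]
  have hζn : ∀ w : ℂ, ‖w‖ ^ 2 = (y - s) ^ 2 + ‖ζ w‖ ^ 2 - 2 * (y - s) * (ζ w).re := by
    intro w
    have e3 : ∀ u : ℂ, ‖u‖ ^ 2 = u.re ^ 2 + u.im ^ 2 := by
      intro u
      rw [← Complex.normSq_eq_norm_sq, Complex.normSq_apply]
      ring
    rw [e3 w, e3 (ζ w), hζre, hζim]
    linear_combination (-(w.im ^ 2) - w.re ^ 2) * hττ
  set K : Set ℂ := {w | 0 ≤ (ζ w).re ∧ ‖ζ w‖ ≤ ρ} with hK
  have hζc : Continuous ζ := by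
    rw [hζ]
    fun_prop
  have hKL : ∀ w ∈ K, ‖w‖ ≤ L := by
    rintro w ⟨h1, h2⟩
    have h3 := hζn w
    have h5 : ‖ζ w‖ ^ 2 ≤ ρ ^ 2 := by gcongr
    have h6 : 0 ≤ (y - s) * (ζ w).re := mul_nonneg (by linarith) h1
    have h7 : ‖w‖ ^ 2 ≤ y ^ 2 := by nlinarith
    have h8 : y ≤ L := by
      rw [hy, ← hz1]
      exact Complex.abs_im_le_norm z1
    have h9 : ‖w‖ ≤ y := by
      apply le_of_sq_le_sq _ (by linarith)
      exact h7
    exact h9.trans h8
  have hKc : IsCompact K := by
    apply (isCompact_closedBall (0 : ℂ) L).of_isClosed_subset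
    · exact (isClosed_le continuous_const (Complex.continuous_re.comp hζc)).inter
        (isClosed_le hζc.norm continuous_const)
    · intro w hw
      exact mem_closedBall_zero_iff.2 (hKL w hw)
  -- the maximum principle
  set ψ : ℂ → ℝ := fun w => m * b * (-|w.re| + 2 / Real.pi * eh ρ (ζ w)) with hψ
  have hre : ∀ w, |(ζ w).im| = |w.re| := by
    intro w
    rw [hζim, abs_mul, hτa, one_mul]
  have hmax := h.core hKc (fun w hw => hcl w (hKL w hw)) (ψ := ψ) (by
      apply continuousOn_const.mul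
      apply ContinuousOn.add
      · exact (continuous_abs.comp Complex.continuous_re).neg.continuousOn
      · apply continuousOn_const.mul
        exact (eh_cont ρ).comp hζc.continuousOn fun w hw => hw.1) h.Mp (by
    intro w hw
    have hbd : eh ρ (ζ w) ≤ (ζ w).im * (ζ w).arg → u0 m a b nn F G w * Real.exp (ψ w) ≤
        2 * ε0 / (c1 * c ^ m) := by
      intro h1
      have h2 := h1.trans (im_arg_le hw.1)
      rw [hre] at h2
      have h3 : ψ w ≤ 0 := by
        rw [hψ]
        apply mul_nonpos_of_nonneg_of_nonpos (by positivity)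
        have h5 : 2 / Real.pi * eh ρ (ζ w) ≤ 2 / Real.pi * (Real.pi / 2 * |w.re|) := by gcongr
        have h6 : 2 / Real.pi * (Real.pi / 2 * |w.re|) = |w.re| := by field_simp
        linarith
      have h5 := h.u0_le (hcl w (hKL w hw))
      have h6 := u0_nn (m := m) (a := a) (b := b) (nn := nn) (F := F) (G := G) w
      calc u0 m a b nn F G w * Real.exp (ψ w) ≤ u0 m a b nn F G w * 1 := by
            gcongr
            exact Real.exp_le_one_iff.2 h3
        _ ≤ _ := by rw [mul_one]; exact h5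
    rcases hw.1.lt_or_eq with h1 | h1
    · rcases hw.2.lt_or_eq with h2 | h2
      · right
        constructor
        · have e1 : ∀ᶠ v in 𝓝 w, 0 < (ζ v).re :=
            (Complex.continuous_re.comp hζc).continuousAt.eventually (lt_mem_nhds h1)
          have e2 : ∀ᶠ v in 𝓝 w, ‖ζ v‖ < ρ :=
            hζc.norm.continuousAt.eventually (gt_mem_nhds h2)
          filter_upwards [e1, e2] with v hv1 hv2
          exact ⟨hv1.le, hv2.le⟩
        · have hsl : ζ w ∈ Complex.slitPlane := Or.inl h1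
          have hζa : AnalyticAt ℂ ζ w := by
            rw [hζ]
            fun_prop
          have h3 : AnalyticAt ℂ (fun v => ((m * a : ℝ) : ℂ) * v + ((m * b * (2 / Real.pi) : ℝ) : ℂ) *
              (ζ v * ((Real.log ρ : ℝ) - Complex.log (ζ v)))) w := by
            apply AnalyticAt.add
            · fun_prop
            · apply analyticAt_const.mul
              exact hζa.mul (analyticAt_const.sub (hζa.clog hsl))
          refine (LS.re h3).congr (Eventually.of_forall fun v => ?_)
          have e1 : (ζ v * ((Real.log ρ : ℝ) - Complex.log (ζ v))).re = eh ρ (ζ v) := by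
            rw [Complex.mul_re, Complex.sub_re, Complex.sub_im, Complex.ofReal_re,
              Complex.ofReal_im, Complex.log_re, Complex.log_im]
            unfold eh
            ring
          change (((m * a : ℝ) : ℂ) * v + ((m * b * (2 / Real.pi) : ℝ) : ℂ) *
              (ζ v * ((Real.log ρ : ℝ) - Complex.log (ζ v)))).re = _
          rw [Complex.add_re, Complex.re_ofReal_mul, Complex.re_ofReal_mul, e1, hψ]
          ring
      · left
        apply hbd
        unfold eh
        rw [h2, sub_self, mul_zero, zero_add]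
    · left
      apply hbd
      unfold eh
      rw [← h1, zero_mul, zero_add])
  have hζz : (ζ z).re = s := by
    rw [hζre, hzim, hst]
    linear_combination (-1 : ℝ) * hτy + t * hττ
  have hζzn : ‖ζ z‖ ≤ s + X0 := by
    refine (Complex.norm_le_abs_re_add_abs_im _).trans ?_
    rw [hre, hζz, abs_of_pos hs0, hzre]
    linarith
  have hzK : z ∈ K := ⟨by rw [hζz]; exact hs0.le, hζzn.trans hsρ⟩
  have h5 := hmax z hzK
  have h6 : s * (Real.log ρ - Real.log (s + X0)) ≤ eh ρ (ζ z) := by
    unfold eh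
    rw [hζz]
    have h7 := im_arg_nonneg (ζ z)
    have h8 : 0 < ‖ζ z‖ := by
      apply norm_pos_iff.2
      intro h0
      rw [h0, Complex.zero_re] at hζz
      exact hs0.ne hζz
    have h9 := Real.log_le_log h8 hζzn
    have h10 : s * (Real.log ρ - Real.log (s + X0)) ≤ s * (Real.log ρ - Real.log ‖ζ z‖) := by
      gcongr
    linarith
  have h7 : -(m * b * X0) + m * b * (2 / Real.pi * (s * (Real.log ρ - Real.log (s + X0)))) ≤ ψ z := by
    rw [hψ]
    simp only
    rw [hzre]
    have h8 : m * b * (2 / Real.pi * (s * (Real.log ρ - Real.log (s + X0)))) ≤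
      m * b * (2 / Real.pi * eh ρ (ζ z)) := by gcongr
    have h9 : m * b * |z1.re| ≤ m * b * X0 := by gcongr
    linarith
  have h8 : u0 m a b nn F G z ≤ 2 * ε0 / (c1 * c ^ m) * Real.exp (-ψ z) := by
    rw [Real.exp_neg, ← div_eq_mul_inv, le_div_iff₀ (Real.exp_pos _)]
    exact h5
  have h9 : ε0 * c' / (2 * C') / (C0 * C ^ m) ≤ u0 m a b nn F G z := by
    have hzL : ‖z‖ ≤ L := hKL z hzK
    refine le_trans ?_ (h.le_u0 (hcl z hzL))
    have hFz := h.Fpos z
    have h10 : ε0 * c' / (2 * C') ≤ ‖G z - F z‖ / ‖F z‖ := by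
      rw [le_div_iff₀ hFz]
      calc ε0 * c' / (2 * C') * ‖F z‖ ≤ ε0 * c' / (2 * C') * C' := by
            have := (key F h.F z hzb).2
            gcongr
        _ = ε0 * c' / 2 := by field_simp
        _ ≤ _ := h4
    gcongr
  have h10 : 2 * ε0 / (c1 * c ^ m) * Real.exp (-ψ z) ≤ 2 * ε0 / (c1 * c ^ m) *
      Real.exp (m * b * X0 - m * b * (2 / Real.pi * (s * (Real.log ρ - Real.log (s + X0))))) := by
    have := h.Mp
    apply mul_le_mul_of_nonneg_left _ this.le
    apply Real.exp_le_exp.2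
    linarith
  linarith

end Pool.Agent.H915
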