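import Pool.Agent.H915.TC.Gr4
import Pool.Agent.H915.TC.Rig3

/-!
Normalised entire curves in the complement: there are alive points in every half plane above a
horizontal line.
-/

set_option autoImplicit false

open Filter Topology Metric Set MvPolynomial

namespace Pool.Agent.H915

open Pool.Agent.Y190.OP

variable {P1 P2 : Poly} {e1 e2 : ℕ} {F : ℂ → V} {M B : ℝ} {h : ℂ → ℂ} {η K : ℝ}

theorem hyper_ge' (R : ℝ) : ∀ᶠ n : ℕ in (hyperfilter ℕ : Filter ℕ), R ≤ n := by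
  have h2 : ∀ᶠ n : ℕ in atTop, R ≤ n := by
    filter_upwards [eventually_ge_atTop ⌈R⌉₊] with n hn
    exact (Nat.le_ceil R).trans (by exact_mod_cast hn)
  have h3 : ((hyperfilter ℕ : Ultrafilter ℕ) : Filter ℕ) ≤ atTop := by
    rw [← Nat.cofinite_eq_atTop]
    exact hyperfilter_le_cofinite
  exact h3 h2

/-- the first form on the right -/
theorem ND.pe1_le (hS : SNC P1 P2 e1 e2) (hF : EC P1 P2 F M h) (hN : ND P1 P2 e2 F η K) (z : ℂ) :
    ‖pe P1 (Phi (F z))‖ ≤ Real.exp ((K + 1 - z.re / (e2 + 1 : ℕ)) * (e1 + 1 : ℕ)) := by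
  have h1 := pe_le hS.h1 (hF.ne z)
  rw [hF.v1, norm_one] at h1
  have hn : 0 < ‖F z‖ := norm_pos_iff.2 (hF.ne z)
  have h2 := Sf_le (hF.ne z)
  have h3 := hN.lo2 z
  have h4 : z.re / (e2 + 1 : ℕ) - K - 1 ≤ Real.log ‖F z‖ := by linarith
  have h5 : Real.exp (z.re / (e2 + 1 : ℕ) - K - 1) ≤ ‖F z‖ := by
    rw [← Real.exp_log hn]
    exact Real.exp_le_exp.2 h4
  have h6 : Real.exp (z.re / (e2 + 1 : ℕ) - K - 1) ^ (e1 + 1) ≤ ‖F z‖ ^ (e1 + 1) :=
    pow_le_pow_left₀ (Real.exp_pos _).le h5 _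
  have h7 : ‖pe P1 (Phi (F z))‖ * Real.exp (z.re / (e2 + 1 : ℕ) - K - 1) ^ (e1 + 1) ≤ 1 :=
    (mul_le_mul_of_nonneg_left h6 (norm_nonneg _)).trans h1
  rw [← Real.exp_nat_mul, ← le_div_iff₀ (Real.exp_pos _), one_div, ← Real.exp_neg] at h7
  refine h7.trans (le_of_eq ?_)
  congr 1
  ring

/-- the second form on the left -/
theorem ND.pe2_le (hS : SNC P1 P2 e1 e2) (hF : EC P1 P2 F M (fun z => z)) (hN : ND P1 P2 e2 F η K)
    (z : ℂ) : ‖pe P2 (Phi (F z))‖ ≤ Real.exp (z.re + (K + 1) * (e2 + 1 : ℕ)) := by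
  have h1 := pe_le hS.h2 (hF.ne z)
  rw [hF.v2, Complex.norm_exp] at h1
  have hn : 0 < ‖F z‖ := norm_pos_iff.2 (hF.ne z)
  have h2 := Sf_le (hF.ne z)
  have h3 := hN.lo z
  have h4 : -K - 1 ≤ Real.log ‖F z‖ := by linarith
  have h5 : Real.exp (-K - 1) ≤ ‖F z‖ := by
    rw [← Real.exp_log hn]
    exact Real.exp_le_exp.2 h4
  have h6 : Real.exp (-K - 1) ^ (e2 + 1) ≤ ‖F z‖ ^ (e2 + 1) :=
    pow_le_pow_left₀ (Real.exp_pos _).le h5 _
  have h7 : ‖pe P2 (Phi (F z))‖ * Real.exp (-K - 1) ^ (e2 + 1) ≤ Real.exp z.re :=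
    (mul_le_mul_of_nonneg_left h6 (norm_nonneg _)).trans h1
  rw [← Real.exp_nat_mul, ← le_div_iff₀ (Real.exp_pos _), ← Real.exp_sub] at h7
  refine h7.trans (le_of_eq ?_)
  congr 1
  ring

/-- limits of rescaled curves along a connected domain on which the speed is at most `C / |z|` -/
theorem EC.rescaled (hS : SNC P1 P2 e1 e2) (hF : EC P1 P2 F M (fun z => z))
    (hN : ND P1 P2 e2 F η K) {r : ℕ → ℝ} (hr : ∀ n : ℕ, (n : ℝ) + 1 ≤ r n) {U : Set ℂ}
    (hU : IsOpen U) (hUc : IsPreconnected U) (hm1U : (-1 : ℂ) ∈ U)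
    (hs : ∀ w0 ∈ U, ∃ t C : ℝ, 0 < t ∧ 0 ≤ C ∧ ∀ w ∈ ball w0 t, ∀ n : ℕ,
      Lip F (r n * w) (C / r n)) :
    ∃ H : ℂ → Mat 3, CConv ((hyperfilter ℕ : Ultrafilter ℕ) : Filter ℕ) U
      (fun n w => Phi (F (r n * w))) H ∧ HolP U H ∧ (∀ w ∈ U, pe P2 (H w) = 0) ∧
      ((1 : ℂ) ∈ U → ∀ w ∈ U, pe P1 (H w) = 0) := by
  have hr0 : ∀ n, 0 < r n := fun n => lt_of_lt_of_le (by positivity) (hr n)
  have hhol := holP_Phi hF.dif hF.ne
  have haff : ∀ n, (fun w : ℂ => Phi (F (r n * w))) = fun w => (fun z => Phi (F z)) (Y190.OP.aff 0 (r n) w) := by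
    intro n
    funext w
    simp [Y190.OP.aff]
  have hholn : ∀ n, HolP univ (fun w : ℂ => Phi (F (r n * w))) := by
    intro n
    rw [haff]
    exact (hhol.aff 0 (r n)).mono (by simp)
  obtain ⟨H, hc, hH, -⟩ := nf_limit (l := hyperfilter ℕ) hU
    (h := fun n w => Phi (F (r n * w))) (fun w0 hw0 => by
      obtain ⟨t, C, ht, hC0, htC⟩ := hs w0 hw0
      refine ⟨t, C, ht, Eventually.of_forall fun n => ⟨(hholn n).mono (subset_univ _),
        fun w hw => ?_⟩⟩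
      have hd : DifferentiableAt ℝ (fun z => Phi (F z)) (Y190.OP.aff 0 (r n) w) :=
        hhol.differentiableAt (mem_univ _)
      rw [haff, norm_fderiv_aff (hr0 n).le hd]
      have hL := htC w hw n
      have e : Y190.OP.aff 0 (r n) w = r n * w := by simp [Y190.OP.aff]
      rw [e] at hd ⊢
      have h1 := hd.hasFDerivAt.le_of_lip' (C := C / r n) (div_nonneg hC0 (hr0 n).le) hL
      have h2 : r n * ‖fderiv ℝ (fun z => Phi (F z)) (r n * w)‖ ≤ r n * (C / r n) :=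
        mul_le_mul_of_nonneg_left h1 (hr0 n).le
      rwa [mul_div_cancel₀ _ (hr0 n).ne'] at h2)
  have hd : ∀ {P : Poly} {d : ℕ}, P.IsHomogeneous d → (∀ z, pe P (Phi (F z)) ≠ 0) →
      (∃ w ∈ U, pe P (H w) = 0) → ∀ w ∈ U, pe P (H w) = 0 := by
    intro P d hP hne ⟨w, hw, hw0⟩
    rcases dich hP hU hUc (fun z _ => ⟨1, one_pos, Eventually.of_forall fun n =>
      ⟨(hholn n).mono (subset_univ _), fun w _ => hne _⟩⟩) hc hH with h1 | h1
    · exact h1
    · exact absurd hw0 (h1 w hw)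
  refine ⟨H, hc, hH, ?_, fun h1 => ?_⟩
  · refine hd hS.h2 (fun z => (hF.pe_ne hS z).2) ⟨-1, hm1U, ?_⟩
    have c1 : Tendsto (fun n => pe P2 (Phi (F (r n * (-1 : ℂ))))) (hyperfilter ℕ : Filter ℕ)
        (𝓝 (pe P2 (H (-1)))) := ((cont_pe P2).tendsto _).comp (hc.pointwise hm1U)
    have c2 : Tendsto (fun n => pe P2 (Phi (F (r n * (-1 : ℂ))))) (hyperfilter ℕ : Filter ℕ)
        (𝓝 0) := by
      rw [Metric.tendsto_nhds]
      intro ε hε
      filter_upwards [hyper_ge' ((K + 1) * (e2 + 1 : ℕ) - Real.log ε)] with n hn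
      rw [dist_zero_right]
      refine (hN.pe2_le hS hF _).trans_lt ?_
      rw [← Real.lt_log_iff_exp_lt hε]
      have e : ((r n : ℂ) * (-1)).re = -r n := by simp
      rw [e]
      have := hr n
      linarith
    exact tendsto_nhds_unique c1 c2
  · refine hd hS.h1 (fun z => (hF.pe_ne hS z).1) ⟨1, h1, ?_⟩
    have c1 : Tendsto (fun n => pe P1 (Phi (F (r n * (1 : ℂ))))) (hyperfilter ℕ : Filter ℕ)
        (𝓝 (pe P1 (H 1))) := ((cont_pe P1).tendsto _).comp (hc.pointwise h1)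
    have c2 : Tendsto (fun n => pe P1 (Phi (F (r n * (1 : ℂ))))) (hyperfilter ℕ : Filter ℕ)
        (𝓝 0) := by
      rw [Metric.tendsto_nhds]
      intro ε hε
      have hd2 : (0 : ℝ) < (e2 + 1 : ℕ) := by positivity
      have hd1 : (1 : ℝ) ≤ (e1 + 1 : ℕ) := by exact_mod_cast Nat.succ_pos e1
      filter_upwards [hyper_ge' ((e2 + 1 : ℕ) * (K + 1 + |Real.log ε|))] with n hn
      rw [dist_zero_right]
      refine (hN.pe1_le hS hF _).trans_lt ?_
      rw [← Real.lt_log_iff_exp_lt hε]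
      have e : ((r n : ℂ) * 1).re = r n := by simp
      rw [e]
      have h2 : (e2 + 1 : ℕ) * (K + 1 + |Real.log ε|) < r n := by
        have := hr n
        linarith
      have h3 : K + 1 + |Real.log ε| < r n / (e2 + 1 : ℕ) := by
        rw [lt_div_iff₀ hd2]
        linarith
      have h4 := neg_abs_le (Real.log ε)
      have h5 := abs_nonneg (Real.log ε)
      have h6 : K + 1 - r n / (e2 + 1 : ℕ) < -|Real.log ε| := by linarith
      have h7 : (K + 1 - r n / (e2 + 1 : ℕ)) * (e1 + 1 : ℕ) ≤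
          (K + 1 - r n / (e2 + 1 : ℕ)) * 1 :=
        mul_le_mul_of_nonpos_left hd1 (by linarith)
      linarith
    exact tendsto_nhds_unique c1 c2

end Pool.Agent.H915
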