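import Pool.Agent.H915.TC.Gr5

/-!
Normalised entire curves in the complement: there are alive points in every half plane above a
horizontal line, II.
-/

set_option autoImplicit false

open Filter Topology Metric Set MvPolynomial

namespace Pool.Agent.H915

open Pool.Agent.Y190.OP

variable {P1 P2 : Poly} {e1 e2 : ℕ} {F : ℂ → V} {M B : ℝ} {h : ℂ → ℂ} {η K : ℝ}

/-- far points of a half plane without alive points are near the crossings -/
theorem ND.near_half (hS : SNC P1 P2 e1 e2) (hF : EC P1 P2 F M (fun z => z))
    (hN : ND P1 P2 e2 F η K) (hdead : ∀ z : ℂ, 0 < z.im → z ∉ Al P1 P2 F η) {δ : ℝ} (hδ : 0 < δ) :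
    ∃ R0 : ℝ, 1 ≤ R0 ∧ ∀ z : ℂ, R0 ≤ ‖z‖ → 0 ≤ z.im →
      ‖pe P1 (Phi (F z))‖ < δ ∧ ‖pe P2 (Phi (F z))‖ < δ := by
  by_contra hcon
  push Not at hcon
  have hK := hN.pos
  have hcon' : ∀ n : ℕ, ∃ z : ℂ, (n : ℝ) + 1 ≤ ‖z‖ ∧ 0 ≤ z.im ∧
      (‖pe P1 (Phi (F z))‖ < δ → δ ≤ ‖pe P2 (Phi (F z))‖) := by
    intro n
    exact hcon (n + 1) (by linarith [(Nat.cast_nonneg n : (0 : ℝ) ≤ n)])
  choose z hz hz2 hz3 using hcon'
  set U : Set ℂ := {w : ℂ | 0 < w.im} ∪ ({w : ℂ | 0 < w.re} ∪ {w : ℂ | w.re < 0}) with hUd
  have o1 : IsOpen {w : ℂ | 0 < w.im} := isOpen_lt continuous_const Complex.continuous_im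
  have o2 : IsOpen {w : ℂ | 0 < w.re} := isOpen_lt continuous_const Complex.continuous_re
  have o3 : IsOpen {w : ℂ | w.re < 0} := isOpen_lt Complex.continuous_re continuous_const
  have hU : IsOpen U := o1.union (o2.union o3)
  have c1 : IsPreconnected {w : ℂ | 0 < w.im} := (convex_halfSpace_im_gt 0).isPreconnected
  have c2 : IsPreconnected {w : ℂ | 0 < w.re} := (convex_halfSpace_re_gt 0).isPreconnected
  have c3 : IsPreconnected {w : ℂ | w.re < 0} := (convex_halfSpace_re_lt 0).isPreconnected
  have hUc : IsPreconnected U := by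
    have h1 : IsPreconnected ({w : ℂ | 0 < w.im} ∪ {w : ℂ | 0 < w.re}) :=
      c1.union (1 + Complex.I) (by simp) (by simp) c2
    have h2 : IsPreconnected (({w : ℂ | 0 < w.im} ∪ {w : ℂ | 0 < w.re}) ∪ {w : ℂ | w.re < 0}) :=
      h1.union (-1 + Complex.I) (by simp) (by simp) c3
    rwa [union_assoc] at h2
  obtain ⟨H, hc, hH, hH2, hH1⟩ := hF.rescaled hS hN (r := fun n => ‖z n‖) hz hU hUc
    (by right; right; simp) (fun w0 hw0 => by
      by_cases hre : w0.re = 0
      · -- then `0 < Im w0`
        have him : 0 < w0.im := by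
          rcases hw0 with h1 | h1 | h1
          · exact h1
          · have h1' : 0 < w0.re := h1
            rw [hre] at h1'
            exact absurd h1' (lt_irrefl _)
          · have h1' : w0.re < 0 := h1
            rw [hre] at h1'
            exact absurd h1' (lt_irrefl _)
        refine ⟨w0.im / 2, K / (w0.im / 2), by positivity, by positivity, fun w hw n => ?_⟩
        have hrn : 0 < ‖z n‖ := lt_of_lt_of_le (by positivity) (hz n)
        rw [mem_ball, dist_eq_norm] at hw
        have h1 := Complex.abs_im_le_norm (w - w0)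
        rw [Complex.sub_im] at h1
        have h2 : w0.im / 2 < w.im := by
          have := neg_abs_le (w.im - w0.im)
          linarith
        have h3 := hN.sp (‖z n‖ * w) (‖z n‖ * (w0.im / 2)) (by positivity) (fun u hu => by
          apply hdead
          rw [mem_ball, dist_eq_norm] at hu
          have h4 := Complex.abs_im_le_norm (u - ‖z n‖ * w)
          rw [Complex.sub_im, Complex.im_ofReal_mul] at h4
          have h5 := neg_abs_le (u.im - ‖z n‖ * w.im)
          have h6 : ‖z n‖ * (w0.im / 2) < ‖z n‖ * w.im := mul_lt_mul_of_pos_left h2 hrn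
          linarith)
        refine h3.mono (le_of_eq ?_)
        rw [div_div, mul_comm]
      · have hre' : 0 < |w0.re| := abs_pos.2 hre
        refine ⟨|w0.re| / 2, K / (|w0.re| / 2), by positivity, by positivity, fun w hw n => ?_⟩
        have hrn : 0 < ‖z n‖ := lt_of_lt_of_le (by positivity) (hz n)
        rw [mem_ball, dist_eq_norm] at hw
        have h1 := Complex.abs_re_le_norm (w - w0)
        rw [Complex.sub_re] at h1
        have h2 : |w0.re| / 2 < |w.re| := by
          have := abs_sub_abs_le_abs_sub w0.re w.re
          rw [abs_sub_comm] at this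
          linarith
        refine (hN.sp2 (‖z n‖ * w)).mono ?_
        rw [Complex.re_ofReal_mul, abs_mul, abs_of_pos hrn, div_div]
        apply div_le_div_of_nonneg_left hK.le (by positivity)
        have : ‖z n‖ * (|w0.re| / 2) ≤ ‖z n‖ * |w.re| := by gcongr
        linarith)
  have hH1' := hH1 (by right; left; simp)
  -- the limit of the points
  set C0 : Set ℂ := {w : ℂ | ‖w‖ = 1 ∧ 0 ≤ w.im} with hC0
  have hC0c : IsCompact C0 := by
    apply (isCompact_sphere (0 : ℂ) 1).of_isClosed_subset
    · exact (isClosed_eq continuous_norm continuous_const).inter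
        (isClosed_le continuous_const Complex.continuous_im)
    · rintro w ⟨h1, -⟩
      rwa [mem_sphere_zero_iff_norm]
  set w : ℕ → ℂ := fun n => z n / ‖z n‖ with hw
  have hzn : ∀ n, 0 < ‖z n‖ := fun n => lt_of_lt_of_le (by positivity) (hz n)
  have hwC : ∀ n, w n ∈ C0 := by
    intro n
    refine ⟨?_, ?_⟩
    · rw [hw]
      simp only
      rw [norm_div, Complex.norm_real, norm_norm, div_self (hzn n).ne']
    · rw [hw]
      simp only
      rw [Complex.div_ofReal_im]
      exact div_nonneg (hz2 n) (hzn n).le
  set l : Ultrafilter ℕ := hyperfilter ℕ with hl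
  obtain ⟨ws, hws, hwt⟩ : ∃ y ∈ C0, Tendsto w l (𝓝 y) := by
    have h1 : (l.map w : Filter ℂ) ≤ 𝓟 C0 := by
      rw [Ultrafilter.coe_map, le_principal_iff, mem_map]
      exact Eventually.of_forall hwC
    obtain ⟨y, hy, hy'⟩ := hC0c.ultrafilter_le_nhds (l.map w) h1
    exact ⟨y, hy, hy'⟩
  have hwsU : ws ∈ U := by
    by_cases h1 : 0 < ws.im
    · exact Or.inl h1
    · have h2 : ws.im = 0 := le_antisymm (not_lt.1 h1) hws.2
      have h3 : ws.re ≠ 0 := by
        intro h3
        have h4 : ws = 0 := Complex.ext h3 h2
        have h5 := hws.1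
        rw [h4, norm_zero] at h5
        exact zero_ne_one h5
      rcases lt_or_gt_of_ne h3 with h4 | h4
      · exact Or.inr (Or.inr h4)
      · exact Or.inr (Or.inl h4)
  have hlim : Tendsto (fun n => Phi (F (z n))) l (𝓝 (H ws)) := by
    have h1 : Tendsto (fun n => (n, w n)) l ((l : Filter ℕ) ×ˢ 𝓝 ws) := tendsto_id.prodMk hwt
    have h2 := (hc ws hwsU).comp h1
    refine h2.congr fun n => ?_
    simp only [Function.comp_apply]
    rw [hw]
    simp only
    rw [mul_div_cancel₀]
    exact_mod_cast (hzn n).ne'
  have t1 : ∀ᶠ n in (l : Filter ℕ), ‖pe P1 (Phi (F (z n)))‖ < δ := by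
    have h1 := (((cont_pe P1).tendsto _).comp hlim).norm
    rw [hH1' ws hwsU, norm_zero] at h1
    exact h1.eventually_lt_const hδ
  have t2 : ∀ᶠ n in (l : Filter ℕ), ‖pe P2 (Phi (F (z n)))‖ < δ := by
    have h1 := (((cont_pe P2).tendsto _).comp hlim).norm
    rw [hH2 ws hwsU, norm_zero] at h1
    exact h1.eventually_lt_const hδ
  obtain ⟨n, hn1, hn2⟩ := (t1.and t2).exists
  exact absurd hn2 (not_lt.2 (hz3 n hn1))

/-- the closed upper half plane without a disc is connected -/
theorem preconn_half {R0 : ℝ} (hR0 : 0 < R0) :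
    IsPreconnected {z : ℂ | R0 ≤ ‖z‖ ∧ 0 ≤ z.im} := by
  have h1 : {z : ℂ | R0 ≤ ‖z‖ ∧ 0 ≤ z.im} =
      (fun p : ℝ × ℝ => (p.1 : ℂ) * Complex.exp (p.2 * Complex.I)) ''
        (Ici R0 ×ˢ Icc 0 Real.pi) := by
    ext z
    constructor
    · rintro ⟨h1, h2⟩
      refine ⟨(‖z‖, z.arg), ⟨h1, ⟨Complex.arg_nonneg_iff.2 h2, Complex.arg_le_pi z⟩⟩, ?_⟩
      exact Complex.norm_mul_exp_arg_mul_I z
    · rintro ⟨⟨r, θ⟩, ⟨h1, h2, h3⟩, rfl⟩
      have hr : R0 ≤ r := h1
      have hr0 : 0 < r := by linarith
      refine ⟨?_, ?_⟩
      · simp only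
        rw [norm_mul, Complex.norm_real, Complex.norm_exp_ofReal_mul_I, mul_one,
          Real.norm_of_nonneg hr0.le]
        exact hr
      · simp only
        rw [Complex.im_ofReal_mul, Complex.exp_ofReal_mul_I_im]
        exact mul_nonneg hr0.le (Real.sin_nonneg_of_nonneg_of_le_pi h2 h3)
  rw [h1]
  apply IsPreconnected.image
  · exact isPreconnected_Ici.prod isPreconnected_Icc
  · apply Continuous.continuousOn
    fun_prop

/-- **There are alive points in the upper half plane** -/
theorem ND.no_half (hS : SNC P1 P2 e1 e2) (hF : EC P1 P2 F M (fun z => z))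
    (hN : ND P1 P2 e2 F η K) : ∃ z : ℂ, 0 < z.im ∧ z ∈ Al P1 P2 F η := by
  by_contra hcon
  push Not at hcon
  have hK := hN.pos
  obtain ⟨δ, hδ, hst⟩ := hS.stay (δ := 1 / 6) (by norm_num)
  obtain ⟨R0, hR0, hnear⟩ := hN.near_half hS hF hcon hδ
  have hR00 : 0 < R0 := by linarith
  set T : Set ℂ := {z : ℂ | R0 ≤ ‖z‖ ∧ 0 ≤ z.im} with hT
  have hosc := hst T (fun z => Phi (F z)) (preconn_half hR00) hF.contPhi.continuousOn
    (fun z _ => ⟨F z, hF.ne z, rfl⟩) (fun z hz => hnear z hz.1 hz.2)
  have hIT : (R0 : ℂ) * Complex.I ∈ T := by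
    refine ⟨?_, ?_⟩
    · rw [norm_mul, Complex.norm_real, Complex.norm_I, mul_one, Real.norm_of_nonneg hR00.le]
    · simp [hR00.le]
  obtain ⟨j, hj⟩ := loc_log (F := F) (K := T) (fun y _ => hF.ne y) hIT
    (fun y hy => (hosc y hy _ hIT).le)
  have hd2 : (0 : ℝ) < (e2 + 1 : ℕ) := by positivity
  set d : ℝ := ((e2 + 1 : ℕ) : ℝ) with hd
  have hpi := Real.pi_pos
  set u : ℂ → ℝ := fun z => Real.log ‖F z j‖ with hu
  have hu1 : ∀ z ∈ T, max (z.re) 0 / d - K - 1 ≤ u z := by
    intro z hz
    have h1 := (hj z hz).2.1
    have h2 := hN.lo z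
    have h3 := hN.lo2 z
    rcases le_total 0 z.re with h4 | h4
    · rw [max_eq_left h4]
      simp only [hu]
      linarith
    · rw [max_eq_right h4, zero_div]
      simp only [hu]
      linarith
  -- the barrier
  have main : ∀ t : ℝ, 0 < t → 1 / d * (3 * R0 / (2 * Real.pi) * t - 2 * R0 / Real.pi * Real.log 2 -
      R0) - K - 1 ≤ u (2 * R0 * Complex.I) := by
    intro t ht
    set R : ℝ := R0 * Real.exp t with hR
    have hRR0 : R0 < R := by
      have : 1 < Real.exp t := Real.one_lt_exp_iff.2 ht
      rw [hR]
      nlinarith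
    have hRpos : 0 < R := by linarith
    have hlogR : Real.log R = Real.log R0 + t := by
      rw [hR, Real.log_mul hR00.ne' (Real.exp_pos t).ne', Real.log_exp]
    by_cases h2R : 2 * R0 ≤ R
    · set KK : Set ℂ := {z : ℂ | R0 ≤ ‖z‖ ∧ 0 ≤ z.im} ∩ closedBall 0 R with hKK
      have hKc : IsCompact KK := by
        refine (isCompact_closedBall (0 : ℂ) R).inter_left ?_
        exact (isClosed_le continuous_const continuous_norm).inter
          (isClosed_le continuous_const Complex.continuous_im)
      set Ψ : ℂ → ℝ := fun z => 1 / d * (z.re / 2 + 1 / Real.pi * eh R (-Complex.I * z) -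
        R0 ^ 2 / Real.pi * t * (z.im / ‖z‖ ^ 2) - R0) - K - 1 with hΨ
      have hre : ∀ z : ℂ, (-Complex.I * z).re = z.im := fun z => by simp
      have him : ∀ z : ℂ, (-Complex.I * z).im = -z.re := fun z => by simp
      have hnm : ∀ z : ℂ, ‖-Complex.I * z‖ = ‖z‖ := fun z => by simp
      have hKn : ∀ z ∈ KK, z ≠ 0 := by
        rintro z ⟨⟨h1, -⟩, -⟩ h0
        rw [h0, norm_zero] at h1
        linarith
      have hmax := LS.max (w := fun z => Ψ z - u z) hKc (by
        apply ContinuousOn.sub
        · apply ContinuousOn.sub _ continuousOn_const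
          apply ContinuousOn.sub _ continuousOn_const
          apply continuousOn_const.mul
          apply ContinuousOn.sub _ continuousOn_const
          apply ContinuousOn.sub
          · apply ContinuousOn.add
            · exact (Complex.continuous_re.div_const 2).continuousOn
            · apply continuousOn_const.mul
              apply (eh_cont R).comp (by fun_prop)
              rintro z ⟨⟨-, h1⟩, -⟩
              change 0 ≤ (-Complex.I * z).re
              rw [hre]
              exact h1
          · apply continuousOn_const.mul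
            apply ContinuousOn.div
            · exact Complex.continuous_im.continuousOn
            · fun_prop
            · intro z hz
              have := norm_pos_iff.2 (hKn z hz)
              positivity
        · apply ContinuousOn.log
          · have : Differentiable ℂ fun z => F z j := differentiable_pi.1 hF.dif j
            exact this.continuous.norm.continuousOn
          · intro z hz
            exact norm_ne_zero_iff.2 (hj z hz.1).1) (fun z hz => by
        obtain ⟨⟨hz1, hz2⟩, hz3⟩ := hz
        rw [mem_closedBall_zero_iff] at hz3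
        have hz0 : 0 < ‖z‖ := by linarith
        have hlow := hu1 z ⟨hz1, hz2⟩
        have hy0 : 0 ≤ z.im / ‖z‖ ^ 2 := by positivity
        have harg := im_arg_le (ζ := -Complex.I * z) (by rw [hre]; exact hz2)
        rw [him, abs_neg] at harg
        have hmx : z.re / 2 + |z.re| / 2 = max z.re 0 := by
          rcases le_total 0 z.re with h4 | h4
          · rw [max_eq_left h4, abs_of_nonneg h4]
            ring
          · rw [max_eq_right h4, abs_of_nonpos h4]
            ring
        have hmx0 : max z.re 0 ≤ ‖z‖ := max_le (Complex.re_le_norm z) (norm_nonneg z)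
        -- the boundary estimate
        have hbd : z.re / 2 + 1 / Real.pi * eh R (-Complex.I * z) -
            R0 ^ 2 / Real.pi * t * (z.im / ‖z‖ ^ 2) - R0 ≤ max z.re 0 → Ψ z - u z ≤ 0 := by
          intro h1
          have h2 : 1 / d * (z.re / 2 + 1 / Real.pi * eh R (-Complex.I * z) -
            R0 ^ 2 / Real.pi * t * (z.im / ‖z‖ ^ 2) - R0) ≤ 1 / d * max z.re 0 := by gcongr
          have h3 : 1 / d * max z.re 0 = max z.re 0 / d := by ring
          simp only [hΨ]
          linarith
        have hargpi : 1 / Real.pi * (-z.re * (-Complex.I * z).arg) ≤ |z.re| / 2 := by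
          calc 1 / Real.pi * (-z.re * (-Complex.I * z).arg) ≤
              1 / Real.pi * (Real.pi / 2 * |z.re|) := by gcongr
            _ = _ := by field_simp
        have heh : eh R (-Complex.I * z) = z.im * (Real.log R - Real.log ‖z‖) +
            (-z.re * (-Complex.I * z).arg) := by
          unfold eh
          rw [hre, him, hnm]
        have hq0 : 0 ≤ R0 ^ 2 / Real.pi * t * (z.im / ‖z‖ ^ 2) := by positivity
        rcases hz3.eq_or_lt with h1 | h1
        · left
          apply hbd
          rw [heh, h1, sub_self, mul_zero, zero_add, ← h1]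
          linarith
        rcases hz1.eq_or_lt with h2 | h2
        · left
          apply hbd
          rw [heh, ← h2, hlogR]
          have e1 : 1 / Real.pi * (z.im * (Real.log R0 + t - Real.log R0) +
              -z.re * (-Complex.I * z).arg) =
              1 / Real.pi * (z.im * t) + 1 / Real.pi * (-z.re * (-Complex.I * z).arg) := by ring
          have e2 : R0 ^ 2 / Real.pi * t * (z.im / R0 ^ 2) = 1 / Real.pi * (z.im * t) := by
            field_simp
          rw [e1, e2]
          linarith
        rcases hz2.eq_or_lt with h3 | h3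
        · left
          apply hbd
          rw [heh, ← h3, zero_mul, zero_add, zero_div, mul_zero, sub_zero]
          linarith
        · right
          refine ⟨?_, ?_⟩
          · have ho : IsOpen ({v : ℂ | R0 < ‖v‖} ∩ {v : ℂ | 0 < v.im} ∩ ball 0 R) :=
              ((isOpen_lt continuous_const continuous_norm).inter
                (isOpen_lt continuous_const Complex.continuous_im)).inter isOpen_ball
            refine mem_of_superset (ho.mem_nhds ⟨⟨h2, h3⟩, by rwa [mem_ball_zero_iff]⟩) ?_
            rintro v ⟨⟨hv1, hv2⟩, hv3⟩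
            refine ⟨⟨?_, ?_⟩, ball_subset_closedBall hv3⟩
            · exact le_of_lt hv1
            · exact le_of_lt hv2
          · have hFj : Differentiable ℂ fun z => F z j := differentiable_pi.1 hF.dif j
            have l1 := LS.neg_log (hFj.analyticAt z) (hj z ⟨hz1, hz2⟩).1
            have hsl : -Complex.I * z ∈ Complex.slitPlane := by
              left
              rw [hre]
              exact h3
            have hz0' : z ≠ 0 := norm_pos_iff.1 hz0
            have hpan : AnalyticAt ℂ (fun z : ℂ => (1 / d : ℝ) * (z / 2 + (1 / Real.pi : ℝ) *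
                ((-Complex.I * z) * ((Real.log R : ℝ) - Complex.log (-Complex.I * z))) -
                (R0 ^ 2 / Real.pi * t : ℝ) * (Complex.I / z))) z := by
              have h4 : AnalyticAt ℂ (fun z : ℂ => Complex.log (-Complex.I * z)) z :=
                AnalyticAt.clog (by fun_prop) hsl
              fun_prop (disch := assumption)
            have l2 := (LS.re hpan).addc (-(1 / d * R0) - K - 1)
            have l3 := l2.add l1
            rw [add_zero] at l3
            refine l3.congr (Eventually.of_forall fun v => ?_)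
            simp only [hΨ, hu]
            have q1 : ((-Complex.I * v) * ((Real.log R : ℝ) - Complex.log (-Complex.I * v))).re =
                eh R (-Complex.I * v) := by
              rw [Complex.mul_re, Complex.sub_re, Complex.sub_im, Complex.ofReal_re,
                Complex.ofReal_im, Complex.log_re, Complex.log_im]
              unfold eh
              ring
            have q2 : (Complex.I / v).re = v.im / ‖v‖ ^ 2 := by
              rw [Complex.div_re, Complex.normSq_eq_norm_sq]
              simp
            have q3 : (v / 2).re = v.re / 2 := by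
              rw [show (2 : ℂ) = ((2 : ℝ) : ℂ) by norm_num, Complex.div_ofReal_re]
            rw [Complex.re_ofReal_mul, Complex.sub_re, Complex.add_re, Complex.re_ofReal_mul,
              Complex.re_ofReal_mul, q1, q2, q3]
            ring)
      have hpt : (2 * R0 * Complex.I : ℂ) ∈ KK := by
        have hn : ‖(2 * R0 * Complex.I : ℂ)‖ = 2 * R0 := by
          rw [norm_mul, norm_mul, Complex.norm_I, mul_one, Complex.norm_real, Complex.norm_ofNat,
            Real.norm_of_nonneg hR00.le]
        refine ⟨⟨?_, ?_⟩, ?_⟩
        · rw [hn]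
          linarith
        · have : (2 * R0 * Complex.I : ℂ).im = 2 * R0 := by simp
          rw [this]
          linarith
        · rw [mem_closedBall_zero_iff, hn]
          exact h2R
      have h1 := hmax _ hpt
      have e1 : Ψ (2 * R0 * Complex.I) = 1 / d * (3 * R0 / (2 * Real.pi) * t -
          2 * R0 / Real.pi * Real.log 2 - R0) - K - 1 := by
        have hz : (-Complex.I * (2 * R0 * Complex.I) : ℂ) = ((2 * R0 : ℝ) : ℂ) := by
          push_cast
          linear_combination (-2 * (R0 : ℂ)) * Complex.I_mul_I
        have hn : ‖(2 * R0 * Complex.I : ℂ)‖ = 2 * R0 := by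
          rw [norm_mul, norm_mul, Complex.norm_I, mul_one, Complex.norm_real, Complex.norm_ofNat,
            Real.norm_of_nonneg hR00.le]
        have hre0 : (2 * R0 * Complex.I : ℂ).re = 0 := by simp
        have him0 : (2 * R0 * Complex.I : ℂ).im = 2 * R0 := by simp
        have heh : eh R (-Complex.I * (2 * R0 * Complex.I)) = 2 * R0 * (t - Real.log 2) := by
          rw [hz]
          unfold eh
          rw [Complex.ofReal_re, Complex.ofReal_im, zero_mul, add_zero, Complex.norm_real,
            Real.norm_of_nonneg (by positivity), hlogR, Real.log_mul (by norm_num) hR00.ne']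
          ring
        simp only [hΨ]
        rw [heh, hn, hre0, him0]
        field_simp
        ring
      rw [e1] at h1
      linarith
    · -- `t < log 2`
      push Not at h2R
      have ht2 : t < Real.log 2 := by
        rw [Real.lt_log_iff_exp_lt (by norm_num)]
        rw [hR, mul_comm] at h2R
        exact lt_of_mul_lt_mul_right h2R hR00.le
      have h1 := hu1 (2 * R0 * Complex.I) (by
        have hn : ‖(2 * R0 * Complex.I : ℂ)‖ = 2 * R0 := by
          rw [norm_mul, norm_mul, Complex.norm_I, mul_one, Complex.norm_real, Complex.norm_ofNat,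
            Real.norm_of_nonneg hR00.le]
        refine ⟨?_, ?_⟩
        · rw [hn]
          linarith
        · have : (2 * R0 * Complex.I : ℂ).im = 2 * R0 := by simp
          rw [this]
          linarith)
      have hre0 : (2 * R0 * Complex.I : ℂ).re = 0 := by simp
      rw [hre0, max_self, zero_div] at h1
      have h3 : 3 * R0 / (2 * Real.pi) * t - 2 * R0 / Real.pi * Real.log 2 - R0 ≤ 0 := by
        have e1 : 3 * R0 / (2 * Real.pi) * t ≤ 3 * R0 / (2 * Real.pi) * Real.log 2 := by gcongr
        have e2 : 3 * R0 / (2 * Real.pi) * Real.log 2 ≤ 2 * R0 / Real.pi * Real.log 2 := by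
          apply mul_le_mul_of_nonneg_right _ (Real.log_nonneg (by norm_num))
          rw [div_le_div_iff₀ (by positivity) hpi]
          nlinarith
        linarith
      have h4 : 1 / d * (3 * R0 / (2 * Real.pi) * t - 2 * R0 / Real.pi * Real.log 2 - R0) ≤ 0 :=
        mul_nonpos_of_nonneg_of_nonpos (by positivity) h3
      linarith
  -- contradiction
  set a : ℝ := 3 * R0 / (2 * Real.pi) with ha
  have ha0 : 0 < a := by positivity
  set b : ℝ := |2 * R0 / Real.pi * Real.log 2 + R0 + d * (K + 1 + u (2 * R0 * Complex.I))| + 1 with hb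
  have hb0 : 0 < b := by positivity
  have h1 := main (b / a) (by positivity)
  have h2 : a * (b / a) = b := mul_div_cancel₀ _ ha0.ne'
  rw [h2] at h1
  have h3 : b - 2 * R0 / Real.pi * Real.log 2 - R0 ≤ d * (K + 1 + u (2 * R0 * Complex.I)) := by
    have h4 : 1 / d * (b - 2 * R0 / Real.pi * Real.log 2 - R0) ≤
      K + 1 + u (2 * R0 * Complex.I) := by linarith
    rw [one_div, inv_mul_le_iff₀ hd2] at h4
    exact h4
  have h4 := le_abs_self (2 * R0 / Real.pi * Real.log 2 + R0 + d * (K + 1 + u (2 * R0 * Complex.I)))
  linarith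

end Pool.Agent.H915
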