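import Pool.Agent.H915.TC.Gr6

/-!
Normalised entire curves in the complement: the symmetry, and the gaps between the alive points.
-/

set_option autoImplicit false

open Filter Topology Metric Set MvPolynomial

namespace Pool.Agent.H915

open Pool.Agent.Y190.OP

variable {P1 P2 : Poly} {e1 e2 : ℕ} {F : ℂ → V} {M B : ℝ} {h : ℂ → ℂ} {η K : ℝ}

/-- the bound for the speed far from the alive points -/
def SD (P1 P2 : Poly) (η C : ℝ) : Prop :=
  ∀ (F : ℂ → V) (M : ℝ) (h : ℂ → ℂ), EC P1 P2 F M h → ∀ (z : ℂ) (r : ℝ), 0 < r →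
      (∀ w ∈ ball z r, w ∉ Al P1 P2 F η) → Lip F z (C / r)

theorem Al_mono {η' : ℝ} (h : η' ≤ η) : Al P1 P2 F η ⊆ Al P1 P2 F η' :=
  fun _ hz => ⟨h.trans hz.1, h.trans hz.2⟩

theorem SD.mono {C η' C' : ℝ} (hs : SD P1 P2 η C) (h1 : η' ≤ η) (h2 : C ≤ C') :
    SD P1 P2 η' C' := by
  intro F M h hF z r hr hd
  exact (hs F M h hF z r hr fun w hw hA => hd w hw (Al_mono h1 hA)).mono
    (div_le_div_of_nonneg_right h2 hr.le)

theorem SNC.exists_SD (hS : SNC P1 P2 e1 e2) (hk : 2 ≤ e1 + e2) : ∃ η C : ℝ, 0 < η ∧ 0 < C ∧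
    SD P1 P2 η C ∧ SD P2 P1 η C := by
  obtain ⟨η1, C1, h1, h2, h3⟩ := hS.speed_dead hk
  obtain ⟨η2, C2, h4, h5, h6⟩ := hS.swap.speed_dead (by omega)
  have h3' : SD P1 P2 η1 C1 := h3
  have h6' : SD P2 P1 η2 C2 := h6
  exact ⟨min η1 η2, max C1 C2, by positivity, by positivity,
    h3'.mono (min_le_left _ _) (le_max_left _ _), h6'.mono (min_le_right _ _) (le_max_right _ _)⟩

theorem EC.congr_h (hF : EC P1 P2 F M h) {h' : ℂ → ℂ} (hd : Differentiable ℂ h')
    (he : ∀ z, Complex.exp (h z) = Complex.exp (h' z)) : EC P1 P2 F M h' :=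
  ⟨hF.toBC, hF.v1, fun z => by rw [hF.v2, he], hd⟩

/-- the ratio of the degrees -/
noncomputable def rat (e1 e2 : ℕ) : ℝ := ((e2 + 1 : ℕ) : ℝ) / ((e1 + 1 : ℕ) : ℝ)

theorem rat_pos (e1 e2 : ℕ) : 0 < rat e1 e2 := by
  unfold rat
  positivity

/-- the symmetry -/
noncomputable def hat (e1 e2 : ℕ) (F : ℂ → V) (z : ℂ) : V :=
  Complex.exp (z / ((e1 + 1 : ℕ) : ℂ)) • F (-(rat e1 e2 : ℂ) * z)

theorem Phi_hat (e1 e2 : ℕ) (F : ℂ → V) (z : ℂ) :
    Phi (hat e1 e2 F z) = Phi (F (-(rat e1 e2 : ℂ) * z)) := Phi_smul (Complex.exp_ne_zero _) _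

theorem EC.hat (hS : SNC P1 P2 e1 e2) (hF : EC P1 P2 F M (fun z => z)) :
    EC P2 P1 (hat e1 e2 F) (rat e1 e2 * M) (fun z => z) := by
  have hc := rat_pos e1 e2
  have hd1 : ((e1 + 1 : ℕ) : ℂ) ≠ 0 := Nat.cast_ne_zero.2 (Nat.succ_ne_zero e1)
  refine ⟨⟨?_, fun z => smul_ne_zero (Complex.exp_ne_zero _) (hF.ne _), mul_pos hc hF.pos,
    fun y z => ?_⟩, fun z => ?_, fun z => ?_, differentiable_id⟩
  · intro z
    have h1 : DifferentiableAt ℂ (fun z : ℂ => Complex.exp (z / ((e1 + 1 : ℕ) : ℂ))) z := by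
      fun_prop
    have h2 : DifferentiableAt ℂ (fun z : ℂ => F (-(rat e1 e2 : ℂ) * z)) z :=
      (hF.dif _).comp z (by fun_prop)
    exact h1.smul h2
  · rw [Phi_hat, Phi_hat]
    refine (hF.lip _ _).trans (le_of_eq ?_)
    have : -(rat e1 e2 : ℂ) * y - -(rat e1 e2 : ℂ) * z = -(rat e1 e2 : ℂ) * (y - z) := by ring
    rw [this, norm_mul, norm_neg, Complex.norm_real, Real.norm_of_nonneg hc.le]
    ring
  · unfold H915.hat
    rw [eval_smul' hS.h2, hF.v2, ← Complex.exp_nat_mul, ← Complex.exp_add]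
    have : ((e2 + 1 : ℕ) : ℂ) * (z / ((e1 + 1 : ℕ) : ℂ)) + -(rat e1 e2 : ℂ) * z = 0 := by
      unfold rat
      push_cast
      ring
    rw [this, Complex.exp_zero]
  · unfold H915.hat
    rw [eval_smul' hS.h1, hF.v1, ← Complex.exp_nat_mul, mul_one]
    congr 1
    field_simp

theorem Al_hat {z : ℂ} (e1 e2 : ℕ) :
    z ∈ Al P2 P1 (hat e1 e2 F) η ↔ -(rat e1 e2 : ℂ) * z ∈ Al P1 P2 F η := by
  unfold Al
  simp only [Set.mem_ofPred_eq]
  rw [Phi_hat]
  exact and_comm

/-- there are alive points above every horizontal line -/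
theorem EC.no_upper (hS : SNC P1 P2 e1 e2) (hη : 0 < η) {C : ℝ} (hC : 0 < C)
    (hsd : SD P1 P2 η C) (hF : EC P1 P2 F M (fun z => z)) (y0 : ℝ) :
    ∃ z : ℂ, y0 < z.im ∧ z ∈ Al P1 P2 F η := by
  obtain ⟨k, hk⟩ := exists_nat_ge y0
  have h1 := hF.aff (one_ne_zero (α := ℂ)) (2 * Real.pi * Complex.I * k)
  have h2 : EC P1 P2 (fun z => F (1 * z + 2 * Real.pi * Complex.I * k)) (‖(1 : ℂ)‖ * M)
      (fun z => z) := h1.congr_h differentiable_id (fun z => by
    rw [one_mul, Complex.exp_add]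
    have : Complex.exp (2 * Real.pi * Complex.I * k) = 1 := by
      rw [mul_comm]
      exact Complex.exp_nat_mul_two_pi_mul_I k
    rw [this, mul_one])
  obtain ⟨K, hN⟩ := h2.nd hS hη hC hsd
  obtain ⟨z, hz, hzA⟩ := hN.no_half hS h2
  refine ⟨1 * z + 2 * Real.pi * Complex.I * k, ?_, hzA⟩
  have : (1 * z + 2 * Real.pi * Complex.I * k).im = z.im + 2 * Real.pi * k := by simp
  rw [this]
  have hk0 : (0 : ℝ) ≤ k := Nat.cast_nonneg k
  have := Real.pi_gt_three
  nlinarith

theorem EC.no_lower (hS : SNC P1 P2 e1 e2) (hη : 0 < η) {C : ℝ} (hC : 0 < C)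
    (hsd : SD P2 P1 η C) (hF : EC P1 P2 F M (fun z => z)) (y0 : ℝ) :
    ∃ z : ℂ, z.im < y0 ∧ z ∈ Al P1 P2 F η := by
  have hc := rat_pos e1 e2
  obtain ⟨z, hz, hzA⟩ := (hF.hat hS).no_upper hS.swap hη hC hsd (-y0 / rat e1 e2)
  refine ⟨-(rat e1 e2 : ℂ) * z, ?_, (Al_hat e1 e2).1 hzA⟩
  have : (-(rat e1 e2 : ℂ) * z).im = -(rat e1 e2 * z.im) := by simp
  rw [this]
  rw [div_lt_iff₀ hc] at hz
  linarith

/-- limits of translates -/
theorem EC.translates (hS : SNC P1 P2 e1 e2) (hF : EC P1 P2 F M (fun z => z)) {a : ℕ → ℂ}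
    {K C : ℝ} (ha : ∀ n, |(a n).re| ≤ K) (hC : ∀ n z, Sf F (a n + z) ≤ C * (1 + ‖z‖)) :
    ∃ (G : ℂ → V) (γ : ℂ), EC P1 P2 G M (fun z => z + γ) ∧
      ∀ z, Tendsto (fun n => Phi (F (a n + z))) ((hyperfilter ℕ : Ultrafilter ℕ) : Filter ℕ)
        (𝓝 (Phi (G z))) := by
  set l : Ultrafilter ℕ := hyperfilter ℕ with hl
  have hbd : ∀ n z, ‖F (a n + z)‖ ≤ Real.exp (C * (1 + ‖z‖)) := by
    intro n z
    have h1 := log_le_Sf (hF.ne (a n + z))
    have h2 := hC n z
    rw [← Real.exp_log (norm_pos_iff.2 (hF.ne (a n + z)))]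
    exact Real.exp_le_exp.2 (h1.trans h2)
  have hC0 : 0 ≤ |C| := abs_nonneg C
  -- pointwise limits
  have hlim : ∀ z : ℂ, ∃ y : V, Tendsto (fun n => F (a n + z)) l (𝓝 y) := by
    intro z
    have h1 : (l.map (fun n => F (a n + z)) : Filter V) ≤
        𝓟 (closedBall (0 : V) (Real.exp (C * (1 + ‖z‖)))) := by
      rw [Ultrafilter.coe_map, le_principal_iff, mem_map]
      exact Eventually.of_forall fun n => mem_closedBall_zero_iff.2 (hbd n z)
    obtain ⟨y, -, hy'⟩ := (isCompact_closedBall (0 : V) _).ultrafilter_le_nhds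
      (l.map (fun n => F (a n + z))) h1
    exact ⟨y, hy'⟩
  choose G hG using hlim
  have hdn : ∀ n, Differentiable ℂ fun z => F (a n + z) := fun n => hF.dif.comp (by fun_prop)
  -- derivative bounds
  have hder : ∀ n z, ‖deriv (fun z => F (a n + z)) z‖ ≤ Real.exp (|C| * (2 + ‖z‖)) := by
    intro n z
    have h1 := Complex.norm_deriv_le_of_forall_mem_sphere_norm_le (c := z) (R := 1)
      (C := Real.exp (|C| * (2 + ‖z‖))) one_pos (hdn n).diffContOnCl (fun w hw => by
        refine (hbd n w).trans (Real.exp_le_exp.2 ?_)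
        rw [mem_sphere, dist_eq_norm] at hw
        have h2 := norm_add_le (w - z) z
        rw [sub_add_cancel, hw] at h2
        calc C * (1 + ‖w‖) ≤ |C| * (1 + ‖w‖) := by
              apply mul_le_mul_of_nonneg_right (le_abs_self C)
              positivity
          _ ≤ |C| * (2 + ‖z‖) := by
              apply mul_le_mul_of_nonneg_left _ hC0
              linarith)
    rwa [div_one] at h1
  have hCC : CConv (l : Filter ℕ) univ (fun n z => F (a n + z)) G := by
    intro z _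
    rw [Metric.tendsto_nhds]
    intro ε hε
    have h2 := Metric.tendsto_nhds.1 (hG z) (ε / 2) (by positivity)
    set L : ℝ := Real.exp (|C| * (3 + ‖z‖)) with hL
    rw [eventually_prod_iff]
    refine ⟨_, h2, fun w => w ∈ ball z 1 ∧ L * ‖w - z‖ < ε / 2, ?_, ?_⟩
    · have h4 : ∀ᶠ w in 𝓝 z, w ∈ ball z 1 := isOpen_ball.mem_nhds (mem_ball_self one_pos)
      have h5 : Tendsto (fun w => L * ‖w - z‖) (𝓝 z) (𝓝 0) := by
        have : Continuous fun w : ℂ => L * ‖w - z‖ := by fun_prop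
        have h6 := this.tendsto z
        simpa using h6
      exact h4.and (h5.eventually_lt_const (by positivity))
    · rintro n hn1 w ⟨hw1, hw2⟩
      have h6 : ‖F (a n + w) - F (a n + z)‖ ≤ L * ‖w - z‖ :=
        (convex_ball z 1).norm_image_sub_le_of_norm_deriv_le (𝕜 := ℂ)
          (f := fun z => F (a n + z))
          (fun x hx => (hdn n) x)
          (fun x hx => by
            refine (hder n x).trans (Real.exp_le_exp.2 ?_)
            apply mul_le_mul_of_nonneg_left _ hC0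
            rw [mem_ball, dist_eq_norm] at hx
            have h2 := norm_add_le (x - z) z
            rw [sub_add_cancel] at h2
            linarith) (mem_ball_self one_pos) hw1
      calc dist (F (a n + w)) (G z) ≤ dist (F (a n + w)) (F (a n + z)) + dist (F (a n + z)) (G z) :=
            dist_triangle _ _ _
        _ < ε / 2 + ε / 2 := by
            refine add_lt_add ?_ hn1
            rw [dist_eq_norm]
            exact h6.trans_lt hw2
        _ = ε := by ring
  have hGd : Differentiable ℂ G := by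
    have h1 := hCC.locUnif isOpen_univ
    have h2 := h1.differentiableOn (Eventually.of_forall fun n => (hdn n).differentiableOn)
      isOpen_univ
    exact differentiableOn_univ.1 h2
  have hG1 : ∀ z, eval (G z) P1 = 1 := by
    intro z
    have h1 := ((cont_eval P1).tendsto (G z)).comp (hG z)
    refine tendsto_nhds_unique h1 ?_
    simp only [Function.comp_def, hF.v1]
    exact tendsto_const_nhds
  -- the factor
  obtain ⟨c0, hc0, hc0t⟩ : ∃ y ∈ {c : ℂ | Real.exp (-K) ≤ ‖c‖ ∧ ‖c‖ ≤ Real.exp K},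
      Tendsto (fun n => Complex.exp (a n)) l (𝓝 y) := by
    have hcomp : IsCompact {c : ℂ | Real.exp (-K) ≤ ‖c‖ ∧ ‖c‖ ≤ Real.exp K} := by
      apply (isCompact_closedBall (0 : ℂ) (Real.exp K)).of_isClosed_subset
      · exact (isClosed_le continuous_const continuous_norm).inter
          (isClosed_le continuous_norm continuous_const)
      · rintro w ⟨-, h1⟩
        rwa [mem_closedBall_zero_iff]
    have h1 : (l.map (fun n => Complex.exp (a n)) : Filter ℂ) ≤
        𝓟 {c : ℂ | Real.exp (-K) ≤ ‖c‖ ∧ ‖c‖ ≤ Real.exp K} := by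
      rw [Ultrafilter.coe_map, le_principal_iff, mem_map]
      refine Eventually.of_forall fun n => ?_
      have h2 := abs_le.1 (ha n)
      refine ⟨?_, ?_⟩
      · rw [Complex.norm_exp]
        exact Real.exp_le_exp.2 h2.1
      · rw [Complex.norm_exp]
        exact Real.exp_le_exp.2 h2.2
    obtain ⟨y, hy, hy'⟩ := hcomp.ultrafilter_le_nhds (l.map (fun n => Complex.exp (a n))) h1
    exact ⟨y, hy, hy'⟩
  have hc00 : c0 ≠ 0 := by
    rintro rfl
    have := hc0.1
    rw [norm_zero] at this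
    linarith [Real.exp_pos (-K)]
  refine ⟨G, Complex.log c0, ⟨⟨hGd, ?_, hF.pos, ?_⟩, hG1, ?_, by fun_prop⟩, ?_⟩
  · intro z h0
    have h1 := hG1 z
    rw [h0] at h1
    have h2 := eval_smul' hS.h1 0 (0 : V)
    rw [zero_smul, h1, pow_succ, mul_zero, zero_mul] at h2
    exact one_ne_zero h2
  · -- Lipschitz
    have hne : ∀ z, G z ≠ 0 := by
      intro z h0
      have h1 := hG1 z
      rw [h0] at h1
      have h2 := eval_smul' hS.h1 0 (0 : V)
      rw [zero_smul, h1, pow_succ, mul_zero, zero_mul] at h2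
      exact one_ne_zero h2
    intro y z
    have h1 := (continuousAt_Phi (hne y)).tendsto.comp (hG y)
    have h2 := (continuousAt_Phi (hne z)).tendsto.comp (hG z)
    refine le_of_tendsto (h1.sub h2).norm (Eventually.of_forall fun n => ?_)
    have := hF.lip (a n + y) (a n + z)
    rwa [add_sub_add_left_eq_sub] at this
  · intro z
    have h1 := ((cont_eval P2).tendsto (G z)).comp (hG z)
    refine tendsto_nhds_unique h1 ?_
    simp only [Function.comp_def, hF.v2]
    have h2 := hc0t.mul_const (Complex.exp z)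
    rw [← Complex.exp_log hc00] at h2
    rw [add_comm, Complex.exp_add]
    refine h2.congr fun n => ?_
    rw [Complex.exp_add]
  · intro z
    have hne : G z ≠ 0 := by
      intro h0
      have h1 := hG1 z
      rw [h0] at h1
      have h2 := eval_smul' hS.h1 0 (0 : V)
      rw [zero_smul, h1, pow_succ, mul_zero, zero_mul] at h2
      exact one_ne_zero h2
    exact (continuousAt_Phi hne).tendsto.comp (hG z)

/-- **The gaps between alive points are bounded** -/
theorem EC.gaps (hS : SNC P1 P2 e1 e2) (hη : 0 < η) {C : ℝ} (hC : 0 < C)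
    (hsd : SD P1 P2 η C) (hsd' : SD P2 P1 η C) (hF : EC P1 P2 F M (fun z => z))
    (hN : ND P1 P2 e2 F (η / 2) K) :
    ∃ L : ℝ, ∀ y : ℝ, infDist (y * Complex.I) (Al P1 P2 F (η / 2)) ≤ L := by
  by_contra hcon
  push Not at hcon
  have hK := hN.pos
  set A := Al P1 P2 F (η / 2) with hA
  obtain ⟨CL, hCL, hCL'⟩ := hN.lin hF.toBC
  have h1 : ∀ n : ℕ, ∃ y : ℝ, (n : ℝ) < infDist (y * Complex.I) A := fun n => hcon n
  choose y hy using h1
  have h2 : ∀ n : ℕ, ∃ a ∈ A, infDist (y n * Complex.I) A = dist (y n * Complex.I) a := fun n =>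
    hN.cl.exists_infDist_eq_dist hN.ne _
  choose a haA hay using h2
  have hare : ∀ n, |(a n).re| ≤ K := fun n => (hN.al _ (haA n)).2
  obtain ⟨G, γ, hG, hGt⟩ := hF.translates hS (a := a) (K := K) (C := CL) hare (fun n z => by
    refine (hCL' _).trans ?_
    apply mul_le_mul_of_nonneg_left _ hCL.le
    have h3 : infDist (a n + z) A ≤ dist (a n + z) (a n) := infDist_le_dist_of_mem (haA n)
    rw [dist_eq_norm, add_sub_cancel_left] at h3
    linarith)
  set l : Ultrafilter ℕ := hyperfilter ℕ with hl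
  -- alive points of the limit
  have hGA : ∀ z ∈ Al P1 P2 G η, ∀ᶠ n in (l : Filter ℕ), a n + z ∈ A := by
    intro z hz
    have t1 := (((cont_pe P1).tendsto _).comp (hGt z)).norm.eventually_const_lt
      (u := η / 2) (by
        have := hz.1
        linarith)
    have t2 := (((cont_pe P2).tendsto _).comp (hGt z)).norm.eventually_const_lt
      (u := η / 2) (by
        have := hz.2
        linarith)
    filter_upwards [t1, t2] with n hn1 hn2
    exact ⟨hn1.le, hn2.le⟩
  -- normalised limit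
  have hG' : EC P1 P2 (fun z => G (1 * z + -γ)) (‖(1 : ℂ)‖ * M) (fun z => z) :=
    (hG.aff (one_ne_zero (α := ℂ)) (-γ)).congr_h differentiable_id (fun z => by
      congr 1
      ring)
  -- the geometric fact
  have hgeo : ∀ n (z : ℂ), a n + z ∈ A →
      (dist (y n * Complex.I) (a n)) ^ 2 ≤ ‖a n + z - y n * Complex.I‖ ^ 2 := by
    intro n z hz
    have h3 : infDist (y n * Complex.I) A ≤ dist (y n * Complex.I) (a n + z) :=
      infDist_le_dist_of_mem hz
    rw [hay n] at h3
    rw [← dist_eq_norm, dist_comm (a n + z)]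
    gcongr
  have hexp : ∀ n (z : ℂ), ‖a n + z - y n * Complex.I‖ ^ 2 = (dist (y n * Complex.I) (a n)) ^ 2 +
      2 * ((a n).re * z.re + ((a n).im - y n) * z.im) + ‖z‖ ^ 2 := by
    intro n z
    rw [dist_comm, dist_eq_norm, norm_sq_cplx, norm_sq_cplx, norm_sq_cplx]
    simp only [Complex.sub_re, Complex.add_re, Complex.mul_re, Complex.ofReal_re, Complex.I_re,
      mul_zero, Complex.ofReal_im, Complex.I_im, mul_one, sub_self, Complex.sub_im, Complex.add_im,
      Complex.mul_im, sub_zero, add_zero]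
    ring
  have hbig : ∀ n : ℕ, (n : ℝ) - K ≤ |(a n).im - y n| := by
    intro n
    have h3 := hy n
    rw [hay n, dist_comm, dist_eq_norm] at h3
    have h4 := Complex.norm_le_abs_re_add_abs_im (a n - y n * Complex.I)
    simp only [Complex.sub_re, Complex.mul_re, Complex.ofReal_re, Complex.I_re, mul_zero,
      Complex.ofReal_im, Complex.I_im, mul_one, sub_self, sub_zero, Complex.sub_im, Complex.mul_im,
      zero_mul, add_zero] at h4
    have := hare n
    linarith
  have hcont : ∀ (z : ℂ) (s : ℝ), |s| = 1 → (∀ᶠ n in (l : Filter ℕ), 0 ≤ s * ((a n).im - y n)) →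
      s * z.im < 0 → z ∉ Al P1 P2 G η := by
    intro z s hs1 hs hz hzA
    have hneg : 0 < -(s * z.im) := by linarith
    obtain ⟨n, ⟨hn1, hn2⟩, hn3⟩ := ((hGA z hzA).and hs |>.and
      (hyper_ge' (K + (2 * K * ‖z‖ + ‖z‖ ^ 2 + 1) / -(s * z.im)))).exists
    have h3 := hgeo n z hn1
    rw [hexp] at h3
    have h4 : (a n).re * z.re ≤ K * ‖z‖ := by
      calc (a n).re * z.re ≤ |(a n).re * z.re| := le_abs_self _
        _ = |(a n).re| * |z.re| := abs_mul _ _
        _ ≤ K * ‖z‖ := mul_le_mul (hare n) (Complex.abs_re_le_norm z) (abs_nonneg _) hK.le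
    have hss : s * s = 1 := by
      have := abs_mul_abs_self s
      rw [hs1] at this
      linarith
    have h5 : ((a n).im - y n) * z.im = (s * ((a n).im - y n)) * (s * z.im) := by
      linear_combination (-((a n).im - y n) * z.im) * hss
    have h6 : |(a n).im - y n| = s * ((a n).im - y n) := by
      rw [← abs_of_nonneg hn2, abs_mul, hs1, one_mul]
    have h7 := hbig n
    rw [h6] at h7
    have h8 : (2 * K * ‖z‖ + ‖z‖ ^ 2 + 1) / -(s * z.im) ≤ s * ((a n).im - y n) := by linarith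
    rw [div_le_iff₀ hneg] at h8
    have h9 : 0 ≤ ‖z‖ ^ 2 := by positivity
    rw [h5] at h3
    nlinarith
  have hev : ∀ᶠ n in (l : Filter ℕ), 0 ≤ (a n).im - y n ∨ (a n).im - y n ≤ 0 :=
    Eventually.of_forall fun n => le_total _ _
  rw [Ultrafilter.eventually_or] at hev
  rcases hev with hev | hev
  · obtain ⟨z, hz, hzA⟩ := hG'.no_lower hS hη hC hsd' γ.im
    refine hcont (1 * z + -γ) 1 (by simp) (by simpa using hev) ?_ hzA
    simp only [one_mul, Complex.add_im, Complex.neg_im]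
    linarith
  · obtain ⟨z, hz, hzA⟩ := hG'.no_upper hS hη hC hsd γ.im
    refine hcont (1 * z + -γ) (-1) (by simp) ?_ ?_ hzA
    · filter_upwards [hev] with n hn
      linarith
    · simp only [one_mul, Complex.add_im, Complex.neg_im]
      linarith

/-- **The growth of a normalised curve** -/
theorem EC.S_le (hS : SNC P1 P2 e1 e2) (hη : 0 < η) {C : ℝ} (hC : 0 < C)
    (hsd : SD P1 P2 η C) (hsd' : SD P2 P1 η C) (hF : EC P1 P2 F M (fun z => z))
    (hN : ND P1 P2 e2 F (η / 2) K) : ∃ C : ℝ, 0 < C ∧ ∀ z, Sf F z ≤ C * (1 + |z.re|) := by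
  obtain ⟨L, hL⟩ := hF.gaps hS hη hC hsd hsd' hN
  obtain ⟨CL, hCL, hCL'⟩ := hN.lin hF.toBC
  have hL0 : 0 ≤ |L| := abs_nonneg L
  refine ⟨CL * (1 + |L|), by positivity, fun z => ?_⟩
  have h1 := hCL' z
  have h2 : infDist z (Al P1 P2 F (η / 2)) ≤
      infDist (z.im * Complex.I) (Al P1 P2 F (η / 2)) + dist z (z.im * Complex.I) :=
    infDist_le_infDist_add_dist
  have h3 : dist z (z.im * Complex.I) = |z.re| := by
    rw [dist_eq_norm]
    have : z - z.im * Complex.I = (z.re : ℂ) := by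
      apply Complex.ext <;> simp
    rw [this, Complex.norm_real, Real.norm_eq_abs]
  have h4 := hL z.im
  have h5 := le_abs_self L
  have h6 := abs_nonneg z.re
  calc Sf F z ≤ CL * (1 + infDist z (Al P1 P2 F (η / 2))) := h1
    _ ≤ CL * (1 + (|L| + |z.re|)) := by
        apply mul_le_mul_of_nonneg_left _ hCL.le
        linarith
    _ ≤ CL * ((1 + |L|) * (1 + |z.re|)) := by
        apply mul_le_mul_of_nonneg_left _ hCL.le
        nlinarith
    _ = _ := by ring

end Pool.Agent.H915
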