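import Pool.Agent.H915.TC.Gr7

/-!
Normalised entire curves in the complement: the left half plane.
-/

set_option autoImplicit false

open Filter Topology Metric Set MvPolynomial Asymptotics Bornology

namespace Pool.Agent.H915

open Pool.Agent.Y190.OP

variable {P1 P2 : Poly} {e1 e2 : ℕ} {F : ℂ → V} {M B : ℝ} {h : ℂ → ℂ} {η K : ℝ}

/-- the theorem of Phragmén and Lindelöf in a half plane, with the exponential type -/
theorem pl_type {E : Type*} [NormedAddCommGroup E] [NormedSpace ℂ E] {f : ℂ → E} {A C κ : ℝ}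
    (hd : DiffContOnCl ℂ f {z | 0 < z.re})
    (hexp : ∀ z : ℂ, 0 ≤ z.re → ‖f z‖ ≤ Real.exp (A * (1 + ‖z‖)))
    (him : ∀ y : ℝ, ‖f (y * Complex.I)‖ ≤ C)
    (hre : ∀ ε : ℝ, 0 < ε → ∀ᶠ x : ℝ in atTop, ‖f x‖ ≤ Real.exp ((κ + ε) * x)) {z : ℂ}
    (hz : 0 ≤ z.re) : ‖f z‖ ≤ C * Real.exp (κ * z.re) := by
  have key : ∀ ε : ℝ, 0 < ε → ‖f z‖ ≤ C * Real.exp ((κ + ε) * z.re) := by
    intro ε hε
    set g : ℂ → E := fun z => Complex.exp (-(κ + ε : ℝ) * z) • f z with hg
    have hgn : ∀ z, ‖g z‖ = Real.exp (-(κ + ε) * z.re) * ‖f z‖ := by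
      intro z
      rw [hg]
      simp only
      rw [norm_smul, Complex.norm_exp]
      congr 2
      rw [← Complex.ofReal_neg, Complex.re_ofReal_mul]
    have h1 : DiffContOnCl ℂ g {z | 0 < z.re} := by
      have h2 : Differentiable ℂ fun z : ℂ => Complex.exp (-(κ + ε : ℝ) * z) := by fun_prop
      exact h2.diffContOnCl.smul hd
    have h2 := PhragmenLindelof.right_half_plane_of_bounded_on_real (f := g) (C := C) h1
      ⟨1, by norm_num, |A| + |κ + ε|, by
        rw [isBigO_iff]
        refine ⟨Real.exp |A|, ?_⟩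
        have : ∀ᶠ z : ℂ in cobounded ℂ ⊓ 𝓟 {z | 0 < z.re}, 0 < z.re := by
          apply mem_inf_of_right
          exact mem_principal_self _
        filter_upwards [this] with z hz
        rw [hgn, Real.rpow_one, Real.norm_of_nonneg (Real.exp_pos _).le]
        have e1 := hexp z hz.le
        have e2 : -(κ + ε) * z.re ≤ |κ + ε| * ‖z‖ := by
          calc -(κ + ε) * z.re ≤ |-(κ + ε) * z.re| := le_abs_self _
            _ = |κ + ε| * |z.re| := by rw [abs_mul, abs_neg]
            _ ≤ |κ + ε| * ‖z‖ := by
                gcongr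
                exact Complex.abs_re_le_norm z
        have e3 : A * (1 + ‖z‖) ≤ |A| + |A| * ‖z‖ := by
          have := le_abs_self A
          have := norm_nonneg z
          nlinarith
        calc Real.exp (-(κ + ε) * z.re) * ‖f z‖ ≤
            Real.exp (|κ + ε| * ‖z‖) * Real.exp (|A| + |A| * ‖z‖) := by
              gcongr
              exact e1.trans (Real.exp_le_exp.2 e3)
          _ = Real.exp |A| * Real.exp ((|A| + |κ + ε|) * ‖z‖) := by
              rw [← Real.exp_add, ← Real.exp_add]
              congr 1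
              ring⟩
      (by
        refine ⟨1, ?_⟩
        rw [eventually_map]
        filter_upwards [hre ε hε] with x hx
        rw [hgn, Complex.ofReal_re]
        calc Real.exp (-(κ + ε) * x) * ‖f x‖ ≤ Real.exp (-(κ + ε) * x) * Real.exp ((κ + ε) * x) := by
              gcongr
          _ = 1 := by
              rw [← Real.exp_add]
              have : -(κ + ε) * x + (κ + ε) * x = 0 := by ring
              rw [this, Real.exp_zero])
      (fun y => by
        rw [hgn]
        have : (y * Complex.I : ℂ).re = 0 := by simp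
        rw [this, mul_zero, Real.exp_zero, one_mul]
        exact him y) hz
    rw [hgn] at h2
    have h3 : Real.exp ((κ + ε) * z.re) * Real.exp (-(κ + ε) * z.re) = 1 := by
      rw [← Real.exp_add]
      have : (κ + ε) * z.re + -(κ + ε) * z.re = 0 := by ring
      rw [this, Real.exp_zero]
    calc ‖f z‖ = Real.exp ((κ + ε) * z.re) * (Real.exp (-(κ + ε) * z.re) * ‖f z‖) := by
          rw [← mul_assoc, h3, one_mul]
      _ ≤ Real.exp ((κ + ε) * z.re) * C := by gcongr
      _ = _ := by ring
  have ht : Tendsto (fun ε : ℝ => C * Real.exp ((κ + ε) * z.re)) (𝓝[>] 0)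
      (𝓝 (C * Real.exp (κ * z.re))) := by
    have hc : Continuous fun ε : ℝ => C * Real.exp ((κ + ε) * z.re) := by fun_prop
    have := hc.tendsto 0
    rw [add_zero] at this
    exact this.mono_left nhdsWithin_le_nhds
  refine ge_of_tendsto ht ?_
  filter_upwards [self_mem_nhdsWithin] with ε hε
  exact key ε hε

/-- the upper bound on the left -/
theorem BC.left_upper (hF : BC F M) {C κ : ℝ} (hC : ∀ z, Sf F z ≤ C * (1 + |z.re|)) {y0 : ℝ}
    (hκ : ∀ ε : ℝ, 0 < ε → ∀ᶠ x : ℝ in atTop, Sf F (-x + y0 * Complex.I) ≤ (κ + ε) * x) :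
    ∀ z : ℂ, z.re ≤ 0 → Sf F z ≤ κ * |z.re| + (C + 1) := by
  set f : ℂ → V := fun z => F (-z + y0 * Complex.I) with hf
  have hfd : Differentiable ℂ f := hF.dif.comp (by fun_prop)
  have hfn : ∀ z, ‖f z‖ ≤ Real.exp (Sf F (-z + y0 * Complex.I)) := by
    intro z
    rw [← Real.exp_log (norm_pos_iff.2 (hF.ne (-z + y0 * Complex.I)))]
    exact Real.exp_le_exp.2 (log_le_Sf (hF.ne _))
  have hre : ∀ z : ℂ, (-z + y0 * Complex.I).re = -z.re := fun z => by simp
  have hPL : ∀ z : ℂ, 0 ≤ z.re → ‖f z‖ ≤ Real.exp C * Real.exp (κ * z.re) := by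
    intro z hz
    refine pl_type (A := |C|) hfd.diffContOnCl (fun z hz => ?_) (fun y => ?_) (fun ε hε => ?_) hz
    · refine (hfn z).trans (Real.exp_le_exp.2 ((hC _).trans ?_))
      rw [hre, abs_neg]
      have h1 := Complex.abs_re_le_norm z
      have h2 := le_abs_self C
      calc C * (1 + |z.re|) ≤ |C| * (1 + |z.re|) :=
            mul_le_mul_of_nonneg_right h2 (by positivity)
        _ ≤ |C| * (1 + ‖z‖) := by gcongr
    · refine (hfn _).trans (Real.exp_le_exp.2 ((hC _).trans ?_))
      rw [hre]
      simp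
    · filter_upwards [hκ ε hε] with x hx
      exact (hfn _).trans (Real.exp_le_exp.2 hx)
  intro z hz
  have h1 := hPL (-z + y0 * Complex.I) (by
    rw [hre]
    linarith)
  have h2 : f (-z + y0 * Complex.I) = F z := by
    rw [hf]
    simp only
    congr 1
    ring
  rw [h2, hre, ← Real.exp_add, ← abs_of_nonpos hz] at h1
  have h3 := Real.log_le_log (norm_pos_iff.2 (hF.ne z)) h1
  rw [Real.log_exp] at h3
  have h4 := Sf_le (hF.ne z)
  linarith

/-- **Lemma G**: the lower bound from one point -/
theorem ND.lemmaG (hF : BC F M) (hN : ND P1 P2 e2 F η K) {y0 R : ℝ} (hR : 0 < R) {z : ℂ}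
    (hz : z.re ≤ 0) (hzR : min (1 / 2) (1 / (12 * K)) * R / 2 ≤ ‖z - (-R + y0 * Complex.I)‖) :
    max ((Sf F (-R + y0 * Complex.I) + K) / 3 - 1) 0 /
      Real.log (1 + 4 / min (1 / 2) (1 / (12 * K))) *
      (Real.log ‖z - (R + y0 * Complex.I)‖ - Real.log ‖z - (-R + y0 * Complex.I)‖) -
      54 * K ^ 2 * Real.log (1 + |z.re|) - K ≤ Sf F z := by
  have hK := hN.pos
  set τ : ℝ := min (1 / 2) (1 / (12 * K)) with hτ
  have hτ0 : 0 < τ := by positivity
  have hτ1 : τ ≤ 1 / 2 := min_le_left _ _
  set p : ℂ := -R + y0 * Complex.I with hp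
  set q : ℂ := R + y0 * Complex.I with hq
  set m : ℝ := max ((Sf F p + K) / 3 - 1) 0 with hm
  have hm0 : 0 ≤ m := le_max_right _ _
  set G0 : ℝ := Real.log (1 + 4 / τ) with hG0
  have hG00 : 0 < G0 := Real.log_pos (by
    have : 0 < 4 / τ := by positivity
    linarith)
  set Q : ℝ := 54 * K ^ 2 with hQ
  have hQ0 : 0 < Q := by positivity
  set ρ : ℝ := τ * R / 2 with hρ
  have hρ0 : 0 < ρ := by positivity
  have hpre : p.re = -R := by simp [hp]
  have hqre : q.re = R := by simp [hq]
  -- Harnack near `p`
  have hharn : ∀ w, ‖w - p‖ = ρ → m - K ≤ Sf F w := by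
    intro w hw
    have h2 := (hN.harnack hF hR (z := p) (w := w) (fun v hv => by
      rw [mem_ball, dist_eq_norm] at hv
      have h3 := Complex.abs_re_le_norm (v - p)
      rw [Complex.sub_re, hpre] at h3
      have h4 : R / 2 ≤ |v.re| := by
        have h5 := abs_le.1 h3
        rw [abs_of_nonpos (by linarith)]
        linarith
      refine (hN.sp2 v).mono ?_
      rw [div_le_div_iff₀ (by positivity) hR]
      nlinarith) (by rw [hw])).1
    have h3 := hN.lo w
    have h4 : m ≤ Sf F w + K := max_le (by linarith) (by linarith)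
    linarith
  -- the distances
  have hpq : ∀ w : ℂ, w.re ≤ 0 → ‖w - p‖ ≤ ‖w - q‖ := by
    intro w hw
    rw [← abs_of_nonneg (norm_nonneg (w - p)), ← abs_of_nonneg (norm_nonneg (w - q)), ← sq_le_sq,
      norm_sq_cplx, norm_sq_cplx]
    simp only [Complex.sub_re, Complex.sub_im, hpre, hqre]
    have e1 : p.im = q.im := by simp [hp, hq]
    rw [e1]
    nlinarith
  have hpq2 : ∀ w : ℂ, ‖w - q‖ ≤ ‖w - p‖ + 2 * R := by
    intro w
    have e1 : w - q = (w - p) - ((2 * R : ℝ) : ℂ) := by
      rw [hp, hq]
      push_cast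
      ring
    rw [e1]
    refine (norm_sub_le _ _).trans ?_
    rw [Complex.norm_real, Real.norm_of_nonneg (by positivity)]
  have hpq0 : ∀ w : ℂ, w.re = 0 → ‖w - p‖ = ‖w - q‖ := by
    intro w hw
    rw [← abs_of_nonneg (norm_nonneg (w - p)), ← abs_of_nonneg (norm_nonneg (w - q)), ← sq_eq_sq_iff_abs_eq_abs,
      norm_sq_cplx, norm_sq_cplx]
    simp only [Complex.sub_re, Complex.sub_im, hpre, hqre, hw]
    have e1 : p.im = q.im := by simp [hp, hq]
    rw [e1]
    ring
  have hgle : ∀ w : ℂ, w.re ≤ 0 → 0 < ‖w - p‖ → Real.log ‖w - q‖ - Real.log ‖w - p‖ ≤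
      Real.log (1 + 2 * R / ‖w - p‖) := by
    intro w hwre hw
    have hwq' : 0 < ‖w - q‖ := hw.trans_le (hpq w hwre)
    rw [← Real.log_div hwq'.ne' hw.ne']
    apply Real.log_le_log (by positivity)
    rw [div_le_iff₀ hw, add_mul, one_mul, div_mul_cancel₀ _ hw.ne']
    exact hpq2 w
  have hz1 : ρ ≤ ‖z - p‖ := hzR
  -- the estimate with a large radius
  have main : ∀ T : ℝ, 2 * R < T → ‖z - p‖ ≤ T → m / G0 * (Real.log ‖z - q‖ - Real.log ‖z - p‖) -
      m / G0 * (2 * R / T) + Q * (qf z.re + 2 * z.re) - K ≤ Sf F z := by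
    intro T hT hzT
    have hT0 : 0 < T := by linarith
    set KK : Set ℂ := ({w : ℂ | w.re ≤ 0} ∩ closedBall p T) \ ball p ρ with hKK
    have hKc : IsCompact KK := by
      refine ((isCompact_closedBall p T).inter_left ?_).diff isOpen_ball
      exact isClosed_le Complex.continuous_re continuous_const
    have hKn : ∀ w ∈ KK, w.re ≤ 0 ∧ ‖w - p‖ ≤ T ∧ ρ ≤ ‖w - p‖ := by
      rintro w ⟨⟨h1, h2⟩, h3⟩
      rw [mem_closedBall, dist_eq_norm] at h2
      rw [mem_ball, dist_eq_norm, not_lt] at h3
      exact ⟨h1, h2, h3⟩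
    have hzK : z ∈ KK := by
      refine ⟨⟨hz, ?_⟩, ?_⟩
      · rw [mem_closedBall, dist_eq_norm]
        exact hzT
      · rw [mem_ball, dist_eq_norm, not_lt]
        exact hz1
    set Ψ : ℂ → ℝ := fun w => m / G0 * (Real.log ‖w - q‖ + -Real.log ‖w - p‖) +
      Q * (qf w.re + 2 * w.re) + (-(m / G0 * (2 * R / T)) - K) with hΨ
    have hmG : 0 ≤ m / G0 := by positivity
    have hqf : ∀ x : ℝ, x ≤ 0 → qf x + 2 * x = -Real.log (1 + |x|) := by
      intro x hx
      unfold qf
      rw [abs_of_nonpos hx]
      ring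
    have hqf0 : ∀ x : ℝ, x ≤ 0 → Q * (qf x + 2 * x) ≤ 0 := by
      intro x hx
      rw [hqf x hx]
      have := Real.log_nonneg (x := 1 + |x|) (by linarith [abs_nonneg x])
      nlinarith
    have key := S_ge hF.dif hF.ne hKc (Ψ := Ψ) (by
      apply ContinuousOn.add _ continuousOn_const
      apply ContinuousOn.add
      · apply continuousOn_const.mul
        apply ContinuousOn.add
        · apply ContinuousOn.log (by fun_prop)
          intro w hw
          obtain ⟨k1, k2, k3⟩ := hKn w hw
          have := hpq w k1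
          linarith
        · apply ContinuousOn.neg
          apply ContinuousOn.log (by fun_prop)
          intro w hw
          obtain ⟨k1, k2, k3⟩ := hKn w hw
          linarith
      · apply Continuous.continuousOn
        apply continuous_const.mul
        exact (cont_qf.comp Complex.continuous_re).add (continuous_const.mul Complex.continuous_re))
      (fun w hw => by
        obtain ⟨k1, k2, k3⟩ := hKn w hw
        have hwp : 0 < ‖w - p‖ := by linarith
        have hwq : 0 < ‖w - q‖ := hwp.trans_le (hpq w k1)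
        have hl := hgle w k1 hwp
        have hq0 := hqf0 w.re k1
        have hRT : 0 ≤ m / G0 * (2 * R / T) := by positivity
        have hlo := hN.lo w
        rcases k3.eq_or_lt with h1 | h1
        · left
          have h2 := hharn w h1.symm
          have h3 : Real.log ‖w - q‖ - Real.log ‖w - p‖ ≤ G0 := by
            refine hl.trans (le_of_eq ?_)
            rw [← h1, hG0, hρ]
            congr 2
            field_simp
            ring
          have h4 : m / G0 * (Real.log ‖w - q‖ - Real.log ‖w - p‖) ≤ m := by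
            calc m / G0 * (Real.log ‖w - q‖ - Real.log ‖w - p‖) ≤ m / G0 * G0 := by gcongr
              _ = m := div_mul_cancel₀ _ hG00.ne'
          simp only [hΨ]
          rw [← sub_eq_add_neg]
          linarith
        rcases k2.eq_or_lt with h2 | h2
        · left
          have h3 : Real.log ‖w - q‖ - Real.log ‖w - p‖ ≤ 2 * R / T := by
            refine hl.trans ?_
            rw [h2]
            have := Real.log_le_sub_one_of_pos (x := 1 + 2 * R / T) (by positivity)
            linarith
          have h4 : m / G0 * (Real.log ‖w - q‖ - Real.log ‖w - p‖) ≤ m / G0 * (2 * R / T) := by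
            gcongr
          simp only [hΨ]
          rw [← sub_eq_add_neg]
          linarith
        rcases k1.eq_or_lt with h3 | h3
        · left
          have h4 : Real.log ‖w - q‖ - Real.log ‖w - p‖ = 0 := by
            rw [hpq0 w h3, sub_self]
          simp only [hΨ]
          rw [← sub_eq_add_neg, h4, mul_zero]
          linarith
        · right
          refine ⟨?_, K / (1 + |w.re|), Q * (1 / (12 * (1 + |w.re|) ^ 2)), ?_, hN.sp2 w, ?_⟩
          · have ho : IsOpen (({v : ℂ | v.re < 0} ∩ ball p T) ∩ {v : ℂ | ρ < ‖v - p‖}) :=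
              ((isOpen_lt Complex.continuous_re continuous_const).inter isOpen_ball).inter
                (isOpen_lt continuous_const (by fun_prop))
            refine mem_of_superset (ho.mem_nhds ⟨⟨h3, ?_⟩, h1⟩) ?_
            · rw [mem_ball, dist_eq_norm]
              exact h2
            · rintro v ⟨⟨hv1, hv2⟩, hv3⟩
              refine ⟨⟨?_, ball_subset_closedBall hv2⟩, ?_⟩
              · have hv1' : v.re < 0 := hv1
                exact hv1'.le
              · have hv3' : ρ < ‖v - p‖ := hv3
                rw [mem_ball, dist_eq_norm, not_lt]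
                exact hv3'.le
          · have : 0 < 1 + |w.re| := by positivity
            rw [hQ]
            apply le_of_eq
            field_simp
            norm_num
          · have l1 : LS 0 (fun u : ℂ => Real.log ‖u - q‖) w :=
              LS.log (g := fun u => u - q) (by fun_prop) (norm_pos_iff.1 hwq)
            have l2 : LS 0 (fun u : ℂ => -Real.log ‖u - p‖) w :=
              LS.neg_log (g := fun u => u - p) (by fun_prop) (norm_pos_iff.1 hwp)
            have l3 := (l1.add l2).cmul hmG
            have l4 : LS 0 (fun u : ℂ => 2 * u.re) w := by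
              have := (LS.re (z := w) (p := fun u => u) analyticAt_id).cmul (c := 2) (by norm_num)
              rwa [mul_zero] at this
            have l5 := ((LS.qf w).add l4).cmul hQ0.le
            have l6 := (l3.add l5).addc (-(m / G0 * (2 * R / T)) - K)
            rw [add_zero, mul_zero, zero_add, add_zero] at l6
            exact l6) z hzK
    simp only [hΨ] at key
    rw [← sub_eq_add_neg] at key
    linarith
  have hlim : Tendsto (fun T : ℝ => m / G0 * (Real.log ‖z - q‖ - Real.log ‖z - p‖) -
      m / G0 * (2 * R / T) + Q * (qf z.re + 2 * z.re) - K) atTop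
      (𝓝 (m / G0 * (Real.log ‖z - q‖ - Real.log ‖z - p‖) - m / G0 * 0 +
        Q * (qf z.re + 2 * z.re) - K)) := by
    have h1 : Tendsto (fun T : ℝ => 2 * R / T) atTop (𝓝 0) := tendsto_const_nhds.div_atTop tendsto_id
    exact (((tendsto_const_nhds.sub (h1.const_mul (m / G0))).add_const _).sub_const _)
  have hfin := le_of_tendsto hlim (b := Sf F z) (by
    filter_upwards [eventually_gt_atTop (2 * R), eventually_ge_atTop ‖z - p‖] with T h1 h2
    exact main T h1 h2)
  have hqfz : qf z.re + 2 * z.re = -Real.log (1 + |z.re|) := by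
    unfold qf
    rw [abs_of_nonpos hz]
    ring
  rw [hqfz, mul_zero, sub_zero] at hfin
  linarith

end Pool.Agent.H915
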