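import Pool.Agent.H915.TC.Gr8

/-!
Normalised entire curves in the complement: the exact growth in the left half plane.
-/

set_option autoImplicit false

open Filter Topology Metric Set MvPolynomial Asymptotics Bornology

namespace Pool.Agent.H915

open Pool.Agent.Y190.OP

variable {P1 P2 : Poly} {e1 e2 : ℕ} {F : ℂ → V} {M B : ℝ} {h : ℂ → ℂ} {η K : ℝ}

/-- the sharp Harnack inequality on the positive axis of the right half plane -/
theorem harnack_axis {f : ℂ → ℂ} {κ C : ℝ} (hd : Differentiable ℂ f)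
    (h0 : ∀ z : ℂ, 0 ≤ z.re → f z ≠ 0)
    (hv : ∀ z : ℂ, 0 ≤ z.re → 0 < κ * z.re + C - Real.log ‖f z‖) {r R : ℝ} (hr : 0 < r)
    (hrR : r ≤ R) : κ * R + C - Real.log ‖f R‖ ≤ R / r * (κ * r + C - Real.log ‖f r‖) := by
  set ψ : ℂ → ℂ := fun w => r * ((1 + w) / (1 - w)) with hψ
  have hne : ∀ w ∈ ball (0 : ℂ) 1, 1 - w ≠ 0 := by
    intro w hw h1
    rw [mem_ball_zero_iff] at hw
    have : w = 1 := by linear_combination -h1
    rw [this, norm_one] at hw
    exact lt_irrefl _ hw
  have hψd : DifferentiableOn ℂ ψ (ball 0 1) := by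
    intro w hw
    have h1 := hne w hw
    apply DifferentiableAt.differentiableWithinAt
    apply DifferentiableAt.const_mul
    exact DifferentiableAt.div (by fun_prop) (by fun_prop) h1
  have hψre : ∀ w ∈ ball (0 : ℂ) 1, 0 ≤ (ψ w).re := by
    intro w hw
    have h1 := hne w hw
    rw [mem_ball_zero_iff] at hw
    have h2 : (ψ w).re = r * ((1 - ‖w‖ ^ 2) / Complex.normSq (1 - w)) := by
      rw [hψ]
      simp only
      rw [Complex.re_ofReal_mul, Complex.div_re, norm_sq_cplx]
      simp only [Complex.add_re, Complex.one_re, Complex.sub_re, Complex.add_im, Complex.one_im,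
        Complex.sub_im, zero_add, zero_sub]
      ring
    rw [h2]
    have h3 : ‖w‖ ^ 2 ≤ 1 := by
      have := norm_nonneg w
      nlinarith
    have h4 := Complex.normSq_nonneg (1 - w)
    apply mul_nonneg hr.le
    exact div_nonneg (by linarith) h4
  obtain ⟨g, hg, hgf⟩ := exists_log (f := fun w => f (ψ w)) (z := 0) (r := 1)
    (hd.comp_differentiableOn hψd) (fun w hw => h0 _ (hψre w hw))
  have hlog : ∀ w ∈ ball (0 : ℂ) 1, (g w).re = Real.log ‖f (ψ w)‖ := by
    intro w hw
    rw [← hgf w hw, Complex.norm_exp, Real.log_exp]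
  have hre : ∀ w ∈ ball (0 : ℂ) 1, ((κ : ℂ) * ψ w + (C : ℂ) - g w).re =
      κ * (ψ w).re + C - Real.log ‖f (ψ w)‖ := by
    intro w hw
    rw [Complex.sub_re, Complex.add_re, Complex.re_ofReal_mul, Complex.ofReal_re, hlog w hw]
  have hR : 0 < R := hr.trans_le hrR
  set y : ℂ := (((R - r) / (R + r) : ℝ) : ℂ) with hy
  have hyn : ‖y‖ = (R - r) / (R + r) := by
    rw [hy, Complex.norm_real, Real.norm_of_nonneg (div_nonneg (by linarith) (by linarith))]
  have hyb : y ∈ ball (0 : ℂ) 1 := by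
    rw [mem_ball_zero_iff, hyn, div_lt_one (by linarith)]
    linarith
  have hψy : ψ y = (R : ℂ) := by
    have h1 : ψ y = ((r * ((1 + (R - r) / (R + r)) / (1 - (R - r) / (R + r))) : ℝ) : ℂ) := by
      rw [hψ, hy]
      push_cast
      ring
    rw [h1]
    congr 1
    have h2 : 1 - (R - r) / (R + r) = 2 * r / (R + r) := by
      field_simp
      ring
    have h3 : 1 + (R - r) / (R + r) = 2 * R / (R + r) := by
      field_simp
      ring
    rw [h2, h3]
    field_simp
  have hψ0 : ψ 0 = (r : ℂ) := by simp [hψ]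
  have h1 := (harnack_pos (g := fun w => (κ : ℂ) * ψ w + (C : ℂ) - g w) (z := 0) (r := 1)
    (((hψd.const_mul (κ : ℂ)).add_const _).sub hg) (fun w hw => by
      rw [hre w hw]
      exact hv _ (hψre w hw)) hyb).2
  rw [hre y hyb, hre 0 (mem_ball_self one_pos), hψy, hψ0, sub_zero, hyn, Complex.ofReal_re,
    Complex.ofReal_re] at h1
  have h2 : 1 - (R - r) / (R + r) = 2 * r / (R + r) := by
    field_simp
    ring
  have h3 : 1 + (R - r) / (R + r) = 2 * R / (R + r) := by
    field_simp
    ring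
  rw [h2, h3] at h1
  have h4 : 0 < 2 * r / (R + r) := by positivity
  have h5 : 2 * R / (R + r) * (κ * r + C - Real.log ‖f r‖) =
      2 * r / (R + r) * (R / r * (κ * r + C - Real.log ‖f r‖)) := by
    field_simp
  rw [h5] at h1
  exact le_of_mul_le_mul_left h1 h4

/-- the first form is small where the norm is large -/
theorem EC.pe1_S (hS : SNC P1 P2 e1 e2) (hF : EC P1 P2 F M h) (z : ℂ) (hz : 1 ≤ Sf F z) :
    ‖pe P1 (Phi (F z))‖ ≤ Real.exp (1 - Sf F z) := by
  have h1 := pe_le hS.h1 (hF.ne z)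
  rw [hF.v1, norm_one] at h1
  have hn : 0 < ‖F z‖ := norm_pos_iff.2 (hF.ne z)
  have h2 := Sf_le (hF.ne z)
  have h5 : Real.exp (Sf F z - 1) ≤ ‖F z‖ := by
    rw [← Real.exp_log hn]
    exact Real.exp_le_exp.2 (by linarith)
  have h6 : 1 ≤ ‖F z‖ := by
    exact le_trans (Real.one_le_exp (by linarith)) h5
  have h7 : ‖F z‖ ≤ ‖F z‖ ^ (e1 + 1) := le_self_pow₀ h6 (by omega)
  have h8 : ‖pe P1 (Phi (F z))‖ * Real.exp (Sf F z - 1) ≤ 1 :=
    (mul_le_mul_of_nonneg_left (h5.trans h7) (norm_nonneg _)).trans h1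
  rw [← le_div_iff₀ (Real.exp_pos _), one_div, ← Real.exp_neg, neg_sub] at h8
  exact h8

/-- **The lower bound on the left** -/
theorem ND.left_lower (hF : BC F M) (hN : ND P1 P2 e2 F η K) {κ : ℝ} (hκ : 0 < κ)
    (hfr : ∀ y0 : ℝ, ∃ᶠ x : ℝ in atTop, κ * x < Sf F (-x + y0 * Complex.I)) :
    ∃ c D : ℝ, 0 < c ∧ ∀ z : ℂ, z.re ≤ 0 → c * |z.re| - D ≤ Sf F z := by
  have hK := hN.pos
  set τ : ℝ := min (1 / 2) (1 / (12 * K)) with hτ
  have hτ0 : 0 < τ := by positivity
  have hτ1 : τ ≤ 1 / 2 := min_le_left _ _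
  set G0 : ℝ := Real.log (1 + 4 / τ) with hG0
  have hG00 : 0 < G0 := Real.log_pos (by
    have : 0 < 4 / τ := by positivity
    linarith)
  set Q : ℝ := 54 * K ^ 2 with hQ
  have hQ0 : 0 < Q := by positivity
  set c : ℝ := κ / (6 * G0) with hc
  have hc0 : 0 < c := by positivity
  have h1 : ∀ z : ℂ, z.re ≤ 0 → c * |z.re| - Q * Real.log (1 + |z.re|) - K ≤ Sf F z := by
    intro z hz
    obtain ⟨R, hR1, hR2⟩ := ((hfr z.im).and_eventually
      (eventually_ge_atTop (max (6 / κ) (2 * |z.re| + 1)))).exists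
    set x := |z.re| with hx
    have hx0 : 0 ≤ x := abs_nonneg _
    have hR3 : 6 / κ ≤ R := (le_max_left _ _).trans hR2
    have hR4 : 2 * x + 1 ≤ R := (le_max_right _ _).trans hR2
    have hR : 0 < R := by linarith
    have hzx : z = ((-x : ℝ) : ℂ) + z.im * Complex.I := by
      rw [hx, abs_of_nonpos hz, neg_neg]
      exact (Complex.re_add_im z).symm
    have e1 : ‖z - (-R + z.im * Complex.I)‖ = R - x := by
      have : z - (-R + z.im * Complex.I) = ((R - x : ℝ) : ℂ) := by
        conv_lhs => rw [hzx]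
        push_cast
        simp
        ring
      rw [this, Complex.norm_real, Real.norm_of_nonneg (by linarith)]
    have e2 : ‖z - (R + z.im * Complex.I)‖ = R + x := by
      have : z - (R + z.im * Complex.I) = ((-(R + x) : ℝ) : ℂ) := by
        conv_lhs => rw [hzx]
        push_cast
        simp
        ring
      rw [this, Complex.norm_real, norm_neg, Real.norm_of_nonneg (by linarith)]
    have h2 := hN.lemmaG hF (y0 := z.im) hR hz (by
      rw [e1]
      nlinarith)
    rw [e1, e2] at h2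
    have h3 : x / R ≤ Real.log (R + x) - Real.log (R - x) := by
      rw [← Real.log_div (by linarith) (by linarith)]
      have hpos : 0 < (R + x) / (R - x) := div_pos (by linarith) (by linarith)
      have h4 := Real.one_sub_inv_le_log_of_pos hpos
      refine le_trans ?_ h4
      rw [inv_div, one_sub_div (by linarith), div_le_div_iff₀ hR (by linarith)]
      nlinarith
    have h4 : κ / 6 * R ≤ max ((Sf F (-R + z.im * Complex.I) + K) / 3 - 1) 0 := by
      refine le_trans ?_ (le_max_left _ _)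
      rw [div_le_iff₀ hκ] at hR3
      linarith
    have h5 : c * x ≤ max ((Sf F (-R + z.im * Complex.I) + K) / 3 - 1) 0 / G0 *
        (Real.log (R + x) - Real.log (R - x)) := by
      calc c * x = (κ / 6 * R) / G0 * (x / R) := by
            rw [hc]
            field_simp
        _ ≤ _ := by
            apply mul_le_mul _ h3 (by positivity) (by positivity)
            exact div_le_div_of_nonneg_right h4 hG00.le
    linarith
  refine ⟨c / 2, c / 2 + 8 * Q ^ 2 / c + K, by positivity, fun z hz => ?_⟩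
  have h2 := h1 z hz
  set x := |z.re| with hx
  have hx0 : 0 ≤ x := abs_nonneg _
  have h3 := log_le_two_sqrt (x := 1 + x) (by linarith)
  set s := Real.sqrt (1 + x) with hs
  have hs0 : 0 ≤ s := Real.sqrt_nonneg _
  have hss : s ^ 2 = 1 + x := Real.sq_sqrt (by linarith)
  -- `2 Q s ≤ c s^2 / 2 + 2 Q^2 / c`
  have h4 : 2 * Q * s ≤ c / 2 * s ^ 2 + 8 * Q ^ 2 / c := by
    have h5 : 0 ≤ (c / 2 * s - 2 * Q) ^ 2 := sq_nonneg _
    have h6 : 2 * Q * s * c ≤ (c / 2 * s ^ 2 + 8 * Q ^ 2 / c) * c := by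
      have e : (c / 2 * s ^ 2 + 8 * Q ^ 2 / c) * c = c ^ 2 / 2 * s ^ 2 + 8 * Q ^ 2 := by
        field_simp
      rw [e]
      nlinarith [sq_nonneg (c * s), sq_nonneg (c * s - 2 * Q)]
    exact le_of_mul_le_mul_right h6 hc0
  have h5 : Q * Real.log (1 + x) ≤ 2 * Q * s := by nlinarith
  rw [hss] at h4
  linarith

end Pool.Agent.H915
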