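import Mathlib

/-!
Harnack's inequality for the logarithm of the absolute value of a holomorphic function without
zeros.
-/

set_option autoImplicit false

open Filter Topology Metric Set

namespace Pool.Agent.H915

theorem exists_log {f : ℂ → ℂ} {z : ℂ} {r : ℝ} (hd : DifferentiableOn ℂ f (ball z r))
    (h0 : ∀ y ∈ ball z r, f y ≠ 0) : ∃ g : ℂ → ℂ, DifferentiableOn ℂ g (ball z r) ∧
      ∀ y ∈ ball z r, Complex.exp (g y) = f y := by
  rcases (ball z r).eq_empty_or_nonempty with he | ⟨y0, hy0⟩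
  · exact ⟨0, by rw [he]; exact differentiableOn_empty, fun y hy => by
      rw [he] at hy
      exact absurd hy (notMem_empty y)⟩
  have hr : 0 < r := pos_of_mem_ball hy0
  have hd' : DifferentiableOn ℂ (fun y => deriv f y / f y) (ball z r) :=
    (hd.deriv isOpen_ball).div hd h0
  obtain ⟨g, hg⟩ := hd'.isExactOn_ball
  have hzb : z ∈ ball z r := mem_ball_self hr
  set G : ℂ → ℂ := fun y => g y - g z + Complex.log (f z) with hG
  have hGd : ∀ y ∈ ball z r, HasDerivAt G (deriv f y / f y) y := by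
    intro y hy
    exact ((hg y hy).sub_const _).add_const _
  have hconst : ∀ y ∈ ball z r, f y * Complex.exp (-G y) = f z * Complex.exp (-G z) := by
    intro y hy
    have hder : ∀ w ∈ ball z r, HasDerivAt (fun w => f w * Complex.exp (-G w)) 0 w := by
      intro w hw
      have h1 : HasDerivAt f (deriv f w) w :=
        ((hd w hw).differentiableAt (isOpen_ball.mem_nhds hw)).hasDerivAt
      have h2 := (hGd w hw).neg.cexp
      have h3 := h1.mul h2
      have h5 := h0 w hw
      have e : deriv f w * Complex.exp ((-G) w) +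
          f w * (Complex.exp ((-G) w) * -(deriv f w / f w)) = 0 := by
        have h6 : f w * (Complex.exp ((-G) w) * -(deriv f w / f w)) =
          -(deriv f w * Complex.exp ((-G) w)) := by field_simp
        rw [h6]
        ring
      rw [e] at h3
      exact h3
    have h4 := (convex_ball z r).is_const_of_fderivWithin_eq_zero (𝕜 := ℂ)
      (f := fun w => f w * Complex.exp (-G w))
      (fun w hw => (hder w hw).differentiableAt.differentiableWithinAt) (fun w hw => by
        rw [fderivWithin_of_isOpen isOpen_ball hw]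
        have := (hder w hw).hasFDerivAt.fderiv
        rw [this]
        ext
        simp) hy hzb
    exact h4
  refine ⟨G, fun y hy => (hGd y hy).differentiableAt.differentiableWithinAt, fun y hy => ?_⟩
  have h1 := hconst y hy
  have h2 : Complex.exp (-G z) = (f z)⁻¹ := by
    rw [hG]
    simp only [sub_self, zero_add]
    rw [Complex.exp_neg, Complex.exp_log (h0 z hzb)]
  rw [h2, mul_inv_cancel₀ (h0 z hzb), Complex.exp_neg] at h1
  have h3 := Complex.exp_ne_zero (G y)
  field_simp at h1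
  exact h1.symm

theorem harnack_pos {g : ℂ → ℂ} {z : ℂ} {r : ℝ} (hd : DifferentiableOn ℂ g (ball z r))
    (hp : ∀ y ∈ ball z r, 0 < (g y).re) {y : ℂ} (hy : y ∈ ball z r) :
    (r - ‖y - z‖) * (g z).re ≤ (r + ‖y - z‖) * (g y).re ∧
      (r - ‖y - z‖) * (g y).re ≤ (r + ‖y - z‖) * (g z).re := by
  have hr : 0 < r := pos_of_mem_ball hy
  have hzb : z ∈ ball z r := mem_ball_self hr
  set v0 : ℝ := (g z).re with hv0
  have hv0p : 0 < v0 := hp z hzb
  set G : ℂ → ℂ := fun w => g w - ((g z).im : ℂ) * Complex.I with hG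
  have hGre : ∀ w, (G w).re = (g w).re := fun w => by simp [hG]
  have hGz : G z = v0 := by
    apply Complex.ext
    · rw [hGre]; simp [hv0]
    · simp [hG]
  have hden : ∀ w ∈ ball z r, G w + v0 ≠ 0 := by
    intro w hw h0
    have := congrArg Complex.re h0
    rw [Complex.add_re, hGre, Complex.ofReal_re, Complex.zero_re] at this
    linarith [hp w hw]
  set φ : ℂ → ℂ := fun w => (G w - v0) / (G w + v0) with hφ
  have hφz : φ z = 0 := by rw [hφ]; simp [hGz]
  have hφd : DifferentiableOn ℂ φ (ball z r) :=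
    ((hd.sub_const _).sub_const _).div ((hd.sub_const _).add_const _) hden
  have e3 : ∀ u : ℂ, ‖u‖ ^ 2 = u.re ^ 2 + u.im ^ 2 := by
    intro u
    rw [← Complex.normSq_eq_norm_sq, Complex.normSq_apply]
    ring
  have hφ1 : ∀ w ∈ ball z r, ‖φ w‖ < 1 := by
    intro w hw
    rw [hφ]
    simp only
    rw [norm_div, div_lt_one (norm_pos_iff.2 (hden w hw))]
    rw [← sq_lt_sq₀ (norm_nonneg _) (norm_nonneg _), e3, e3]
    simp only [Complex.sub_re, Complex.add_re, Complex.sub_im, Complex.add_im, Complex.ofReal_re,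
      Complex.ofReal_im, hGre]
    nlinarith [hp w hw]
  have hs := Complex.dist_le_div_mul_dist_of_mapsTo_ball (R₂ := 1) hφd (fun w hw => by
    rw [mem_closedBall, hφz, dist_zero_right]
    exact (hφ1 w hw).le) hy
  rw [hφz, dist_zero_right, dist_eq_norm, one_div, inv_mul_eq_div, le_div_iff₀ hr] at hs
  -- the real part
  set φy := φ y with hφy
  have hφ1y := hφ1 y hy
  have h1φ : (1 : ℂ) - φy ≠ 0 := by
    intro h0
    have : φy = 1 := by linear_combination -h0
    rw [← hφy, this, norm_one] at hφ1y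
    exact lt_irrefl _ hφ1y
  have hGy : G y = v0 * (1 + φy) / (1 - φy) := by
    rw [eq_div_iff h1φ, hφy, hφ]
    simp only
    have := hden y hy
    field_simp
    ring
  have hns : Complex.normSq (1 - φy) ≠ 0 := fun h => h1φ (Complex.normSq_eq_zero.1 h)
  have hre : (g y).re * ‖1 - φy‖ ^ 2 = v0 * (1 - ‖φy‖ ^ 2) := by
    rw [← hGre, hGy, Complex.div_re, ← Complex.normSq_eq_norm_sq]
    rw [add_mul, div_mul_cancel₀ _ hns, div_mul_cancel₀ _ hns, e3]
    simp only [Complex.mul_re, Complex.mul_im, Complex.add_re, Complex.add_im, Complex.one_re,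
      Complex.one_im, Complex.sub_re, Complex.sub_im, Complex.ofReal_re, Complex.ofReal_im]
    ring
  set t := ‖φy‖ with ht
  have ht0 : 0 ≤ t := norm_nonneg _
  have hd1 : ‖1 - φy‖ ≤ 1 + t := by
    have := norm_sub_le 1 φy
    rwa [norm_one] at this
  have hd2 : 1 - t ≤ ‖1 - φy‖ := by
    have := norm_sub_norm_le 1 φy
    rwa [norm_one] at this
  have h1t : 0 < 1 - t := by linarith
  have hgy := hp y hy
  set ρ := ‖y - z‖ with hρ
  have hρ0 : 0 ≤ ρ := norm_nonneg _
  have hρr : ρ < r := by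
    rw [mem_ball, dist_eq_norm] at hy
    exact hy
  have hA : v0 * (1 - t) ≤ (g y).re * (1 + t) := by
    have h2 : ‖1 - φy‖ ^ 2 ≤ (1 + t) ^ 2 := by gcongr
    have h3 : v0 * (1 - t) * (1 + t) ≤ (g y).re * (1 + t) * (1 + t) := by nlinarith
    exact le_of_mul_le_mul_right h3 (by linarith)
  have hB : (g y).re * (1 - t) ≤ v0 * (1 + t) := by
    have h2 : (1 - t) ^ 2 ≤ ‖1 - φy‖ ^ 2 := by gcongr
    have h3 : (g y).re * (1 - t) * (1 - t) ≤ v0 * (1 + t) * (1 - t) := by nlinarith
    exact le_of_mul_le_mul_right h3 h1t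
  constructor
  · -- (r - ρ) v0 ≤ (r + ρ) g
    have h5 : (r - ρ) * (1 + t) ≤ (r + ρ) * (1 - t) := by nlinarith
    have h6 : (r - ρ) * v0 * (1 + t) ≤ (r + ρ) * (g y).re * (1 + t) := by
      calc (r - ρ) * v0 * (1 + t) = v0 * ((r - ρ) * (1 + t)) := by ring
        _ ≤ v0 * ((r + ρ) * (1 - t)) := by gcongr
        _ = (r + ρ) * (v0 * (1 - t)) := by ring
        _ ≤ (r + ρ) * ((g y).re * (1 + t)) := by gcongr
        _ = _ := by ring
    exact le_of_mul_le_mul_right h6 (by linarith)
  · have h5 : (r - ρ) * (1 + t) ≤ (r + ρ) * (1 - t) := by nlinarith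
    have h6 : (r - ρ) * (g y).re * (1 + t) ≤ (r + ρ) * v0 * (1 + t) := by
      calc (r - ρ) * (g y).re * (1 + t) = (g y).re * ((r - ρ) * (1 + t)) := by ring
        _ ≤ (g y).re * ((r + ρ) * (1 - t)) := by gcongr
        _ = (r + ρ) * ((g y).re * (1 - t)) := by ring
        _ ≤ (r + ρ) * (v0 * (1 + t)) := by gcongr
        _ = _ := by ring
    exact le_of_mul_le_mul_right h6 (by linarith)

/-- **Harnack's inequality.** -/
theorem harnack {f : ℂ → ℂ} {z : ℂ} {r B : ℝ} (hd : DifferentiableOn ℂ f (ball z r))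
    (h0 : ∀ y ∈ ball z r, f y ≠ 0) (hB : ∀ y ∈ ball z r, -B ≤ Real.log ‖f y‖) {y : ℂ}
    (hy : y ∈ ball z r) :
    (r - ‖y - z‖) * (Real.log ‖f z‖ + B) ≤ (r + ‖y - z‖) * (Real.log ‖f y‖ + B) ∧
      (r - ‖y - z‖) * (Real.log ‖f y‖ + B) ≤ (r + ‖y - z‖) * (Real.log ‖f z‖ + B) := by
  obtain ⟨g, hg, hgf⟩ := exists_log hd h0
  have hr : 0 < r := pos_of_mem_ball hy
  have hre : ∀ w ∈ ball z r, Real.log ‖f w‖ = (g w).re := by
    intro w hw
    rw [← hgf w hw, Complex.norm_exp, Real.log_exp]
  have key : ∀ ε : ℝ, 0 < ε →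
      (r - ‖y - z‖) * (Real.log ‖f z‖ + B + ε) ≤ (r + ‖y - z‖) * (Real.log ‖f y‖ + B + ε) ∧
      (r - ‖y - z‖) * (Real.log ‖f y‖ + B + ε) ≤ (r + ‖y - z‖) * (Real.log ‖f z‖ + B + ε) := by
    intro ε hε
    have h1 := harnack_pos (g := fun w => g w + ((B + ε : ℝ) : ℂ)) (hg.add_const _) (fun w hw => by
      rw [Complex.add_re, Complex.ofReal_re, ← hre w hw]
      linarith [hB w hw]) hy
    simp only [Complex.add_re, Complex.ofReal_re] at h1
    rw [hre z (mem_ball_self hr), hre y hy]
    constructor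
    · convert h1.1 using 2 <;> ring
    · convert h1.2 using 2 <;> ring
  have hρ : ‖y - z‖ < r := by
    rw [mem_ball, dist_eq_norm] at hy
    exact hy
  have hρ0 := norm_nonneg (y - z)
  constructor
  · apply le_of_forall_pos_le_add
    intro ε hε
    have h1 := (key (ε / (r + ‖y - z‖)) (by positivity)).1
    have h2 : (r + ‖y - z‖) * (ε / (r + ‖y - z‖)) = ε := by field_simp
    have h3 : 0 ≤ (r - ‖y - z‖) * (ε / (r + ‖y - z‖)) := by
      apply mul_nonneg
      · linarith
      · positivity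
    nlinarith
  · apply le_of_forall_pos_le_add
    intro ε hε
    have h1 := (key (ε / (r + ‖y - z‖)) (by positivity)).2
    have h2 : (r + ‖y - z‖) * (ε / (r + ‖y - z‖)) = ε := by field_simp
    have h3 : 0 ≤ (r - ‖y - z‖) * (ε / (r + ‖y - z‖)) := by
      apply mul_nonneg
      · linarith
      · positivity
    nlinarith

end Pool.Agent.H915
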