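import Pool.Agent.H915.TC.Cpt
import Pool.Graph.R_seed8.W602.GT.NG

/-!
Logarithmic forms on the complement of two transversal curves.
-/

set_option autoImplicit false

open MvPolynomial FF

namespace Pool.Agent.H915

open Pool.Agent.W602.GT

section vec

variable {K : Type} [Field K]

/-- the determinant of three vectors -/
def dt (u v w : Fin 3 → K) : K :=
  u 0 * (v 1 * w 2 - v 2 * w 1) - u 1 * (v 0 * w 2 - v 2 * w 0) + u 2 * (v 0 * w 1 - v 1 * w 0)

/-- the bilinear product -/
def dk (u v : Fin 3 → K) : K := u 0 * v 0 + u 1 * v 1 + u 2 * v 2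

theorem dt_mul (a b c u v w : Fin 3 → K) : dt a b c * dt u v w =
    dk a u * (dk b v * dk c w - dk b w * dk c v) - dk a v * (dk b u * dk c w - dk b w * dk c u) +
      dk a w * (dk b u * dk c v - dk b v * dk c u) := by
  unfold dt dk
  ring

end vec

variable {K : Type} [Field K] [Algebra ℂ K]

/-- the gradient at a point of an extension field -/
noncomputable def gk (P : Poly) (u : Fin 3 → K) : Fin 3 → K := fun i => aeval u (pderiv i P)

theorem euler_k {P : Poly} {m : ℕ} (hP : P.IsHomogeneous m) (u : Fin 3 → K) :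
    dk (gk P u) u = m * aeval u P := by
  have h := congrArg (aeval u) hP.sum_X_mul_pderiv
  rw [map_sum, Fin.sum_univ_three] at h
  simp only [map_mul, aeval_X, nsmul_eq_mul, map_natCast] at h
  unfold dk gk
  linear_combination h

theorem der_k (D : Derivation ℂ K K) (u : Fin 3 → K) (P : Poly) :
    D (aeval u P) = dk (gk P u) (fun j => D (u j)) := by
  unfold dk gk
  induction P using MvPolynomial.induction_on with
  | C a =>
    rw [aeval_C, D.map_algebraMap]
    simp
  | add p q hp hq =>
    rw [map_add, map_add, hp, hq]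
    simp only [map_add]
    ring
  | mul_X p i hp =>
    rw [map_mul, aeval_X, Derivation.leibniz, hp]
    simp only [Derivation.leibniz, pderiv_X, smul_eq_mul, map_add, map_mul, aeval_X]
    fin_cases i <;> simp <;> ring

theorem sc_k {P : Poly} {m : ℕ} (hP : P.IsHomogeneous m) (c : K) (u : Fin 3 → K) :
    aeval (fun j => c * u j) P = c ^ m * aeval u P := by
  rw [aeval_def, aeval_def, eval₂_eq', eval₂_eq', Finset.mul_sum]
  refine Finset.sum_congr rfl fun s hs => ?_
  have h1 : s.degree = m := by
    by_contra hcon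
    exact (mem_support_iff.1 hs) (hP.coeff_eq_zero hcon)
  simp only [mul_pow]
  rw [Finset.prod_mul_distrib, Finset.prod_pow_eq_pow_sum]
  have h2 : ∑ i, s i = m := by
    rw [← h1, Finsupp.degree_eq_sum]
  rw [h2]
  ring

/-- the determinant of the derivatives is homogeneous -/
theorem dt_scale (D E : Derivation ℂ K K) (c : K) (u : Fin 3 → K) :
    dt (fun j => c * u j) (fun j => D (c * u j)) (fun j => E (c * u j)) =
      c ^ 3 * dt u (fun j => D (u j)) (fun j => E (u j)) := by
  unfold dt
  simp only [Derivation.leibniz, smul_eq_mul]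
  ring

/-- the elements of the maximal ideal -/
def Mx (P : Place ℂ K) (f : K) : Prop := f = 0 ∨ 0 < P.ord f

theorem Mx.reg {P : Place ℂ K} {f : K} (h : Mx P f) : P.Reg f := h.imp id fun h => h.le

theorem Mx.zero (P : Place ℂ K) : Mx P 0 := Or.inl rfl

theorem Mx.add {P : Place ℂ K} {f g : K} (hf : Mx P f) (hg : Mx P g) : Mx P (f + g) := by
  by_cases hfg : f + g = 0
  · exact Or.inl hfg
  rcases hf with rfl | hf
  · rw [zero_add]
    exact hg
  rcases hg with rfl | hg
  · rw [add_zero]
    exact Or.inr hf
  have hf0 : f ≠ 0 := by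
    rintro rfl
    rw [P.ord_zero] at hf
    exact lt_irrefl _ hf
  have hg0 : g ≠ 0 := by
    rintro rfl
    rw [P.ord_zero] at hg
    exact lt_irrefl _ hg
  exact Or.inr ((lt_min hf hg).trans_le (P.ord_add hf0 hg0 hfg))

theorem Mx.mul {P : Place ℂ K} {f g : K} (hf : P.Reg f) (hg : Mx P g) : Mx P (f * g) := by
  rcases hg with rfl | hg
  · rw [mul_zero]
    exact Mx.zero P
  rcases hf with rfl | hf
  · rw [zero_mul]
    exact Mx.zero P
  by_cases hf0 : f = 0
  · rw [hf0, zero_mul]
    exact Mx.zero P
  have hg0 : g ≠ 0 := by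
    rintro rfl
    rw [P.ord_zero] at hg
    exact lt_irrefl _ hg
  right
  rw [P.ord_mul hf0 hg0]
  linarith

theorem not_mx_one (P : Place ℂ K) : ¬ Mx P 1 := by
  rintro (h | h)
  · exact one_ne_zero h
  · rw [P.ord_one] at h
    exact lt_irrefl _ h

/-- regular functions which are not in the maximal ideal are units -/
theorem inv_reg {P : Place ℂ K} {f : K} (hf : P.Reg f) (h : ¬ Mx P f) : P.Reg f⁻¹ := by
  unfold Mx at h
  push Not at h
  rcases hf with hf | hf
  · exact absurd hf h.1
  · right
    rw [P.ord_inv]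
    linarith

theorem reg_aev {P : Place ℂ K} {u : Fin 3 → K} (hu : ∀ j, P.Reg (u j)) (G : Poly) :
    P.Reg (aeval u G) := by
  induction G using MvPolynomial.induction_on with
  | C a =>
    rw [aeval_C]
    exact P.reg_const a
  | add p q hp hq =>
    rw [map_add]
    exact P.reg_add hp hq
  | mul_X p i hp =>
    rw [map_mul, aeval_X]
    exact P.reg_mul hp (hu i)

/-- forms without common zeros do not all belong to the maximal ideal -/
theorem null {P : Place ℂ K} {u : Fin 3 → K} (hu : ∀ j, P.Reg (u j)) {i0 : Fin 3} (h1 : u i0 = 1)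
    (S : Set Poly) (hS : ∀ x : V, (∀ G ∈ S, eval x G = 0) → x = 0) :
    ∃ G ∈ S, ¬ Mx P (aeval u G) := by
  classical
  by_contra hcon
  push Not at hcon
  have h2 : (X i0 : Poly) ∈ (Ideal.span S).radical := by
    rw [← vanishingIdeal_zeroLocus_eq_radical (K := ℂ)]
    rw [mem_vanishingIdeal_iff]
    intro x hx
    rw [mem_zeroLocus_iff] at hx
    have h3 : x = 0 := hS x fun G hG => by
      have := hx G (Ideal.subset_span hG)
      rwa [← coe_aeval_eq_eval]
    rw [h3]
    simp
  obtain ⟨M, hM⟩ := Ideal.mem_radical_iff.1 h2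
  have h4 : ∀ G ∈ Ideal.span S, Mx P (aeval u G) := by
    intro G hG
    induction hG using Submodule.span_induction with
    | mem x hx => exact hcon x hx
    | zero =>
      rw [map_zero]
      exact Mx.zero P
    | add x y _ _ hx hy =>
      rw [map_add]
      exact hx.add hy
    | smul a x _ hx =>
      rw [smul_eq_mul, map_mul]
      exact Mx.mul (reg_aev hu a) hx
  have h5 := h4 _ hM
  rw [map_pow, aeval_X, h1, one_pow] at h5
  exact not_mx_one P h5

end Pool.Agent.H915
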