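import Pool.Agent.H915.TC.Lg1

/-!
The logarithmic form at a place.
-/

set_option autoImplicit false

open MvPolynomial FF

namespace Pool.Agent.H915

open Pool.Agent.W602.GT

variable {K : Type} [Field K] [Algebra ℂ K] {P1 P2 : Poly} {e1 e2 : ℕ} {P : Place ℂ K}
  {u : Fin 3 → K}

theorem reg_sub' {f g : K} (hf : P.Reg f) (hg : P.Reg g) : P.Reg (f - g) := by
  rw [sub_eq_add_neg]
  exact P.reg_add hf (P.reg_neg hg)

theorem reg_nat (n : ℕ) : P.Reg (n : K) := by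
  rw [← map_natCast (algebraMap ℂ K)]
  exact P.reg_const _

/-- the values of logarithmic derivations on regular functions are regular -/
theorem log_reg {D : Derivation ℂ K K} (hD : DerLog P D) {f : K} (hf : P.Reg f) : P.Reg (D f) := by
  by_cases h0 : f = 0
  · rw [h0, map_zero]
    exact P.reg_zero
  have h1 := P.reg_mul (hD f) hf
  rwa [div_mul_cancel₀ _ h0] at h1

/-- basis vectors -/
def bk (k : Fin 3) : Fin 3 → K := Pi.single k 1

omit [Algebra ℂ K] in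
theorem dk_bk (k : Fin 3) (v : Fin 3 → K) : dk (bk k) v = v k := by
  unfold dk bk
  fin_cases k <;> simp

/-- the minors of the gradients -/
noncomputable def mn (P1 P2 : Poly) (k : Fin 3) : Poly :=
  ![pderiv 1 P1 * pderiv 2 P2 - pderiv 2 P1 * pderiv 1 P2,
    pderiv 2 P1 * pderiv 0 P2 - pderiv 0 P1 * pderiv 2 P2,
    pderiv 0 P1 * pderiv 1 P2 - pderiv 1 P1 * pderiv 0 P2] k

theorem mn_eval (k : Fin 3) (x : V) : eval x (mn P1 P2 k) = cr (grad P1 x) (grad P2 x) k := by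
  unfold mn
  fin_cases k <;> simp [grad]

theorem mn_aeval (k : Fin 3) : aeval u (mn P1 P2 k) = dt (gk P1 u) (gk P2 u) (bk k) := by
  unfold mn dt gk bk
  fin_cases k <;> simp <;> ring

/-- **The logarithmic form has logarithmic poles**, the case of a crossing -/
theorem key_cross (hS : SNC P1 P2 e1 e2) (hu : ∀ j, P.Reg (u j)) {i0 : Fin 3} (h1 : u i0 = 1)
    (k1 : Mx P (aeval u P1)) (k2 : Mx P (aeval u P2)) (n1 : aeval u P1 ≠ 0)
    (n2 : aeval u P2 ≠ 0) {D E : Derivation ℂ K K} (hD : DerLog P D) (hE : DerLog P E) :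
    P.Reg (dt u (fun j => D (u j)) (fun j => E (u j)) / (aeval u P1 * aeval u P2)) := by
  obtain ⟨G, hG, hGM⟩ := null hu h1 ({P1, P2} ∪ Set.range (mn P1 P2)) (by
    intro x hx
    by_contra hx0
    refine hS.tr x hx0 (hx P1 (Or.inl (Or.inl rfl))) (hx P2 (Or.inl (Or.inr rfl))) ?_
    funext k
    rw [← mn_eval]
    exact hx _ (Or.inr ⟨k, rfl⟩))
  rcases hG with (rfl | hG) | ⟨k, rfl⟩
  · exact absurd k1 hGM
  · rw [Set.mem_singleton_iff] at hG
    rw [hG] at hGM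
    exact absurd k2 hGM
  have hreg := inv_reg (reg_aev hu (mn P1 P2 k)) hGM
  have hne : aeval u (mn P1 P2 k) ≠ 0 := fun h => hGM (Or.inl h)
  have hm := dt_mul (gk P1 u) (gk P2 u) (bk k) u (fun j => D (u j)) (fun j => E (u j))
  rw [← mn_aeval, euler_k hS.h1, euler_k hS.h2, ← der_k, ← der_k, ← der_k, ← der_k, dk_bk, dk_bk,
    dk_bk] at hm
  obtain ⟨f1, hf1⟩ : ∃ f1, f1 = aeval u P1 := ⟨_, rfl⟩
  obtain ⟨f2, hf2⟩ : ∃ f2, f2 = aeval u P2 := ⟨_, rfl⟩
  rw [← hf1, ← hf2] at hm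
  rw [← hf1] at n1
  rw [← hf2] at n2
  have hfin : dt u (fun j => D (u j)) (fun j => E (u j)) / (aeval u P1 * aeval u P2) =
      (aeval u (mn P1 P2 k))⁻¹ * (((e1 + 1 : ℕ) : K) * (D f2 / f2 * E (u k) - E f2 / f2 * D (u k)) -
        D f1 / f1 * (((e2 + 1 : ℕ) : K) * E (u k) - E f2 / f2 * u k) +
        E f1 / f1 * (((e2 + 1 : ℕ) : K) * D (u k) - D f2 / f2 * u k)) := by
    rw [← hf1, ← hf2]
    field_simp
    linear_combination hm
  rw [hfin]
  have a1 := hD f1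
  have a2 := hD f2
  have b1 := hE f1
  have b2 := hE f2
  have c1 := log_reg hD (hu k)
  have c2 := log_reg hE (hu k)
  refine P.reg_mul hreg (P.reg_add (reg_sub' (P.reg_mul (reg_nat _) (reg_sub' (P.reg_mul a2 c2)
    (P.reg_mul b2 c1))) (P.reg_mul a1 (reg_sub' (P.reg_mul (reg_nat _) c2)
    (P.reg_mul b2 (hu k))))) (P.reg_mul b1 (reg_sub' (P.reg_mul (reg_nat _) c1)
    (P.reg_mul a2 (hu k)))))

/-- the case of a smooth point of the boundary -/
theorem key_smooth (h : P1.IsHomogeneous (e1 + 1))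
    (hs : ∀ x : V, x ≠ 0 → eval x P1 = 0 → grad P1 x ≠ 0)
    (hu : ∀ j, P.Reg (u j)) {i0 : Fin 3} (h1 : u i0 = 1)
    (k1 : Mx P (aeval u P1)) (n1 : aeval u P1 ≠ 0)
    {D E : Derivation ℂ K K} (hD : DerLog P D) (hE : DerLog P E) :
    P.Reg (dt u (fun j => D (u j)) (fun j => E (u j)) / aeval u P1) := by
  obtain ⟨G, hG, hGM⟩ := null hu h1 ({P1} ∪ Set.range (fun i => pderiv i P1)) (by
    intro x hx
    by_contra hx0
    refine hs x hx0 (hx P1 (Or.inl rfl)) ?_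
    funext i
    exact hx _ (Or.inr ⟨i, rfl⟩))
  rcases hG with hG | ⟨l, rfl⟩
  · rw [Set.mem_singleton_iff] at hG
    rw [hG] at hGM
    exact absurd k1 hGM
  simp only at hGM
  have hreg := inv_reg (reg_aev hu (pderiv l P1)) hGM
  have hne : aeval u (pderiv l P1) ≠ 0 := fun h => hGM (Or.inl h)
  obtain ⟨j, k, hjk⟩ : ∃ j k, dt (gk P1 u) (bk j) (bk k) = aeval u (pderiv l P1) := by
    fin_cases l
    · exact ⟨1, 2, by simp [dt, bk, gk]⟩
    · exact ⟨2, 0, by simp [dt, bk, gk]⟩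
    · exact ⟨0, 1, by simp [dt, bk, gk]⟩
  have hm := dt_mul (gk P1 u) (bk j) (bk k) u (fun j => D (u j)) (fun j => E (u j))
  rw [hjk, euler_k h, ← der_k, ← der_k, dk_bk, dk_bk, dk_bk, dk_bk, dk_bk, dk_bk] at hm
  obtain ⟨f1, hf1⟩ : ∃ f1, f1 = aeval u P1 := ⟨_, rfl⟩
  rw [← hf1] at hm n1
  have hfin : dt u (fun j => D (u j)) (fun j => E (u j)) / aeval u P1 =
      (aeval u (pderiv l P1))⁻¹ * (((e1 + 1 : ℕ) : K) * (D (u j) * E (u k) - E (u j) * D (u k)) -
        D f1 / f1 * (u j * E (u k) - E (u j) * u k) +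
        E f1 / f1 * (u j * D (u k) - D (u j) * u k)) := by
    rw [← hf1]
    field_simp
    linear_combination hm
  rw [hfin]
  have a1 := hD f1
  have b1 := hE f1
  have c1 := fun k => log_reg hD (hu k)
  have c2 := fun k => log_reg hE (hu k)
  refine P.reg_mul hreg (P.reg_add (reg_sub' (P.reg_mul (reg_nat _) (reg_sub'
    (P.reg_mul (c1 j) (c2 k)) (P.reg_mul (c2 j) (c1 k)))) (P.reg_mul a1 (reg_sub'
    (P.reg_mul (hu j) (c2 k)) (P.reg_mul (c2 j) (hu k))))) (P.reg_mul b1 (reg_sub'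
    (P.reg_mul (hu j) (c1 k)) (P.reg_mul (c1 j) (hu k)))))

theorem reg_dt {v w : Fin 3 → K} (hu : ∀ j, P.Reg (u j)) (hv : ∀ j, P.Reg (v j))
    (hw : ∀ j, P.Reg (w j)) : P.Reg (dt u v w) := by
  unfold dt
  exact P.reg_add (reg_sub' (P.reg_mul (hu _) (reg_sub' (P.reg_mul (hv _) (hw _))
    (P.reg_mul (hv _) (hw _)))) (P.reg_mul (hu _) (reg_sub' (P.reg_mul (hv _) (hw _))
    (P.reg_mul (hv _) (hw _))))) (P.reg_mul (hu _) (reg_sub' (P.reg_mul (hv _) (hw _))
    (P.reg_mul (hv _) (hw _))))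

/-- **The logarithmic form has logarithmic poles** -/
theorem key_log (hS : SNC P1 P2 e1 e2) (hu : ∀ j, P.Reg (u j)) {i0 : Fin 3} (h1 : u i0 = 1)
    (n1 : aeval u P1 ≠ 0) (n2 : aeval u P2 ≠ 0) {D E : Derivation ℂ K K} (hD : DerLog P D)
    (hE : DerLog P E) :
    P.Reg (dt u (fun j => D (u j)) (fun j => E (u j)) / (aeval u P1 * aeval u P2)) := by
  by_cases k1 : Mx P (aeval u P1)
  · by_cases k2 : Mx P (aeval u P2)
    · exact key_cross hS hu h1 k1 k2 n1 n2 hD hE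
    · rw [← div_div, div_eq_mul_inv _ (aeval u P2)]
      exact P.reg_mul (key_smooth hS.h1 hS.s1 hu h1 k1 n1 hD hE) (inv_reg (reg_aev hu P2) k2)
  · rw [mul_comm, ← div_div, div_eq_mul_inv _ (aeval u P1)]
    refine P.reg_mul ?_ (inv_reg (reg_aev hu P1) k1)
    by_cases k2 : Mx P (aeval u P2)
    · exact key_smooth hS.h2 hS.s2 hu h1 k2 n2 hD hE
    · rw [div_eq_mul_inv]
      exact P.reg_mul (reg_dt hu (fun j => log_reg hD (hu j)) fun j => log_reg hE (hu j))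
        (inv_reg (reg_aev hu P2) k2)

/-- the form is regular outside of the boundary -/
theorem key_reg (hu : ∀ j, P.Reg (u j)) (k1 : ¬ Mx P (aeval u P1)) (k2 : ¬ Mx P (aeval u P2))
    {D E : Derivation ℂ K K} (hD : DerReg P D) (hE : DerReg P E) :
    P.Reg (dt u (fun j => D (u j)) (fun j => E (u j)) / (aeval u P1 * aeval u P2)) := by
  rw [div_eq_mul_inv, mul_inv]
  exact P.reg_mul (reg_dt hu (fun j => hD _ (hu j)) fun j => hE _ (hu j))
    (P.reg_mul (inv_reg (reg_aev hu P1) k1) (inv_reg (reg_aev hu P2) k2))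

end Pool.Agent.H915
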