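import Pool.Agent.H915.TC.Lg2
import Pool.Graph.R_seed8.W602.GT.Dich
import Pool.Graph.R_seed8.W602.GT.SpDefs
import Pool.Graph.R_seed8.W603.PV.Hgt

/-!
The complement of two transversal curves is of log general type, and its highly ramified covers are
of general type.
-/

set_option autoImplicit false

open MvPolynomial FF

namespace Pool.Agent.H915

open Pool.Agent.W602.GT Pool.Agent.W603.PV

variable {K : Type} [Field K] [Algebra ℂ K] {P1 P2 : Poly} {e1 e2 : ℕ} {P : Place ℂ K}
  {u y : Fin 3 → K}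

/-- the coordinates contain a transcendence basis -/
theorem coord_basis (halg : Algebra.IsAlgebraic (coords ℂ (n := 2) y) K) {i0 : Fin 3}
    (h0 : y i0 ≠ 0) {w : ℕ} (hw : Algebra.trdeg ℂ K = w) :
    ∃ s : Fin w → Fin 3, IsTranscendenceBasis ℂ (fun b => y (s b) / y i0) := by
  have h1 : Algebra.IsAlgebraic (Algebra.adjoin ℂ (Set.range fun j => y j / y i0)) K := by
    apply Pool.Agent.W602.GT.alg_adjoin
    have h2 : coords ℂ (n := 2) y =
        IntermediateField.adjoin ℂ (Set.range fun j => y j / y i0) := by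
      apply le_antisymm
      · unfold coords
        rw [IntermediateField.adjoin_le_iff]
        rintro _ ⟨i, j, hj, rfl⟩
        have h3 : y i / y j = (y i / y i0) / (y j / y i0) := by
          field_simp
        rw [h3]
        exact div_mem (IntermediateField.subset_adjoin _ _ ⟨i, rfl⟩)
          (IntermediateField.subset_adjoin _ _ ⟨j, rfl⟩)
      · rw [IntermediateField.adjoin_le_iff]
        rintro _ ⟨j, rfl⟩
        exact IntermediateField.subset_adjoin _ _ ⟨j, i0, h0, rfl⟩
    rw [h2] at halg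
    exact halg
  obtain ⟨B, hB1, hB2⟩ := exists_isTranscendenceBasis_subset (R := ℂ) (A := K)
    (Set.range fun j => y j / y i0)
  have hcard := hB2.cardinalMk_eq_trdeg
  rw [hw] at hcard
  have hfin : Finite B := by
    rw [← Cardinal.lt_aleph0_iff_finite, hcard]
    exact Cardinal.natCast_lt_aleph0
  obtain ⟨m', ⟨e⟩⟩ := Finite.exists_equiv_fin B
  obtain rfl : m' = w := by
    rw [Cardinal.mk_congr e, Cardinal.mk_fin] at hcard
    exact_mod_cast hcard
  choose s hs using fun b : B => hB1 b.2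
  refine ⟨fun i => s (e.symm i), ?_⟩
  have h3 : (fun b => y (s (e.symm b)) / y i0) = (fun i => ((e.symm i : B) : K)) := by
    funext i
    exact hs (e.symm i)
  rw [h3]
  exact hB2.comp_equiv e.symm

/-- logarithmic forms have poles of bounded order -/
theorem pole1 {N : ℕ} {ω : (Fin 2 → Derivation ℂ K K) → K} (hω : IsPluri N ω)
    (hL : LogAt P ω) {D : Fin 2 → Derivation ℂ K K} (hD : ∀ i, DerReg P (D i)) {τ : K}
    (hτ : P.ord τ = 1) : P.Reg (τ ^ N * ω D) := by
  have hτ0 : τ ≠ 0 := by
    rintro rfl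
    rw [P.ord_zero] at hτ
    exact zero_ne_one hτ
  have hτr : P.Reg τ := Or.inr (by rw [hτ]; exact zero_le_one)
  have hsm : ∀ (c : K) (E : Derivation ℂ K K), P.Reg c → DerReg P E → DerReg P (c • E) := by
    intro c E hc hE f hf
    rw [Derivation.smul_apply, smul_eq_mul]
    exact P.reg_mul hc (hE f hf)
  have hlogτ : ∀ E : Derivation ℂ K K, DerReg P E → DerLog P (τ • E) := by
    intro E hE
    refine pl_log (hsm _ _ hτr hE) hτ ?_
    rw [Derivation.smul_apply, smul_eq_mul, mul_div_cancel_left₀ _ hτ0]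
    exact hE τ hτr
  have hlog0 : ∀ E : Derivation ℂ K K, DerReg P E → E τ = 0 → DerLog P E := by
    intro E hE h0
    refine pl_log hE hτ ?_
    rw [h0, zero_div]
    exact P.reg_zero
  have hmix : ∀ (E1 E2 : Derivation ℂ K K), DerReg P E1 → DerReg P E2 → E1 τ ≠ 0 →
      P.Reg (E2 τ / E1 τ) → DerLog P (E2 - (E2 τ / E1 τ) • E1) := by
    intro E1 E2 h1 h2 hne hr
    refine hlog0 _ (fun f hf => ?_) ?_
    · rw [Derivation.sub_apply]
      exact reg_sub' (h2 f hf) (hsm _ _ hr h1 f hf)
    · rw [Derivation.sub_apply, Derivation.smul_apply, smul_eq_mul, div_mul_cancel₀ _ hne,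
        sub_self]
  by_cases h0 : D 0 τ = 0
  · by_cases h1 : D 1 τ = 0
    · refine P.reg_mul ?_ (hL D fun i => ?_)
      · right
        rw [P.ord_pow, hτ]
        positivity
      · fin_cases i
        · exact hlog0 _ (hD 0) h0
        · exact hlog0 _ (hD 1) h1
    · -- the second one
      have h2 := hω !![1, 0; 0, τ] D
      rw [Matrix.det_fin_two_of, one_mul, mul_zero, sub_zero] at h2
      rw [← h2]
      refine hL _ fun i => ?_
      fin_cases i
      · simp
        exact hlog0 _ (hD 0) h0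
      · simp
        exact hlogτ _ (hD 1)
  · by_cases h1 : P.Reg (D 1 τ / D 0 τ)
    · have h2 := hω !![τ, 0; -(D 1 τ / D 0 τ), 1] D
      rw [Matrix.det_fin_two_of, mul_one, zero_mul, sub_zero] at h2
      rw [← h2]
      refine hL _ fun i => ?_
      fin_cases i
      · simp
        exact hlogτ _ (hD 0)
      · have h3 : (∑ j, (!![τ, 0; -(D 1 τ / D 0 τ), 1] : Matrix (Fin 2) (Fin 2) K) 1 j • D j) =
            D 1 - (D 1 τ / D 0 τ) • D 0 := by
          rw [Fin.sum_univ_two]
          simp
          abel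
        change DerLog P (∑ j, (!![τ, 0; -(D 1 τ / D 0 τ), 1] : Matrix (Fin 2) (Fin 2) K) 1 j • D j)
        rw [h3]
        exact hmix _ _ (hD 0) (hD 1) h0 h1
    · have h1' : D 1 τ ≠ 0 := by
        intro h2
        apply h1
        rw [h2, zero_div]
        exact P.reg_zero
      have hr : P.Reg (D 0 τ / D 1 τ) := by
        right
        by_contra hcon
        push Not at hcon
        apply h1
        right
        rw [← inv_div, P.ord_inv]
        linarith
      have h2 := hω !![1, -(D 0 τ / D 1 τ); 0, τ] D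
      rw [Matrix.det_fin_two_of, mul_zero, sub_zero, one_mul] at h2
      rw [← h2]
      refine hL _ fun i => ?_
      fin_cases i
      · have h3 : (∑ j, (!![1, -(D 0 τ / D 1 τ); 0, τ] : Matrix (Fin 2) (Fin 2) K) 0 j • D j) =
            D 0 - (D 0 τ / D 1 τ) • D 1 := by
          rw [Fin.sum_univ_two]
          simp
          abel
        change DerLog P (∑ j, (!![1, -(D 0 τ / D 1 τ); 0, τ] : Matrix (Fin 2) (Fin 2) K) 0 j • D j)
        rw [h3]
        exact hmix _ _ (hD 1) (hD 0) h1' hr
      · simp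
        exact hlogτ _ (hD 1)

/-- the logarithmic form -/
noncomputable def om (P1 P2 : Poly) (y : Fin 3 → K) (D : Fin 2 → Derivation ℂ K K) : K :=
  dt y (fun j => D 0 (y j)) (fun j => D 1 (y j)) / (aeval y P1 * aeval y P2)

/-- the powers of the logarithmic form -/
noncomputable def omN (P1 P2 : Poly) (y : Fin 3 → K) (Q : Poly) (N : ℕ)
    (D : Fin 2 → Derivation ℂ K K) : K := aeval y Q * om P1 P2 y D ^ N

theorem om_pluri (A : Matrix (Fin 2) (Fin 2) K) (D : Fin 2 → Derivation ℂ K K) :
    om P1 P2 y (fun i => ∑ j, A i j • D j) = A.det * om P1 P2 y D := by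
  unfold om
  rw [Matrix.det_fin_two, ← mul_div_assoc]
  congr 1
  simp only [Fin.sum_univ_two, Derivation.add_apply, Derivation.smul_apply, smul_eq_mul]
  unfold dt
  ring

theorem omN_pluri (Q : Poly) (N : ℕ) : IsPluri N (omN P1 P2 y Q N) := by
  intro A D
  unfold omN
  rw [om_pluri, mul_pow]
  ring

theorem om_scale (h1 : P1.IsHomogeneous (e1 + 1)) (h2 : P2.IsHomogeneous (e2 + 1)) {k : ℕ}
    (hk : k + 1 = e1 + e2) {c : K} (hc : c ≠ 0) (n1 : aeval u P1 ≠ 0) (n2 : aeval u P2 ≠ 0)
    {Q : Poly} {N : ℕ} (hQ : Q.IsHomogeneous (N * k)) (D : Fin 2 → Derivation ℂ K K) :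
    omN P1 P2 (fun j => c * u j) Q N D = omN P1 P2 u Q N D := by
  unfold omN om
  rw [dt_scale, sc_k h1, sc_k h2, sc_k hQ, div_pow, div_pow, mul_div_assoc', mul_div_assoc',
    div_eq_div_iff (by positivity) (by positivity)]
  have e : c ^ (e1 + 1) * c ^ (e2 + 1) = c ^ k * c ^ 3 := by
    rw [← pow_add, ← pow_add]
    congr 1
    omega
  have e' : (c ^ (e1 + 1) * aeval u P1 * (c ^ (e2 + 1) * aeval u P2)) ^ N =
      c ^ (N * k) * (c ^ 3) ^ N * (aeval u P1 * aeval u P2) ^ N := by
    calc (c ^ (e1 + 1) * aeval u P1 * (c ^ (e2 + 1) * aeval u P2)) ^ N =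
        ((c ^ (e1 + 1) * c ^ (e2 + 1)) * (aeval u P1 * aeval u P2)) ^ N := by ring
      _ = _ := by
        rw [e, mul_pow, mul_pow, ← pow_mul, mul_comm k N]
  rw [e', mul_pow]
  ring

end Pool.Agent.H915
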