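import Pool.Agent.H915.TC.Lg3

/-!
The complement of two transversal curves is of log general type, and its highly ramified covers are
of general type: the theorems.
-/

set_option autoImplicit false

open MvPolynomial FF

namespace Pool.Agent.H915

open Pool.Agent.W602.GT Pool.Agent.W603.PV

variable {K : Type} [Field K] [Algebra ℂ K] {P1 P2 : Poly} {e1 e2 : ℕ} {P : Place ℂ K}
  {u y : Fin 3 → K}

/-- a coordinate of minimal order -/
theorem exists_min3 (P : Place ℂ K) (hy : y ≠ 0) : ∃ i, y i ≠ 0 ∧ ∀ j, P.Reg (y j / y i) := by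
  classical
  obtain ⟨i0, hi0⟩ := Function.ne_iff.1 hy
  obtain ⟨i, hi, hmin⟩ := Finset.exists_min_image (Finset.univ.filter fun i => y i ≠ 0)
    (fun i => P.ord (y i)) ⟨i0, by simpa using hi0⟩
  rw [Finset.mem_filter] at hi
  refine ⟨i, hi.2, fun j => ?_⟩
  by_cases hj : y j = 0
  · rw [hj, zero_div]
    exact P.reg_zero
  · right
    rw [P.ord_div hj hi.2]
    have := hmin j (by simp [hj])
    linarith

/-- normalised coordinates at a place -/
theorem norm_at (h1 : P1.IsHomogeneous (e1 + 1)) (h2 : P2.IsHomogeneous (e2 + 1)) (P : Place ℂ K)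
    (hy : y ≠ 0) (n1 : aeval y P1 ≠ 0) (n2 : aeval y P2 ≠ 0) :
    ∃ (u : Fin 3 → K) (c : K) (i : Fin 3), c ≠ 0 ∧ y = (fun j => c * u j) ∧ u i = 1 ∧
      (∀ j, P.Reg (u j)) ∧ aeval u P1 ≠ 0 ∧ aeval u P2 ≠ 0 ∧ pord (n := 2) P y ≤ P.ord c ∧
        P.ord c ≤ pord (n := 2) P y := by
  obtain ⟨i, hi, hreg⟩ := exists_min3 P hy
  have hyu : y = fun j => y i * (y j / y i) := by
    funext j
    field_simp
  have m1 := sc_k h1 (y i) (fun j => y j / y i)
  have m2 := sc_k h2 (y i) (fun j => y j / y i)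
  rw [← hyu] at m1 m2
  refine ⟨fun j => y j / y i, y i, i, hi, hyu, div_self hi, hreg, ?_, ?_, ?_, ?_⟩
  · intro h0
    rw [h0, mul_zero] at m1
    exact n1 m1
  · intro h0
    rw [h0, mul_zero] at m2
    exact n2 m2
  · have hbdd : BddBelow (Set.range fun j : {j // y j ≠ 0} => P.ord (y j)) :=
      (Set.finite_range _).bddBelow
    exact ciInf_le hbdd ⟨i, hi⟩
  · have hne : Nonempty {j // y j ≠ 0} := ⟨⟨i, hi⟩⟩
    refine le_ciInf ?_
    rintro ⟨j, hj⟩
    rcases hreg j with h3 | h3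
    · exact absurd h3 (div_ne_zero hj hi)
    · rw [P.ord_div hj hi] at h3
      simp only
      linarith

theorem reg_pow' {f : K} (hf : P.Reg f) (m : ℕ) : P.Reg (f ^ m) := by
  induction m with
  | zero =>
    rw [pow_zero]
    exact P.reg_one
  | succ m ih =>
    rw [pow_succ]
    exact P.reg_mul ih hf

/-- the forms have logarithmic poles -/
theorem omN_log (hS : SNC P1 P2 e1 e2) {k : ℕ} (hk : k + 1 = e1 + e2) (hy : y ≠ 0)
    (n1 : aeval y P1 ≠ 0) (n2 : aeval y P2 ≠ 0) {Q : Poly} {N : ℕ}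
    (hQ : Q.IsHomogeneous (N * k)) (P : Place ℂ K) : LogAt P (omN P1 P2 y Q N) := by
  intro D hD
  obtain ⟨u, c, i, hc, hyu, hui, hreg, m1, m2, -, -⟩ := norm_at hS.h1 hS.h2 P hy n1 n2
  rw [hyu, om_scale hS.h1 hS.h2 hk hc m1 m2 hQ]
  unfold omN om
  exact P.reg_mul (reg_aev hreg Q) (reg_pow' (key_log hS hreg hui m1 m2 (hD 0) (hD 1)) N)

/-- the order of a form in normalised coordinates -/
theorem ord_norm {G : Poly} {m : ℕ} (hG : G.IsHomogeneous m) {c : K} (hc : c ≠ 0)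
    (hn : aeval u G ≠ 0) :
    P.ord (aeval (fun j => c * u j) G) = m * P.ord c + P.ord (aeval u G) := by
  rw [sc_k hG, P.ord_mul (pow_ne_zero _ hc) hn, P.ord_pow]

/-- the forms are regular outside of the boundary -/
theorem omN_reg (hS : SNC P1 P2 e1 e2) {k : ℕ} (hk : k + 1 = e1 + e2) (hy : y ≠ 0)
    (n1 : aeval y P1 ≠ 0) (n2 : aeval y P2 ≠ 0) {Q : Poly} {N : ℕ}
    (hQ : Q.IsHomogeneous (N * k)) (P : Place ℂ K)
    (hB1 : P.ord (aeval y P1) ≤ (e1 + 1 : ℕ) * pord (n := 2) P y)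
    (hB2 : P.ord (aeval y P2) ≤ (e2 + 1 : ℕ) * pord (n := 2) P y) :
    RegAt P (omN P1 P2 y Q N) := by
  intro D hD
  obtain ⟨u, c, i, hc, hyu, hui, hreg, m1, m2, l1, l2⟩ := norm_at hS.h1 hS.h2 P hy n1 n2
  have hp : pord (n := 2) P y = P.ord c := le_antisymm l1 l2
  rw [hp, hyu] at hB1 hB2
  rw [ord_norm hS.h1 hc m1] at hB1
  rw [ord_norm hS.h2 hc m2] at hB2
  have k1 : ¬ Mx P (aeval u P1) := by
    rintro (h | h)
    · exact m1 h
    · linarith
  have k2 : ¬ Mx P (aeval u P2) := by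
    rintro (h | h)
    · exact m2 h
    · linarith
  rw [hyu, om_scale hS.h1 hS.h2 hk hc m1 m2 hQ]
  unfold omN om
  exact P.reg_mul (reg_aev hreg Q) (reg_pow' (key_reg hreg k1 k2 (hD 0) (hD 1)) N)

/-- the forms divisible by both equations are regular, if the ramification is high -/
theorem omN_reg_ram (hS : SNC P1 P2 e1 e2) {k : ℕ} (hk : k + 1 = e1 + e2) (hy : y ≠ 0)
    (n1 : aeval y P1 ≠ 0) (n2 : aeval y P2 ≠ 0) {Q' : Poly} {N : ℕ}
    (hQ : (P1 * P2 * Q').IsHomogeneous (N * k)) (P : Place ℂ K)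
    (hB1 : (e1 + 1 : ℕ) * pord (n := 2) P y < P.ord (aeval y P1) →
      (e1 + 1 : ℕ) * pord (n := 2) P y + N ≤ P.ord (aeval y P1))
    (hB2 : (e2 + 1 : ℕ) * pord (n := 2) P y < P.ord (aeval y P2) →
      (e2 + 1 : ℕ) * pord (n := 2) P y + N ≤ P.ord (aeval y P2)) :
    RegAt P (omN P1 P2 y (P1 * P2 * Q') N) := by
  by_cases hb : P.ord (aeval y P1) ≤ (e1 + 1 : ℕ) * pord (n := 2) P y ∧
      P.ord (aeval y P2) ≤ (e2 + 1 : ℕ) * pord (n := 2) P y
  · exact omN_reg hS hk hy n1 n2 hQ P hb.1 hb.2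
  intro D hD
  obtain ⟨u, c, i, hc, hyu, hui, hreg, m1, m2, l1, l2⟩ := norm_at hS.h1 hS.h2 P hy n1 n2
  have hp : pord (n := 2) P y = P.ord c := le_antisymm l1 l2
  rw [hp, hyu] at hB1 hB2 hb
  rw [ord_norm hS.h1 hc m1] at hB1 hb
  rw [ord_norm hS.h2 hc m2] at hB2 hb
  have r1 : 0 ≤ P.ord (aeval u P1) := (reg_aev hreg P1).resolve_left m1
  have r2 : 0 ≤ P.ord (aeval u P2) := (reg_aev hreg P2).resolve_left m2
  have hN : (N : ℤ) ≤ P.ord (aeval u P1) + P.ord (aeval u P2) := by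
    by_cases h1 : 0 < P.ord (aeval u P1)
    · have := hB1 (by linarith)
      linarith
    · by_cases h2 : 0 < P.ord (aeval u P2)
      · have := hB2 (by linarith)
        linarith
      · exfalso
        apply hb
        constructor <;> linarith
  obtain ⟨τ, hτ0, hτ⟩ := P.surj
  have hpl : P.Reg (τ ^ N * om P1 P2 u D ^ N) := by
    have hplu : IsPluri N (fun D => om P1 P2 u D ^ N) := by
      intro A D
      simp only
      rw [om_pluri, mul_pow]
    exact pole1 hplu (fun D hD => reg_pow' (key_log hS hreg hui m1 m2 (hD 0) (hD 1)) N) hD hτ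
  rw [hyu, om_scale hS.h1 hS.h2 hk hc m1 m2 hQ]
  unfold omN
  have e : aeval u (P1 * P2 * Q') * om P1 P2 u D ^ N =
      (aeval u P1 * aeval u P2 / τ ^ N) * aeval u Q' * (τ ^ N * om P1 P2 u D ^ N) := by
    rw [map_mul, map_mul]
    field_simp
  rw [e]
  refine P.reg_mul (P.reg_mul ?_ (reg_aev hreg Q')) hpl
  right
  rw [P.ord_div (mul_ne_zero m1 m2) (pow_ne_zero _ hτ0), P.ord_mul m1 m2, P.ord_pow, hτ]
  linarith

/-- enough forms -/
theorem exists_forms (hy : y ≠ 0) (n1 : aeval y P1 ≠ 0) (n2 : aeval y P2 ≠ 0)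
    (halg : Algebra.IsAlgebraic (coords ℂ (n := 2) y) K)
    (htr : Algebra.trdeg ℂ K = (2 : ℕ)) (N : ℕ) {R : Poly}
    (hRy : aeval y R ≠ 0) {l : ℕ} :
    ∃ Q : Fin 3 → Poly, (∀ j, (Q j).IsHomogeneous (l + 1)) ∧
      ∃ D, omN P1 P2 y (R * Q 0) N D ≠ 0 ∧ AlgebraicIndependent ℂ (fun i : Fin 2 =>
        omN P1 P2 y (R * Q i.succ) N D / omN P1 P2 y (R * Q 0) N D) := by
  obtain ⟨i0, hi0⟩ := Function.ne_iff.1 hy
  have hi0' : y i0 ≠ 0 := hi0
  obtain ⟨s, hs⟩ := coord_basis halg hi0' htr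
  obtain ⟨D0, hD0⟩ := exists_der _ hs (fun b => if b = 0 then (1 : K) else 0)
  obtain ⟨D1, hD1⟩ := exists_der _ hs (fun b => if b = 1 then (1 : K) else 0)
  have hinj : Function.Injective s := by
    intro a b hab
    have h1 : (fun b => y (s b) / y i0) a = (fun b => y (s b) / y i0) b := by
      simp only
      rw [hab]
    exact hs.1.injective h1
  have hne : ∀ b, s b ≠ i0 := by
    intro b hb
    have h1 := hs.1.transcendental b
    rw [hb, div_self hi0'] at h1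
    exact h1 isAlgebraic_one
  -- the determinant does not vanish
  obtain ⟨u, hu⟩ : ∃ u : Fin 3 → K, u = fun j => y j / y i0 := ⟨_, rfl⟩
  have hyu : y = fun j => y i0 * u j := by
    funext j
    rw [hu]
    field_simp
  have hui : u i0 = 1 := by
    rw [hu]
    exact div_self hi0'
  have hD0i : D0 (u i0) = 0 := by rw [hui, D0.map_one_eq_zero]
  have hD1i : D1 (u i0) = 0 := by rw [hui, D1.map_one_eq_zero]
  have a00 : D0 (u (s 0)) = 1 := by rw [hu]; exact hD0 0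
  have a01 : D0 (u (s 1)) = 0 := by rw [hu]; exact hD0 1
  have a10 : D1 (u (s 0)) = 0 := by rw [hu]; exact hD1 0
  have a11 : D1 (u (s 1)) = 1 := by rw [hu]; exact hD1 1
  have hdt : dt u (fun j => D0 (u j)) (fun j => D1 (u j)) ≠ 0 := by
    have h0 := hne 0
    have h1 := hne 1
    have h01 : s 0 ≠ s 1 := fun h => absurd (hinj h) (by decide)
    obtain ⟨s0, hs0⟩ : ∃ s0, s0 = s 0 := ⟨_, rfl⟩
    obtain ⟨s1, hs1⟩ : ∃ s1, s1 = s 1 := ⟨_, rfl⟩
    rw [← hs0] at h0 h01 a00 a10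
    rw [← hs1] at h1 h01 a01 a11
    unfold dt
    clear hs0 hs1 hs hne hD0 hD1 hinj hyu hu hi0' hi0
    fin_cases i0 <;> fin_cases s0 <;> fin_cases s1 <;> simp_all
  have hdty : dt y (fun j => D0 (y j)) (fun j => D1 (y j)) ≠ 0 := by
    rw [hyu, dt_scale]
    exact mul_ne_zero (pow_ne_zero _ hi0') hdt
  have hom : om P1 P2 y ![D0, D1] ≠ 0 := by
    unfold om
    simp only [Matrix.cons_val_zero, Matrix.cons_val_one]
    exact div_ne_zero hdty (mul_ne_zero n1 n2)
  refine ⟨![X i0 ^ (l + 1), X i0 ^ l * X (s 0), X i0 ^ l * X (s 1)], fun j => ?_, ![D0, D1], ?_, ?_⟩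
  · fin_cases j
    · exact isHomogeneous_X_pow i0 (l + 1)
    · exact (isHomogeneous_X_pow i0 l).mul (isHomogeneous_X ℂ (s 0))
    · exact (isHomogeneous_X_pow i0 l).mul (isHomogeneous_X ℂ (s 1))
  · unfold omN
    simp only [Matrix.cons_val_zero, map_mul, map_pow, aeval_X]
    exact mul_ne_zero (mul_ne_zero hRy (pow_ne_zero _ hi0')) (pow_ne_zero _ hom)
  · have h3 : (fun i : Fin 2 => omN P1 P2 y (R * ![X i0 ^ (l + 1), X i0 ^ l * X (s 0),
        X i0 ^ l * X (s 1)] i.succ) N ![D0, D1] / omN P1 P2 y (R * ![X i0 ^ (l + 1),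
        X i0 ^ l * X (s 0), X i0 ^ l * X (s 1)] 0) N ![D0, D1]) = fun b => y (s b) / y i0 := by
      funext b
      unfold omN
      fin_cases b
      · simp only [Fin.zero_eta, Fin.succ_zero_eq_one, Matrix.cons_val_zero, Matrix.cons_val_one,
          map_mul, map_pow, aeval_X]
        field_simp
        ring
      · change aeval y (R * (X i0 ^ l * X (s 1))) * _ / (aeval y (R * X i0 ^ (l + 1)) * _) = _
        simp only [map_mul, map_pow, aeval_X]
        field_simp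
        change _ = y i0 ^ (l + 1) * y (s 1)
        ring
    rw [h3]
    exact hs.1

end Pool.Agent.H915
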