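import Pool.Agent.H915.TC.Lg4
import Pool.Graph.R_seed8.TH143.GE.Form

/-!
Curves: logarithmic forms on a curve with a positive logarithmic canonical degree, and their
pull-back to algebraic extensions of the function field.
-/

set_option autoImplicit false

open FF

namespace Pool.Agent.H915

open Module Pool.Agent.W603.LV Pool.Agent.W602.GT Pool.Agent.TH143.GE

section

variable {k K L : Type} [Field k] [CharZero k] [Field K] [Algebra k K] [IsFF k K]
  [Field L] [Algebra k L] [Algebra K L] [IsScalarTower k K L]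

omit [CharZero k] [IsFF k K] in
theorem E2_map (t f : K) (G : Polynomial (Polynomial k)) :
    E2 (algebraMap K L t) (algebraMap K L f) G = algebraMap K L (E2 t f G) := by
  rw [E2_apply, E2_apply, Polynomial.hom_eval₂]
  congr 1
  exact RingHom.ext fun p => Polynomial.aeval_algebraMap_apply L t p

/-- derivations of an extension -/
theorem ratioL {t : K} (ht : Transcendental k t) (f : K) :
    ∃ c : K, (∀ D : Derivation k K K, D f = c * D t) ∧
      ∀ D : Derivation k L L, D (algebraMap K L f) = algebraMap K L c * D (algebraMap K L t) := by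
  obtain ⟨G, hG, hG'⟩ := exists_poly ht f
  refine ⟨- E2 t f (dX G) / E2 t f (Polynomial.derivative G), fun D => ?_, fun D => ?_⟩
  · have := chain D t f G
    rw [hG, map_zero] at this
    field_simp
    linear_combination -this
  · have h1 := chain D (algebraMap K L t) (algebraMap K L f) G
    rw [E2_map, E2_map, E2_map, hG, map_zero, map_zero] at h1
    have h2 : algebraMap K L (E2 t f (Polynomial.derivative G)) ≠ 0 := by
      rwa [Ne, map_eq_zero]
    rw [map_div₀, map_neg]
    field_simp
    linear_combination -h1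

omit [CharZero k] [IsFF k K] [Algebra k K] [IsScalarTower k K L] in
theorem alg_nontrivial (halg : Algebra.IsAlgebraic K L) (P : Place k L) :
    ∃ f : K, P.ord (algebraMap K L f) ≠ 0 := by
  by_contra hcon
  push Not at hcon
  have h1 : P.Reg (unif P)⁻¹ := P.reg_of_isIntegral (A := K) (fun a => by
    by_cases h0 : algebraMap K L a = 0
    · exact Or.inl h0
    · exact Or.inr (hcon a).ge) (halg.isAlgebraic _).isIntegral
  have hu := ord_unif P
  have hu0 : unif P ≠ 0 := by
    intro h0
    rw [h0, P.ord_zero] at hu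
    omega
  rcases h1 with h1 | h1
  · exact inv_ne_zero hu0 h1
  · rw [P.ord_inv, hu] at h1
    omega

/-- the form `f` times the `N`-th power of the form dual to `E` -/
noncomputable def cform (L : Type) [Field L] [Algebra k L] [Algebra K L] (E : Derivation k K K)
    (t f : K) (N : ℕ) (D : Fin 1 → Derivation k L L) : L :=
  algebraMap K L f * (D 0 (algebraMap K L t) / algebraMap K L (E t)) ^ N

theorem over_forms (halg : Algebra.IsAlgebraic K L) {E : Derivation k K K} (hE : E ≠ 0) {t : K}
    (ht : Transcendental k t) (P : Place k L) :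
    ∃ (e : ℕ) (v : Place k K), 0 < e ∧ (∀ f, P.ord (algebraMap K L f) = e * v.ord f) ∧
      ∀ (N : ℕ) (f : K), 0 < N →
        ((f = 0 ∨ (N : ℤ) * vo v E ≤ v.ord f) → RegAt P (cform L E t f N)) ∧
        ((f = 0 ∨ (N : ℤ) * (vo v E - 1) ≤ v.ord f) → LogAt P (cform L E t f N)) := by
  obtain ⟨e, v, he, hov⟩ := exists_over (K := K) P (alg_nontrivial halg P)
  have hEt := der_ne_zero hE ht
  have hτ := ord_unif v
  have hτt : Transcendental k (unif v) := v.transcendental_of_ord_ne (by rw [hτ]; exact one_ne_zero)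
  have hEτ := der_ne_zero hE hτt
  obtain ⟨c, hc1, hc2⟩ := ratioL (L := L) ht (unif v)
  have hc0 : c ≠ 0 := by
    intro h0
    apply hEτ
    rw [hc1 E, h0, zero_mul]
  have hinj := (algebraMap K L).injective
  have key : ∀ D : Derivation k L L, D (algebraMap K L t) / algebraMap K L (E t) =
      D (algebraMap K L (unif v)) / algebraMap K L (E (unif v)) := by
    intro D
    rw [hc1 E, hc2 D, map_mul]
    have h1 : algebraMap K L c ≠ 0 := by rwa [Ne, map_eq_zero]
    have h2 : algebraMap K L (E t) ≠ 0 := by rwa [Ne, map_eq_zero]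
    field_simp
  have hPτ : P.ord (algebraMap K L (unif v)) = e := by rw [hov, hτ, mul_one]
  have hmain : ∀ (N : ℕ) (f : K) (D : Derivation k L L) (m : ℤ), 0 < N →
      (D (algebraMap K L (unif v)) = 0 ∨ m ≤ P.ord (D (algebraMap K L (unif v)))) →
      (f = 0 ∨ 0 ≤ (e : ℤ) * v.ord f + N * (m - e * vo v E)) →
      P.Reg (algebraMap K L f * (D (algebraMap K L t) / algebraMap K L (E t)) ^ N) := by
    intro N f D m hN h1 h2
    rw [key]
    rcases h2 with h2 | h2
    · left
      rw [h2, map_zero, zero_mul]
    rcases h1 with h1 | h1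
    · left
      rw [h1, zero_div, zero_pow hN.ne', mul_zero]
    by_cases hf0 : f = 0
    · left
      rw [hf0, map_zero, zero_mul]
    by_cases hD0 : D (algebraMap K L (unif v)) = 0
    · left
      rw [hD0, zero_div, zero_pow hN.ne', mul_zero]
    right
    have hf1 : algebraMap K L f ≠ 0 := by rwa [Ne, map_eq_zero]
    have hE1 : algebraMap K L (E (unif v)) ≠ 0 := by rwa [Ne, map_eq_zero]
    rw [P.ord_mul hf1 (pow_ne_zero _ (div_ne_zero hD0 hE1)), P.ord_pow, P.ord_div hD0 hE1, hov, hov]
    have h3 : v.ord (E (unif v)) = vo v E := rfl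
    rw [h3]
    have h4 : (N : ℤ) * (m - e * vo v E) ≤
        N * (P.ord (D (algebraMap K L (unif v))) - e * vo v E) :=
      mul_le_mul_of_nonneg_left (by linarith) (Int.natCast_nonneg _)
    linarith
  have he0 : (0 : ℤ) < e := by exact_mod_cast he
  refine ⟨e, v, he, hov, fun N f hN => ⟨fun h D hD => ?_, fun h D hD => ?_⟩⟩
  · refine hmain N f (D 0) 0 hN ?_ ?_
    · exact hD 0 _ (Or.inr (by rw [hPτ]; exact he0.le))
    · rcases h with h | h
      · exact Or.inl h
      · right
        nlinarith
  · refine hmain N f (D 0) e hN ?_ ?_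
    · rcases hD 0 (algebraMap K L (unif v)) with h1 | h1
      · left
        rcases div_eq_zero_iff.1 h1 with h2 | h2
        · exact h2
        · exfalso
          rw [h2, P.ord_zero] at hPτ
          exact he0.ne hPτ
      · by_cases hD0 : D 0 (algebraMap K L (unif v)) = 0
        · exact Or.inl hD0
        right
        have hne : algebraMap K L (unif v) ≠ 0 := by
          intro h2
          rw [h2, P.ord_zero] at hPτ
          exact he0.ne hPτ
        rw [P.ord_div hD0 hne, hPτ] at h1
        linarith
    · rcases h with h | h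
      · exact Or.inl h
      · right
        nlinarith

end

section

variable {k K : Type} [Field k] [CharZero k] [IsAlgClosed k] [Field K] [Algebra k K] [IsFF k K]

/-- two sections -/
theorem exists_sections {E : Derivation k K K} (hE : E ≠ 0) (B : Finset (Place k K))
    (hpos : 0 < canDeg k K + B.card) :
    ∃ (N : ℕ) (f : Fin 2 → K), 0 < N ∧ f 0 ≠ 0 ∧ Transcendental k (f 1 / f 0) ∧
      ∀ j v, (v ∉ B → f j = 0 ∨ (N : ℤ) * vo v E ≤ v.ord (f j)) ∧
        (f j = 0 ∨ (N : ℤ) * (vo v E - 1) ≤ v.ord (f j)) := by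
  classical
  obtain ⟨γ, N', hγ, -⟩ := riemann k K
  obtain ⟨N, hN⟩ : ∃ N : ℕ, N = (γ + 2).toNat + 1 := ⟨_, rfl⟩
  obtain ⟨Dv, hDv⟩ : ∃ Dv : Place k K →₀ ℤ,
      Dv = DN E hE N + N • ∑ v ∈ B, Finsupp.single v (1 : ℤ) := ⟨_, rfl⟩
  have hval : ∀ v, Dv v = -((N : ℤ) * vo v E) + if v ∈ B then (N : ℤ) else 0 := by
    intro v
    rw [hDv, Finsupp.add_apply, DN_apply, Finsupp.smul_apply, Finsupp.finsetSum_apply]
    congr 1
    simp only [Finsupp.single_apply, Finset.sum_ite_eq']
    split_ifs <;> simp
  have hdeg : ddeg Dv = N * (canDeg k K + B.card) := by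
    have h1 : ∀ S : Finset (Place k K), ddeg (∑ v ∈ S, Finsupp.single v (1 : ℤ)) = S.card := by
      intro S
      induction S using Finset.induction_on with
      | empty => simp [ddeg_zero]
      | insert a S ha ih =>
        rw [Finset.sum_insert ha, ddeg_add, ih, ddeg_single, deg_one, Finset.card_insert_of_notMem ha]
        push_cast
        ring
    rw [hDv, ddeg_add, ddeg_nsmul, ddeg_DN, h1]
    ring
  have h1 := hγ Dv
  rw [hdeg] at h1
  unfold ell at h1
  have h2 : (2 : ℤ) ≤ finrank k (LL Dv) := by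
    have h3 : (γ + 2 : ℤ) ≤ (N : ℤ) := by
      rw [hN]
      push_cast
      have := Int.self_le_toNat (γ + 2)
      linarith
    have h4 : (N : ℤ) ≤ N * (canDeg k K + B.card) := by
      have h5 : (0 : ℤ) ≤ N := Int.natCast_nonneg _
      nlinarith
    linarith
  have h2' : 1 < finrank k (LL Dv) := by
    have : (1 : ℤ) < (finrank k (LL Dv) : ℕ) := by linarith
    exact_mod_cast this
  obtain ⟨f0, hf0⟩ := (finrank_pos_iff_exists_ne_zero (R := k) (M := LL Dv)).1 (by omega)
  obtain ⟨f1, hf1⟩ : ∃ f1 : LL Dv, ∀ c : k, f1 ≠ c • f0 := by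
    by_contra hcon
    push Not at hcon
    have h3 : finrank k (LL Dv) ≤ 1 := finrank_le_one f0 fun w => by
      obtain ⟨c, hc⟩ := hcon w
      exact ⟨c, hc.symm⟩
    omega
  have hf0' : (f0 : K) ≠ 0 := fun h => hf0 (Subtype.ext h)
  have hmem : ∀ (g : LL Dv) (v : Place k K), (v ∉ B → (g : K) = 0 ∨ (N : ℤ) * vo v E ≤ v.ord g) ∧
      ((g : K) = 0 ∨ (N : ℤ) * (vo v E - 1) ≤ v.ord g) := by
    intro g v
    have hg := mem_LL.1 g.2
    rcases hg with hg | hg
    · exact ⟨fun _ => Or.inl hg, Or.inl hg⟩
    have h3 := hg v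
    rw [hval] at h3
    refine ⟨fun hv => Or.inr ?_, Or.inr ?_⟩
    · rw [if_neg hv] at h3
      linarith
    · have hN0 : (0 : ℤ) ≤ N := Int.natCast_nonneg _
      split_ifs at h3
      · linarith
      · linarith
  refine ⟨N, ![(f0 : K), f1], by omega, hf0', ?_, fun j v => ?_⟩
  · intro halg
    obtain ⟨c, hc⟩ := const_of_algebraic halg
    apply hf1 c
    apply Subtype.ext
    simp only [Matrix.cons_val_zero, Matrix.cons_val_one] at hc
    rw [div_eq_iff hf0'] at hc
    rw [Submodule.coe_smul, Algebra.smul_def]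
    exact hc
  · fin_cases j
    · exact hmem f0 v
    · exact hmem f1 v

end

section

variable {k K L : Type} [Field k] [CharZero k] [IsAlgClosed k] [Field K] [Algebra k K] [IsFF k K]
  [Field L] [Algebra k L] [Algebra K L] [IsScalarTower k K L]

/-- **Curves with positive logarithmic canonical degree are of log general type.** -/
theorem curve_lgt (halg : Algebra.IsAlgebraic K L) (htr : Algebra.trdeg k L = (1 : ℕ))
    {Bd : Place k L → Prop} (B : Finset (Place k K))
    (hB : ∀ (P : Place k L) (v : Place k K) (e : ℕ), 0 < e →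
      (∀ f, P.ord (algebraMap K L f) = e * v.ord f) → v ∈ B → Bd P)
    (hpos : 0 < canDeg k K + B.card) : LogGeneralType k L 1 Bd := by
  obtain ⟨E, hE⟩ : ∃ E : Derivation k K K, E ≠ 0 := ⟨_, der_ne⟩
  obtain ⟨N, f, hN, hf0, hft, hf⟩ := exists_sections hE B hpos
  obtain ⟨t, ht⟩ := IsFF.exists_transcendental (k := k) (K := K)
  have htL : Transcendental k (algebraMap K L t) := by
    rwa [transcendental_algebraMap_iff (algebraMap K L).injective]
  have hbas : IsTranscendenceBasis k (fun _ : Fin 1 => algebraMap K L t) := by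
    have h1 : AlgebraicIndependent k (fun _ : Fin 1 => algebraMap K L t) := by
      rw [algebraicIndependent_unique_type_iff]
      exact htL
    refine AlgebraicIndependent.isTranscendenceBasis_of_trdeg_le_of_finite h1 ?_
    rw [htr]
    simp
  obtain ⟨D0, hD0⟩ := exists_der _ hbas (fun _ => (1 : L))
  have hD01 : D0 (algebraMap K L t) = 1 := hD0 0
  have hEt := der_ne_zero hE ht
  have hEt' : algebraMap K L (E t) ≠ 0 := by rwa [Ne, map_eq_zero]
  refine ⟨htr, N, hN, fun j => cform L E t (f j) N, fun j A D => ?_, fun P _ j => ?_,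
    fun P _ hP j => ?_, fun _ => D0, ?_, ?_⟩
  · unfold cform
    rw [Matrix.det_fin_one]
    simp only [Finset.univ_unique, Fin.default_eq_zero, Finset.sum_singleton,
      Derivation.smul_apply, smul_eq_mul]
    rw [mul_div_assoc, mul_pow]
    ring
  · obtain ⟨e, v, he, hov, h1⟩ := over_forms halg hE ht P
    exact (h1 N (f j) hN).2 (hf j v).2
  · obtain ⟨e, v, he, hov, h1⟩ := over_forms halg hE ht P
    exact (h1 N (f j) hN).1 ((hf j v).1 fun hv => hP (hB P v e he hov hv))
  · change algebraMap K L (f 0) * (D0 (algebraMap K L t) / algebraMap K L (E t)) ^ N ≠ 0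
    rw [hD01]
    exact mul_ne_zero (by rwa [Ne, map_eq_zero]) (pow_ne_zero _ (div_ne_zero one_ne_zero hEt'))
  · rw [algebraicIndependent_unique_type_iff]
    have h1 : cform L E t (f (Fin.succ default)) N (fun _ => D0) /
        cform L E t (f 0) N (fun _ => D0) = algebraMap K L (f 1 / f 0) := by
      unfold cform
      have h2 : algebraMap K L (f 0) ≠ 0 := by rwa [Ne, map_eq_zero]
      have h3 : (D0 (algebraMap K L t) / algebraMap K L (E t)) ^ N ≠ 0 := by
        rw [hD01]
        exact pow_ne_zero _ (div_ne_zero one_ne_zero hEt')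
      rw [mul_div_mul_right _ _ h3, map_div₀]
      rfl
    rw [h1]
    rwa [transcendental_algebraMap_iff (algebraMap K L).injective]

end

end Pool.Agent.H915
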