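import Pool.Agent.H915.TC.Lg5
import Pool.Agent.H915.TC.As7

/-!
Rational curves: places, canonical degree, and coprime coordinates.
-/

set_option autoImplicit false

open FF

namespace Pool.Agent.H915

open Module Pool.Agent.W603.LV Pool.Agent.W602.GT Pool.Agent.TH143.GE

section

variable {k K : Type} [Field k] [CharZero k] [IsAlgClosed k] [Field K] [Algebra k K] [IsFF k K]

omit [CharZero k] [IsAlgClosed k] in
theorem gen_transc {t : K} (ht : IntermediateField.adjoin k {t} = ⊤) : Transcendental k t := by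
  intro h0
  obtain ⟨f, hf⟩ := IsFF.exists_transcendental (k := k) (K := K)
  apply hf
  have h1 : Algebra.IsAlgebraic k (IntermediateField.adjoin k {t}) :=
    IntermediateField.isAlgebraic_adjoin_simple h0.isIntegral
  have h2 : f ∈ IntermediateField.adjoin k {t} := by
    rw [ht]
    exact IntermediateField.mem_top
  have h3 := h1.isAlgebraic ⟨f, h2⟩
  exact h3.algebraMap

omit [CharZero k] [IsAlgClosed k] [IsFF k K] in
theorem gen_finrank {t : K} (ht : IntermediateField.adjoin k {t} = ⊤) :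
    finrank (IntermediateField.adjoin k {t}) K = 1 := by
  rw [ht]
  exact IntermediateField.finrank_top

theorem pole_one {t : K} (ht : IntermediateField.adjoin k {t} = ⊤) :
    ∃ P : Place k K, P.ord t = -1 ∧ ∀ Q : Place k K, Q.ord t < 0 → Q = P := by
  obtain ⟨S, hS, hS2⟩ := poles (gen_transc ht)
  rw [gen_finrank ht] at hS2
  have h1 : ∀ w ∈ S, 1 ≤ (-w.ord t).toNat * w.deg := by
    intro w hw
    rw [deg_one, mul_one]
    have := (hS w).1 hw
    omega
  have hcard : S.card ≤ 1 := by
    calc S.card = ∑ _ ∈ S, 1 := by simp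
      _ ≤ ∑ w ∈ S, (-w.ord t).toNat * w.deg := Finset.sum_le_sum h1
      _ = 1 := hS2
  have hne : S.Nonempty := by
    by_contra hcon
    rw [Finset.not_nonempty_iff_eq_empty] at hcon
    rw [hcon] at hS2
    simp at hS2
  obtain ⟨P, hP⟩ := hne
  have huni : ∀ Q ∈ S, Q = P := fun Q hQ => Finset.card_le_one.1 hcard Q hQ P hP
  refine ⟨P, ?_, fun Q hQ => huni Q ((hS Q).2 hQ)⟩
  have h2 : S = {P} := by
    apply Finset.eq_singleton_iff_unique_mem.2
    exact ⟨hP, huni⟩
  rw [h2, Finset.sum_singleton, deg_one, mul_one] at hS2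
  have := (hS P).1 hP
  omega

omit [CharZero k] [IsAlgClosed k] [IsFF k K] in
theorem gen_sub {t : K} (ht : IntermediateField.adjoin k {t} = ⊤) (c : k) :
    IntermediateField.adjoin k {t - algebraMap k K c} = ⊤ := by
  rw [eq_top_iff, ← ht, IntermediateField.adjoin_simple_le_iff]
  have h1 : t = (t - algebraMap k K c) + algebraMap k K c := by ring
  rw [h1]
  refine add_mem ?_ (algebraMap_mem _ c)
  rw [add_sub_cancel_right]
  exact IntermediateField.mem_adjoin_simple_self k _

omit [CharZero k] [IsAlgClosed k] [IsFF k K] in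
theorem gen_inv {t : K} (ht : IntermediateField.adjoin k {t} = ⊤) :
    IntermediateField.adjoin k {t⁻¹} = ⊤ := by
  rw [adjoin_inv, ht]

/-- the residue of a regular function -/
theorem exists_res (P : Place k K) {f : K} (hf : P.Reg f) :
    ∃ c : k, f - algebraMap k K c = 0 ∨ 0 < P.ord (f - algebraMap k K c) := by
  obtain ⟨c, hc⟩ := (IsAlgClosed.algebraMap_bijective_of_isIntegral (k := k) (K := P.RF)).2
    (P.red f)
  refine ⟨c, ?_⟩
  have hr : P.Reg (f - algebraMap k K c) := by
    rw [sub_eq_add_neg]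
    exact P.reg_add hf (P.reg_neg (P.reg_const c))
  rw [← P.red_eq_zero_iff hr, P.red_sub hf (P.reg_const c), ← P.algebraMap_RF, hc, sub_self]

theorem zero_one {t : K} (ht : IntermediateField.adjoin k {t} = ⊤) {P : Place k K}
    (hP : 0 < P.ord t) : P.ord t = 1 := by
  obtain ⟨Q, hQ, hQ2⟩ := pole_one (gen_inv ht)
  have h1 : P = Q := hQ2 P (by rw [P.ord_inv]; linarith)
  rw [h1]
  rw [Q.ord_inv] at hQ
  linarith

/-- **The canonical degree of the rational curve.** -/
theorem canDeg_rational {t : K} (ht : IntermediateField.adjoin k {t} = ⊤) : canDeg k K = -2 := by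
  have htr := gen_transc ht
  obtain ⟨E0, hE0⟩ : ∃ E : Derivation k K K, E ≠ 0 := ⟨_, der_ne⟩
  have h0 := der_ne_zero hE0 htr
  obtain ⟨E, hE⟩ : ∃ E : Derivation k K K, E = (E0 t)⁻¹ • E0 := ⟨_, rfl⟩
  have hEt : E t = 1 := by
    rw [hE, Derivation.smul_apply, smul_eq_mul, inv_mul_cancel₀ h0]
  have hEne : E ≠ 0 := by
    intro h1
    rw [h1, Derivation.zero_apply] at hEt
    exact zero_ne_one hEt
  obtain ⟨P, hP, hP2⟩ := pole_one ht
  have hvP : vo P E = 2 := by
    have h1 := (ord_der P hEne (f := t) (by rw [hP]; norm_num)).2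
    rw [hEt, P.ord_one, hP] at h1
    linarith
  have hv0 : ∀ Q : Place k K, Q ≠ P → vo Q E = 0 := by
    intro Q hQ
    have hreg : Q.Reg t := by
      right
      by_contra hcon
      push Not at hcon
      exact hQ (hP2 Q hcon)
    obtain ⟨c, hc⟩ := exists_res Q hreg
    have hne : t - algebraMap k K c ≠ 0 := by
      intro h1
      apply htr
      rw [sub_eq_zero.1 h1]
      exact isAlgebraic_algebraMap c
    have h1 := hc.resolve_left hne
    have h2 := zero_one (gen_sub ht c) h1
    have h3 := (ord_der Q hEne (f := t - algebraMap k K c) (by rw [h2]; norm_num)).2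
    rw [map_sub, Derivation.map_algebraMap, sub_zero, hEt, Q.ord_one, h2] at h3
    linarith
  have h1 := canDeg_finset hEne {P} (fun Q hQ => by
    rw [Finset.mem_singleton]
    by_contra hcon
    exact hQ (hv0 Q hcon))
  rw [Finset.sum_singleton, hvP] at h1
  linarith

/-- a coordinate with a given zero and a given pole -/
theorem exists_coord {t : K} (ht : IntermediateField.adjoin k {t} = ⊤) {P Q : Place k K}
    (hPQ : P ≠ Q) : ∃ s : K, IntermediateField.adjoin k {s} = ⊤ ∧ 0 < P.ord s ∧ Q.ord s < 0 := by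
  -- a coordinate with a pole at `Q`
  obtain ⟨s, hs, hsQ⟩ : ∃ s : K, IntermediateField.adjoin k {s} = ⊤ ∧ Q.ord s < 0 := by
    by_cases h1 : Q.ord t < 0
    · exact ⟨t, ht, h1⟩
    · push Not at h1
      obtain ⟨c, hc⟩ := exists_res Q (f := t) (Or.inr h1)
      have hne : t - algebraMap k K c ≠ 0 := by
        intro h1
        apply gen_transc ht
        rw [sub_eq_zero.1 h1]
        exact isAlgebraic_algebraMap c
      refine ⟨(t - algebraMap k K c)⁻¹, gen_inv (gen_sub ht c), ?_⟩
      rw [Q.ord_inv]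
      have := hc.resolve_left hne
      linarith
  obtain ⟨R, hR, hR2⟩ := pole_one hs
  have hP : P.Reg s := by
    right
    by_contra hcon
    push Not at hcon
    exact hPQ ((hR2 P hcon).trans (hR2 Q hsQ).symm)
  obtain ⟨c, hc⟩ := exists_res P hP
  have hne : s - algebraMap k K c ≠ 0 := by
    intro h1
    apply gen_transc hs
    rw [sub_eq_zero.1 h1]
    exact isAlgebraic_algebraMap c
  refine ⟨s - algebraMap k K c, gen_sub hs c, hc.resolve_left hne, ?_⟩
  by_contra hcon
  push Not at hcon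
  have h1 : Q.Reg s := by
    have h2 : s = (s - algebraMap k K c) + algebraMap k K c := by ring
    rw [h2]
    exact Q.reg_add (Or.inr hcon) (Q.reg_const c)
  rcases h1 with h1 | h1
  · rw [h1, Q.ord_zero] at hsQ
    exact absurd hsQ (lt_irrefl _)
  · linarith

/-- at most two places are zeros or poles of some coordinate -/
theorem exists_coord2 {t : K} (ht : IntermediateField.adjoin k {t} = ⊤) (B : Finset (Place k K))
    (hB : B.card ≤ 2) : ∃ s : K, IntermediateField.adjoin k {s} = ⊤ ∧ ∀ P ∈ B, P.ord s ≠ 0 := by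
  classical
  obtain ⟨P0, hP0, -⟩ := pole_one ht
  obtain ⟨P1, hP1, -⟩ := pole_one (gen_inv ht)
  have h01 : P0 ≠ P1 := by
    intro h
    rw [h] at hP0
    rw [P1.ord_inv] at hP1
    linarith
  obtain ⟨P, Q, hPQ, hsub⟩ : ∃ P Q : Place k K, P ≠ Q ∧ ∀ R ∈ B, R = P ∨ R = Q := by
    rcases Nat.lt_or_ge B.card 2 with h1 | h1
    · rcases B.eq_empty_or_nonempty with h2 | ⟨P, hP⟩
      · refine ⟨P0, P1, h01, fun R hR => ?_⟩
        rw [h2] at hR
        exact absurd hR (Finset.notMem_empty R)
      · have h3 : ∀ R ∈ B, R = P := fun R hR => Finset.card_le_one.1 (by omega) R hR P hP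
        by_cases h4 : P = P0
        · exact ⟨P, P1, by rw [h4]; exact h01, fun R hR => Or.inl (h3 R hR)⟩
        · exact ⟨P, P0, h4, fun R hR => Or.inl (h3 R hR)⟩
    · obtain ⟨P, Q, hPQ, hB2⟩ := Finset.card_eq_two.1 (le_antisymm hB h1)
      refine ⟨P, Q, hPQ, fun R hR => ?_⟩
      rw [hB2] at hR
      simpa using hR
  obtain ⟨s, hs, h1, h2⟩ := exists_coord ht hPQ
  refine ⟨s, hs, fun R hR => ?_⟩
  rcases hsub R hR with rfl | rfl
  · exact h1.ne'
  · exact h2.ne

end

section

variable {K : Type} [Field K] [Algebra ℂ K]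

/-- coordinates without common zeros -/
theorem exists_coprime {s : K} (hs : Transcendental ℂ s) : ∀ (n : ℕ) (q : Fin 3 → Polynomial ℂ)
    (g : K), g ≠ 0 → (∑ j, (q j).natDegree) ≤ n → q ≠ 0 → ∃ (q' : Fin 3 → Polynomial ℂ) (g' : K),
      g' ≠ 0 ∧ (∀ j, g' * Polynomial.aeval s (q' j) = g * Polynomial.aeval s (q j)) ∧
        ∀ a : ℂ, ∃ j, (q' j).eval a ≠ 0 := by
  intro n
  induction n with
  | zero =>
    intro q g hg hn hq
    refine ⟨q, g, hg, fun j => rfl, fun a => ?_⟩
    obtain ⟨j, hj⟩ := Function.ne_iff.1 hq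
    refine ⟨j, ?_⟩
    have h1 : (q j).natDegree = 0 := by
      have := Finset.single_le_sum (f := fun j => (q j).natDegree) (fun i _ => Nat.zero_le _)
        (Finset.mem_univ j)
      omega
    rw [Polynomial.eq_C_of_natDegree_eq_zero h1, Polynomial.eval_C]
    intro h2
    apply hj
    rw [Polynomial.eq_C_of_natDegree_eq_zero h1, h2, Polynomial.C_0]
    rfl
  | succ n ih =>
    intro q g hg hn hq
    by_cases hcom : ∀ a : ℂ, ∃ j, (q j).eval a ≠ 0
    · exact ⟨q, g, hg, fun j => rfl, hcom⟩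
    push Not at hcom
    obtain ⟨a, ha⟩ := hcom
    have hdvd : ∀ j, ∃ r, q j = (Polynomial.X - Polynomial.C a) * r := fun j =>
      Polynomial.dvd_iff_isRoot.2 (ha j)
    choose r hr using hdvd
    have hXa : (Polynomial.X - Polynomial.C a : Polynomial ℂ) ≠ 0 := Polynomial.X_sub_C_ne_zero a
    have hdeg : ∀ j, r j ≠ 0 → (q j).natDegree = (r j).natDegree + 1 := by
      intro j hj
      rw [hr j, Polynomial.natDegree_mul hXa hj, Polynomial.natDegree_X_sub_C]
      ring
    have hdeg0 : ∀ j, (r j).natDegree ≤ (q j).natDegree := by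
      intro j
      by_cases hj : r j = 0
      · rw [hj]
        simp
      · rw [hdeg j hj]
        omega
    have hrne : r ≠ 0 := by
      intro h
      apply hq
      funext j
      rw [hr j, h]
      simp
    obtain ⟨j0, hj0⟩ := Function.ne_iff.1 hrne
    have hlt : ∑ j, (r j).natDegree < ∑ j, (q j).natDegree := by
      refine Finset.sum_lt_sum (fun j _ => hdeg0 j) ⟨j0, Finset.mem_univ _, ?_⟩
      rw [hdeg j0 hj0]
      omega
    have hsa : s - algebraMap ℂ K a ≠ 0 := by
      intro h1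
      apply hs
      rw [sub_eq_zero.1 h1]
      exact isAlgebraic_algebraMap a
    obtain ⟨q', g', h1, h2, h3⟩ := ih r (g * (s - algebraMap ℂ K a)) (mul_ne_zero hg hsa)
      (by omega) hrne
    refine ⟨q', g', h1, fun j => ?_, h3⟩
    rw [h2, hr j, map_mul, map_sub, Polynomial.aeval_X, Polynomial.aeval_C]
    ring

/-- the coordinates of a rational curve -/
theorem exists_param {s : K} (hs : IntermediateField.adjoin ℂ {s} = ⊤) (htr : Transcendental ℂ s)
    (z : Fin 3 → K) (hz : z ≠ 0) : ∃ (q : Fin 3 → Polynomial ℂ) (g : K), g ≠ 0 ∧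
      (∀ j, z j = g * Polynomial.aeval s (q j)) ∧ ∀ a : ℂ, ∃ j, (q j).eval a ≠ 0 := by
  have h1 : ∀ j, ∃ p r : Polynomial ℂ, Polynomial.aeval s r ≠ 0 ∧
      z j = Polynomial.aeval s p / Polynomial.aeval s r := by
    intro j
    have h2 : z j ∈ IntermediateField.adjoin ℂ {s} := by
      rw [hs]
      exact IntermediateField.mem_top
    obtain ⟨p, r, h3⟩ := (IntermediateField.mem_adjoin_simple_iff ℂ (z j)).1 h2
    by_cases h4 : Polynomial.aeval s r = 0
    · refine ⟨0, 1, by simp, ?_⟩
      rw [h3, h4]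
      simp
    · exact ⟨p, r, h4, h3⟩
  choose p r hr hp using h1
  obtain ⟨q0, hq0⟩ : ∃ q0 : Fin 3 → Polynomial ℂ, q0 = fun j =>
    p j * ∏ i ∈ Finset.univ.erase j, r i := ⟨_, rfl⟩
  have hprod : ∏ i, Polynomial.aeval s (r i) ≠ 0 := Finset.prod_ne_zero_iff.2 fun i _ => hr i
  have h2 : ∀ j, z j = (∏ i, Polynomial.aeval s (r i))⁻¹ * Polynomial.aeval s (q0 j) := by
    intro j
    rw [hq0, map_mul, map_prod, hp j, ← Finset.mul_prod_erase Finset.univ _ (Finset.mem_univ j)]
    have h3 : ∏ i ∈ Finset.univ.erase j, Polynomial.aeval s (r i) ≠ 0 :=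
      Finset.prod_ne_zero_iff.2 fun i _ => hr i
    have h4 := hr j
    field_simp
  have hq0ne : q0 ≠ 0 := by
    intro h3
    apply hz
    funext j
    rw [h2 j, h3]
    simp
  obtain ⟨q, g, h3, h4, h5⟩ := exists_coprime htr _ q0 _ (inv_ne_zero hprod) le_rfl hq0ne
  exact ⟨q, g, h3, fun j => by rw [h2 j, h4 j], h5⟩

end

end Pool.Agent.H915
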