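import Pool.Agent.H915.TC.Lg6

/-!
The complement of two plane curves which contains no images of the multiplicative group: all closed
subvarieties of positive dimension are of log general type.
-/

set_option autoImplicit false

open MvPolynomial FF

namespace Pool.Agent.H915

open Module Pool.Agent.W603.LV Pool.Agent.W602.GT Pool.Agent.TH143.GE Pool.Agent.W603.PV
open Pool.Agent.Results.MP_64ff02_ag.GenericPairsSpecialSet (OnPair Subvariety LogGT LogGTOutside)

variable {H : Fin 2 → Poly} {d : Fin 2 → ℕ}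

/-- the order of a polynomial at a place over a point of the line -/
theorem ord_point {K : Type} [Field K] [Algebra ℂ K] {s : K} (hs : Transcendental ℂ s)
    {P : Place ℂ K} {a : ℂ} (hP : 0 < P.ord (s - algebraMap ℂ K a)) (p : Polynomial ℂ) :
    P.Reg (Polynomial.aeval s p) ∧ (p.eval a ≠ 0 → P.ord (Polynomial.aeval s p) = 0) ∧
      (p ≠ 0 → p.eval a = 0 → 0 < P.ord (Polynomial.aeval s p)) := by
  have hsa : s - algebraMap ℂ K a ≠ 0 := by
    intro h1
    rw [h1, P.ord_zero] at hP
    exact lt_irrefl _ hP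
  have hsr : P.Reg s := by
    have h1 : s = (s - algebraMap ℂ K a) + algebraMap ℂ K a := by ring
    rw [h1]
    exact P.reg_add (Or.inr hP.le) (P.reg_const a)
  have hreg : ∀ p : Polynomial ℂ, P.Reg (Polynomial.aeval s p) := by
    intro p
    induction p using Polynomial.induction_on with
    | C b =>
      rw [Polynomial.aeval_C]
      exact P.reg_const b
    | add p q hp hq =>
      rw [map_add]
      exact P.reg_add hp hq
    | monomial n b h =>
      rw [pow_succ, ← mul_assoc, map_mul, Polynomial.aeval_X]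
      exact P.reg_mul h hsr
  have hdiv : ∀ p : Polynomial ℂ, ∃ r : Polynomial ℂ, Polynomial.aeval s p =
      algebraMap ℂ K (p.eval a) + (s - algebraMap ℂ K a) * Polynomial.aeval s r := by
    intro p
    obtain ⟨r, hr⟩ := Polynomial.X_sub_C_dvd_sub_C_eval (p := p) (a := a)
    refine ⟨r, ?_⟩
    have h1 := congrArg (Polynomial.aeval s) hr
    rw [map_sub, Polynomial.aeval_C, map_mul, map_sub, Polynomial.aeval_X, Polynomial.aeval_C] at h1
    linear_combination h1
  refine ⟨hreg p, fun hpa => ?_, fun hp hpa => ?_⟩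
  · obtain ⟨r, hr⟩ := hdiv p
    rw [hr]
    by_cases h0 : (s - algebraMap ℂ K a) * Polynomial.aeval s r = 0
    · rw [h0, add_zero, P.ord_const hpa]
    · have h1 : Polynomial.aeval s r ≠ 0 := right_ne_zero_of_mul h0
      have h2 := P.ord_add_eq (f := algebraMap ℂ K (p.eval a))
        (g := (s - algebraMap ℂ K a) * Polynomial.aeval s r) (by rwa [Ne, map_eq_zero]) h0 (by
          rw [P.ord_const hpa, P.ord_mul hsa h1]
          have := (hreg r).resolve_left h1
          linarith)
      rw [h2.2, P.ord_const hpa]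
  · obtain ⟨r, hr⟩ := hdiv p
    have hne : Polynomial.aeval s p ≠ 0 := by
      intro h1
      exact hp ((transcendental_iff.1 hs) p h1)
    rw [hr, hpa, map_zero, zero_add] at hne ⊢
    have h1 : Polynomial.aeval s r ≠ 0 := right_ne_zero_of_mul hne
    rw [P.ord_mul hsa h1]
    have := (hreg r).resolve_left h1
    linarith

/-- all nonconstant images of the multiplicative group in the complement are contained in
`G = 0` -/
def GmIn (H : Fin 2 → Poly) (G : Poly) : Prop := ∀ q : Fin 3 → Polynomial ℂ,
  (∀ t, t ≠ 0 → ∀ b, eval (fun i => (q i).eval t) (H b) ≠ 0) →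
    (∀ z, eval (fun i => (q i).eval z) G = 0) ∨ ∀ s t : ℂ, s ≠ 0 → t ≠ 0 → ∀ i j,
      (q i).eval s * (q j).eval t = (q j).eval s * (q i).eval t

/-- **curves in the complement** -/
theorem curve_case {K L : Type} [Field K] [Algebra ℂ K] [IsFF ℂ K] [Field L] [Algebra ℂ L]
    [Algebra K L] [IsScalarTower ℂ K L] (halg : Algebra.IsAlgebraic K L)
    (htr : Algebra.trdeg ℂ L = (1 : ℕ)) (hpos : ∀ a, 0 < d a) (hH : ∀ a, (H a).IsHomogeneous (d a))
    {G : Poly} {m : ℕ} (hGh : G.IsHomogeneous m) (hG : GmIn H G)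
    {y : Fin 3 → L} (hGy : aeval y G ≠ 0) {z : Fin 3 → K} {i0 : Fin 3}
    (hy0 : y i0 ≠ 0) (hyz : ∀ j, y j = y i0 * algebraMap K L (z j)) (hz0 : z i0 = 1)
    {j0 : Fin 3} (hj0 : Transcendental ℂ (z j0)) (hHz : ∀ b, aeval z (H b) ≠ 0) :
    LogGT H d ∅ 1 y := by
  classical
  -- the boundary
  obtain ⟨Bs, hBs⟩ : ∃ Bs : Set (Place ℂ K), Bs = {v | ∃ b j, z j ≠ 0 ∧
    (d b : ℤ) * v.ord (z j) < v.ord (aeval z (H b))} := ⟨_, rfl⟩
  have hfin : Bs.Finite := by
    have h1 : ((⋃ j, {v : Place ℂ K | v.ord (z j) ≠ 0}) ∪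
        ⋃ b, {v : Place ℂ K | v.ord (aeval z (H b)) ≠ 0}).Finite :=
      (Set.finite_iUnion fun j => finite_support _).union
        (Set.finite_iUnion fun b => finite_support _)
    refine h1.subset ?_
    rw [hBs]
    rintro v ⟨b, j, -, h2⟩
    by_contra hcon
    rw [Set.mem_union, not_or, Set.mem_iUnion, Set.mem_iUnion] at hcon
    obtain ⟨h3, h4⟩ := hcon
    push Not at h3 h4
    have h5 : v.ord (z j) = 0 := by
      by_contra h6
      exact h3 j h6
    have h6 : v.ord (aeval z (H b)) = 0 := by
      by_contra h6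
      exact h4 b h6
    rw [h5, h6, mul_zero] at h2
    exact lt_irrefl _ h2
  have hmemB : ∀ v, v ∈ hfin.toFinset ↔ ∃ b j, z j ≠ 0 ∧
      (d b : ℤ) * v.ord (z j) < v.ord (aeval z (H b)) := by
    intro v
    rw [Set.Finite.mem_toFinset, hBs]
    rfl
  by_cases hlog : 0 < canDeg ℂ K + hfin.toFinset.card
  · refine curve_lgt (k := ℂ) halg htr hfin.toFinset (fun P v e he hov hv => ?_) hlog
    obtain ⟨b, j, hzj, h1⟩ := (hmemB v).1 hv
    refine ⟨b, Finset.notMem_empty b, ?_⟩
    have hyj : y j ≠ 0 := by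
      rw [hyz j]
      exact mul_ne_zero hy0 (by rwa [Ne, map_eq_zero])
    have h2 : pord P y ≤ P.ord (y j) := by
      have hbdd : BddBelow (Set.range fun j : {j // y j ≠ 0} => P.ord (y j)) :=
        (Set.finite_range _).bddBelow
      exact ciInf_le hbdd ⟨j, hyj⟩
    have h3 : y = fun j => y i0 * algebraMap K L (z j) := funext hyz
    have h4 : aeval y (H b) = y i0 ^ d b * algebraMap K L (aeval z (H b)) := by
      have h5 := sc_k (hH b) (y i0) (fun j => algebraMap K L (z j))
      rw [← h3] at h5
      rw [h5]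
      exact congrArg (y i0 ^ d b * ·) (aeval_algebraMap_apply L z (H b))
    have hz' : algebraMap K L (z j) ≠ 0 := by rwa [Ne, map_eq_zero]
    have hHb' : algebraMap K L (aeval z (H b)) ≠ 0 := by
      rw [Ne, map_eq_zero]
      exact hHz b
    rw [h4, P.ord_mul (pow_ne_zero _ hy0) hHb', P.ord_pow, hov]
    rw [hyz j, P.ord_mul hy0 hz', hov] at h2
    have h5 : (d b : ℤ) * pord P y ≤ d b * (P.ord (y i0) + e * v.ord (z j)) :=
      mul_le_mul_of_nonneg_left h2 (Int.natCast_nonneg _)
    have h6 : (e : ℤ) * (d b * v.ord (z j)) < e * v.ord (aeval z (H b)) :=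
      mul_lt_mul_of_pos_left h1 (by exact_mod_cast he)
    nlinarith
  exfalso
  push Not at hlog
  -- the boundary is not empty
  have hcard : 1 ≤ hfin.toFinset.card := by
    rw [Nat.one_le_iff_ne_zero, Ne, Finset.card_eq_zero]
    intro hemp
    have h1 : ∀ (v : Place ℂ K) b j, z j ≠ 0 → v.ord (aeval z (H b)) ≤ (d b : ℤ) * v.ord (z j) := by
      intro v b j hzj
      by_contra hcon
      push Not at hcon
      have := (hmemB v).2 ⟨b, j, hzj, hcon⟩
      rw [hemp] at this
      exact Finset.notMem_empty _ this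
    have hfr : ∀ {f : K}, Transcendental ℂ f → 0 < finrank (IntermediateField.adjoin ℂ {f}) K := by
      intro f hf
      have := IsFF.finite (k := ℂ) hf
      exact finrank_pos
    obtain ⟨v, hv⟩ : ∃ v : Place ℂ K, v.ord (z j0) < 0 := by
      obtain ⟨S, hS, hS2⟩ := poles (k := ℂ) hj0
      have h2 : S.Nonempty := by
        by_contra hcon
        rw [Finset.not_nonempty_iff_eq_empty] at hcon
        have := hfr hj0
        rw [← hS2, hcon] at this
        simp at this
      obtain ⟨v, hv⟩ := h2
      exact ⟨v, (hS v).1 hv⟩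
    have hz0' : z j0 ≠ 0 := by
      intro h
      rw [h, v.ord_zero] at hv
      exact lt_irrefl _ hv
    have h2 := h1 v 0 j0 hz0'
    have h3 : v.ord (aeval z (H 0)) < 0 := by
      have h4 : (0 : ℤ) < d 0 := by exact_mod_cast hpos 0
      nlinarith
    have h4 : Transcendental ℂ (aeval z (H 0)) := v.transcendental_of_ord_ne h3.ne
    obtain ⟨S, hS, -, hS2⟩ := zeros (k := ℂ) h4
    have h5 : S.Nonempty := by
      by_contra hcon
      rw [Finset.not_nonempty_iff_eq_empty] at hcon
      have := hfr h4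
      rw [← hS2, hcon] at this
      simp at this
    obtain ⟨w, hw⟩ := h5
    have h6 := (hS w).1 hw
    have h7 := h1 w 0 i0 (by rw [hz0]; exact one_ne_zero)
    rw [hz0, w.ord_one, mul_zero] at h7
    linarith
  have hcard' : (1 : ℤ) ≤ hfin.toFinset.card := by exact_mod_cast hcard
  obtain ⟨t, ht⟩ := rational_of_neg (k := ℂ) (K := K) (by linarith)
  rw [canDeg_rational ht] at hlog
  obtain ⟨s, hs, hsB⟩ := exists_coord2 ht hfin.toFinset (by
    have : (hfin.toFinset.card : ℤ) ≤ 2 := by linarith
    exact_mod_cast this)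
  have hstr := gen_transc hs
  have hzne : z ≠ 0 := by
    intro h
    rw [h] at hz0
    exact zero_ne_one hz0
  obtain ⟨q, g, hg, hq1, hq2⟩ := exists_param hs hstr z hzne
  -- the curve is a map from the multiplicative group
  have hGm : ∀ a : ℂ, a ≠ 0 → ∀ b, eval (fun i => (q i).eval a) (H b) ≠ 0 := by
    intro a ha b hab
    have hsa := gen_sub hs a
    obtain ⟨P, hP, -⟩ := pole_one (gen_inv hsa)
    rw [P.ord_inv] at hP
    have hP1 : 0 < P.ord (s - algebraMap ℂ K a) := by linarith
    have hsP : P.ord s = 0 := by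
      have := (ord_point hstr hP1 Polynomial.X).2.1 (by rwa [Polynomial.eval_X])
      rwa [Polynomial.aeval_X] at this
    have hPB : P ∉ hfin.toFinset := fun h => hsB P h hsP
    obtain ⟨j, hj⟩ := hq2 a
    have h1 := (ord_point hstr hP1 (q j)).2.1 hj
    have hqj : Polynomial.aeval s (q j) ≠ 0 := by
      intro h2
      have h3 := (transcendental_iff.1 hstr) (q j) h2
      rw [h3, Polynomial.eval_zero] at hj
      exact hj rfl
    have hzj : z j ≠ 0 := by
      rw [hq1 j]
      exact mul_ne_zero hg hqj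
    apply hPB
    rw [hmemB]
    refine ⟨b, j, hzj, ?_⟩
    -- the polynomial
    obtain ⟨R, hR⟩ : ∃ R : Polynomial ℂ, R = aeval q (H b) := ⟨_, rfl⟩
    have hRa : R.eval a = 0 := by
      rw [hR, ← hab]
      have h3 : (Polynomial.aeval a : Polynomial ℂ →ₐ[ℂ] ℂ) (aeval q (H b)) =
          aeval (fun i => Polynomial.aeval a (q i)) (H b) := by
        rw [← comp_aeval_apply]
      rw [← Polynomial.coe_aeval_eq_eval, h3, ← coe_aeval_eq_eval]
      rfl
    have hRs : Polynomial.aeval s R = aeval (fun i => Polynomial.aeval s (q i)) (H b) := by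
      rw [hR, ← comp_aeval_apply]
    have hHb : aeval z (H b) = g ^ d b * Polynomial.aeval s R := by
      have h3 : z = fun j => g * Polynomial.aeval s (q j) := funext hq1
      rw [hRs]
      conv_lhs => rw [h3]
      exact sc_k (hH b) g _
    have hR0 : Polynomial.aeval s R ≠ 0 := by
      intro h3
      apply hHz b
      rw [hHb, h3, mul_zero]
    have hRne : R ≠ 0 := by
      intro h3
      rw [h3, map_zero] at hR0
      exact hR0 rfl
    have h4 := (ord_point hstr hP1 R).2.2 hRne hRa
    rw [hHb, P.ord_mul (pow_ne_zero _ hg) hR0, P.ord_pow, hq1 j, P.ord_mul hg hqj, h1, add_zero]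
    linarith
  have hpar : ∀ s t : ℂ, s ≠ 0 → t ≠ 0 → ∀ i j,
      (q i).eval s * (q j).eval t = (q j).eval s * (q i).eval t := by
    rcases hG q hGm with h1 | h1
    · exfalso
      apply hGy
      obtain ⟨R, hR⟩ : ∃ R : Polynomial ℂ, R = aeval q G := ⟨_, rfl⟩
      have hR0 : R = 0 := by
        apply Polynomial.funext
        intro a
        rw [Polynomial.eval_zero, ← h1 a, hR]
        have h3 : (Polynomial.aeval a : Polynomial ℂ →ₐ[ℂ] ℂ) (aeval q G) =
            aeval (fun i => Polynomial.aeval a (q i)) G := by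
          rw [← comp_aeval_apply]
        rw [← Polynomial.coe_aeval_eq_eval, h3, ← coe_aeval_eq_eval]
        rfl
      have hRs : Polynomial.aeval s R = aeval (fun i => Polynomial.aeval s (q i)) G := by
        rw [hR, ← comp_aeval_apply]
      have h2 : aeval z G = g ^ m * Polynomial.aeval s R := by
        have h3 : z = fun j => g * Polynomial.aeval s (q j) := funext hq1
        rw [hRs]
        conv_lhs => rw [h3]
        exact sc_k hGh g _
      have h3 : y = fun j => y i0 * algebraMap K L (z j) := funext hyz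
      have h4 := sc_k hGh (y i0) (fun j => algebraMap K L (z j))
      have h5 : aeval (fun j => algebraMap K L (z j)) G = algebraMap K L (aeval z G) :=
        aeval_algebraMap_apply L z G
      rw [← h3, h5, h2, hR0, map_zero, mul_zero, map_zero, mul_zero] at h4
      exact h4
    · exact h1
  -- contradiction
  have hconst : ∀ i j, Polynomial.C ((q i).eval 1) * q j = Polynomial.C ((q j).eval 1) * q i := by
    intro i j
    apply Polynomial.eq_of_infinite_eval_eq
    refine Set.Infinite.mono (s := {0}ᶜ) ?_ (Set.Finite.infinite_compl (Set.finite_singleton 0))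
    intro t ht
    have h1 := hpar 1 t one_ne_zero ht i j
    rw [Set.mem_ofPred_eq, Polynomial.eval_mul, Polynomial.eval_mul, Polynomial.eval_C,
      Polynomial.eval_C, h1]
  obtain ⟨j, hj⟩ := hq2 1
  apply hj0
  have hji : algebraMap ℂ K ((q j).eval 1) ≠ 0 := by rwa [Ne, map_eq_zero]
  have h1 : ∀ i, z i = algebraMap ℂ K ((q i).eval 1 / (q j).eval 1) * z j := by
    intro i
    have h2 := congrArg (Polynomial.aeval s) (hconst i j)
    rw [map_mul, map_mul, Polynomial.aeval_C, Polynomial.aeval_C] at h2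
    rw [map_div₀, hq1 i, hq1 j]
    field_simp
    linear_combination -h2
  have h2 := h1 i0
  rw [hz0] at h2
  have h3 : algebraMap ℂ K ((q i0).eval 1 / (q j).eval 1) ≠ 0 := left_ne_zero_of_mul (by
    rw [← h2]
    exact one_ne_zero)
  have h4 : z j = (algebraMap ℂ K ((q i0).eval 1 / (q j).eval 1))⁻¹ :=
    eq_inv_of_mul_eq_one_right h2.symm
  rw [h1 j0, h4]
  rw [← map_inv₀, ← map_mul]
  exact isAlgebraic_algebraMap _

end Pool.Agent.H915
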