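import Pool.Agent.H915.TC.Lg7

/-!
The complement of two transversal plane curves: log general type, and the equivalence of (iv) with
the nonexistence of images of the multiplicative group.
-/

set_option autoImplicit false

open MvPolynomial FF

namespace Pool.Agent.H915

open Module Pool.Agent.W603.LV Pool.Agent.W602.GT Pool.Agent.TH143.GE Pool.Agent.W603.PV
open Pool.Agent.Results.MP_64ff02_ag.GenericPairsSpecialSet (OnPair Subvariety LogGT LogGTOutside)

variable {H : Fin 2 → Poly} {d : Fin 2 → ℕ} {e1 e2 : ℕ} {K : Type} [Field K] [Algebra ℂ K]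
  {y : Fin 3 → K}

/-- dimensions are at most two -/
theorem dim_le_two {w : ℕ} (hy : y ≠ 0) (htr : Algebra.trdeg ℂ K = w)
    (halg : Algebra.IsAlgebraic (coords ℂ (n := 2) y) K) : w ≤ 2 := by
  obtain ⟨i0, hi0⟩ := Function.ne_iff.1 hy
  have hi0' : y i0 ≠ 0 := hi0
  obtain ⟨s, hs⟩ := coord_basis halg hi0' htr
  have hinj : Function.Injective s := by
    intro a b hab
    have h1 : (fun b => y (s b) / y i0) a = (fun b => y (s b) / y i0) b := by
      simp only
      rw [hab]
    exact hs.1.injective h1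
  have hne : ∀ b, s b ≠ i0 := by
    intro b hb
    have h1 := hs.1.transcendental b
    rw [hb, div_self hi0'] at h1
    exact h1 isAlgebraic_one
  have h1 := Fintype.card_le_of_injective (fun b => (⟨s b, hne b⟩ : {j : Fin 3 // j ≠ i0}))
    (fun a b hab => hinj (congrArg Subtype.val hab))
  rw [Fintype.card_fin] at h1
  have h2 : Fintype.card {j : Fin 3 // j ≠ i0} = 2 := by
    rw [Fintype.card_subtype_compl, Fintype.card_fin, Fintype.card_subtype_eq]
  omega

/-- **the complement is of log general type** -/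
theorem lgt_plane (hS : SNC (H 0) (H 1) e1 e2) (hd0 : d 0 = e1 + 1) (hd1 : d 1 = e2 + 1)
    (hk : 2 ≤ e1 + e2) (hy : Subvariety H ∅ 2 y) : LogGT H d ∅ 2 y := by
  obtain ⟨⟨hy0, -, hb⟩, htr, halg⟩ := hy
  have n1 : aeval y (H 0) ≠ 0 := hb 0 (Finset.notMem_empty 0)
  have n2 : aeval y (H 1) ≠ 0 := hb 1 (Finset.notMem_empty 1)
  obtain ⟨l, hl⟩ : ∃ l : ℕ, l + 2 = e1 + e2 := ⟨e1 + e2 - 2, by omega⟩
  obtain ⟨Q, hQ, D, hD0, hD1⟩ := exists_forms (R := 1) hy0 n1 n2 halg htr 1 (by
    rw [map_one]
    exact one_ne_zero) (l := l)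
  have hQ' : ∀ j, (1 * Q j).IsHomogeneous (1 * (l + 1)) := by
    intro j
    rw [one_mul, one_mul]
    exact hQ j
  refine ⟨htr, 1, one_pos, fun j => omN (H 0) (H 1) y (1 * Q j) 1, fun j => omN_pluri _ _,
    fun P _ j => omN_log hS (k := l + 1) (by omega) hy0 n1 n2 (hQ' j) P, fun P _ hP j => ?_,
    D, hD0, hD1⟩
  have hP' : ∀ b, P.ord (aeval y (H b)) ≤ d b * pord (n := 2) P y := by
    intro b
    by_contra hcon
    push Not at hcon
    exact hP ⟨b, Finset.notMem_empty b, hcon⟩
  have h0 := hP' 0
  have h1 := hP' 1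
  rw [hd0] at h0
  rw [hd1] at h1
  exact omN_reg hS (k := l + 1) (by omega) hy0 n1 n2 (hQ' j) P h0 h1

/-- the function field generated by the ratios of the coordinates -/
theorem coords_ff (hy : y ≠ 0) (htr : Algebra.trdeg ℂ K = (1 : ℕ))
    (halg : Algebra.IsAlgebraic (coords ℂ (n := 2) y) K) : IsFF ℂ (coords ℂ (n := 2) y) := by
  constructor
  · rw [IntermediateField.essFiniteType_iff]
    have h1 : coords ℂ (n := 2) y = IntermediateField.adjoin ℂ
        (Set.range fun p : Fin 3 × Fin 3 => y p.1 / y p.2) := by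
      apply le_antisymm
      · unfold coords
        rw [IntermediateField.adjoin_le_iff]
        rintro _ ⟨i, j, -, rfl⟩
        exact IntermediateField.subset_adjoin _ _ ⟨(i, j), rfl⟩
      · rw [IntermediateField.adjoin_le_iff]
        rintro _ ⟨⟨i, j⟩, rfl⟩
        by_cases hj : y j = 0
        · simp only
          rw [hj, div_zero]
          exact zero_mem _
        · exact IntermediateField.subset_adjoin _ _ ⟨i, j, hj, rfl⟩
    rw [h1]
    exact IntermediateField.fg_adjoin_of_finite (Set.finite_range _)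
  · have h1 := _root_.trdeg_add_eq ℂ (coords ℂ (n := 2) y) (A := K)
    have h2 : Algebra.trdeg (coords ℂ (n := 2) y) K = 0 := _root_.trdeg_eq_zero_iff.2 halg
    rw [h2, add_zero, htr, Nat.cast_one] at h1
    exact h1

/-- **all closed subvarieties outside of `G = 0` are of log general type if all images of the
multiplicative group are in `G = 0`** -/
theorem lgt_of_gm (hS : SNC (H 0) (H 1) e1 e2) (hd0 : d 0 = e1 + 1) (hd1 : d 1 = e2 + 1)
    (hk : 2 ≤ e1 + e2) {G : Poly} {m : ℕ} (hGh : G.IsHomogeneous m) (hG : GmIn H G) :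
    LogGTOutside H d ∅ G := by
  intro K _ _ w y hw hy hGy
  obtain ⟨⟨hy0, h0, hb⟩, htr, halg⟩ := hy
  have hw2 := dim_le_two hy0 htr halg
  rcases Nat.lt_or_ge w 2 with h2 | h2
  · obtain rfl : w = 1 := by omega
    have hff := coords_ff hy0 htr halg
    obtain ⟨i0, hi0⟩ := Function.ne_iff.1 hy0
    have hi0' : y i0 ≠ 0 := hi0
    have hmem : ∀ j, y j / y i0 ∈ coords ℂ (n := 2) y := fun j =>
      IntermediateField.subset_adjoin _ _ ⟨j, i0, hi0', rfl⟩
    obtain ⟨z, hz⟩ : ∃ z : Fin 3 → coords ℂ (n := 2) y, z = fun j => ⟨y j / y i0, hmem j⟩ :=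
      ⟨_, rfl⟩
    have hyz : ∀ j, y j = y i0 * algebraMap (coords ℂ (n := 2) y) K (z j) := by
      intro j
      rw [hz]
      change y j = y i0 * (y j / y i0)
      field_simp
    have hz0 : z i0 = 1 := by
      rw [hz]
      apply Subtype.ext
      exact div_self hi0'
    obtain ⟨s, hs⟩ := coord_basis halg hi0' htr
    have hj0 : Transcendental ℂ (z (s 0)) := by
      have h1 := hs.1.transcendental 0
      have h3 : y (s 0) / y i0 = algebraMap (coords ℂ (n := 2) y) K (z (s 0)) := by
        rw [hz]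
        rfl
      rw [h3] at h1
      rwa [transcendental_algebraMap_iff (algebraMap (coords ℂ (n := 2) y) K).injective] at h1
    have hpos : ∀ a, 0 < d a := by
      intro a
      fin_cases a
      · change 0 < d 0
        omega
      · change 0 < d 1
        omega
    have hH : ∀ a, (H a).IsHomogeneous (d a) := by
      intro a
      fin_cases a
      · change (H 0).IsHomogeneous (d 0)
        rw [hd0]
        exact hS.h1
      · change (H 1).IsHomogeneous (d 1)
        rw [hd1]
        exact hS.h2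
    refine curve_case (K := coords ℂ (n := 2) y) (L := K) halg htr hpos hH hGh hG hGy hi0'
      hyz hz0 hj0 fun b h4 => ?_
    apply hb b (Finset.notMem_empty b)
    have h5 := sc_k (hH b) (y i0) (fun j => algebraMap (coords ℂ (n := 2) y) K (z j))
    have h6 : y = fun j => y i0 * algebraMap (coords ℂ (n := 2) y) K (z j) := funext hyz
    rw [← h6] at h5
    rw [h5]
    have h7 : aeval (fun j => algebraMap (coords ℂ (n := 2) y) K (z j)) (H b) =
        algebraMap (coords ℂ (n := 2) y) K (aeval z (H b)) := aeval_algebraMap_apply K z (H b)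
    rw [h7, h4, map_zero, mul_zero]
  · obtain rfl : w = 2 := by omega
    exact lgt_plane hS hd0 hd1 hk ⟨⟨hy0, h0, hb⟩, htr, halg⟩

end Pool.Agent.H915
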