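import Mathlib

/-!
A maximum principle for functions with local holomorphic support functions.
-/

set_option autoImplicit false

open Filter Topology Metric Set

namespace Pool.Agent.H915

/-- Near `z` the function `w - w z` is at least `log |h| + κ |y - z| ^ 2`, with `h` holomorphic and
`h z = 1`. -/
def LS (κ : ℝ) (w : ℂ → ℝ) (z : ℂ) : Prop :=
  ∃ h : ℂ → ℂ, AnalyticAt ℂ h z ∧ h z = 1 ∧
    ∀ᶠ y in 𝓝 z, Real.log ‖h y‖ + κ * ‖y - z‖ ^ 2 ≤ w y - w z

variable {κ κ₁ κ₂ : ℝ} {w w₁ w₂ : ℂ → ℝ} {z : ℂ}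

theorem LS.add (h1 : LS κ₁ w₁ z) (h2 : LS κ₂ w₂ z) : LS (κ₁ + κ₂) (fun y => w₁ y + w₂ y) z := by
  obtain ⟨a, ha, ha1, ha2⟩ := h1
  obtain ⟨b, hb, hb1, hb2⟩ := h2
  refine ⟨fun y => a y * b y, ha.mul hb, by simp [ha1, hb1], ?_⟩
  have ea : ∀ᶠ y in 𝓝 z, a y ≠ 0 := ha.continuousAt.eventually_ne (by rw [ha1]; exact one_ne_zero)
  have eb : ∀ᶠ y in 𝓝 z, b y ≠ 0 := hb.continuousAt.eventually_ne (by rw [hb1]; exact one_ne_zero)
  filter_upwards [ha2, hb2, ea, eb] with y h1 h2 h3 h4
  rw [norm_mul, Real.log_mul (norm_ne_zero_iff.2 h3) (norm_ne_zero_iff.2 h4)]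
  linarith

theorem LS.mono {κ' : ℝ} (h : LS κ w z) (hk : κ' ≤ κ) : LS κ' w z := by
  obtain ⟨a, ha, ha1, ha2⟩ := h
  refine ⟨a, ha, ha1, ?_⟩
  filter_upwards [ha2] with y hy
  have : κ' * ‖y - z‖ ^ 2 ≤ κ * ‖y - z‖ ^ 2 := by gcongr
  linarith

theorem LS.congr (h : LS κ w z) (hw : w =ᶠ[𝓝 z] w₁) : LS κ w₁ z := by
  obtain ⟨a, ha, ha1, ha2⟩ := h
  refine ⟨a, ha, ha1, ?_⟩
  filter_upwards [ha2, hw] with y hy h1
  rw [← h1, ← hw.self_of_nhds]
  exact hy

theorem LS.const (c : ℝ) : LS 0 (fun _ => c) z :=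
  ⟨fun _ => 1, analyticAt_const, rfl, Eventually.of_forall fun y => by simp⟩

theorem LS.addc (h : LS κ w z) (c : ℝ) : LS κ (fun y => w y + c) z := by
  have := h.add (LS.const (z := z) c)
  rwa [add_zero] at this

theorem LS.subc (h : LS κ w z) (c : ℝ) : LS κ (fun y => w y - c) z := by
  have := h.addc (-c)
  simpa [sub_eq_add_neg] using this

theorem LS.re {p : ℂ → ℂ} (hp : AnalyticAt ℂ p z) : LS 0 (fun y => (p y).re) z := by
  refine ⟨fun y => Complex.exp (p y - p z), ?_, by simp, ?_⟩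
  · exact (hp.sub analyticAt_const).cexp
  · refine Eventually.of_forall fun y => ?_
    simp only [Complex.norm_exp, Real.log_exp, Complex.sub_re]
    linarith

theorem LS.log {g : ℂ → ℂ} (hg : AnalyticAt ℂ g z) (h0 : g z ≠ 0) :
    LS 0 (fun y => Real.log ‖g y‖) z := by
  refine ⟨fun y => g y / g z, hg.div analyticAt_const h0, div_self h0, ?_⟩
  filter_upwards [hg.continuousAt.eventually_ne h0] with y hy
  rw [norm_div, Real.log_div (norm_ne_zero_iff.2 hy) (norm_ne_zero_iff.2 h0)]
  linarith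

theorem LS.neg_log {g : ℂ → ℂ} (hg : AnalyticAt ℂ g z) (h0 : g z ≠ 0) :
    LS 0 (fun y => -Real.log ‖g y‖) z := by
  refine ⟨fun y => g z / g y, analyticAt_const.div hg h0, div_self h0, ?_⟩
  filter_upwards [hg.continuousAt.eventually_ne h0] with y hy
  rw [norm_div, Real.log_div (norm_ne_zero_iff.2 h0) (norm_ne_zero_iff.2 hy)]
  linarith

theorem LS.cmul (h : LS κ w z) {c : ℝ} (hc : 0 ≤ c) : LS (c * κ) (fun y => c * w y) z := by
  obtain ⟨a, ha, ha1, ha2⟩ := h
  refine ⟨fun y => Complex.exp (c * Complex.log (a y)), ?_, by simp [ha1], ?_⟩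
  · have : AnalyticAt ℂ (fun y => Complex.log (a y)) z :=
      ha.clog (by rw [ha1]; exact Complex.one_mem_slitPlane)
    exact (analyticAt_const.mul this).cexp
  · filter_upwards [ha2] with y hy
    have e1 : Real.log ‖Complex.exp (c * Complex.log (a y))‖ = c * Real.log ‖a y‖ := by
      rw [Complex.norm_exp, Real.log_exp, Complex.re_ofReal_mul, Complex.log_re]
    rw [e1]
    have := mul_le_mul_of_nonneg_left hy hc
    nlinarith

/-- functions of the real part -/
theorem LS.ofRe {Q : ℝ → ℝ} {a b : ℝ}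
    (hQ : ∀ᶠ t in 𝓝 z.re, Q z.re + a * (t - z.re) + b * (t - z.re) ^ 2 ≤ Q t) :
    LS (b / 2) (fun y => Q y.re) z := by
  refine ⟨fun y => Complex.exp (a * (y - z) + (b / 2) * (y - z) ^ 2), ?_, by simp, ?_⟩
  · apply AnalyticAt.cexp
    fun_prop
  · have h1 := Complex.continuous_re.continuousAt.eventually hQ
    filter_upwards [h1] with y hy
    have e1 : (a * (y - z) + (b / 2) * (y - z) ^ 2 : ℂ).re =
        a * (y.re - z.re) + b / 2 * ((y.re - z.re) ^ 2 - (y.im - z.im) ^ 2) := by
      simp [pow_two]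
    have e2 : ‖y - z‖ ^ 2 = (y.re - z.re) ^ 2 + (y.im - z.im) ^ 2 := by
      rw [← Complex.normSq_eq_norm_sq, Complex.normSq_apply]
      simp [pow_two]
    rw [Complex.norm_exp, Real.log_exp, e1, e2]
    linarith

/-- the square of the distance -/
theorem LS.nsq (a : ℂ) : LS 1 (fun y => ‖y - a‖ ^ 2) z := by
  refine ⟨fun y => Complex.exp (2 * (starRingEnd ℂ) (z - a) * (y - z)), ?_, by simp, ?_⟩
  · apply AnalyticAt.cexp
    fun_prop
  · refine Eventually.of_forall fun y => ?_
    have e3 : ∀ u : ℂ, ‖u‖ ^ 2 = u.re ^ 2 + u.im ^ 2 := by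
      intro u
      rw [← Complex.normSq_eq_norm_sq, Complex.normSq_apply]
      ring
    rw [Complex.norm_exp, Real.log_exp]
    change _ ≤ ‖y - a‖ ^ 2 - ‖z - a‖ ^ 2
    rw [e3, e3, e3]
    simp
    apply le_of_eq
    ring

/-- the absolute value of the real part -/
theorem LS.absRe : LS 0 (fun y => |y.re|) z := by
  rcases le_total 0 z.re with h | h
  · have h1 := LS.ofRe (z := z) (Q := fun t => |t|) (a := 1) (b := 0) (Eventually.of_forall
      fun t => by
        rw [abs_of_nonneg h]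
        have := le_abs_self t
        linarith)
    simpa using h1
  · have h1 := LS.ofRe (z := z) (Q := fun t => |t|) (a := -1) (b := 0) (Eventually.of_forall
      fun t => by
        rw [abs_of_nonpos h]
        have := neg_abs_le t
        linarith)
    simpa using h1

/-- **The maximum principle.** -/
theorem LS.max {K : Set ℂ} (hK : IsCompact K) (hw : ContinuousOn w K)
    (h : ∀ z ∈ K, w z ≤ 0 ∨ (K ∈ 𝓝 z ∧ LS 0 w z)) : ∀ z ∈ K, w z ≤ 0 := by
  by_contra hcon
  push Not at hcon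
  obtain ⟨z1, hz1, hpos⟩ := hcon
  obtain ⟨z0, hz0, hmax⟩ := hK.exists_isMaxOn ⟨z1, hz1⟩ hw
  have hmax' : ∀ y ∈ K, w y ≤ w z0 := fun y hy => hmax hy
  set M := w z0 with hM
  have hM0 : 0 < M := hpos.trans_le (hmax' z1 hz1)
  set T : Set ℂ := {z | z ∈ K ∧ w z = M} with hT
  have hTo : IsOpen T := by
    rw [isOpen_iff_mem_nhds]
    rintro z ⟨hz, hzM⟩
    rcases h z hz with h1 | ⟨h1, a, ha, ha1, ha2⟩
    · exfalso
      linarith
    · have ea : ∀ᶠ y in 𝓝 z, a y ≠ 0 :=
        ha.continuousAt.eventually_ne (by rw [ha1]; exact one_ne_zero)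
      have h2 : IsLocalMax (norm ∘ a) z := by
        filter_upwards [ha2, ea, h1] with y hy hy0 hyK
        have h3 := hmax' y hyK
        have h4 : Real.log ‖a y‖ ≤ 0 := by
          rw [hzM] at hy
          linarith
        rw [Function.comp_apply, Function.comp_apply, ha1, norm_one]
        exact (Real.log_nonpos_iff (norm_nonneg _)).1 h4
      have h3 := Complex.eventually_eq_of_isLocalMax_norm
        (ha.eventually_analyticAt.mono fun y hy => hy.differentiableAt) h2
      filter_upwards [ha2, h3, h1] with y hy hy1 hyK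
      refine ⟨hyK, le_antisymm (hmax' y hyK) ?_⟩
      rw [hy1, ha1, hzM] at hy
      simp only [norm_one, Real.log_one] at hy
      linarith
  have hTc : IsClosed T := by
    have h1 : IsClosed (K ∩ w ⁻¹' {M}) := hw.preimage_isClosed_of_isClosed hK.isClosed
      isClosed_singleton
    exact h1
  rcases isClopen_iff.1 ⟨hTc, hTo⟩ with h1 | h1
  · have : z0 ∈ T := ⟨hz0, rfl⟩
    rw [h1] at this
    exact this
  · have h2 : IsCompact (univ : Set ℂ) := hK.of_isClosed_subset isClosed_univ (by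
      rw [← h1]
      exact fun z hz => hz.1)
    exact noncompact_univ ℂ h2

/-- The maximum principle for nonnegative functions. -/
theorem LS.max' {K : Set ℂ} (hK : IsCompact K) {u : ℂ → ℝ} (hu : ContinuousOn u K) {M : ℝ}
    (hM : 0 < M)
    (h : ∀ z ∈ K, u z ≤ M ∨ (K ∈ 𝓝 z ∧ LS 0 (fun y => Real.log (u y)) z)) : ∀ z ∈ K, u z ≤ M := by
  have key : ∀ z ∈ K, Real.log (Max.max (u z) M / M) ≤ 0 := by
    refine LS.max (w := fun z => Real.log (Max.max (u z) M / M)) hK ?_ ?_
    · apply ContinuousOn.log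
      · exact ((continuous_fst.max continuous_snd).comp_continuousOn
          (hu.prodMk (continuousOn_const (c := M)))).div_const M
      · intro z _
        exact (div_pos (lt_of_lt_of_le hM (le_max_right _ _)) hM).ne'
    · intro z hz
      by_cases hz' : u z ≤ M
      · left
        rw [max_eq_right hz', div_self hM.ne', Real.log_one]
      · right
        push Not at hz'
        rcases h z hz with h1 | ⟨h1, h2⟩
        · exact absurd h1 (not_le.2 hz')
        · refine ⟨h1, ?_⟩
          have hc : ContinuousAt u z := hu.continuousAt h1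
          refine (h2.subc (Real.log M)).congr ?_
          filter_upwards [hc.eventually (lt_mem_nhds hz')] with y hy
          rw [max_eq_left hy.le, Real.log_div (hM.trans hy).ne' hM.ne']
  intro z hz
  have h1 := key z hz
  have h2 : 0 ≤ Max.max (u z) M / M := div_nonneg (hM.le.trans (le_max_right _ _)) hM.le
  rw [Real.log_nonpos_iff h2, div_le_one hM] at h1
  exact (le_max_left _ _).trans h1

end Pool.Agent.H915
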