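import Pool.Graph.R_seed8.Y190.OP.Bro
import Pool.Agent.H915.TC.MP
import Pool.Agent.H915.TC.Har
import Pool.Agent.H915.TC.Alg

/-!
The logarithm of the norm of the coordinates of a curve in the projective plane.
-/

set_option autoImplicit false

open Filter Topology Metric Set

namespace Pool.Agent.H915

open Pool.Agent.Y190.OP

/-- the sum of the squares -/
noncomputable def sq (u : V) : ℝ := ∑ l, ‖u l‖ ^ 2

/-- the logarithm of the euclidean norm -/
noncomputable def Sf (F : ℂ → V) (z : ℂ) : ℝ := Real.log (sq (F z)) / 2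

theorem sq_nonneg' (u : V) : 0 ≤ sq u := Finset.sum_nonneg fun i _ => by positivity

theorem sq_pos {u : V} (hu : u ≠ 0) : 0 < sq u := by
  obtain ⟨i, hi⟩ := Function.ne_iff.1 hu
  have h1 : 0 < ‖u i‖ := norm_pos_iff.2 hi
  have h2 : ‖u i‖ ^ 2 ≤ sq u := Finset.single_le_sum (f := fun l => ‖u l‖ ^ 2)
    (fun i _ => by positivity) (Finset.mem_univ i)
  have h3 : 0 < ‖u i‖ ^ 2 := by positivity
  linarith

theorem sq_le (u : V) : sq u ≤ 3 * ‖u‖ ^ 2 := by
  unfold sq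
  rw [Fin.sum_univ_three]
  have h : ∀ i, ‖u i‖ ^ 2 ≤ ‖u‖ ^ 2 := fun i => by
    have := norm_le_pi_norm u i
    gcongr
  linarith [h 0, h 1, h 2]

theorem le_sq (u : V) : ‖u‖ ^ 2 ≤ sq u := by
  have h : ‖u‖ ≤ Real.sqrt (sq u) := by
    rw [pi_norm_le_iff_of_nonneg (Real.sqrt_nonneg _)]
    intro i
    apply Real.le_sqrt_of_sq_le
    exact Finset.single_le_sum (f := fun l => ‖u l‖ ^ 2)
      (fun i _ => by positivity) (Finset.mem_univ i)
  have := Real.sq_sqrt (sq_nonneg' u)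
  rw [← this]
  gcongr

theorem nsq_sq (u : V) : nsq u = (sq u : ℂ) := nsq_eq u

theorem log_le_Sf {F : ℂ → V} {z : ℂ} (hF : F z ≠ 0) : Real.log ‖F z‖ ≤ Sf F z := by
  unfold Sf
  have h1 : 0 < ‖F z‖ := norm_pos_iff.2 hF
  have h2 := Real.log_le_log (by positivity) (le_sq (F z))
  rw [Real.log_pow] at h2
  push_cast at h2
  linarith

theorem Sf_le {F : ℂ → V} {z : ℂ} (hF : F z ≠ 0) : Sf F z ≤ Real.log ‖F z‖ + 1 := by
  unfold Sf
  have h1 : 0 < ‖F z‖ := norm_pos_iff.2 hF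
  have h2 := Real.log_le_log (sq_pos hF) (sq_le (F z))
  rw [Real.log_mul (by norm_num) (by positivity), Real.log_pow] at h2
  push_cast at h2
  have h3 : Real.log 3 ≤ 3 - 1 := Real.log_le_sub_one_of_pos (by norm_num)
  linarith

theorem cont_sq : Continuous sq := by
  unfold sq
  fun_prop

theorem cont_Sf {F : ℂ → V} (hc : Continuous F) (h0 : ∀ z, F z ≠ 0) : Continuous (Sf F) := by
  unfold Sf
  apply Continuous.div_const
  exact (cont_sq.comp hc).log fun z => (sq_pos (h0 z)).ne'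

/-- the trace of the product of two projections -/
theorem trace_eq {u v : V} (hu : u ≠ 0) (hv : v ≠ 0) :
    ‖∑ i, u i * (starRingEnd ℂ) (v i)‖ ^ 2 =
      sq u * sq v * (1 - (∑ i, ∑ j, ‖Phi u i j - Phi v i j‖ ^ 2) / 2) := by
  have hu' := sq_pos hu
  have hv' := sq_pos hv
  have hns : ∀ w : ℂ, ((‖w‖ ^ 2 : ℝ) : ℂ) = w * (starRingEnd ℂ) w := by
    intro w
    rw [Complex.mul_conj, Complex.normSq_eq_norm_sq]
  have hPhi : ∀ (w : V) i j, Phi w i j = w i * (starRingEnd ℂ) (w j) / (sq w : ℂ) := by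
    intro w i j
    unfold Phi
    rw [nsq_sq]
  have hconj : ∀ (w : V) i j, (starRingEnd ℂ) (Phi w i j) = (starRingEnd ℂ) (w i) * w j / (sq w : ℂ) := by
    intro w i j
    rw [hPhi, map_div₀, map_mul, Complex.conj_conj, Complex.conj_ofReal]
  have hsq : ∀ w : V, (sq w : ℂ) = ∑ l, w l * (starRingEnd ℂ) (w l) := by
    intro w
    rw [← nsq_sq]
    rfl
  have hc : ((‖∑ i, u i * (starRingEnd ℂ) (v i)‖ ^ 2 : ℝ) : ℂ) =
      ((sq u * sq v * (1 - (∑ i, ∑ j, ‖Phi u i j - Phi v i j‖ ^ 2) / 2) : ℝ) : ℂ) := by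
    rw [hns]
    push_cast
    have e1 : ∀ i j, ((‖Phi u i j - Phi v i j‖ : ℂ)) ^ 2 =
        (Phi u i j - Phi v i j) * (starRingEnd ℂ) (Phi u i j - Phi v i j) := by
      intro i j
      rw [← hns]
      push_cast
      rfl
    simp only [e1, map_sub, hconj]
    simp only [hPhi]
    have hu0 : (sq u : ℂ) ≠ 0 := by exact_mod_cast hu'.ne'
    have hv0 : (sq v : ℂ) ≠ 0 := by exact_mod_cast hv'.ne'
    have hsu := hsq u
    have hsv := hsq v
    simp only [map_sum, map_mul, Complex.conj_conj]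
    rw [Fin.sum_univ_three] at hsu hsv
    simp only [Fin.sum_univ_three]
    set a := (sq u : ℂ)
    set b := (sq v : ℂ)
    field_simp
    generalize (starRingEnd ℂ) (u 0) = cu0 at *
    generalize (starRingEnd ℂ) (u 1) = cu1 at *
    generalize (starRingEnd ℂ) (u 2) = cu2 at *
    generalize (starRingEnd ℂ) (v 0) = cv0 at *
    generalize (starRingEnd ℂ) (v 1) = cv1 at *
    generalize (starRingEnd ℂ) (v 2) = cv2 at *
    rw [hsu, hsv]
    ring
  exact_mod_cast hc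

/-- the logarithm of the norm has holomorphic support functions up to a quadratic term -/
theorem LS_negS {F : ℂ → V} {z : ℂ} (hF : AnalyticAt ℂ F z) (h0 : ∀ᶠ y in 𝓝 z, F y ≠ 0) {M : ℝ}
    (hM : ∀ᶠ y in 𝓝 z, ‖Phi (F y) - Phi (F z)‖ ≤ M * ‖y - z‖) :
    LS (-(9 / 2 * M ^ 2)) (fun y => -Sf F y) z := by
  have hz0 : F z ≠ 0 := h0.self_of_nhds
  set H : ℂ → ℂ := fun y => ∑ i, F y i * (starRingEnd ℂ) (F z i) with hH
  have hFi : ∀ i, AnalyticAt ℂ (fun y => F y i) z := fun i => (analyticAt_pi_iff.1 hF) i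
  have hHa : AnalyticAt ℂ H z := by
    rw [hH]
    apply Finset.analyticAt_fun_sum
    intro i _
    exact (hFi i).mul analyticAt_const
  have hHz : H z = (sq (F z) : ℂ) := by
    rw [← nsq_sq]
    rfl
  have hHz0 : H z ≠ 0 := by
    rw [hHz]
    exact_mod_cast (sq_pos hz0).ne'
  have hHzn : ‖H z‖ = sq (F z) := by
    rw [hHz, Complex.norm_real, Real.norm_of_nonneg (sq_nonneg' _)]
  refine ⟨fun y => H z / H y, analyticAt_const.div hHa hHz0, div_self hHz0, ?_⟩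
  have hsmall : ∀ᶠ y in 𝓝 z, 9 / 2 * (M * ‖y - z‖) ^ 2 < 1 / 2 := by
    have c1 : Continuous fun y : ℂ => 9 / 2 * (M * ‖y - z‖) ^ 2 := by fun_prop
    have h1 := c1.tendsto z
    simp only [sub_self, norm_zero, mul_zero, ne_eq, OfNat.ofNat_ne_zero, not_false_eq_true,
      zero_pow] at h1
    exact h1.eventually (gt_mem_nhds (by norm_num))
  filter_upwards [h0, hM, hsmall, hHa.continuousAt.eventually_ne hHz0] with y hy hyM hys hyH
  have h1 := trace_eq hy hz0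
  have h2 : (∑ i, ∑ j, ‖Phi (F y) i j - Phi (F z) i j‖ ^ 2) / 2 ≤ 9 / 2 * (M * ‖y - z‖) ^ 2 := by
    have h3 : ∀ i j, ‖Phi (F y) i j - Phi (F z) i j‖ ^ 2 ≤ (M * ‖y - z‖) ^ 2 := by
      intro i j
      have h4 : ‖Phi (F y) i j - Phi (F z) i j‖ ≤ M * ‖y - z‖ := by
        refine le_trans ?_ hyM
        exact (norm_le_pi_norm (Phi (F y) i - Phi (F z) i) j).trans
          (norm_le_pi_norm (Phi (F y) - Phi (F z)) i)
      gcongr
    simp only [Fin.sum_univ_three]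
    linarith [h3 0 0, h3 0 1, h3 0 2, h3 1 0, h3 1 1, h3 1 2, h3 2 0, h3 2 1, h3 2 2]
  set t := (∑ i, ∑ j, ‖Phi (F y) i j - Phi (F z) i j‖ ^ 2) / 2 with ht
  have ht0 : 0 ≤ t := by
    rw [ht]
    positivity
  have ht1 : t < 1 / 2 := h2.trans_lt hys
  have hsy := sq_pos hy
  have hsz := sq_pos hz0
  have hHy : 0 < ‖H y‖ := norm_pos_iff.2 hyH
  have h5 : 2 * Real.log ‖H y‖ = Real.log (sq (F y)) + Real.log (sq (F z)) + Real.log (1 - t) := by
    have h6 : Real.log (‖H y‖ ^ 2) = Real.log (sq (F y) * sq (F z) * (1 - t)) := by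
      rw [← h1]
    rw [Real.log_pow, Real.log_mul (by positivity) (by linarith), Real.log_mul hsy.ne' hsz.ne'] at h6
    push_cast at h6
    exact h6
  have h7 : -(2 * t) ≤ Real.log (1 - t) := by
    have h8 := Real.one_sub_inv_le_log_of_pos (x := 1 - t) (by linarith)
    have h9 : -(2 * t) ≤ 1 - (1 - t)⁻¹ := by
      have h10 : (1 - t)⁻¹ ≤ 1 + 2 * t := by
        rw [inv_le_comm₀ (by linarith) (by linarith)]
        rw [inv_le_iff_one_le_mul₀ (by linarith)]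
        nlinarith
      linarith
    linarith
  rw [norm_div, Real.log_div (norm_ne_zero_iff.2 hHz0) hHy.ne', hHzn]
  unfold Sf
  have h11 : (M * ‖y - z‖) ^ 2 = M ^ 2 * ‖y - z‖ ^ 2 := by ring
  rw [h11] at h2
  nlinarith

/-- **The minimum principle** for the logarithm of the norm -/
theorem S_ge {F : ℂ → V} (hF : Differentiable ℂ F) (h0 : ∀ z, F z ≠ 0) {K : Set ℂ}
    (hK : IsCompact K) {Ψ : ℂ → ℝ} (hΨ : ContinuousOn Ψ K)
    (h : ∀ z ∈ K, Ψ z ≤ Sf F z ∨ (K ∈ 𝓝 z ∧ ∃ M κ : ℝ, 9 / 2 * M ^ 2 ≤ κ ∧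
      (∀ᶠ y in 𝓝 z, ‖Phi (F y) - Phi (F z)‖ ≤ M * ‖y - z‖) ∧ LS κ Ψ z)) :
    ∀ z ∈ K, Ψ z ≤ Sf F z := by
  have h1 : ∀ z ∈ K, Ψ z + -Sf F z ≤ 0 := by
    refine LS.max (w := fun z => Ψ z + -Sf F z) hK
      (hΨ.add (cont_Sf hF.continuous h0).neg.continuousOn) fun z hz => ?_
    rcases h z hz with h2 | ⟨h2, M, κ, h3, h4, h5⟩
    · left
      linarith
    · right
      refine ⟨h2, ?_⟩
      have h6 := h5.add (LS_negS (hF.analyticAt z) (Eventually.of_forall h0) h4)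
      exact h6.mono (by linarith)
  intro z hz
  linarith [h1 z hz]

/-- the diagonal entries -/
theorem Phi_diag (u : V) (j : Fin 3) : Phi u j j = ((‖u j‖ ^ 2 / sq u : ℝ) : ℂ) := by
  unfold Phi
  rw [nsq_sq, Complex.mul_conj, Complex.normSq_eq_norm_sq]
  push_cast
  rfl

/-- if the curve is nearly constant then one of the coordinates dominates -/
theorem loc_log {F : ℂ → V} {K : Set ℂ} {z : ℂ} (h0 : ∀ y ∈ K, F y ≠ 0) (hz : z ∈ K)
    (h : ∀ y ∈ K, ‖Phi (F y) - Phi (F z)‖ ≤ 1 / 6) :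
    ∃ j, ∀ y ∈ K, F y j ≠ 0 ∧ Sf F y ≤ Real.log ‖F y j‖ + 1 ∧ Real.log ‖F y j‖ ≤ Sf F y := by
  -- the largest coordinate at `z`
  have hz0 := sq_pos (h0 z hz)
  have hj : ∃ j, sq (F z) / 3 ≤ ‖F z j‖ ^ 2 := by
    by_contra hcon
    push Not at hcon
    have h1 := hcon 0
    have h2 := hcon 1
    have h3 := hcon 2
    have h4 : sq (F z) = ‖F z 0‖ ^ 2 + ‖F z 1‖ ^ 2 + ‖F z 2‖ ^ 2 := Fin.sum_univ_three _
    linarith
  obtain ⟨j, hj⟩ := hj
  refine ⟨j, fun y hy => ?_⟩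
  have hy0 := sq_pos (h0 y hy)
  have h1 : ‖Phi (F y) j j - Phi (F z) j j‖ ≤ 1 / 6 :=
    ((norm_le_pi_norm (Phi (F y) j - Phi (F z) j) j).trans
      (norm_le_pi_norm (Phi (F y) - Phi (F z)) j)).trans (h y hy)
  rw [Phi_diag, Phi_diag, ← Complex.ofReal_sub, Complex.norm_real, Real.norm_eq_abs, abs_le] at h1
  have h2 : 1 / 3 ≤ ‖F z j‖ ^ 2 / sq (F z) := by
    rw [le_div_iff₀ hz0]
    linarith
  have h3 : 1 / 6 ≤ ‖F y j‖ ^ 2 / sq (F y) := by linarith [h1.1]
  rw [le_div_iff₀ hy0] at h3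
  have h4 : F y j ≠ 0 := by
    intro h5
    rw [h5, norm_zero] at h3
    linarith
  have h5 : 0 < ‖F y j‖ := norm_pos_iff.2 h4
  refine ⟨h4, ?_, ?_⟩
  · unfold Sf
    have h6 : Real.log (sq (F y)) ≤ Real.log (6 * ‖F y j‖ ^ 2) :=
      Real.log_le_log hy0 (by linarith)
    rw [Real.log_mul (by norm_num) (by positivity), Real.log_pow] at h6
    push_cast at h6
    have h7 : Real.log 6 ≤ 2 := by
      have h8 : Real.log 6 = 2 * Real.log (Real.sqrt 6) := by
        rw [Real.log_sqrt (by norm_num)]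
        ring
      have h9 : Real.log (Real.sqrt 6) ≤ 1 := by
        have h10 : Real.sqrt 6 ≤ Real.exp 1 := by
          have h11 := Real.exp_one_gt_d9
          have h12 : Real.sqrt 6 ≤ 2.5 := by
            rw [Real.sqrt_le_left (by norm_num)]
            norm_num
          linarith
        rw [Real.log_le_iff_le_exp (Real.sqrt_pos.2 (by norm_num))]
        exact h10
      linarith
    linarith
  · unfold Sf
    have h6 : ‖F y j‖ ^ 2 ≤ sq (F y) := Finset.single_le_sum (f := fun l => ‖F y l‖ ^ 2)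
      (fun i _ => by positivity) (Finset.mem_univ j)
    have h7 := Real.log_le_log (by positivity) h6
    rw [Real.log_pow] at h7
    push_cast at h7
    linarith

end Pool.Agent.H915
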