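import Pool.Graph.R_pool_sql_team_seeded_63374d34.N155.Catch
import Pool.Agent.H915.TC.Sf
import Pool.Agent.H915.TC.Cpt

/-!
Limits of sequences of curves in the projective plane, and Hurwitz's theorem for forms.
-/

set_option autoImplicit false

open Filter Topology Metric Set MvPolynomial

namespace Pool.Agent.H915

open Pool.Agent.Y190.OP

theorem PM_compact : IsCompact (PM : Set (Mat 3)) := by
  have h : (PM : Set (Mat 3)) = Phi '' Sph := by
    ext M
    constructor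
    · rintro ⟨u, hu, rfl⟩
      refine ⟨unit u, unit_mem hu, ?_⟩
      have h1 : ((‖u‖ : ℂ)⁻¹) ≠ 0 := by
        have : (‖u‖ : ℂ) ≠ 0 := by exact_mod_cast norm_ne_zero_iff.2 hu
        exact inv_ne_zero this
      exact Phi_smul h1 u
    · rintro ⟨u, hu, rfl⟩
      exact ⟨u, Sph_ne hu, rfl⟩
  rw [h]
  exact isCompact_Sph.image_of_continuousOn fun u hu =>
    (continuousAt_Phi (Sph_ne hu)).continuousWithinAt

/-- limits of sequences of curves -/
theorem nf_limit {l : Ultrafilter ℕ} {U : Set ℂ} (hU : IsOpen U) {h : ℕ → ℂ → Mat 3}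
    (hh : ∀ z ∈ U, ∃ r M : ℝ, 0 < r ∧ ∀ᶠ n in (l : Filter ℕ),
      HolP (ball z r) (h n) ∧ ∀ w ∈ ball z r, ‖fderiv ℝ (h n) w‖ ≤ M) :
    ∃ H : ℂ → Mat 3, CConv (l : Filter ℕ) U h H ∧ HolP U H ∧
      ∀ z ∈ U, Tendsto (fun n => fderiv ℝ (h n) z) l (𝓝 (fderiv ℝ H z)) := by
  have hlim' : ∀ z : ℂ, ∃ y : Mat 3, z ∈ U → y ∈ (PM : Set (Mat 3)) ∧
      Tendsto (fun n => h n z) l (𝓝 y) := by
    intro z
    by_cases hz : z ∈ U
    · obtain ⟨r, M, hr, hn⟩ := hh z hz
      have h1 : (l.map (fun n => h n z) : Filter (Mat 3)) ≤ 𝓟 (PM : Set (Mat 3)) := by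
        rw [Ultrafilter.coe_map, le_principal_iff, mem_map]
        filter_upwards [hn] with n hn
        exact hn.1.mem_PM (mem_ball_self hr)
      obtain ⟨y, hy, hy'⟩ := PM_compact.ultrafilter_le_nhds (l.map (fun n => h n z)) h1
      exact ⟨y, fun _ => ⟨hy, hy'⟩⟩
    · exact ⟨0, fun h => absurd h hz⟩
  choose H hH using hlim'
  have hCC : CConv (l : Filter ℕ) U h H := by
    intro z hz
    obtain ⟨r, M, hr, hn⟩ := hh z hz
    rw [Metric.tendsto_nhds]
    intro ε hε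
    have h2 := Metric.tendsto_nhds.1 (hH z hz).2 (ε / 2) (by positivity)
    rw [eventually_prod_iff]
    refine ⟨_, h2.and hn, fun w => w ∈ ball z r ∧ M * ‖w - z‖ < ε / 2, ?_, ?_⟩
    · have h4 : ∀ᶠ w in 𝓝 z, w ∈ ball z r := isOpen_ball.mem_nhds (mem_ball_self hr)
      have h5 : Tendsto (fun w => M * ‖w - z‖) (𝓝 z) (𝓝 0) := by
        have : Continuous fun w : ℂ => M * ‖w - z‖ := by fun_prop
        have h6 := this.tendsto z
        simpa using h6
      exact h4.and (h5.eventually_lt_const (by positivity))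
    · rintro n ⟨hn1, hn2, hn3⟩ w ⟨hw1, hw2⟩
      have h6 : ‖h n w - h n z‖ ≤ M * ‖w - z‖ :=
        (convex_ball z r).norm_image_sub_le_of_norm_fderiv_le
          (fun x hx => hn2.differentiableAt hx)
          (fun x hx => hn3 x hx) (mem_ball_self hr) hw1
      calc dist (h n w) (H z) ≤ dist (h n w) (h n z) + dist (h n z) (H z) := dist_triangle _ _ _
        _ < ε / 2 + ε / 2 := by
            refine add_lt_add ?_ hn1
            rw [dist_eq_norm]
            exact h6.trans_lt hw2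
        _ = ε := by ring
  have hball : ∀ z ∈ U, ∃ r : ℝ, 0 < r ∧ ball z r ⊆ U ∧ HolP (ball z r) H ∧
      Tendsto (fun n => fderiv ℝ (h n) z) l (𝓝 (fderiv ℝ H z)) := by
    intro z hz
    obtain ⟨r, M, hr, hn⟩ := hh z hz
    obtain ⟨r1, hr1, hr1U⟩ := Metric.isOpen_iff.1 hU z hz
    set r2 := min r r1 with hr2
    have hr2pos : 0 < r2 := by positivity
    have hb1 : ball z r2 ⊆ ball z r := ball_subset_ball (min_le_left _ _)
    have hb2 : ball z r2 ⊆ U := (ball_subset_ball (min_le_right _ _)).trans hr1U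
    have h1 : CConv (l : Filter ℕ) (ball z r2) h H := fun w hw => hCC w (hb2 hw)
    obtain ⟨h5, h6⟩ := holP_limit isOpen_ball h1 (hn.mono fun n hn => hn.1.mono hb1)
      (fun w hw => (hH w (hb2 hw)).1)
    exact ⟨r2, hr2pos, hb2, h5, h6 z (mem_ball_self hr2pos)⟩
  refine ⟨H, hCC, ?_, ?_⟩
  · intro z hz
    obtain ⟨r, hr, -, h1, -⟩ := hball z hz
    exact h1 z (mem_ball_self hr)
  · intro z hz
    obtain ⟨r, hr, -, -, h1⟩ := hball z hz
    exact h1

/-- the values of a form at the columns of a matrix -/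
noncomputable def pe (P : Poly) (M : Mat 3) : V := fun i => eval (fun j => M j i) P

theorem cont_pe (P : Poly) : Continuous (pe P) := by
  unfold pe
  apply continuous_pi
  intro i
  exact (cont_eval P).comp (continuous_pi fun j => continuous_apply_apply j i)

theorem pe_Phi {P : Poly} {d : ℕ} (hP : P.IsHomogeneous d) (u : V) (i : Fin 3) :
    pe P (Phi u) i = ((starRingEnd ℂ) (u i) / nsq u) ^ d * eval u P := by
  have h : (fun j => Phi u j i) = ((starRingEnd ℂ) (u i) / nsq u) • u := by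
    funext j
    unfold Phi
    rw [Pi.smul_apply, smul_eq_mul]
    ring
  unfold pe
  rw [h]
  exact eval_smul' hP _ _

theorem norm_pe_Phi {P : Poly} {d : ℕ} (hP : P.IsHomogeneous d) (u : V) (i : Fin 3) :
    ‖pe P (Phi u) i‖ = (‖u i‖ / sq u) ^ d * ‖eval u P‖ := by
  rw [pe_Phi hP, norm_mul, norm_pow, norm_div, Complex.norm_conj, nsq_sq, Complex.norm_real,
    Real.norm_of_nonneg (sq_nonneg' u)]

theorem exists_norm_eq (u : V) : ∃ i, ‖u i‖ = ‖u‖ := by
  obtain ⟨i, hi⟩ := exists_eq_ciSup_of_finite (f := fun i => ‖u i‖)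
  refine ⟨i, le_antisymm (norm_le_pi_norm u i) ?_⟩
  rw [pi_norm_le_iff_of_nonneg (norm_nonneg _)]
  intro j
  rw [hi]
  exact le_ciSup (Finite.bddAbove_range fun i => ‖u i‖) j

/-- comparison of the two ways to measure the distance to a curve -/
theorem pe_le {P : Poly} {d : ℕ} (hP : P.IsHomogeneous d) {u : V} (hu : u ≠ 0) :
    ‖pe P (Phi u)‖ * ‖u‖ ^ d ≤ ‖eval u P‖ := by
  have hu0 : 0 < ‖u‖ := norm_pos_iff.2 hu
  have hs := le_sq u
  have hsp := sq_pos hu
  have h : ‖pe P (Phi u)‖ ≤ ‖eval u P‖ / ‖u‖ ^ d := by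
    rw [pi_norm_le_iff_of_nonneg (by positivity)]
    intro i
    have h2 : (‖u i‖ / sq u) ^ d ≤ (1 / ‖u‖) ^ d := by
      apply pow_le_pow_left₀ (by positivity)
      rw [div_le_div_iff₀ hsp hu0]
      have := norm_le_pi_norm u i
      nlinarith
    rw [norm_pe_Phi hP]
    calc (‖u i‖ / sq u) ^ d * ‖eval u P‖ ≤ (1 / ‖u‖) ^ d * ‖eval u P‖ :=
          mul_le_mul_of_nonneg_right h2 (norm_nonneg _)
      _ = ‖eval u P‖ / ‖u‖ ^ d := by
          rw [one_div, inv_pow]
          ring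
  rwa [le_div_iff₀ (by positivity)] at h

theorem le_pe {P : Poly} {d : ℕ} (hP : P.IsHomogeneous d) {u : V} (hu : u ≠ 0) :
    ‖eval u P‖ ≤ 3 ^ d * ‖pe P (Phi u)‖ * ‖u‖ ^ d := by
  have hu0 : 0 < ‖u‖ := norm_pos_iff.2 hu
  have hs := sq_le u
  have hsp := sq_pos hu
  obtain ⟨i, hi⟩ := exists_norm_eq u
  have h1 := norm_le_pi_norm (pe P (Phi u)) i
  rw [norm_pe_Phi hP, hi] at h1
  have h2 : (1 / (3 * ‖u‖)) ^ d ≤ (‖u‖ / sq u) ^ d := by
    apply pow_le_pow_left₀ (by positivity)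
    rw [div_le_div_iff₀ (by positivity) hsp]
    linarith
  have h3 : (1 / (3 * ‖u‖)) ^ d * ‖eval u P‖ ≤ ‖pe P (Phi u)‖ :=
    (mul_le_mul_of_nonneg_right h2 (norm_nonneg _)).trans h1
  rw [one_div, inv_pow, mul_pow, ← div_eq_inv_mul, div_le_iff₀ (by positivity)] at h3
  linarith

theorem pe_eq_zero {P : Poly} {d : ℕ} (hP : P.IsHomogeneous d) {u : V} (hu : u ≠ 0) :
    pe P (Phi u) = 0 ↔ eval u P = 0 := by
  constructor
  · intro h
    have h1 := le_pe hP hu
    rw [h, norm_zero, mul_zero, zero_mul] at h1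
    exact norm_le_zero_iff.1 h1
  · intro h
    have h1 := pe_le hP hu
    have hu0 : 0 < ‖u‖ := norm_pos_iff.2 hu
    rw [h, norm_zero] at h1
    have h2 : ‖pe P (Phi u)‖ ≤ 0 := by
      by_contra hcon
      push Not at hcon
      have : 0 < ‖pe P (Phi u)‖ * ‖u‖ ^ d := by positivity
      linarith
    exact norm_le_zero_iff.1 h2

/-- **Hurwitz's theorem** for forms -/
theorem dich {P : Poly} {d : ℕ} (hP : P.IsHomogeneous d) {l : Ultrafilter ℕ} {U : Set ℂ}
    (hU : IsOpen U) (hUc : IsPreconnected U) {h : ℕ → ℂ → Mat 3} {H : ℂ → Mat 3}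
    (hh : ∀ z ∈ U, ∃ r : ℝ, 0 < r ∧ ∀ᶠ n in (l : Filter ℕ),
      HolP (ball z r) (h n) ∧ ∀ w ∈ ball z r, pe P (h n w) ≠ 0)
    (hc : CConv (l : Filter ℕ) U h H) (hH : HolP U H) :
    (∀ z ∈ U, pe P (H z) = 0) ∨ ∀ z ∈ U, pe P (H z) ≠ 0 := by
  have hcont : ContinuousOn (fun z => pe P (H z)) U := fun z hz =>
    ((cont_pe P).continuousAt.comp (hH.continuousAt hz)).continuousWithinAt
  have hBo : IsOpen (U ∩ (fun z => pe P (H z)) ⁻¹' {0}ᶜ) :=
    hcont.isOpen_inter_preimage hU isOpen_compl_singleton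
  have hAo : IsOpen (U ∩ (fun z => pe P (H z)) ⁻¹' {0}) := by
    rw [isOpen_iff_mem_nhds]
    rintro z0 ⟨hz0, hz0'⟩
    have hz0'' : pe P (H z0) = 0 := hz0'
    obtain ⟨r, hr, hn⟩ := hh z0 hz0
    obtain ⟨i, hi⟩ := PM.exists_diag (hH.mem_PM hz0)
    have h2 : ∀ᶠ M : Mat 3 in 𝓝 (H z0), M i i ≠ 0 :=
      (continuous_apply_apply i i).continuousAt.eventually_ne hi
    have h3 := (hc z0 hz0).eventually h2
    rw [eventually_prod_iff] at h3
    obtain ⟨pa, hpa, pb, hpb, hab⟩ := h3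
    obtain ⟨ρ, hρ, hρs⟩ := Metric.mem_nhds_iff.1 ((hpb.and (((hH.continuousAt hz0).eventually h2).and
      (hU.mem_nhds hz0))).and (ball_mem_nhds z0 hr))
    set f : ℂ → ℂ := fun t => eval (chart i (H t)) P with hf
    set g : ℕ → ℂ → ℂ := fun k t => eval (chart i (h k t)) P with hg
    have hev : Differentiable ℂ (fun u : V => eval u P) := by
      intro u
      simp only [eval_eq']
      fun_prop
    -- zeros
    have hz : ∀ M : Mat 3, M ∈ PM → M i i ≠ 0 → (eval (chart i M) P = 0 ↔ pe P M = 0) := by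
      intro M hM hMi
      rw [← pe_eq_zero hP (PM.chart_ne hMi), PM.Phi_chart hM hMi]
    have hfd : DifferentiableOn ℂ f (ball z0 ρ) := fun t ht =>
      ((hev _).comp t (hH.diff_chart (hρs ht).1.2.2 (hρs ht).1.2.1)).differentiableWithinAt
    have hgc : CConv (l : Filter ℕ) (ball z0 ρ) g f := by
      intro t ht
      have e1 : ContinuousAt (fun M : Mat 3 => eval (chart i M) P) (H t) :=
        (hev _).continuousAt.comp (continuousAt_chart (hρs ht).1.2.1)
      exact e1.tendsto.comp (hc t (hρs ht).1.2.2)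
    have hgd : ∀ᶠ k in (l : Filter ℕ), DifferentiableOn ℂ (g k) (ball z0 ρ) := by
      filter_upwards [hn, hpa] with k hk hka t ht
      exact ((hev _).comp t (hk.1.diff_chart (hρs ht).2
        (hab hka (hρs ht).1.1))).differentiableWithinAt
    have hfz : f z0 = 0 := (hz _ (hH.mem_PM hz0) hi).2 hz0''
    have hfan : AnalyticAt ℂ f z0 := hfd.analyticAt (ball_mem_nhds z0 hρ)
    have hf0 : ∀ᶠ t in 𝓝 z0, f t = 0 := by
      rcases hfan.eventually_eq_zero_or_eventually_ne_zero with h4 | h4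
      · exact h4
      · exfalso
        have h5 := Pool.Agent.N155.hurwitz isOpen_ball hgc hgd (mem_ball_self hρ) hfz h4 hρ
        obtain ⟨k, ⟨w, hw, hw0⟩, hka, hk⟩ := (h5.and (hpa.and hn)).exists
        have hwi := hab hka (hρs hw).1.1
        exact hk.2 w (hρs hw).2 ((hz _ (hk.1.mem_PM (hρs hw).2) hwi).1 hw0)
    filter_upwards [hf0, ball_mem_nhds z0 hρ] with t ht htρ
    exact ⟨(hρs htρ).1.2.2, (hz _ (hH.mem_PM (hρs htρ).1.2.2) (hρs htρ).1.2.1).1 ht⟩
  rcases hUc.subset_or_subset hAo hBo (by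
      rw [disjoint_left]
      rintro z ⟨-, h1⟩ ⟨-, h2⟩
      exact h2 h1) (by
      intro z hz
      by_cases h1 : pe P (H z) = 0
      · exact Or.inl ⟨hz, h1⟩
      · exact Or.inr ⟨hz, h1⟩) with h1 | h1
  · left
    intro z hz
    exact (h1 hz).2
  · right
    intro z hz
    exact (h1 hz).2

end Pool.Agent.H915
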