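import Pool.Agent.H915.TC.Cpt
import Pool.Agent.H915.TC.MP

/-!
Rigidity: two curves with the same values of the two forms which are near to each other in a large
disc are equal.
-/

set_option autoImplicit false

open Filter Topology Metric Set MvPolynomial

namespace Pool.Agent.H915

/-- the weight -/
noncomputable def W (a b : ℝ) (z : ℂ) : ℝ := Real.exp (a * z.re + b * |z.re|)

theorem W_pos (a b : ℝ) (z : ℂ) : 0 < W a b z := Real.exp_pos _

theorem cont_W (a b : ℝ) : Continuous (W a b) := by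
  unfold W
  fun_prop

/-- curves of exact exponential growth -/
structure Crv (P1 P2 : Poly) (e : ℕ) (c1 c C a b : ℝ) (F : ℂ → V) : Prop where
  dif : Differentiable ℂ F
  v1 : ∀ z, eval (F z) P1 = 1
  v2 : ∀ z, eval (F z) P2 = Complex.exp z
  low : ∀ z, c * W a b z ≤ ‖F z‖
  up : ∀ z, ‖F z‖ ≤ C * W a b z
  nvl : ∀ z, c1 * ‖F z‖ ^ e ≤ ‖nv P1 P2 (F z)‖

variable {P1 P2 : Poly} {e m : ℕ} {c1 c C a b ε0 C0 : ℝ} {F G : ℂ → V} {nn : V → V → V}

theorem Crv.shift (h : Crv P1 P2 e c1 c C a b F) (n : ℤ) :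
    Crv P1 P2 e c1 c C a b (fun z => F (z + n * (2 * Real.pi * Complex.I))) := by
  have hW : ∀ z : ℂ, W a b (z + n * (2 * Real.pi * Complex.I)) = W a b z := by
    intro z
    unfold W
    simp
  refine ⟨h.dif.comp (by fun_prop), fun z => h.v1 _, fun z => ?_, fun z => ?_, fun z => ?_,
    fun z => h.nvl _⟩
  · rw [h.v2]
    rw [Complex.exp_eq_exp_iff_exists_int]
    exact ⟨n, rfl⟩
  · rw [← hW z]
    exact h.low _
  · rw [← hW z]
    exact h.up _

/-- the setting -/
structure RS (P1 P2 : Poly) (m : ℕ) (c1 c C a b ε0 C0 : ℝ) (nn : V → V → V) (F G : ℂ → V) :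
    Prop where
  F : Crv P1 P2 (m + 1) c1 c C a b F
  G : Crv P1 P2 (m + 1) c1 c C a b G
  c1p : 0 < c1
  cp : 0 < c
  bp : 0 < b
  ep : 0 < ε0
  e1 : ε0 ≤ 1
  C0p : 0 < C0
  an : ∀ (z : ℂ) (F G : ℂ → V), AnalyticAt ℂ F z → AnalyticAt ℂ G z →
      AnalyticAt ℂ (fun w => nn (F w) (G w)) z
  par : ∀ x y : V, eval y P1 = eval x P1 → eval y P2 = eval x P2 → ∀ i j,
      (y - x) i * nn x y j = (y - x) j * nn x y i
  est : ∀ x y : V, x ≠ 0 → ‖y - x‖ ≤ ε0 * ‖x‖ → c1 * ‖x‖ ^ (m + 1) ≤ ‖nv P1 P2 x‖ →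
      c1 / 2 * ‖x‖ ^ (m + 1) ≤ ‖nn x y‖ ∧ ‖nn x y‖ ≤ C0 * ‖x‖ ^ (m + 1)

/-- the function which measures the distance -/
noncomputable def u0 (m : ℕ) (a b : ℝ) (nn : V → V → V) (F G : ℂ → V) (z : ℂ) : ℝ :=
  ‖G z - F z‖ / ‖nn (F z) (G z)‖ * W a b z ^ m

variable (h : RS P1 P2 m c1 c C a b ε0 C0 nn F G)

include h

theorem RS.Fpos (z : ℂ) : 0 < ‖F z‖ :=
  lt_of_lt_of_le (mul_pos h.cp (W_pos a b z)) (h.F.low z)

theorem RS.Cp : 0 < C := by
  have h1 := (h.Fpos 0).trans_le (h.F.up 0)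
  exact (pos_iff_pos_of_mul_pos h1).2 (W_pos a b 0)

theorem RS.nn_pos {z : ℂ} (hz : ‖G z - F z‖ ≤ ε0 * ‖F z‖) : 0 < ‖nn (F z) (G z)‖ := by
  have h1 := (h.est (F z) (G z) (norm_pos_iff.1 (h.Fpos z)) hz (h.F.nvl z)).1
  exact lt_of_lt_of_le (mul_pos (half_pos h.c1p) (pow_pos (h.Fpos z) _)) h1

theorem RS.u0_le {z : ℂ} (hz : ‖G z - F z‖ ≤ ε0 * ‖F z‖) :
    u0 m a b nn F G z ≤ 2 * ε0 / (c1 * c ^ m) := by
  have hF := h.Fpos z
  have hW := W_pos a b z
  have hc1 := h.c1p
  have hc := h.cp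
  have h1 := (h.est (F z) (G z) (norm_pos_iff.1 hF) hz (h.F.nvl z)).1
  have h2 := h.nn_pos hz
  unfold u0
  rw [div_mul_eq_mul_div, div_le_div_iff₀ h2 (by positivity)]
  have h3 : (c * W a b z) ^ m ≤ ‖F z‖ ^ m := pow_le_pow_left₀ (by positivity) (h.F.low z) m
  have h4 : c1 / 2 * ((c * W a b z) ^ m * ‖F z‖) ≤ ‖nn (F z) (G z)‖ := by
    refine le_trans ?_ h1
    rw [pow_succ]
    gcongr
  calc ‖G z - F z‖ * W a b z ^ m * (c1 * c ^ m)
      ≤ (ε0 * ‖F z‖) * W a b z ^ m * (c1 * c ^ m) := by gcongr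
    _ = 2 * ε0 * (c1 / 2 * ((c * W a b z) ^ m * ‖F z‖)) := by rw [mul_pow]; ring
    _ ≤ 2 * ε0 * ‖nn (F z) (G z)‖ := by
        have := h.ep
        gcongr

theorem RS.le_u0 {z : ℂ} (hz : ‖G z - F z‖ ≤ ε0 * ‖F z‖) :
    ‖G z - F z‖ / ‖F z‖ / (C0 * C ^ m) ≤ u0 m a b nn F G z := by
  have hF := h.Fpos z
  have hW := W_pos a b z
  have hC := h.Cp
  have hC0 := h.C0p
  have h1 := (h.est (F z) (G z) (norm_pos_iff.1 hF) hz (h.F.nvl z)).2
  have h2 := h.nn_pos hz
  unfold u0
  rw [div_div, div_mul_eq_mul_div, div_le_div_iff₀ (by positivity) h2]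
  have h3 : ‖F z‖ ^ m ≤ (C * W a b z) ^ m := pow_le_pow_left₀ hF.le (h.F.up z) m
  have h4 : ‖nn (F z) (G z)‖ ≤ C0 * ((C * W a b z) ^ m * ‖F z‖) := by
    refine h1.trans ?_
    rw [pow_succ]
    gcongr
  calc ‖G z - F z‖ * ‖nn (F z) (G z)‖ ≤ ‖G z - F z‖ * (C0 * ((C * W a b z) ^ m * ‖F z‖)) := by
        gcongr
    _ = ‖G z - F z‖ * W a b z ^ m * (‖F z‖ * (C0 * C ^ m)) := by rw [mul_pow]; ring

theorem RS.loc {z : ℂ} (hne : G z ≠ F z) (hz : ‖G z - F z‖ ≤ ε0 * ‖F z‖) :
    LS 0 (fun y => Real.log (‖G y - F y‖ / ‖nn (F y) (G y)‖)) z ∧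
      ∀ᶠ y in 𝓝 z, 0 < ‖G y - F y‖ / ‖nn (F y) (G y)‖ := by
  have hnn := norm_pos_iff.1 (h.nn_pos hz)
  have hFa : AnalyticAt ℂ F z := h.F.dif.analyticAt z
  have hGa : AnalyticAt ℂ G z := h.G.dif.analyticAt z
  have hna := h.an z F G hFa hGa
  obtain ⟨j, hj⟩ := Function.ne_iff.1 hnn
  have hj' : nn (F z) (G z) j ≠ 0 := hj
  have hnaj : AnalyticAt ℂ (fun w => nn (F w) (G w) j) z := (analyticAt_pi_iff.1 hna) j
  have hdj : AnalyticAt ℂ (fun w => (G w - F w) j) z := by
    have := (analyticAt_pi_iff.1 (hGa.sub hFa)) j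
    exact this
  have ev1 : ∀ᶠ y in 𝓝 z, nn (F y) (G y) j ≠ 0 := hnaj.continuousAt.eventually_ne hj'
  have hpar : ∀ y, nn (F y) (G y) j ≠ 0 →
      ‖G y - F y‖ / ‖nn (F y) (G y)‖ = ‖(G y - F y) j / nn (F y) (G y) j‖ := by
    intro y hy
    have e1 : G y - F y = ((G y - F y) j / nn (F y) (G y) j) • nn (F y) (G y) := by
      funext i
      have := h.par (F y) (G y) (by rw [h.F.v1, h.G.v1]) (by rw [h.F.v2, h.G.v2]) i j
      rw [Pi.smul_apply, smul_eq_mul, div_mul_eq_mul_div, eq_div_iff hy]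
      exact this
    have hy' : ‖nn (F y) (G y)‖ ≠ 0 := by
      rw [norm_ne_zero_iff]
      intro h0
      exact hy (congrFun h0 j)
    conv_lhs => rw [e1]
    rw [norm_smul, mul_div_assoc, div_self hy', mul_one]
  have hg : (G z - F z) j / nn (F z) (G z) j ≠ 0 := by
    intro h0
    have h1 := hpar z hj'
    rw [h0, norm_zero, div_eq_zero_iff] at h1
    rcases h1 with h1 | h1
    · exact hne (sub_eq_zero.1 (norm_eq_zero.1 h1))
    · exact hnn (norm_eq_zero.1 h1)
  have hga : AnalyticAt ℂ (fun y => (G y - F y) j / nn (F y) (G y) j) z := hdj.div hnaj hj'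
  constructor
  · refine (LS.log hga hg).congr ?_
    filter_upwards [ev1] with y hy
    rw [hpar y hy]
  · filter_upwards [ev1, hga.continuousAt.eventually_ne hg] with y hy hy'
    rw [hpar y hy]
    exact norm_pos_iff.2 hy'

/-- the maximum principle -/
theorem RS.core {K : Set ℂ} (hK : IsCompact K) (hcl : ∀ z ∈ K, ‖G z - F z‖ ≤ ε0 * ‖F z‖)
    {ψ : ℂ → ℝ} (hψ : ContinuousOn ψ K) {M : ℝ} (hM : 0 < M)
    (hb : ∀ z ∈ K, u0 m a b nn F G z * Real.exp (ψ z) ≤ M ∨
      (K ∈ 𝓝 z ∧ LS 0 (fun y => m * (a * y.re + b * |y.re|) + ψ y) z)) :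
    ∀ z ∈ K, u0 m a b nn F G z * Real.exp (ψ z) ≤ M := by
  have hFc := h.F.dif.continuous
  have hGc := h.G.dif.continuous
  have hcn : Continuous fun z => nn (F z) (G z) := by
    rw [continuous_iff_continuousAt]
    intro z
    exact (h.an z F G (h.F.dif.analyticAt z) (h.G.dif.analyticAt z)).continuousAt
  refine LS.max' (u := fun z => u0 m a b nn F G z * Real.exp (ψ z)) hK ?_ hM ?_
  · apply ContinuousOn.mul _ hψ.rexp
    unfold u0
    apply ContinuousOn.mul _ ((cont_W a b).pow m).continuousOn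
    apply ContinuousOn.div (hGc.sub hFc).norm.continuousOn hcn.norm.continuousOn
    intro z hz
    exact (h.nn_pos (hcl z hz)).ne'
  · intro z hz
    rcases hb z hz with h1 | ⟨h1, h2⟩
    · exact Or.inl h1
    · by_cases hne : G z = F z
      · left
        simp only [u0, hne, sub_self, norm_zero, zero_div, zero_mul]
        exact hM.le
      · right
        refine ⟨h1, ?_⟩
        obtain ⟨h3, h4⟩ := h.loc hne (hcl z hz)
        have h5 := h3.add h2
        rw [add_zero] at h5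
        refine h5.congr ?_
        filter_upwards [h4] with y hy
        have hW := W_pos a b y
        unfold u0
        rw [Real.log_mul (mul_pos hy (pow_pos hW m)).ne' (Real.exp_pos _).ne',
          Real.log_mul hy.ne' (pow_pos hW m).ne', Real.log_exp, Real.log_pow]
        unfold W
        rw [Real.log_exp]
        ring

theorem RS.Mp : 0 < 2 * ε0 / (c1 * c ^ m) := by
  have h1 := h.ep
  have h2 := h.c1p
  have h3 := h.cp
  positivity

/-- the bound in the interior -/
theorem RS.center {L : ℝ} (hL : 0 < L) (hcl : ∀ z : ℂ, ‖z‖ ≤ L → ‖G z - F z‖ ≤ ε0 * ‖F z‖) {z : ℂ}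
    (hz : ‖z‖ ≤ L) : u0 m a b nn F G z *
      Real.exp (-(m * b * |z.re|) + m * b * ((L + (z.re ^ 2 - z.im ^ 2) / L) / 2)) ≤
      2 * ε0 / (c1 * c ^ m) := by
  have hb := h.bp
  have e3 : ∀ u : ℂ, ‖u‖ ^ 2 = u.re ^ 2 + u.im ^ 2 := by
    intro u
    rw [← Complex.normSq_eq_norm_sq, Complex.normSq_apply]
    ring
  refine h.core (isCompact_closedBall (0 : ℂ) L) (fun z hz => hcl z (mem_closedBall_zero_iff.1 hz))
    (ψ := fun z => -(m * b * |z.re|) + m * b * ((L + (z.re ^ 2 - z.im ^ 2) / L) / 2))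
    ?_ h.Mp ?_ z (mem_closedBall_zero_iff.2 hz)
  · apply Continuous.continuousOn
    fun_prop
  · intro z hz
    have hz' := mem_closedBall_zero_iff.1 hz
    rcases hz'.lt_or_eq with h1 | h1
    · right
      refine ⟨closedBall_mem_nhds_of_mem (mem_ball_zero_iff.2 h1), ?_⟩
      have h2 : AnalyticAt ℂ (fun y : ℂ => (m * a : ℂ) * y + m * b * ((L + y ^ 2 / L) / 2)) z := by
        fun_prop
      refine (LS.re h2).congr (Eventually.of_forall fun y => ?_)
      have e1 : ((m * a : ℂ) * y + m * b * ((L + y ^ 2 / L) / 2)).re =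
          m * a * y.re + m * b * ((L + (y.re ^ 2 - y.im ^ 2) / L) / 2) := by
        have e2 : ((m * a : ℂ) * y + m * b * ((L + y ^ 2 / L) / 2)) =
          ((m * a : ℝ) : ℂ) * y + ((m * b * (L / 2) : ℝ) : ℂ) + ((m * b / (2 * L) : ℝ) : ℂ) * y ^ 2 := by
          push_cast
          have : (L : ℂ) ≠ 0 := by exact_mod_cast hL.ne'
          field_simp
          ring
        rw [e2]
        simp only [Complex.add_re, Complex.re_ofReal_mul, Complex.ofReal_re]
        have : (y ^ 2).re = y.re ^ 2 - y.im ^ 2 := by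
          rw [pow_two, Complex.mul_re]
          ring
        rw [this]
        field_simp
        ring
      change ((m * a : ℂ) * y + m * b * ((L + y ^ 2 / L) / 2)).re = _
      rw [e1]
      ring
    · left
      have h2 := h.u0_le (hcl z hz')
      have h3 : 0 ≤ u0 m a b nn F G z := by
        unfold u0
        have := W_pos a b z
        positivity
      have h4 : Real.exp (-(m * b * |z.re|) + m * b * ((L + (z.re ^ 2 - z.im ^ 2) / L) / 2)) ≤ 1 := by
        rw [Real.exp_le_one_iff]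
        have h5 : (L + (z.re ^ 2 - z.im ^ 2) / L) / 2 ≤ |z.re| := by
          have h6 := e3 z
          rw [h1] at h6
          have h7 : (L + (z.re ^ 2 - z.im ^ 2) / L) / 2 = z.re ^ 2 / L := by
            field_simp
            linarith
          rw [h7, div_le_iff₀ hL, ← sq_abs, pow_two]
          apply mul_le_mul_of_nonneg_left _ (abs_nonneg _)
          rw [← h1]
          exact Complex.abs_re_le_norm z
        have h8 : (m : ℝ) * b * ((L + (z.re ^ 2 - z.im ^ 2) / L) / 2) ≤ m * b * |z.re| := by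
          gcongr
        linarith
      calc u0 m a b nn F G z * Real.exp _ ≤ u0 m a b nn F G z * 1 := by gcongr
        _ ≤ _ := by rw [mul_one]; exact h2

/-- two curves which are everywhere near to each other are equal -/
theorem RS.eq_of_near (hm : 0 < m) (hcl : ∀ z : ℂ, ‖G z - F z‖ ≤ ε0 * ‖F z‖) (z : ℂ) :
    G z = F z := by
  have hb := h.bp
  have hM := h.Mp
  have hmr : (0 : ℝ) < m := by exact_mod_cast hm
  by_contra hne
  have hu : 0 < u0 m a b nn F G z := by
    unfold u0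
    have h1 := W_pos a b z
    have h2 := h.nn_pos (hcl z)
    have h3 : 0 < ‖G z - F z‖ := norm_pos_iff.2 (sub_ne_zero.2 hne)
    positivity
  -- the bound tends to infinity
  have key : ∀ L : ℝ, ‖z‖ + 1 ≤ L → Real.exp (m * b / 2 * L - m * b * (|z.re| + z.im ^ 2 / 2)) ≤
      2 * ε0 / (c1 * c ^ m) / u0 m a b nn F G z := by
    intro L hL
    have hL0 : 1 ≤ L := by
      have := norm_nonneg z
      linarith
    have h1 := h.center (L := L) (by linarith) (fun w _ => hcl w) (z := z) (by linarith)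
    rw [le_div_iff₀ hu, mul_comm]
    refine le_trans ?_ h1
    apply mul_le_mul_of_nonneg_left _ hu.le
    apply Real.exp_le_exp.2
    have h2 : z.im ^ 2 / L ≤ z.im ^ 2 := div_le_self (by positivity) hL0
    have h3 : 0 ≤ z.re ^ 2 / L := by positivity
    have h4 : (L + (z.re ^ 2 - z.im ^ 2) / L) / 2 ≥ L / 2 - z.im ^ 2 / 2 := by
      rw [sub_div]
      linarith
    have h5 : (m : ℝ) * b * ((L + (z.re ^ 2 - z.im ^ 2) / L) / 2) ≥
        m * b * (L / 2 - z.im ^ 2 / 2) := by
      apply mul_le_mul_of_nonneg_left h4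
      positivity
    linarith
  have ht : Tendsto (fun L : ℝ => Real.exp (m * b / 2 * L - m * b * (|z.re| + z.im ^ 2 / 2)))
      atTop atTop := by
    apply Real.tendsto_exp_atTop.comp
    apply tendsto_atTop_add_const_right
    exact tendsto_id.const_mul_atTop (by positivity)
  obtain ⟨L, hL1, hL2⟩ := ((ht.eventually_gt_atTop
    (2 * ε0 / (c1 * c ^ m) / u0 m a b nn F G z)).and (eventually_ge_atTop (‖z‖ + 1))).exists
  exact absurd (key L hL2) (not_le.2 hL1)

/-- the bound near the boundary -/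
theorem RS.annulus {L : ℝ} (hL : 0 < L) (hcl : ∀ z : ℂ, ‖z‖ ≤ L → ‖G z - F z‖ ≤ ε0 * ‖F z‖) {z : ℂ}
    (hz : ‖z‖ ≤ L) (hz' : L / 4 ≤ ‖z‖) : u0 m a b nn F G z *
      Real.exp (m * b * (7 / 32) / Real.log 4 * L * (Real.log L - Real.log ‖z‖)) ≤
      2 * ε0 / (c1 * c ^ m) := by
  have hb := h.bp
  have hl4 : 0 < Real.log 4 := Real.log_pos (by norm_num)
  set k : ℝ := m * b * (7 / 32) / Real.log 4 * L with hk
  have hk0 : 0 ≤ k := by positivity
  have e3 : ∀ u : ℂ, ‖u‖ ^ 2 = u.re ^ 2 + u.im ^ 2 := by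
    intro u
    rw [← Complex.normSq_eq_norm_sq, Complex.normSq_apply]
    ring
  set K : Set ℂ := closedBall (0 : ℂ) L ∩ {z | L / 4 ≤ ‖z‖} with hK
  have hKc : IsCompact K := (isCompact_closedBall (0 : ℂ) L).inter_right
    (isClosed_le continuous_const continuous_norm)
  have hpos : ∀ z ∈ K, 0 < ‖z‖ := fun z hz => lt_of_lt_of_le (by positivity) hz.2
  have hnn : ∀ z, 0 ≤ u0 m a b nn F G z := by
    intro z
    unfold u0
    have := W_pos a b z
    positivity
  refine h.core hKc (fun z hz => hcl z (mem_closedBall_zero_iff.1 hz.1))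
    (ψ := fun z => k * (Real.log L - Real.log ‖z‖)) ?_ h.Mp ?_ z
    ⟨mem_closedBall_zero_iff.2 hz, hz'⟩
  · apply ContinuousOn.mul continuousOn_const
    apply continuousOn_const.sub
    exact continuous_norm.continuousOn.log fun z hz => (hpos z hz).ne'
  · intro z hz
    have hz1 := mem_closedBall_zero_iff.1 hz.1
    have hz0 := hpos z hz
    rcases hz1.lt_or_eq with h1 | h1
    · have hz2 : L / 4 ≤ ‖z‖ := hz.2
      rcases hz2.lt_or_eq with h2 | h2
      · right
        refine ⟨inter_mem (closedBall_mem_nhds_of_mem (mem_ball_zero_iff.2 h1)) ?_, ?_⟩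
        · filter_upwards [continuous_norm.continuousAt.eventually (lt_mem_nhds h2)] with y hy
          exact hy.le
        · have h3 : LS 0 (fun y : ℂ => k * (-Real.log ‖y‖)) z := by
            have := (LS.neg_log (g := fun y : ℂ => y) analyticAt_id
              (norm_pos_iff.1 hz0)).cmul hk0
            rwa [mul_zero] at this
          have h4 : LS 0 (fun y : ℂ => ((m * a : ℝ) * y : ℂ).re) z := LS.re (by fun_prop)
          have h5 : LS 0 (fun y : ℂ => (m * b) * |y.re|) z := by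
            have := (LS.absRe (z := z)).cmul (c := m * b) (by positivity)
            rwa [mul_zero] at this
          have h6 := ((h3.add h4).add h5).addc (k * Real.log L)
          rw [add_zero, add_zero] at h6
          refine h6.congr (Eventually.of_forall fun y => ?_)
          simp only [Complex.re_ofReal_mul]
          ring
      · -- the inner circle
        left
        have h3 := h.center hL hcl hz1
        refine le_trans ?_ h3
        apply mul_le_mul_of_nonneg_left _ (hnn z)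
        apply Real.exp_le_exp.2
        have h4 : Real.log L - Real.log ‖z‖ = Real.log 4 := by
          rw [← h2, ← Real.log_div hL.ne' (by positivity)]
          congr 1
          field_simp
        rw [h4, hk]
        have h5 : m * b * (7 / 32) / Real.log 4 * L * Real.log 4 = m * b * (7 / 32 * L) := by
          field_simp
        rw [h5]
        have h6 : |z.re| ≤ L / 4 := by
          rw [h2]
          exact Complex.abs_re_le_norm z
        have h7 : z.im ^ 2 ≤ (L / 4) ^ 2 := by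
          rw [h2, e3]
          nlinarith [sq_nonneg z.re]
        have h8 : (z.re ^ 2 - z.im ^ 2) / L ≥ -(L / 16) := by
          rw [ge_iff_le, le_div_iff₀ hL]
          nlinarith [sq_nonneg z.re]
        have h9 : 7 / 32 * L ≤ -|z.re| + (L + (z.re ^ 2 - z.im ^ 2) / L) / 2 := by linarith
        have h10 : m * b * (7 / 32 * L) ≤
            m * b * (-|z.re| + (L + (z.re ^ 2 - z.im ^ 2) / L) / 2) := by gcongr
        linarith
    · left
      have h2 : Real.log L - Real.log ‖z‖ = 0 := by rw [h1, sub_self]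
      simp only [h2, mul_zero, Real.exp_zero, mul_one]
      exact h.u0_le (hcl z hz1)

end Pool.Agent.H915
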