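import Pool.Agent.H915.TC.Rig

/-!
Rigidity: the first point where two curves are not near to each other.
-/

set_option autoImplicit false

open Filter Topology Metric Set MvPolynomial

namespace Pool.Agent.H915

theorem lip {f : ℂ → V} {z0 : ℂ} {r B : ℝ} (hd : DifferentiableOn ℂ f (ball z0 r))
    (hB : ∀ z ∈ ball z0 r, ‖f z‖ ≤ B) {z : ℂ} (hz : z ∈ ball z0 r) :
    ‖f z - f z0‖ ≤ 2 * B / r * ‖z - z0‖ := by
  have hr : 0 < r := pos_of_mem_ball hz
  have h1 := Complex.dist_le_div_mul_dist_of_mapsTo_ball (R₂ := 2 * B) hd (fun w hw => by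
    rw [mem_closedBall, dist_eq_norm]
    have h2 := norm_sub_le (f w) (f z0)
    have h3 := hB w hw
    have h4 := hB z0 (mem_ball_self hr)
    linarith) hz
  rwa [dist_eq_norm, dist_eq_norm] at h1

variable {P1 P2 : Poly} {e m : ℕ} {c1 c C a b ε0 C0 : ℝ} {F G : ℂ → V} {nn : V → V → V}

variable (h : RS P1 P2 m c1 c C a b ε0 C0 nn F G)

include h

theorem RS.cC : c ≤ C := by
  have h1 := (h.F.low 0).trans (h.F.up 0)
  exact le_of_mul_le_mul_right h1 (W_pos a b 0)

omit h in
theorem u0_nn (z : ℂ) : 0 ≤ u0 m a b nn F G z := by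
  unfold u0
  have := W_pos a b z
  positivity

/-- the first case: points far from the axis -/
theorem RS.caseB {X0 L : ℝ} (hX0 : 0 < X0)
    (hX : 2 * ε0 / (c1 * c ^ m) < ε0 * c / (2 * C) / (C0 * C ^ m) *
      Real.exp (m * b * (7 / 32) / Real.log 4 * (ε0 * c / (16 * C) * X0)))
    (hcl : ∀ z : ℂ, ‖z‖ ≤ L → ‖G z - F z‖ ≤ ε0 * ‖F z‖) {z1 : ℂ} (hz1 : ‖z1‖ = L)
    (hd : ε0 * ‖F z1‖ ≤ ‖G z1 - F z1‖) : |z1.re| < X0 := by
  by_contra hcon
  push Not at hcon
  have hC := h.Cp
  have hc := h.cp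
  have hC0 := h.C0p
  have hε := h.ep
  have hb := h.bp
  have hcC := h.cC
  have hl4 : 0 < Real.log 4 := Real.log_pos (by norm_num)
  have hx1 : 0 < |z1.re| := hX0.trans_le hcon
  have hxL : |z1.re| ≤ L := hz1 ▸ Complex.abs_re_le_norm z1
  have hL : 0 < L := hx1.trans_le hxL
  set q : ℝ := ε0 * c / (16 * C) with hq
  have hq0 : 0 < q := by positivity
  have hq1 : q ≤ 1 / 16 := by
    rw [hq, div_le_div_iff₀ (by positivity) (by norm_num)]
    have := h.e1
    nlinarith
  set t : ℝ := q * |z1.re| with ht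
  have ht0 : 0 < t := by positivity
  have htx : t < |z1.re| / 2 := by
    rw [ht]
    nlinarith
  have htL : t / L ≤ 1 / 16 := by
    rw [div_le_iff₀ hL, ht]
    nlinarith
  set z : ℂ := ((1 - t / L : ℝ) : ℂ) * z1 with hz
  have htL0 : 0 < 1 - t / L := by linarith
  have hzn : ‖z‖ = L - t := by
    rw [hz, norm_mul, Complex.norm_real, Real.norm_of_nonneg htL0.le, hz1]
    field_simp
  have hzz : ‖z - z1‖ = t := by
    have e1 : z - z1 = ((-(t / L) : ℝ) : ℂ) * z1 := by
      rw [hz]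
      push_cast
      ring
    rw [e1, norm_mul, Complex.norm_real, Real.norm_eq_abs, abs_neg, abs_of_pos (by positivity), hz1]
    field_simp
  have hzb : z ∈ ball z1 (|z1.re| / 2) := by
    rw [mem_ball, dist_eq_norm, hzz]
    exact htx
  -- the sign
  set s : ℝ := if 0 ≤ z1.re then 1 else -1 with hs
  have hsx : s * z1.re = |z1.re| := by
    rw [hs]
    split_ifs with h0
    · rw [abs_of_nonneg h0, one_mul]
    · push Not at h0
      rw [abs_of_neg h0]
      ring
  have hs2 : s = 1 ∨ s = -1 := by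
    rw [hs]
    split_ifs
    · exact Or.inl rfl
    · exact Or.inr rfl
  have hsb : ∀ w ∈ ball z1 (|z1.re| / 2), |w.re| = s * w.re := by
    intro w hw
    rw [mem_ball, dist_eq_norm] at hw
    have h1 := (Complex.abs_re_le_norm (w - z1)).trans_lt hw
    rw [Complex.sub_re] at h1
    have h2 : 0 < s * w.re := by
      rcases hs2 with h3 | h3
      · rw [h3] at hsx ⊢
        have := (abs_lt.1 h1).1
        linarith
      · rw [h3] at hsx ⊢
        have := (abs_lt.1 h1).2
        linarith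
    rcases hs2 with h3 | h3
    · rw [h3] at h2 ⊢
      rw [abs_of_pos (by linarith)]
      ring
    · rw [h3] at h2 ⊢
      rw [abs_of_neg (by linarith)]
      ring
  have hW : ∀ w ∈ ball z1 (|z1.re| / 2), ‖Complex.exp (-((a + b * s : ℝ) * w))‖ =
      (W a b w)⁻¹ := by
    intro w hw
    rw [Complex.norm_exp, Complex.neg_re, Complex.re_ofReal_mul, Real.exp_neg]
    unfold W
    rw [hsb w hw]
    congr 2
    ring
  have key : ∀ H : ℂ → V, Crv P1 P2 (m + 1) c1 c C a b H →
      (∀ w ∈ ball z1 (|z1.re| / 2), c ≤ ‖Complex.exp (-((a + b * s : ℝ) * w)) • H w‖ ∧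
        ‖Complex.exp (-((a + b * s : ℝ) * w)) • H w‖ ≤ C) ∧
      ‖Complex.exp (-((a + b * s : ℝ) * z)) • H z - Complex.exp (-((a + b * s : ℝ) * z1)) • H z1‖
        ≤ 4 * C * q := by
    intro H hH
    have h1 : ∀ w ∈ ball z1 (|z1.re| / 2), c ≤ ‖Complex.exp (-((a + b * s : ℝ) * w)) • H w‖ ∧
        ‖Complex.exp (-((a + b * s : ℝ) * w)) • H w‖ ≤ C := by
      intro w hw
      have hWp := W_pos a b w
      rw [norm_smul, hW w hw, inv_mul_eq_div, le_div_iff₀ hWp, div_le_iff₀ hWp]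
      exact ⟨hH.low w, hH.up w⟩
    refine ⟨h1, ?_⟩
    have h2 := lip (f := fun w => Complex.exp (-((a + b * s : ℝ) * w)) • H w) (z0 := z1)
      (r := |z1.re| / 2) (B := C)
      ((show Differentiable ℂ fun w : ℂ => Complex.exp (-((a + b * s : ℝ) * w)) by fun_prop).smul
        hH.dif).differentiableOn (fun w hw => (h1 w hw).2) hzb
    refine h2.trans (le_of_eq ?_)
    rw [hzz, ht]
    field_simp
    ring
  obtain ⟨hF1, hF2⟩ := key F h.F
  obtain ⟨hG1, hG2⟩ := key G h.G
  set E : ℂ → ℂ := fun w => Complex.exp (-((a + b * s : ℝ) * w)) with hE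
  have hz1b : z1 ∈ ball z1 (|z1.re| / 2) := mem_ball_self (by positivity)
  have h3 : ε0 * c ≤ ‖E z1 • G z1 - E z1 • F z1‖ := by
    rw [← smul_sub, norm_smul]
    have h4 := (hF1 z1 hz1b).1
    rw [norm_smul] at h4
    calc ε0 * c ≤ ε0 * (‖E z1‖ * ‖F z1‖) := by gcongr
      _ = ‖E z1‖ * (ε0 * ‖F z1‖) := by ring
      _ ≤ _ := by gcongr
  have h4 : ε0 * c / 2 ≤ ‖E z • G z - E z • F z‖ := by
    have e1 : E z1 • G z1 - E z1 • F z1 = (E z • G z - E z • F z) -
      (E z • G z - E z1 • G z1) + (E z • F z - E z1 • F z1) := by abel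
    have h5 := norm_add_le (E z • G z - E z • F z - (E z • G z - E z1 • G z1))
      (E z • F z - E z1 • F z1)
    have h6 := norm_sub_le (E z • G z - E z • F z) (E z • G z - E z1 • G z1)
    rw [← e1] at h5
    have h7 : 4 * C * q + 4 * C * q = ε0 * c / 2 := by
      rw [hq]
      field_simp
      norm_num
    linarith
  have hzL : ‖z‖ ≤ L := by
    rw [hzn]
    linarith
  have h5 : ε0 * c / (2 * C) ≤ ‖G z - F z‖ / ‖F z‖ := by
    have hEz : 0 < ‖E z‖ := norm_pos_iff.2 (Complex.exp_ne_zero _)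
    have hFz := h.Fpos z
    have h6 := (hF1 z hzb).2
    rw [norm_smul] at h6
    rw [← smul_sub, norm_smul] at h4
    have h7 : ‖G z - F z‖ / ‖F z‖ = (‖E z‖ * ‖G z - F z‖) / (‖E z‖ * ‖F z‖) := by
      rw [mul_div_mul_left _ _ hEz.ne']
    rw [h7, le_div_iff₀ (by positivity)]
    calc ε0 * c / (2 * C) * (‖E z‖ * ‖F z‖) ≤ ε0 * c / (2 * C) * C := by gcongr
      _ = ε0 * c / 2 := by field_simp
      _ ≤ _ := h4
  have h6 := h.le_u0 (hcl z hzL)
  have h7 : ε0 * c / (2 * C) / (C0 * C ^ m) ≤ u0 m a b nn F G z := by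
    refine le_trans ?_ h6
    gcongr
  have h8 := h.annulus hL hcl hzL (by rw [hzn]; rw [div_le_iff₀ hL] at htL; linarith)
  have h9 : t ≤ L * (Real.log L - Real.log ‖z‖) := by
    rw [hzn]
    have e1 : Real.log L - Real.log (L - t) = -Real.log (1 - t / L) := by
      have e2 : L - t = L * (1 - t / L) := by field_simp
      rw [e2, Real.log_mul hL.ne' htL0.ne']
      ring
    rw [e1]
    have h10 := Real.log_le_sub_one_of_pos htL0
    have h11 : t / L ≤ -Real.log (1 - t / L) := by linarith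
    calc t = L * (t / L) := by field_simp
      _ ≤ _ := by gcongr
  have h10 : Real.exp (m * b * (7 / 32) / Real.log 4 * (q * X0)) ≤
      Real.exp (m * b * (7 / 32) / Real.log 4 * L * (Real.log L - Real.log ‖z‖)) := by
    apply Real.exp_le_exp.2
    rw [mul_assoc _ L]
    apply mul_le_mul_of_nonneg_left _ (by positivity)
    refine le_trans ?_ h9
    rw [ht]
    gcongr
  have h11 : ε0 * c / (2 * C) / (C0 * C ^ m) *
      Real.exp (m * b * (7 / 32) / Real.log 4 * (q * X0)) ≤ 2 * ε0 / (c1 * c ^ m) := by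
    refine le_trans ?_ h8
    have : 0 ≤ ε0 * c / (2 * C) / (C0 * C ^ m) := by positivity
    have h12 := u0_nn (m := m) (a := a) (b := b) (nn := nn) (F := F) (G := G) z
    gcongr
  linarith

end Pool.Agent.H915
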